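import Mathlib
set_option autoImplicit false
open scoped Classical
open Finset

namespace DisjCyc

variable {V : Type}

/-- number of edges of `G` with both ends in `W` -/
noncomputable def ec (G : SimpleGraph V) (W : Finset V) : ℕ :=
  (W.sym2.filter (fun e => e ∈ G.edgeSet)).card

/-- number of neighbours of `v` in `W` -/
noncomputable def dg (G : SimpleGraph V) (W : Finset V) (v : V) : ℕ :=
  (W.filter (fun w => G.Adj v w)).card

/-- cyclic set -/
def Cyc (G : SimpleGraph V) (W : Finset V) : Prop := W.Nonempty ∧ W.card ≤ ec G W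

/-- acyclic graph, in terms of edge counts -/
def Acy (F : SimpleGraph V) : Prop := ∀ W : Finset V, W.Nonempty → ec F W < W.card

/-- tree set -/
def Tr (F : SimpleGraph V) (T : Finset V) : Prop := T.Nonempty ∧ ec F T + 1 = T.card

theorem ec_mono {G : SimpleGraph V} {A B : Finset V} (h : A ⊆ B) : ec G A ≤ ec G B := by
  unfold ec
  apply card_le_card
  intro e he
  simp only [mem_filter, mem_sym2_iff] at he ⊢
  exact ⟨fun a ha => h (he.1 a ha), he.2⟩

theorem ec_mono_graph {F G : SimpleGraph V} (h : F ≤ G) (W : Finset V) : ec F W ≤ ec G W := by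
  unfold ec
  apply card_le_card
  intro e he
  simp only [mem_filter] at he ⊢
  exact ⟨he.1, SimpleGraph.edgeSet_mono h he.2⟩

theorem ec_empty (G : SimpleGraph V) : ec G ∅ = 0 := by
  simp [ec]

theorem ec_union_inter (G : SimpleGraph V) (A B : Finset V) :
    ec G A + ec G B ≤ ec G (A ∪ B) + ec G (A ∩ B) := by
  unfold ec
  rw [← card_union_add_card_inter]
  apply Nat.add_le_add
  · apply card_le_card
    intro e he
    simp only [mem_union, mem_filter, mem_sym2_iff] at he ⊢
    rcases he with he | he
    · exact ⟨fun a ha => Or.inl (he.1 a ha), he.2⟩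
    · exact ⟨fun a ha => Or.inr (he.1 a ha), he.2⟩
  · apply card_le_card
    intro e he
    simp only [mem_inter, mem_filter, mem_sym2_iff] at he ⊢
    exact ⟨fun a ha => ⟨he.1.1 a ha, he.2.1 a ha⟩, he.1.2⟩

theorem ec_insert (G : SimpleGraph V) {W : Finset V} {v : V} (hv : v ∉ W) :
    ec G (insert v W) = ec G W + dg G W v := by
  unfold ec dg
  have h : (insert v W).sym2.filter (fun e => e ∈ G.edgeSet)
      = (W.sym2.filter (fun e => e ∈ G.edgeSet)) ∪
        ((W.filter (fun w => G.Adj v w)).image (fun w => s(v, w))) := by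
    ext e
    induction e using Sym2.ind with
    | _ a b =>
      simp only [mem_filter, mem_union, mem_image, SimpleGraph.mem_edgeSet, mk_mem_sym2_iff, mem_insert]
      constructor
      · rintro ⟨⟨ha, hb⟩, hab⟩
        rcases ha with rfl | ha
        · rcases hb with rfl | hb
          · exact absurd hab (G.loopless.irrefl _)
          · exact Or.inr ⟨b, ⟨hb, hab⟩, rfl⟩
        · rcases hb with rfl | hb
          · exact Or.inr ⟨a, ⟨ha, hab.symm⟩, Sym2.eq_swap⟩
          · exact Or.inl ⟨⟨ha, hb⟩, hab⟩
      · rintro (⟨⟨ha, hb⟩, hab⟩ | ⟨w, ⟨hw, hvw⟩, he⟩)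
        · exact ⟨⟨Or.inr ha, Or.inr hb⟩, hab⟩
        · rcases Sym2.eq_iff.1 he with ⟨rfl, rfl⟩ | ⟨rfl, rfl⟩
          · exact ⟨⟨Or.inl rfl, Or.inr hw⟩, hvw⟩
          · exact ⟨⟨Or.inr hw, Or.inl rfl⟩, hvw.symm⟩
  rw [h, card_union_of_disjoint, card_image_of_injective]
  · intro a b hab
    have := Sym2.eq_iff.1 hab
    rcases this with ⟨_, h⟩ | ⟨h1, h2⟩
    · exact h
    · rw [← h1, h2]
  · rw [Finset.disjoint_left]
    intro e he he'
    simp only [mem_filter, mem_image, mem_sym2_iff] at he he'
    obtain ⟨w, _, rfl⟩ := he'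
    exact hv (he.1 v (by simp))

theorem ec_singleton (G : SimpleGraph V) (v : V) : ec G {v} = 0 := by
  have := ec_insert G (W := ∅) (v := v) (by simp)
  simpa [ec_empty, dg] using this

theorem dg_union_disj (G : SimpleGraph V) {A B : Finset V} (h : Disjoint A B) (v : V) :
    dg G (A ∪ B) v = dg G A v + dg G B v := by
  unfold dg
  rw [filter_union, card_union_of_disjoint]
  exact disjoint_filter_filter h

theorem dg_mono {G : SimpleGraph V} {A B : Finset V} (h : A ⊆ B) (v : V) : dg G A v ≤ dg G B v := by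
  unfold dg
  exact card_le_card (filter_subset_filter _ h)

theorem dg_insert_le (G : SimpleGraph V) (W : Finset V) (u v : V) :
    dg G (insert u W) v ≤ dg G W v + 1 := by
  unfold dg
  rw [filter_insert]
  split_ifs
  · exact card_insert_le _ _
  · omega

theorem ec_union_disj (G : SimpleGraph V) {A B : Finset V} (h : Disjoint A B) :
    ec G (A ∪ B) = ec G A + ec G B + ∑ a ∈ A, dg G B a := by
  induction A using Finset.induction_on with
  | empty => simp [ec_empty]
  | insert a A ha ih =>
    rw [disjoint_insert_left] at h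
    have ih := ih h.2
    have hna : a ∉ A ∪ B := by
      simp [ha, h.1]
    rw [insert_union, ec_insert G hna, ec_insert G ha, ih, sum_insert ha, dg_union_disj G h.2]
    ring

theorem ec_erase (G : SimpleGraph V) {W : Finset V} {v : V} (hv : v ∈ W) :
    ec G W = ec G (W.erase v) + dg G (W.erase v) v := by
  have := ec_insert G (W := W.erase v) (v := v) (by simp)
  rwa [insert_erase hv] at this

theorem dg_erase (G : SimpleGraph V) (W : Finset V) (v : V) : dg G (W.erase v) v = dg G W v := by
  unfold dg
  congr 1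
  ext w
  simp only [mem_filter, mem_erase]
  constructor
  · rintro ⟨⟨_, h⟩, h'⟩; exact ⟨h, h'⟩
  · rintro ⟨h, h'⟩; exact ⟨⟨fun e => (G.loopless.irrefl v) (by rwa [e] at h'), h⟩, h'⟩

theorem handshake (G : SimpleGraph V) (W : Finset V) : ∑ v ∈ W, dg G W v = 2 * ec G W := by
  induction W using Finset.induction_on with
  | empty => simp [ec_empty]
  | insert a W ha ih =>
    have h1 : ∑ v ∈ W, dg G (insert a W) v = ∑ v ∈ W, dg G W v + dg G W a := by
      have : ∀ v ∈ W, dg G (insert a W) v = dg G W v + (if G.Adj a v then 1 else 0) := by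
        intro v hv
        unfold dg
        rw [filter_insert]
        by_cases h : G.Adj v a
        · rw [if_pos h, if_pos h.symm, card_insert_of_notMem (by simp [ha])]
        · rw [if_neg h, if_neg (fun h' => h h'.symm)]; simp
      rw [sum_congr rfl this, sum_add_distrib]
      congr 1
      unfold dg
      rw [card_filter]
    have h2 : dg G (insert a W) a = dg G W a := by
      have := dg_erase G (insert a W) a
      rw [erase_insert ha] at this
      exact this.symm
    rw [sum_insert ha, h1, ih, h2, ec_insert G ha]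
    ring

theorem Tr.nonempty {F : SimpleGraph V} {T : Finset V} (h : Tr F T) : T.Nonempty := h.1

theorem Tr_singleton (F : SimpleGraph V) (v : V) : Tr F {v} := by
  refine ⟨by simp, by simp [ec_singleton]⟩

theorem Tr_of_le {F : SimpleGraph V} (hF : Acy F) {T : Finset V} (hT : T.Nonempty)
    (h : T.card ≤ ec F T + 1) : Tr F T := ⟨hT, by have := hF T hT; omega⟩

theorem Tr_union {F : SimpleGraph V} (hF : Acy F) {A B : Finset V} (hA : Tr F A) (hB : Tr F B)
    (h : (A ∩ B).Nonempty) : Tr F (A ∪ B) := by
  apply Tr_of_le hF (hA.1.mono subset_union_left)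
  have h1 := ec_union_inter F A B
  have h2 := hF _ h
  have h3 := card_union_add_card_inter A B
  have h4 := hA.2
  have h5 := hB.2
  omega

theorem dg_pos_iff {G : SimpleGraph V} {W : Finset V} {v : V} : 0 < dg G W v ↔ ∃ w ∈ W, G.Adj v w := by
  unfold dg
  rw [card_pos]
  constructor
  · rintro ⟨w, hw⟩; simp only [mem_filter] at hw; exact ⟨w, hw.1, hw.2⟩
  · rintro ⟨w, hw, h⟩; exact ⟨w, by simp [hw, h]⟩

theorem Tr_insert {F : SimpleGraph V} (hF : Acy F) {A : Finset V} (hA : Tr F A) {a b : V}
    (ha : a ∈ A) (hab : F.Adj a b) : Tr F (insert b A) := by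
  by_cases hb : b ∈ A
  · rwa [insert_eq_of_mem hb]
  · apply Tr_of_le hF (by simp)
    rw [ec_insert F hb, card_insert_of_notMem hb]
    have := hA.2
    have h2 : 0 < dg F A b := dg_pos_iff.2 ⟨a, ha, hab.symm⟩
    omega

theorem Tr_union_adj {F : SimpleGraph V} (hF : Acy F) {A B : Finset V} (hA : Tr F A) (hB : Tr F B)
    {a b : V} (ha : a ∈ A) (hb : b ∈ B) (hab : F.Adj a b) : Tr F (A ∪ B) := by
  have h1 := Tr_insert hF hA ha hab
  have h2 := Tr_union hF h1 hB ⟨b, by simp [hb]⟩
  rwa [insert_union, insert_eq_of_mem (by simp [hb])] at h2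

end DisjCyc
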