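import Pool.Agent.Helper470.DC.Base
set_option autoImplicit false
open scoped Classical
open Finset

namespace DisjCyc

variable {V : Type}

/-- `k` pairwise disjoint cyclic sets inside `S` -/
def KCyc (G : SimpleGraph V) (S : Finset V) (k : ℕ) : Prop :=
  ∃ 𝒲 : Finset (Finset V), 𝒲.card = k ∧ (∀ W ∈ 𝒲, W ⊆ S ∧ Cyc G W) ∧
    (∀ W ∈ 𝒲, ∀ W' ∈ 𝒲, W ≠ W' → Disjoint W W')

/-- the component of `v` in `F[S]`: union of all tree subsets of `S` containing `v` -/
noncomputable def comp (F : SimpleGraph V) (S : Finset V) (v : V) : Finset V :=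
  (S.powerset.filter (fun T => Tr F T ∧ v ∈ T)).biUnion id

theorem comp_subset (F : SimpleGraph V) (S : Finset V) (v : V) : comp F S v ⊆ S := by
  intro x hx
  simp only [comp, mem_biUnion, mem_filter, mem_powerset, id] at hx
  obtain ⟨T, ⟨hT, _⟩, hx⟩ := hx
  exact hT hx

theorem mem_comp_self (F : SimpleGraph V) {S : Finset V} {v : V} (hv : v ∈ S) : v ∈ comp F S v := by
  simp only [comp, mem_biUnion, mem_filter, mem_powerset, id]
  exact ⟨{v}, ⟨by simpa using hv, Tr_singleton F v, by simp⟩, by simp⟩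

theorem subset_comp {F : SimpleGraph V} {S T : Finset V} {v : V} (hT : T ⊆ S) (hTr : Tr F T)
    (hv : v ∈ T) : T ⊆ comp F S v := by
  intro x hx
  simp only [comp, mem_biUnion, mem_filter, mem_powerset, id]
  exact ⟨T, ⟨hT, hTr, hv⟩, hx⟩

theorem Tr_comp {F : SimpleGraph V} (hF : Acy F) {S : Finset V} {v : V} (hv : v ∈ S) :
    Tr F (comp F S v) := by
  unfold comp
  have key : ∀ 𝒯 : Finset (Finset V), (∀ T ∈ 𝒯, Tr F T ∧ v ∈ T) → 𝒯.Nonempty → Tr F (𝒯.biUnion id) ∧
      v ∈ 𝒯.biUnion id := by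
    intro 𝒯
    induction 𝒯 using Finset.induction_on with
    | empty => intro _ h; simp at h
    | insert T 𝒯 hT ih =>
      intro h _
      rcases 𝒯.eq_empty_or_nonempty with rfl | hne
      · have := h T (by simp)
        simpa using this
      · have h1 := ih (fun T' hT' => h T' (by simp [hT'])) hne
        have h2 := h T (by simp)
        rw [biUnion_insert]
        exact ⟨Tr_union hF h2.1 h1.1 ⟨v, mem_inter.2 ⟨h2.2, h1.2⟩⟩, mem_union_left _ h2.2⟩
  refine (key _ ?_ ?_).1
  · intro T hT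
    simp only [mem_filter, mem_powerset] at hT
    exact hT.2
  · exact ⟨{v}, by simp only [mem_filter, mem_powerset]; exact ⟨by simpa using hv, Tr_singleton F v, by simp⟩⟩

theorem comp_eq_of_mem {F : SimpleGraph V} (hF : Acy F) {S : Finset V} {u v : V} (hv : v ∈ S)
    (h : u ∈ comp F S v) : comp F S u = comp F S v := by
  have hu : u ∈ S := comp_subset F S v h
  apply Subset.antisymm
  · have h1 : Tr F (comp F S u ∪ comp F S v) :=
      Tr_union hF (Tr_comp hF hu) (Tr_comp hF hv) ⟨u, mem_inter.2 ⟨mem_comp_self F hu, h⟩⟩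
    have h2 := subset_comp (S := S) (v := v) (union_subset (comp_subset F S u) (comp_subset F S v)) h1
      (mem_union_right _ (mem_comp_self F hv))
    exact subset_union_left.trans h2
  · exact subset_comp (comp_subset F S v) (Tr_comp hF hv) h

theorem comp_disjoint {F : SimpleGraph V} (hF : Acy F) {S : Finset V} {u v : V} (hu : u ∈ S) (hv : v ∈ S)
    (h : comp F S u ≠ comp F S v) : Disjoint (comp F S u) (comp F S v) := by
  rw [Finset.disjoint_left]
  intro x hx hx'
  exact h ((comp_eq_of_mem hF hu hx).symm.trans (comp_eq_of_mem hF hv hx'))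

theorem comp_adj {F : SimpleGraph V} (hF : Acy F) {S : Finset V} {u v w : V} (hv : v ∈ S)
    (hu : u ∈ comp F S v) (hw : w ∈ S) (h : F.Adj u w) : w ∈ comp F S v := by
  have h1 := Tr_insert hF (Tr_comp hF hv) hu h
  have h2 := subset_comp (S := S) (v := v) (insert_subset hw (comp_subset F S v)) h1
    (mem_insert_of_mem (mem_comp_self F hv))
  exact h2 (mem_insert_self _ _)

/-- the set of components of `F[S]` -/
noncomputable def comps (F : SimpleGraph V) (S : Finset V) : Finset (Finset V) := S.image (comp F S)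

theorem mem_comps {F : SimpleGraph V} {S T : Finset V} : T ∈ comps F S ↔ ∃ v ∈ S, comp F S v = T := by
  simp [comps]

theorem comps_Tr {F : SimpleGraph V} (hF : Acy F) {S T : Finset V} (hT : T ∈ comps F S) : Tr F T := by
  obtain ⟨v, hv, rfl⟩ := mem_comps.1 hT
  exact Tr_comp hF hv

theorem comps_subset {F : SimpleGraph V} {S T : Finset V} (hT : T ∈ comps F S) : T ⊆ S := by
  obtain ⟨v, hv, rfl⟩ := mem_comps.1 hT
  exact comp_subset F S v

theorem comps_disjoint {F : SimpleGraph V} (hF : Acy F) {S T T' : Finset V} (hT : T ∈ comps F S)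
    (hT' : T' ∈ comps F S) (h : T ≠ T') : Disjoint T T' := by
  obtain ⟨v, hv, rfl⟩ := mem_comps.1 hT
  obtain ⟨w, hw, rfl⟩ := mem_comps.1 hT'
  exact comp_disjoint hF hv hw h

theorem comps_eq_comp {F : SimpleGraph V} (hF : Acy F) {S T : Finset V} (hT : T ∈ comps F S) {v : V}
    (hv : v ∈ T) : T = comp F S v := by
  obtain ⟨w, hw, rfl⟩ := mem_comps.1 hT
  exact (comp_eq_of_mem hF hw hv).symm

theorem comps_adj {F : SimpleGraph V} (hF : Acy F) {S T : Finset V} (hT : T ∈ comps F S) {u w : V}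
    (hu : u ∈ T) (hw : w ∈ S) (h : F.Adj u w) : w ∈ T := by
  obtain ⟨v, hv, rfl⟩ := mem_comps.1 hT
  exact comp_adj hF hv hu hw h

theorem comps_biUnion {F : SimpleGraph V} {S : Finset V} : (comps F S).biUnion id = S := by
  ext x
  simp only [mem_biUnion, id]
  constructor
  · rintro ⟨T, hT, hx⟩; exact comps_subset hT hx
  · intro hx; exact ⟨comp F S x, mem_comps.2 ⟨x, hx, rfl⟩, mem_comp_self F hx⟩

theorem comps_card_sum {F : SimpleGraph V} (hF : Acy F) (S : Finset V) :
    ∑ T ∈ comps F S, T.card = S.card := by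
  conv_rhs => rw [← comps_biUnion (F := F) (S := S)]
  rw [card_biUnion]
  · rfl
  · intro T hT T' hT' h
    exact comps_disjoint hF hT hT' h

end DisjCyc
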