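import Pool.Agent.Helper470.DC.Ctx
set_option autoImplicit false
open scoped Classical
open Finset

namespace DisjCyc

variable {V : Type}

namespace Ctx

variable {G F : SimpleGraph V} {U S Z : Finset V} {d k s' : ℕ}

noncomputable def Aall (G : SimpleGraph V) (U S : Finset V) : Finset (V × V) :=
  (S ×ˢ U).filter (fun a => G.Adj a.1 a.2)

def near (F : SimpleGraph V) (S Z : Finset V) (d : ℕ) (p : V) : Prop :=
  ∃ z, z ∈ Z ∧ ∃ R, R ⊆ S ∧ Tr F R ∧ p ∈ R ∧ z ∈ R ∧ R.card ≤ 2 * d + 1

def bad (G F : SimpleGraph V) (U S : Finset V) (d : ℕ) (a : V × V) : Prop :=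
  ∃ j, j ∈ U ∧ j ≠ a.2 ∧ ∃ q, q ∈ S ∧ G.Adj q j ∧ ∃ R, R ⊆ S ∧ Tr F R ∧ a.1 ∈ R ∧ q ∈ R ∧ R.card ≤ 2 * d

def rare1 (G F : SimpleGraph V) (U S Z : Finset V) (k : ℕ) (a : V × V) : Prop :=
  a.2 ∉ Xs G F U S Z k ∧ 2 ≤ dg G (comp F (S \ Z) a.1) a.2

def rare2 (G F : SimpleGraph V) (U S Z : Finset V) (k : ℕ) (a : V × V) : Prop :=
  a.2 ∉ Xs G F U S Z k ∧ ∃ j, j ∈ U ∧ j ∉ Xs G F U S Z k ∧ j ≠ a.2 ∧ 1 ≤ dg G (comp F (S \ Z) a.1) j ∧
    ¬ fr G F S Z k a.2 j

noncomputable def A (G F : SimpleGraph V) (U S Z : Finset V) (d k : ℕ) : Finset (V × V) :=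
  (Aall G U S).filter (fun a => ¬ near F S Z d a.1 ∧ ¬ bad G F U S d a ∧ ¬ rare1 G F U S Z k a ∧
    ¬ rare2 G F U S Z k a)

theorem mem_Aall {a : V × V} : a ∈ Aall G U S ↔ a.1 ∈ S ∧ a.2 ∈ U ∧ G.Adj a.1 a.2 := by
  simp [Aall, and_assoc]

theorem notU (c : Ctx G F U S Z d k s') {R : Finset V} (hR : R ⊆ S) {i : V} (hi : i ∈ U) : i ∉ R :=
  fun h => Finset.disjoint_left.1 c.hSU (hR h) hi

theorem card_near (c : Ctx G F U S Z d k s') :
    ((Aall G U S).filter (fun a => near F S Z d a.1)).card ≤ Z.card * U.card := by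
  rw [← card_product]
  apply card_le_card_of_injOn (fun a => ((if h : near F S Z d a.1 then h.choose else a.1), a.2))
  · intro a ha
    rw [mem_coe, mem_filter, mem_Aall] at ha
    simp only [dif_pos ha.2, mem_coe, mem_product]
    exact ⟨ha.2.choose_spec.1, ha.1.2.1⟩
  · intro a ha b hb hab
    rw [mem_coe, mem_filter, mem_Aall] at ha hb
    simp only [dif_pos ha.2, dif_pos hb.2, Prod.mk.injEq] at hab
    obtain ⟨_, R, hR, hRT, hp, hz, hc⟩ := ha.2.choose_spec
    obtain ⟨_, R', hR', hRT', hp', hz', hc'⟩ := hb.2.choose_spec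
    rw [← hab.1] at hz'
    have h2 : G.Adj b.1 a.2 := by rw [hab.2]; exact hb.1.2.2
    have := c.near_unique hRT hRT' (c.notU hR ha.1.2.1) (c.notU hR' ha.1.2.1) hp hp' hz hz' ha.1.2.2 h2 hc hc'
    exact Prod.ext this hab.2

theorem card_bad (c : Ctx G F U S Z d k s') :
    ((Aall G U S).filter (fun a => bad G F U S d a)).card ≤ U.card * U.card := by
  rw [← card_product]
  apply card_le_card_of_injOn (fun a => (a.2, (if h : bad G F U S d a then h.choose else a.1)))
  · intro a ha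
    rw [mem_coe, mem_filter, mem_Aall] at ha
    simp only [dif_pos ha.2, mem_coe, mem_product]
    exact ⟨ha.1.2.1, ha.2.choose_spec.1⟩
  · intro a ha b hb hab
    rw [mem_coe, mem_filter, mem_Aall] at ha hb
    simp only [dif_pos ha.2, dif_pos hb.2, Prod.mk.injEq] at hab
    obtain ⟨hj, hji, q, hq, hqj, R, hR, hRT, hp, hqR, hc⟩ := ha.2.choose_spec
    obtain ⟨hj', hji', q', hq', hqj', R', hR', hRT', hp', hqR', hc'⟩ := hb.2.choose_spec
    rw [← hab.2] at hqj'
    have h3 : G.Adj b.1 a.2 := by rw [hab.1]; exact hb.1.2.2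
    have := c.bad_unique hRT hRT' (i := a.2) (p := a.1) (p' := b.1) (Ne.symm hji)
      (c.notU hR ha.1.2.1) (c.notU hR' ha.1.2.1) (c.notU hR hj) (c.notU hR' hj) hp hqR hp' hqR'
      ha.1.2.2 hqj h3 hqj' hc hc'
    exact Prod.ext this hab.1

theorem not_near_Z {p : V} (hp : p ∈ S) (h : ¬ near F S Z d p) : p ∈ S \ Z := by
  rw [mem_sdiff]
  refine ⟨hp, fun hz => h ⟨p, hz, {p}, by simpa using hp, Tr_singleton F p, by simp, by simp, by simp⟩⟩

theorem card_rare1 (c : Ctx G F U S Z d k s') :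
    ((Aall G U S).filter (fun a => ¬ near F S Z d a.1 ∧ rare1 G F U S Z k a)).card
      ≤ U.card * ((2 * k + 2) * s') := by
  have hsub : (Aall G U S).filter (fun a => ¬ near F S Z d a.1 ∧ rare1 G F U S Z k a) ⊆
      (U.filter (fun i => i ∉ Xs G F U S Z k)).biUnion
        (fun i => ((Pc F S Z).filter (fun P => 2 ≤ dg G P i)).biUnion (fun P => P ×ˢ {i})) := by
    intro a ha
    rw [mem_filter, mem_Aall] at ha
    obtain ⟨⟨h1, h2, h3⟩, h4, h5, h6⟩ := ha
    have h7 := not_near_Z h1 h4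
    simp only [mem_biUnion, mem_filter, mem_product, mem_singleton]
    exact ⟨a.2, ⟨h2, h5⟩, comp F (S \ Z) a.1, ⟨mem_comps.2 ⟨a.1, h7, rfl⟩, h6⟩, mem_comp_self F h7, rfl⟩
  refine (card_le_card hsub).trans (card_biUnion_le.trans ?_)
  calc ∑ i ∈ U.filter (fun i => i ∉ Xs G F U S Z k),
        (((Pc F S Z).filter (fun P => 2 ≤ dg G P i)).biUnion (fun P => P ×ˢ {i})).card
      ≤ ∑ i ∈ U.filter (fun i => i ∉ Xs G F U S Z k), (2 * k + 2) * s' := by
        apply sum_le_sum
        intro i hi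
        rw [mem_filter] at hi
        refine card_biUnion_le.trans ?_
        have h1 : ∀ P ∈ (Pc F S Z).filter (fun P => 2 ≤ dg G P i), (P ×ˢ ({i} : Finset V)).card ≤ s' := by
          intro P hP
          rw [card_product, card_singleton, mul_one]
          exact c.pc_card (mem_filter.1 hP).1
        refine (sum_le_card_nsmul _ _ _ h1).trans ?_
        rw [smul_eq_mul]
        apply Nat.mul_le_mul_right
        by_contra h
        push Not at h
        exact hi.2 (mem_filter.2 ⟨hi.1, h.le⟩)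
    _ ≤ U.card * ((2 * k + 2) * s') := by
        rw [sum_const, smul_eq_mul]
        exact Nat.mul_le_mul_right _ (card_filter_le _ _)

theorem card_rare2 (c : Ctx G F U S Z d k s') :
    ((Aall G U S).filter (fun a => ¬ near F S Z d a.1 ∧ rare2 G F U S Z k a)).card
      ≤ U.card * (U.card * ((2 * k + 2) * s')) := by
  have hsub : (Aall G U S).filter (fun a => ¬ near F S Z d a.1 ∧ rare2 G F U S Z k a) ⊆
      U.biUnion (fun i => (U.filter (fun j => ¬ fr G F S Z k i j)).biUnion
        (fun j => ((Pc F S Z).filter (fun P => 1 ≤ dg G P i ∧ 1 ≤ dg G P j)).biUnion (fun P => P ×ˢ {i}))) := by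
    intro a ha
    rw [mem_filter, mem_Aall] at ha
    obtain ⟨⟨h1, h2, h3⟩, h4, h5, j, hj, hjX, hji, h6, h8⟩ := ha
    have h7 := not_near_Z h1 h4
    simp only [mem_biUnion, mem_filter, mem_product, mem_singleton]
    exact ⟨a.2, h2, j, ⟨hj, h8⟩, comp F (S \ Z) a.1, ⟨mem_comps.2 ⟨a.1, h7, rfl⟩,
      one_le_dg (mem_comp_self F h7) h3, h6⟩, mem_comp_self F h7, rfl⟩
  refine (card_le_card hsub).trans (card_biUnion_le.trans ?_)
  rw [← smul_eq_mul]
  apply sum_le_card_nsmul
  intro i hi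
  refine card_biUnion_le.trans ?_
  calc ∑ j ∈ U.filter (fun j => ¬ fr G F S Z k i j),
        (((Pc F S Z).filter (fun P => 1 ≤ dg G P i ∧ 1 ≤ dg G P j)).biUnion (fun P => P ×ˢ {i})).card
      ≤ ∑ j ∈ U.filter (fun j => ¬ fr G F S Z k i j), (2 * k + 2) * s' := by
        apply sum_le_sum
        intro j hj
        rw [mem_filter] at hj
        refine card_biUnion_le.trans ?_
        have h1 : ∀ P ∈ (Pc F S Z).filter (fun P => 1 ≤ dg G P i ∧ 1 ≤ dg G P j),
            (P ×ˢ ({i} : Finset V)).card ≤ s' := by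
          intro P hP
          rw [card_product, card_singleton, mul_one]
          exact c.pc_card (mem_filter.1 hP).1
        refine (sum_le_card_nsmul _ _ _ h1).trans ?_
        rw [smul_eq_mul]
        apply Nat.mul_le_mul_right
        by_contra h
        push Not at h
        exact hj.2 h.le
    _ ≤ U.card * ((2 * k + 2) * s') := by
        rw [sum_const, smul_eq_mul]
        exact Nat.mul_le_mul_right _ (card_filter_le _ _)

theorem card_Aall (c : Ctx G F U S Z d k s') :
    (Aall G U S).card ≤ (A G F U S Z d k).card + Z.card * U.card + U.card * U.card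
      + U.card * ((2 * k + 2) * s') + U.card * (U.card * ((2 * k + 2) * s')) := by
  have hsub : Aall G U S ⊆ A G F U S Z d k ∪ (Aall G U S).filter (fun a => near F S Z d a.1)
      ∪ (Aall G U S).filter (fun a => bad G F U S d a)
      ∪ (Aall G U S).filter (fun a => ¬ near F S Z d a.1 ∧ rare1 G F U S Z k a)
      ∪ (Aall G U S).filter (fun a => ¬ near F S Z d a.1 ∧ rare2 G F U S Z k a) := by
    intro a ha
    simp only [A, mem_union, mem_filter]
    by_cases h1 : near F S Z d a.1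
    · simp [ha, h1]
    · by_cases h2 : bad G F U S d a
      · simp [ha, h2]
      · by_cases h3 : rare1 G F U S Z k a
        · simp [ha, h1, h3]
        · by_cases h4 : rare2 G F U S Z k a
          · simp [ha, h1, h4]
          · simp [ha, h1, h2, h3, h4]
  have h := card_le_card hsub
  have h1 := c.card_near
  have h2 := c.card_bad
  have h3 := c.card_rare1
  have h4 := c.card_rare2
  refine h.trans ((card_union_le _ _).trans ?_)
  refine (Nat.add_le_add (card_union_le _ _) h4).trans ?_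
  have h5 := card_union_le (A G F U S Z d k ∪ (Aall G U S).filter (fun a => near F S Z d a.1))
    ((Aall G U S).filter (fun a => bad G F U S d a))
  have h6 := card_union_le (A G F U S Z d k) ((Aall G U S).filter (fun a => near F S Z d a.1))
  omega

end Ctx

end DisjCyc
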