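import Pool.Agent.Helper470.DC.Ctx
set_option autoImplicit false
open scoped Classical
open Finset

namespace DisjCyc

variable {V : Type}

/-- the data used in the upper bound -/
structure CtxE (G F : SimpleGraph V) (U S Z : Finset V) (e k s' : ℕ) : Prop where
  hFG : F ≤ G
  hF : Acy F
  hSU : Disjoint S U
  hFc : ∀ u ∈ S, ∀ v ∈ S, G.Adj u v → ∃ T ⊆ S, Tr F T ∧ u ∈ T ∧ v ∈ T
  hZ : Z ⊆ S
  hs : ∀ T ⊆ S \ Z, Tr F T → T.card ≤ s'
  hd : 2 ≤ e
  hk : 1 ≤ k
  hg : ∀ W, Cyc G W → 2 * e + 1 ≤ W.card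
  hK : ∀ Y, ¬ KCyc G Y k

namespace CtxE

variable {G F : SimpleGraph V} {U S Z : Finset V} {e k s' : ℕ}

/-- the pieces -/
noncomputable def Pc (F : SimpleGraph V) (S Z : Finset V) : Finset (Finset V) := comps F (S \ Z)

/-- solo labels -/
noncomputable def Xs (G F : SimpleGraph V) (U S Z : Finset V) (k : ℕ) : Finset V :=
  U.filter (fun i => 2 * k + 2 ≤ ((Pc F S Z).filter (fun P => 2 ≤ dg G P i)).card)

/-- frequent pairs -/
def fr (G F : SimpleGraph V) (S Z : Finset V) (k : ℕ) (i j : V) : Prop :=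
  2 * k + 2 ≤ ((Pc F S Z).filter (fun P => 1 ≤ dg G P i ∧ 1 ≤ dg G P j)).card

theorem pc_Tr (c : CtxE G F U S Z e k s') {P : Finset V} (hP : P ∈ Pc F S Z) : Tr F P := comps_Tr c.hF hP

theorem pc_sub {P : Finset V} (hP : P ∈ Pc F S Z) : P ⊆ S \ Z := comps_subset hP

theorem pc_dis (c : CtxE G F U S Z e k s') : ∀ P ∈ Pc F S Z, ∀ P' ∈ Pc F S Z, P ≠ P' → Disjoint P P' :=
  fun _ hP _ hP' h => comps_disjoint c.hF hP hP' h

theorem pc_U (c : CtxE G F U S Z e k s') : ∀ P ∈ Pc F S Z, Disjoint P U := by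
  intro P hP
  exact c.hSU.mono_left ((pc_sub hP).trans sdiff_subset)

theorem pc_card (c : CtxE G F U S Z e k s') {P : Finset V} (hP : P ∈ Pc F S Z) : P.card ≤ s' :=
  c.hs P (pc_sub hP) (c.pc_Tr hP)

theorem Xs_sub : Xs G F U S Z k ⊆ U := filter_subset _ _

theorem many (c : CtxE G F U S Z e k s') {m : ℕ} {X J : Finset V} (hX : X ⊆ Xs G F U S Z k)
    (hJ : J ⊆ U \ Xs G F U S Z k) (hfr : ∀ i ∈ J, ∀ j ∈ J, i ≠ j → fr G F S Z k i j) (hm : 2 * m ≤ J.card)
    (Bad : Finset (Finset V)) (hB : Bad.card ≤ 2) (hkk : X.card + m ≤ k) :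
    KCyc G ((X ∪ J) ∪ (Pc F S Z \ Bad).biUnion id) (X.card + m) := by
  have hXJ : Disjoint X J := by
    rw [Finset.disjoint_left]
    intro x hx hx'
    exact (mem_sdiff.1 (hJ hx')).2 (hX hx)
  refine many_cycles c.hFG (Pc F S Z) (fun P hP => c.pc_Tr hP) c.pc_dis U c.pc_U (2 * k + 2) m X J
    (hX.trans Xs_sub) (hJ.trans sdiff_subset) hXJ ?_ hfr hm Bad (by omega)
  intro i hi
  exact (mem_filter.1 (hX hi)).2

theorem X_card (c : CtxE G F U S Z e k s') : (Xs G F U S Z k).card < k := by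
  by_contra h
  push Not at h
  obtain ⟨X, hX, hc⟩ := exists_subset_card_eq h
  have := c.many (m := 0) (X := X) (J := ∅) hX (by simp) (by simp) (by simp) ∅ (by simp) (by omega)
  rw [hc] at this
  exact c.hK _ this

theorem J_card (c : CtxE G F U S Z e k s') {J : Finset V} (hJ : J ⊆ U \ Xs G F U S Z k)
    (hfr : ∀ i ∈ J, ∀ j ∈ J, i ≠ j → fr G F S Z k i j) :
    J.card ≤ 2 * (k - 1 - (Xs G F U S Z k).card) + 1 := by
  by_contra h
  push Not at h
  have hX := c.X_card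
  have := c.many (m := k - (Xs G F U S Z k).card) (X := Xs G F U S Z k) (J := J) (Subset.refl _) hJ hfr
    (by omega) ∅ (by simp) (by omega)
  rw [show (Xs G F U S Z k).card + (k - (Xs G F U S Z k).card) = k by omega] at this
  exact c.hK _ this

theorem not_full_gate (c : CtxE G F U S Z e k s') {J : Finset V} (hJ : J ⊆ U \ Xs G F U S Z k)
    (hfr : ∀ i ∈ J, ∀ j ∈ J, i ≠ j → fr G F S Z k i j) (hJc : 2 * (k - 1 - (Xs G F U S Z k).card) ≤ J.card)
    {T T' : Finset V} (hT : T ∈ Pc F S Z) (hT' : T' ∈ Pc F S Z) (hTT : T ≠ T') {z a a' : V} (hz : z ∈ Z)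
    (ha : a ∈ T) (ha' : a' ∈ T') (hza : F.Adj a z) (hza' : F.Adj a' z) {j : V} (hj : j ∈ U \ Xs G F U S Z k)
    (hjJ : j ∉ J) (h1 : 1 ≤ dg G T j) (h2 : 1 ≤ dg G T' j) : False := by
  have hX := c.X_card
  have hK := c.many (m := k - 1 - (Xs G F U S Z k).card) (X := Xs G F U S Z k) (J := J) (Subset.refl _) hJ hfr
    (by omega) {T, T'} (card_insert_le _ _) (by omega)
  rw [show (Xs G F U S Z k).card + (k - 1 - (Xs G F U S Z k).card) = k - 1 by omega] at hK
  have hjU : j ∈ U := (mem_sdiff.1 hj).1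
  have hzS : z ∈ S := c.hZ hz
  have hzU : z ∉ U := fun h => Finset.disjoint_left.1 c.hSU hzS h
  have hzj : z ≠ j := fun h => hzU (h ▸ hjU)
  have hzP : ∀ P ∈ Pc F S Z, z ∉ P := fun P hP h => (mem_sdiff.1 (pc_sub hP h)).2 hz
  have hjP : ∀ P ∈ Pc F S Z, j ∉ P := fun P hP h => Finset.disjoint_left.1 (c.pc_U P hP) h hjU
  have hcyc := cyc_pair c.hFG (c.pc_Tr hT) (c.pc_Tr hT') (c.pc_dis T hT T' hT' hTT) hzj (hzP T hT) (hzP T' hT')
    (hjP T hT) (hjP T' hT') (one_le_dg ha (c.hFG hza)) h1 (one_le_dg ha' (c.hFG hza')) h2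
  have hd : Disjoint (insert z (insert j (T ∪ T')))
      ((Xs G F U S Z k ∪ J) ∪ (Pc F S Z \ {T, T'}).biUnion id) := by
    rw [Finset.disjoint_left]
    intro x hx hx'
    have hx2 : x = z ∨ x = j ∨ x ∈ T ∨ x ∈ T' := by simpa [mem_insert, mem_union] using hx
    rcases mem_union.1 hx' with hx' | hx'
    · have hxU : x ∈ U := by
        rcases mem_union.1 hx' with h | h
        · exact Xs_sub h
        · exact (mem_sdiff.1 (hJ h)).1
      rcases hx2 with rfl | rfl | h | h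
      · exact hzU hxU
      · rcases mem_union.1 hx' with h | h
        · exact (mem_sdiff.1 hj).2 h
        · exact hjJ h
      · exact Finset.disjoint_left.1 (c.pc_U T hT) h hxU
      · exact Finset.disjoint_left.1 (c.pc_U T' hT') h hxU
    · rw [mem_biUnion] at hx'
      obtain ⟨P, hP, hxP⟩ := hx'
      simp only [id] at hxP
      simp only [mem_sdiff, mem_insert, mem_singleton] at hP
      push Not at hP
      rcases hx2 with rfl | rfl | h | h
      · exact hzP P hP.1 hxP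
      · exact hjP P hP.1 hxP
      · exact Finset.disjoint_left.1 (c.pc_dis T hT P hP.1 (Ne.symm hP.2.1)) h hxP
      · exact Finset.disjoint_left.1 (c.pc_dis T' hT' P hP.1 (Ne.symm hP.2.2)) h hxP
  have := KCyc_insert hK hcyc hd subset_union_left subset_union_right
  rw [show k - 1 + 1 = k by have := c.hk; omega] at this
  exact c.hK _ this

/-- same label: far apart -/
theorem far_same (c : CtxE G F U S Z e k s') {R : Finset V} (hR : Tr F R) {i p q : V} (hi : i ∉ R) (hp : p ∈ R)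
    (hq : q ∈ R) (hpq : p ≠ q) (h1 : G.Adj p i) (h2 : G.Adj q i) : 2 * e ≤ R.card := by
  have := c.hg _ (cyc_solo c.hFG hR hi (two_le_dg hp hq hpq h1 h2))
  rw [card_insert_of_notMem hi] at this
  omega

theorem near_unique (c : CtxE G F U S Z e k s') {R R' : Finset V} (hR : Tr F R) (hR' : Tr F R') {i z p q : V}
    (hi : i ∉ R) (hi' : i ∉ R') (hp : p ∈ R) (hq : q ∈ R') (hz : z ∈ R) (hz' : z ∈ R')
    (h1 : G.Adj p i) (h2 : G.Adj q i) (hc : R.card ≤ e) (hc' : R'.card ≤ e) : p = q := by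
  by_contra hpq
  have hU := Tr_union c.hF hR hR' ⟨z, mem_inter.2 ⟨hz, hz'⟩⟩
  have := c.far_same hU (i := i) (p := p) (q := q) (by simp [hi, hi']) (by simp [hp]) (by simp [hq]) hpq h1 h2
  have h3 := card_union_add_card_inter R R'
  have h4 : 1 ≤ (R ∩ R').card := card_pos.2 ⟨z, mem_inter.2 ⟨hz, hz'⟩⟩
  omega

theorem bad_unique (c : CtxE G F U S Z e k s') {R R' : Finset V} (hR : Tr F R) (hR' : Tr F R') {i j p q p' q' : V}
    (hij : i ≠ j) (hi : i ∉ R) (hi' : i ∉ R') (hj : j ∉ R) (hj' : j ∉ R') (hp : p ∈ R) (hq : q ∈ R)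
    (hp' : p' ∈ R') (hq' : q' ∈ R') (h1 : G.Adj p i) (h2 : G.Adj q j) (h3 : G.Adj p' i) (h4 : G.Adj q' j)
    (hc : R.card + 1 ≤ e) (hc' : R'.card + 1 ≤ e) : p = p' := by
  by_contra hpp
  by_cases hne : (R ∩ R').Nonempty
  · have hU := Tr_union c.hF hR hR' hne
    have := c.far_same hU (i := i) (p := p) (q := p') (by simp [hi, hi']) (by simp [hp]) (by simp [hp']) hpp h1 h3
    have h5 := card_union_add_card_inter R R'
    omega
  · have hdis : Disjoint R R' := by
      rw [Finset.disjoint_iff_inter_eq_empty]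
      exact not_nonempty_iff_eq_empty.1 hne
    have hcyc := cyc_pair c.hFG hR hR' hdis hij hi hi' hj hj' (one_le_dg hp h1) (one_le_dg hq h2)
      (one_le_dg hp' h3) (one_le_dg hq' h4)
    have := c.hg _ hcyc
    have e1 : i ∉ insert j (R ∪ R') := by simp [hij, hi, hi']
    have e2 : j ∉ R ∪ R' := by simp [hj, hj']
    rw [card_insert_of_notMem e1, card_insert_of_notMem e2, card_union_of_disjoint hdis] at this
    omega

end CtxE

end DisjCyc
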