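import Pool.Agent.Helper470.DC.Comp
set_option autoImplicit false
open scoped Classical
open Finset

namespace DisjCyc

variable {V : Type}

theorem KCyc_zero (G : SimpleGraph V) (S : Finset V) : KCyc G S 0 :=
  ⟨∅, by simp, by simp, by simp⟩

theorem KCyc_mono {G : SimpleGraph V} {S S' : Finset V} (h : S ⊆ S') {k : ℕ} (hK : KCyc G S k) :
    KCyc G S' k := by
  obtain ⟨𝒲, h1, h2, h3⟩ := hK
  exact ⟨𝒲, h1, fun W hW => ⟨(h2 W hW).1.trans h, (h2 W hW).2⟩, h3⟩

theorem KCyc_le {G : SimpleGraph V} {S : Finset V} {k k' : ℕ} (h : k' ≤ k) (hK : KCyc G S k) :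
    KCyc G S k' := by
  obtain ⟨𝒲, h1, h2, h3⟩ := hK
  obtain ⟨𝒲', h4, h5⟩ := exists_subset_card_eq (s := 𝒲) (n := k') (by omega)
  exact ⟨𝒲', h5, fun W hW => h2 W (h4 hW), fun W hW W' hW' => h3 W (h4 hW) W' (h4 hW')⟩

theorem KCyc_insert {G : SimpleGraph V} {Y Y' W : Finset V} {n : ℕ} (hK : KCyc G Y n)
    (hW : Cyc G W) (hd : Disjoint W Y) (hWY : W ⊆ Y') (hYY : Y ⊆ Y') : KCyc G Y' (n + 1) := by
  obtain ⟨𝒲, h1, h2, h3⟩ := hK
  have hW' : ∀ W' ∈ 𝒲, Disjoint W W' := fun W' hW' => hd.mono_right (h2 W' hW').1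
  have hn : W ∉ 𝒲 := by
    intro h
    have := hW' W h
    rw [disjoint_self_iff_empty] at this
    exact hW.1.ne_empty this
  refine ⟨insert W 𝒲, by rw [card_insert_of_notMem hn, h1], ?_, ?_⟩
  · intro W' hW''
    rcases mem_insert.1 hW'' with rfl | h
    · exact ⟨hWY, hW⟩
    · exact ⟨(h2 W' h).1.trans hYY, (h2 W' h).2⟩
  · intro A hA B hB hAB
    rcases mem_insert.1 hA with hA | hA
    · rcases mem_insert.1 hB with hB | hB
      · exact absurd (hA.trans hB.symm) hAB
      · rw [hA]; exact hW' B hB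
    · rcases mem_insert.1 hB with hB | hB
      · rw [hB]; exact (hW' A hA).symm
      · exact h3 A hA B hB hAB

/-- solo cycle -/
theorem cyc_solo {F G : SimpleGraph V} (hFG : F ≤ G) {T : Finset V} (hT : Tr F T) {i : V} (hi : i ∉ T)
    (h : 2 ≤ dg G T i) : Cyc G (insert i T) := by
  refine ⟨by simp, ?_⟩
  rw [ec_insert G hi, card_insert_of_notMem hi]
  have := ec_mono_graph hFG T
  have := hT.2
  omega

/-- a cycle through two labels and two disjoint trees -/
theorem cyc_pair {F G : SimpleGraph V} (hFG : F ≤ G) {T T' : Finset V} (hT : Tr F T) (hT' : Tr F T')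
    (hd : Disjoint T T') {i j : V} (hij : i ≠ j) (hi : i ∉ T) (hi' : i ∉ T') (hj : j ∉ T) (hj' : j ∉ T')
    (h1 : 1 ≤ dg G T i) (h2 : 1 ≤ dg G T j) (h3 : 1 ≤ dg G T' i) (h4 : 1 ≤ dg G T' j) :
    Cyc G (insert i (insert j (T ∪ T'))) := by
  refine ⟨by simp, ?_⟩
  have e1 : i ∉ insert j (T ∪ T') := by simp [hij, hi, hi']
  have e2 : j ∉ T ∪ T' := by simp [hj, hj']
  rw [ec_insert G e1, ec_insert G e2, card_insert_of_notMem e1, card_insert_of_notMem e2,
    card_union_of_disjoint hd, ec_union_disj G hd]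
  have := ec_mono_graph hFG T
  have := ec_mono_graph hFG T'
  have := hT.2
  have := hT'.2
  have h5 := dg_mono (G := G) (subset_insert j (T ∪ T')) i
  rw [dg_union_disj G hd] at h5 ⊢
  omega

/-- Cycle builder -/
theorem many_cycles {F G : SimpleGraph V} (hFG : F ≤ G) (Pc : Finset (Finset V)) (hTr : ∀ P ∈ Pc, Tr F P)
    (hdis : ∀ P ∈ Pc, ∀ P' ∈ Pc, P ≠ P' → Disjoint P P') (U : Finset V) (hPU : ∀ P ∈ Pc, Disjoint P U)
    (N : ℕ) :
    ∀ (m : ℕ) (X J : Finset V), X ⊆ U → J ⊆ U → Disjoint X J →
      (∀ i ∈ X, N ≤ (Pc.filter (fun P => 2 ≤ dg G P i)).card) →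
      (∀ i ∈ J, ∀ j ∈ J, i ≠ j → N ≤ (Pc.filter (fun P => 1 ≤ dg G P i ∧ 1 ≤ dg G P j)).card) →
      2 * m ≤ J.card → ∀ Bad : Finset (Finset V), Bad.card + 2 * (X.card + m) ≤ N →
      KCyc G ((X ∪ J) ∪ (Pc \ Bad).biUnion id) (X.card + m) := by
  intro m
  induction m with
  | zero =>
    intro X J hXU hJU hXJ hX hJ hm
    clear hJ hm
    induction X using Finset.induction_on with
    | empty =>
      intro Bad _
      exact KCyc_zero _ _
    | insert i X hi ih =>
      intro Bad hBad
      rw [card_insert_of_notMem hi] at hBad ⊢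
      have hXU' : X ⊆ U := (subset_insert i X).trans hXU
      have hiU : i ∈ U := hXU (mem_insert_self _ _)
      rw [disjoint_insert_left] at hXJ
      have hN := hX i (mem_insert_self _ _)
      obtain ⟨P, hP, hPB⟩ : ∃ P ∈ Pc.filter (fun P => 2 ≤ dg G P i), P ∉ Bad := by
        by_contra hcon
        push Not at hcon
        have := card_le_card (show Pc.filter (fun P => 2 ≤ dg G P i) ⊆ Bad from hcon)
        omega
      rw [mem_filter] at hP
      have h1 := ih hXU' hXJ.2 (fun i' hi' => hX i' (mem_insert_of_mem hi')) (insert P Bad) (by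
        have := card_insert_le P Bad
        omega)
      have hiP : i ∉ P := fun h => Finset.disjoint_left.1 (hPU P hP.1) h hiU
      have h2 := cyc_solo hFG (hTr P hP.1) hiP hP.2
      have h3 : Disjoint (insert i P) ((X ∪ J) ∪ (Pc \ insert P Bad).biUnion id) := by
        rw [Finset.disjoint_left]
        intro x hx hx'
        rcases mem_union.1 hx' with hx' | hx'
        · rcases mem_insert.1 hx with rfl | hx
          · rcases mem_union.1 hx' with h | h
            · exact hi h
            · exact hXJ.1 h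
          · have hxU : x ∈ U := (union_subset hXU' hJU) hx'
            exact Finset.disjoint_left.1 (hPU P hP.1) hx hxU
        · rw [mem_biUnion] at hx'
          obtain ⟨P', hP', hxP'⟩ := hx'
          simp only [id] at hxP'
          rw [mem_sdiff, mem_insert] at hP'
          push Not at hP'
          rcases mem_insert.1 hx with rfl | hx
          · exact Finset.disjoint_left.1 (hPU P' hP'.1) hxP' hiU
          · exact Finset.disjoint_left.1 (hdis P hP.1 P' hP'.1 (Ne.symm hP'.2.1)) hx hxP'
      refine KCyc_insert h1 h2 h3 ?_ ?_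
      · intro x hx
        rcases mem_insert.1 hx with rfl | hx
        · simp
        · apply mem_union_right
          rw [mem_biUnion]
          exact ⟨P, by simp [hP.1, hPB], hx⟩
      · apply union_subset_union
        · exact union_subset_union (subset_insert _ _) (Subset.refl _)
        · apply biUnion_subset_biUnion_of_subset_left
          apply sdiff_subset_sdiff (Subset.refl _) (subset_insert _ _)
  | succ m ih =>
    intro X J hXU hJU hXJ hX hJ hm Bad hBad
    obtain ⟨i, j, hi, hj, hij⟩ : ∃ i j, i ∈ J ∧ j ∈ J ∧ i ≠ j := by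
      have : 1 < J.card := by omega
      rw [one_lt_card] at this
      obtain ⟨i, hi, j, hj, h⟩ := this
      exact ⟨i, j, hi, hj, h⟩
    have hiU := hJU hi
    have hjU := hJU hj
    have hN := hJ i hi j hj hij
    obtain ⟨P, P', hP, hP', hPP, hPB, hPB'⟩ : ∃ P P', P ∈ Pc.filter (fun P => 1 ≤ dg G P i ∧ 1 ≤ dg G P j) ∧
        P' ∈ Pc.filter (fun P => 1 ≤ dg G P i ∧ 1 ≤ dg G P j) ∧ P ≠ P' ∧ P ∉ Bad ∧ P' ∉ Bad := by
      have : 1 < ((Pc.filter (fun P => 1 ≤ dg G P i ∧ 1 ≤ dg G P j)) \ Bad).card := by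
        have := le_card_sdiff Bad (Pc.filter (fun P => 1 ≤ dg G P i ∧ 1 ≤ dg G P j))
        omega
      rw [one_lt_card] at this
      obtain ⟨P, hP, P', hP', h⟩ := this
      rw [mem_sdiff] at hP hP'
      exact ⟨P, P', hP.1, hP'.1, h, hP.2, hP'.2⟩
    rw [mem_filter] at hP hP'
    set J' := (J.erase i).erase j with hJ'
    have hJJ : J' ⊆ J := (erase_subset _ _).trans (erase_subset _ _)
    have hcard : 2 * m ≤ J'.card := by
      rw [hJ', card_erase_of_mem (by simp [hj, hij.symm]), card_erase_of_mem hi]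
      omega
    have h1 := ih X J' hXU (hJJ.trans hJU) (hXJ.mono_right hJJ) hX
      (fun a ha b hb hab => hJ a (hJJ ha) b (hJJ hb) hab) hcard (insert P (insert P' Bad)) (by
        have h1 := card_insert_le P (insert P' Bad)
        have h2 := card_insert_le P' Bad
        omega)
    have hiP : i ∉ P := fun h => Finset.disjoint_left.1 (hPU P hP.1) h hiU
    have hiP' : i ∉ P' := fun h => Finset.disjoint_left.1 (hPU P' hP'.1) h hiU
    have hjP : j ∉ P := fun h => Finset.disjoint_left.1 (hPU P hP.1) h hjU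
    have hjP' : j ∉ P' := fun h => Finset.disjoint_left.1 (hPU P' hP'.1) h hjU
    have h2 := cyc_pair hFG (hTr P hP.1) (hTr P' hP'.1) (hdis P hP.1 P' hP'.1 hPP) hij hiP hiP' hjP hjP'
      hP.2.1 hP.2.2 hP'.2.1 hP'.2.2
    have h3 : Disjoint (insert i (insert j (P ∪ P')))
        ((X ∪ J') ∪ (Pc \ insert P (insert P' Bad)).biUnion id) := by
      rw [Finset.disjoint_left]
      intro x hx hx'
      have hx2 : x = i ∨ x = j ∨ x ∈ P ∨ x ∈ P' := by
        simpa [mem_insert, mem_union] using hx
      rcases mem_union.1 hx' with hx' | hx'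
      · have hxU : x ∈ U := (union_subset hXU (hJJ.trans hJU)) hx'
        rcases hx2 with rfl | rfl | hx | hx
        · rcases mem_union.1 hx' with h | h
          · exact Finset.disjoint_left.1 hXJ h hi
          · simp [hJ'] at h
        · rcases mem_union.1 hx' with h | h
          · exact Finset.disjoint_left.1 hXJ h hj
          · simp [hJ'] at h
        · exact Finset.disjoint_left.1 (hPU P hP.1) hx hxU
        · exact Finset.disjoint_left.1 (hPU P' hP'.1) hx hxU
      · rw [mem_biUnion] at hx'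
        obtain ⟨P'', hP'', hxP''⟩ := hx'
        simp only [id] at hxP''
        rw [mem_sdiff, mem_insert, mem_insert] at hP''
        push Not at hP''
        rcases hx2 with rfl | rfl | hx | hx
        · exact Finset.disjoint_left.1 (hPU P'' hP''.1) hxP'' hiU
        · exact Finset.disjoint_left.1 (hPU P'' hP''.1) hxP'' hjU
        · exact Finset.disjoint_left.1 (hdis P hP.1 P'' hP''.1 (Ne.symm hP''.2.1)) hx hxP''
        · exact Finset.disjoint_left.1 (hdis P' hP'.1 P'' hP''.1 (Ne.symm hP''.2.2.1)) hx hxP''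
    rw [← add_assoc]
    refine KCyc_insert h1 h2 h3 ?_ ?_
    · intro x hx
      have hx2 : x = i ∨ x = j ∨ x ∈ P ∨ x ∈ P' := by
        simpa [mem_insert, mem_union] using hx
      rcases hx2 with rfl | rfl | hx | hx
      · simp [hi]
      · simp [hj]
      · apply mem_union_right
        rw [mem_biUnion]
        exact ⟨P, by simp [hP.1, hPB], hx⟩
      · apply mem_union_right
        rw [mem_biUnion]
        exact ⟨P', by simp [hP'.1, hPB'], hx⟩
    · apply union_subset_union
      · exact union_subset_union (Subset.refl _) hJJ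
      · apply biUnion_subset_biUnion_of_subset_left
        apply sdiff_subset_sdiff (Subset.refl _)
        exact (subset_insert _ _).trans (subset_insert _ _)

end DisjCyc
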