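import Pool.Agent.Helper470.DC.Defs
set_option autoImplicit false
open scoped Classical
open Finset

namespace DisjCyc


/-- edge-disjoint spanning trees (double stars) of the complete graph on `Option (Fin m × Bool)`
and a further star at `none` -/
def DStar (m : ℕ) (rt : Fin m → Option (Fin m × Bool))
    (pr : Fin m → Option (Fin m × Bool) → Option (Fin m × Bool))
    (rk : Fin m → Option (Fin m × Bool) → ℕ) : Prop :=
  (∀ τ x, x ≠ rt τ → rk τ (pr τ x) < rk τ x) ∧
  (∀ τ τ' x x', x ≠ rt τ → x' ≠ rt τ' → s(x, pr τ x) = s(x', pr τ' x') → τ = τ') ∧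
  (∀ τ x (j : Fin m), x ≠ rt τ → s(x, pr τ x) ≠ s(some (j, true), none))

end DisjCyc
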