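import Mathlib
set_option autoImplicit false

namespace DisjCyc

/-- `G` contains `k` pairwise vertex-disjoint cycles -/
def HasDisjointCycles {V : Type} (G : SimpleGraph V) (k : ℕ) : Prop :=
  ∃ (v : Fin k → V) (c : (i : Fin k) → G.Walk (v i) (v i)),
    (∀ i, (c i).IsCycle) ∧ ∀ i j, i ≠ j → ∀ x, x ∈ (c i).support → x ∉ (c j).support

/-- the maximal number of edges of an `n`-vertex graph of girth at least `g` without `k`
pairwise vertex-disjoint cycles -/
noncomputable def maxEdges (k n g : ℕ) : ℕ :=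
  sSup {m | ∃ G : SimpleGraph (Fin n), (g : ℕ∞) ≤ G.egirth ∧ ¬ HasDisjointCycles G k ∧ G.edgeSet.ncard = m}

end DisjCyc
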