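import Pool.Agent.Helper470.DC.Defs
set_option autoImplicit false
open scoped Classical
open Finset

namespace DisjCyc
namespace SolConstr




/-- vertices: hubs, centres, leg vertices, isolated vertices -/
abbrev VT (n d t m : ℕ) : Type := Fin n ⊕ ((Fin t ⊕ (Fin t × Fin n × Fin d)) ⊕ Fin m)

section constr
variable {n d t m : ℕ}

/-- centre -/
def cen (τ : Fin t) : VT n d t m := Sum.inr (Sum.inl (Sum.inl τ))
/-- hub -/
def hub (i : Fin n) : VT n d t m := Sum.inl i
/-- leg vertex -/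
def leg (τ : Fin t) (i : Fin n) (j : Fin d) : VT n d t m := Sum.inr (Sum.inl (Sum.inr (τ, i, j)))

/-- the points of a leg from the centre to the hub -/
def pt (τ : Fin t) (i : Fin n) (j : ℕ) : VT n d t m :=
  if j = 0 then cen τ else if h : j - 1 < d then leg τ i ⟨j - 1, h⟩ else hub i

theorem pt_zero (τ : Fin t) (i : Fin n) : (pt τ i 0 : VT n d t m) = cen τ := rfl

theorem pt_leg (τ : Fin t) (i : Fin n) (j : Fin d) :
    (pt τ i (j + 1) : VT n d t m) = leg τ i j := by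
  have h : (j : ℕ) + 1 - 1 < d := by omega
  unfold pt
  rw [if_neg (by omega), dif_pos h]
  rfl

theorem pt_hub (τ : Fin t) (i : Fin n) : (pt τ i (d + 1) : VT n d t m) = hub i := by
  unfold pt
  rw [if_neg (by omega), dif_neg (by omega)]

theorem pt_eq {τ τ' : Fin t} {i i' : Fin n} {j j' : ℕ} (h1 : 1 ≤ j) (h2 : j ≤ d)
    (h : (pt τ i j : VT n d t m) = pt τ' i' j') : τ = τ' ∧ i = i' ∧ j = j' := by
  unfold pt at h
  rw [if_neg (by omega), dif_pos (by omega)] at h
  split_ifs at h with h3 h4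
  · simp [leg, cen] at h
  · simp only [leg, Sum.inr.injEq, Sum.inl.injEq, Prod.mk.injEq, Fin.mk.injEq] at h
    exact ⟨h.1, h.2.1, by omega⟩
  · simp [leg, hub] at h

theorem cen_eq_pt {τ τ' : Fin t} {i' : Fin n} {j' : ℕ}
    (h : (cen τ : VT n d t m) = pt τ' i' j') : j' = 0 ∧ τ = τ' := by
  unfold pt at h
  split_ifs at h with h3 h4
  · simp only [cen, Sum.inr.injEq, Sum.inl.injEq] at h
    exact ⟨h3, h⟩
  · simp [leg, cen] at h
  · simp [cen, hub] at h

theorem hub_eq_pt {i i' : Fin n} {τ' : Fin t} {j' : ℕ}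
    (h : (hub i : VT n d t m) = pt τ' i' j') : d < j' ∧ i = i' := by
  unfold pt at h
  split_ifs at h with h3 h4
  · simp [hub, cen] at h
  · simp [leg, hub] at h
  · simp only [hub, Sum.inl.injEq] at h
    exact ⟨by omega, h⟩

theorem iso_ne_pt {z : Fin m} {i' : Fin n} {τ' : Fin t} {j' : ℕ}
    (h : (Sum.inr (Sum.inr z) : VT n d t m) = pt τ' i' j') : False := by
  unfold pt at h
  split_ifs at h with h3 h4
  · simp [cen] at h
  · simp [leg] at h
  · simp [hub] at h

/-- the graph -/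
def GG (n d t m : ℕ) : SimpleGraph (VT n d t m) :=
  SimpleGraph.fromRel (fun x y => ∃ τ i j, j ≤ d ∧ x = pt τ i j ∧ y = pt τ i (j + 1))

theorem adj_leg {τ : Fin t} {i : Fin n} {j : ℕ} (h1 : 1 ≤ j) (h2 : j ≤ d) {y : VT n d t m}
    (h : (GG n d t m).Adj (pt τ i j) y) : y = pt τ i (j - 1) ∨ y = pt τ i (j + 1) := by
  rw [GG, SimpleGraph.fromRel_adj] at h
  rcases h with ⟨-, ⟨τ', i', j', -, ha, hb⟩ | ⟨τ', i', j', -, ha, hb⟩⟩
  · obtain ⟨rfl, rfl, rfl⟩ := pt_eq h1 h2 ha
    exact Or.inr hb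
  · obtain ⟨rfl, rfl, h3⟩ := pt_eq h1 h2 hb
    left
    rw [ha, h3]
    rfl

theorem adj_cen {τ : Fin t} {y : VT n d t m}
    (h : (GG n d t m).Adj (cen τ) y) : ∃ i, y = pt τ i 1 := by
  rw [GG, SimpleGraph.fromRel_adj] at h
  rcases h with ⟨-, ⟨τ', i', j', -, ha, hb⟩ | ⟨τ', i', j', -, ha, hb⟩⟩
  · obtain ⟨rfl, rfl⟩ := cen_eq_pt ha
    exact ⟨i', hb⟩
  · obtain ⟨h0, -⟩ := cen_eq_pt hb
    omega

theorem adj_hub {i : Fin n} {y : VT n d t m}
    (h : (GG n d t m).Adj (hub i) y) : ∃ τ, y = pt τ i d := by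
  rw [GG, SimpleGraph.fromRel_adj] at h
  rcases h with ⟨-, ⟨τ', i', j', hj, ha, hb⟩ | ⟨τ', i', j', hj, ha, hb⟩⟩
  · obtain ⟨h0, -⟩ := hub_eq_pt ha
    omega
  · obtain ⟨h0, rfl⟩ := hub_eq_pt hb
    have : j' = d := by omega
    subst this
    exact ⟨τ', ha⟩

theorem adj_iso {z : Fin m} {y : VT n d t m}
    (h : (GG n d t m).Adj (Sum.inr (Sum.inr z)) y) : False := by
  rw [GG, SimpleGraph.fromRel_adj] at h
  rcases h with ⟨-, ⟨τ', i', j', hj, ha, hb⟩ | ⟨τ', i', j', hj, ha, hb⟩⟩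
  · exact iso_ne_pt ha
  · exact iso_ne_pt hb

/-- sets in which each vertex has two neighbours -/
def Two (W : Set (VT n d t m)) : Prop :=
  ∀ x ∈ W, ∃ y z, y ≠ z ∧ y ∈ W ∧ z ∈ W ∧ (GG n d t m).Adj x y ∧ (GG n d t m).Adj x z

theorem Two.step {W : Set (VT n d t m)} (hW : Two W) {τ : Fin t} {i : Fin n} {j : ℕ} (h1 : 1 ≤ j)
    (h2 : j ≤ d) (h : pt τ i j ∈ W) : pt τ i (j - 1) ∈ W ∧ pt τ i (j + 1) ∈ W := by
  obtain ⟨y, z, hyz, hy, hz, ay, az⟩ := hW _ h
  rcases adj_leg h1 h2 ay with e1 | e1 <;> rcases adj_leg h1 h2 az with e2 | e2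
  · exact absurd (e1.trans e2.symm) hyz
  · rw [← e1, ← e2]; exact ⟨hy, hz⟩
  · rw [← e1, ← e2]; exact ⟨hz, hy⟩
  · exact absurd (e1.trans e2.symm) hyz

theorem Two.full {W : Set (VT n d t m)} (hW : Two W) {τ : Fin t} {i : Fin n} {j : ℕ} (h1 : 1 ≤ j)
    (h2 : j ≤ d) (h : pt τ i j ∈ W) : ∀ j', j' ≤ d + 1 → pt τ i j' ∈ W := by
  have hup : ∀ k, j + k ≤ d + 1 → pt τ i (j + k) ∈ W := by
    intro k
    induction k with
    | zero => intro _; exact h
    | succ k ih =>
      intro hk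
      exact (hW.step (by omega) (by omega) (ih (by omega))).2
  have hdown : ∀ k, k ≤ j → pt τ i (j - k) ∈ W := by
    intro k
    induction k with
    | zero => intro _; exact h
    | succ k ih =>
      intro hk
      have h3 := (hW.step (by omega) (by omega) (ih (by omega))).1
      rwa [Nat.sub_sub] at h3
  intro j' hj'
  rcases le_total j j' with h3 | h3
  · obtain ⟨k, rfl⟩ := Nat.exists_eq_add_of_le h3
    exact hup k hj'
  · have h4 := hdown (j - j') (by omega)
    rwa [Nat.sub_sub_self h3] at h4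

theorem Two.cen {W : Set (VT n d t m)} (hW : Two W) (hd : 1 ≤ d) {τ : Fin t} (h : cen τ ∈ W) :
    ∃ i i', i ≠ i' ∧ (∀ j', j' ≤ d + 1 → pt τ i j' ∈ W) ∧ (∀ j', j' ≤ d + 1 → pt τ i' j' ∈ W) := by
  obtain ⟨y, z, hyz, hy, hz, ay, az⟩ := hW _ h
  obtain ⟨i, rfl⟩ := adj_cen ay
  obtain ⟨i', rfl⟩ := adj_cen az
  exact ⟨i, i', fun e => hyz (by rw [e]), hW.full le_rfl hd hy, hW.full le_rfl hd hz⟩

theorem Two.hub {W : Set (VT n d t m)} (hW : Two W) (hd : 1 ≤ d) {i : Fin n} (h : hub i ∈ W) :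
    ∃ τ τ', τ ≠ τ' ∧ (∀ j', j' ≤ d + 1 → pt τ i j' ∈ W) ∧ (∀ j', j' ≤ d + 1 → pt τ' i j' ∈ W) := by
  obtain ⟨y, z, hyz, hy, hz, ay, az⟩ := hW _ h
  obtain ⟨τ, rfl⟩ := adj_hub ay
  obtain ⟨τ', rfl⟩ := adj_hub az
  exact ⟨τ, τ', fun e => hyz (by rw [e]), hW.full hd le_rfl hy, hW.full hd le_rfl hz⟩

theorem Two.ex {W : Set (VT n d t m)} (hW : Two W) (hd : 1 ≤ d) {x : VT n d t m} (hx : x ∈ W) :
    ∃ τ i, ∀ j', j' ≤ d + 1 → pt τ i j' ∈ W := by
  rcases x with i | ((τ | ⟨τ, i, j⟩) | z)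
  · obtain ⟨τ, _, _, h, _⟩ := hW.hub hd hx
    exact ⟨τ, i, h⟩
  · obtain ⟨i, _, _, h, _⟩ := hW.cen hd hx
    exact ⟨τ, i, h⟩
  · have h1 : pt τ i (j + 1) ∈ W := by
      rw [pt_leg]
      exact hx
    exact ⟨τ, i, hW.full (by omega) (by omega) h1⟩
  · obtain ⟨y, z', _, _, _, ay, _⟩ := hW _ hx
    exact absurd ay (fun h => adj_iso h)

theorem Two.conf {W : Set (VT n d t m)} (hW : Two W) (hd : 1 ≤ d) {x : VT n d t m} (hx : x ∈ W) :
    ∃ τ τ' i i' i'', τ ≠ τ' ∧ i ≠ i' ∧ i ≠ i'' ∧ (∀ j', j' ≤ d + 1 → pt τ i j' ∈ W) ∧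
      (∀ j', j' ≤ d + 1 → pt τ i' j' ∈ W) ∧ (∀ j', j' ≤ d + 1 → pt τ' i j' ∈ W) ∧
      (∀ j', j' ≤ d + 1 → pt τ' i'' j' ∈ W) := by
  obtain ⟨τ, i, h1⟩ := hW.ex hd hx
  have hc : DisjCyc.SolConstr.cen τ ∈ W := by
    rw [← pt_zero τ i]
    exact h1 0 (by omega)
  have hh : DisjCyc.SolConstr.hub i ∈ W := by
    rw [← pt_hub τ i]
    exact h1 (d + 1) le_rfl
  obtain ⟨i', hi', h2⟩ : ∃ i', i ≠ i' ∧ ∀ j', j' ≤ d + 1 → pt τ i' j' ∈ W := by
    obtain ⟨a, b, hab, ha, hb⟩ := hW.cen hd hc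
    by_cases e : i = a
    · exact ⟨b, by rw [e]; exact hab, hb⟩
    · exact ⟨a, e, ha⟩
  obtain ⟨τ', hτ', h3⟩ : ∃ τ', τ ≠ τ' ∧ ∀ j', j' ≤ d + 1 → pt τ' i j' ∈ W := by
    obtain ⟨a, b, hab, ha, hb⟩ := hW.hub hd hh
    by_cases e : τ = a
    · exact ⟨b, by rw [e]; exact hab, hb⟩
    · exact ⟨a, e, ha⟩
  have hc' : DisjCyc.SolConstr.cen τ' ∈ W := by
    rw [← pt_zero τ' i]
    exact h3 0 (by omega)
  obtain ⟨i'', hi'', h4⟩ : ∃ i'', i ≠ i'' ∧ ∀ j', j' ≤ d + 1 → pt τ' i'' j' ∈ W := by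
    obtain ⟨a, b, hab, ha, hb⟩ := hW.cen hd hc'
    by_cases e : i = a
    · exact ⟨b, by rw [e]; exact hab, hb⟩
    · exact ⟨a, e, ha⟩
  exact ⟨τ, τ', i, i', i'', hτ', hi', hi'', h1, h2, h3, h4⟩

theorem Two.card {W : Finset (VT n d t m)} (hW : Two (W : Set (VT n d t m))) (hd : 1 ≤ d)
    {x : VT n d t m} (hx : x ∈ W) : 4 * d + 4 ≤ W.card := by
  obtain ⟨τ, τ', i, i', i'', hτ, hi, hi', h1, h2, h3, h4⟩ := hW.conf hd hx
  have hsub : (((({(τ, i), (τ, i'), (τ', i), (τ', i'')} : Finset (Fin t × Fin n)) ×ˢ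
      (univ : Finset (Fin d))).image (fun p => (leg p.1.1 p.1.2 p.2 : VT n d t m)) ∪
      ({τ, τ'} : Finset (Fin t)).image (fun a => (DisjCyc.SolConstr.cen a : VT n d t m))) ∪
      ({i, i'} : Finset (Fin n)).image (fun a => (DisjCyc.SolConstr.hub a : VT n d t m))) ⊆ W := by
    intro y hy
    rw [Finset.mem_union, Finset.mem_union] at hy
    rcases hy with (hy | hy) | hy
    · obtain ⟨⟨⟨a, b⟩, j⟩, hp, rfl⟩ := Finset.mem_image.1 hy
      rw [Finset.mem_product] at hp
      have hp1 := hp.1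
      simp only [Finset.mem_insert, Finset.mem_singleton, Prod.mk.injEq] at hp1
      show leg a b j ∈ W
      rw [← pt_leg]
      rcases hp1 with ⟨rfl, rfl⟩ | ⟨rfl, rfl⟩ | ⟨rfl, rfl⟩ | ⟨rfl, rfl⟩
      · exact h1 _ (by omega)
      · exact h2 _ (by omega)
      · exact h3 _ (by omega)
      · exact h4 _ (by omega)
    · obtain ⟨a, ha, rfl⟩ := Finset.mem_image.1 hy
      rw [← pt_zero a i]
      rw [Finset.mem_insert, Finset.mem_singleton] at ha
      rcases ha with rfl | rfl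
      · exact h1 _ (by omega)
      · exact h3 _ (by omega)
    · obtain ⟨a, ha, rfl⟩ := Finset.mem_image.1 hy
      rw [← pt_hub τ a]
      rw [Finset.mem_insert, Finset.mem_singleton] at ha
      rcases ha with rfl | rfl
      · exact h1 _ (by omega)
      · exact h2 _ (by omega)
  refine le_trans (le_of_eq ?_) (Finset.card_le_card hsub)
  rw [Finset.card_union_of_disjoint, Finset.card_union_of_disjoint, Finset.card_image_of_injective,
    Finset.card_image_of_injective, Finset.card_image_of_injective, Finset.card_product,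
    Finset.card_univ, Fintype.card_fin, Finset.card_pair hτ, Finset.card_pair hi]
  · have hc4 : ({(τ, i), (τ, i'), (τ', i), (τ', i'')} : Finset (Fin t × Fin n)).card = 4 := by
      rw [Finset.card_insert_of_notMem, Finset.card_insert_of_notMem, Finset.card_insert_of_notMem,
        Finset.card_singleton]
      · simp [hi']
      · simp [hτ]
      · simp [hτ, hi]
    rw [hc4]
  · intro a b h
    simpa [DisjCyc.SolConstr.hub] using h
  · intro a b h
    simpa [DisjCyc.SolConstr.cen] using h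
  · rintro ⟨⟨a, b⟩, j⟩ ⟨⟨a', b'⟩, j'⟩ h
    simp only [leg, Sum.inr.injEq, Sum.inl.injEq, Prod.mk.injEq] at h
    obtain ⟨rfl, rfl, rfl⟩ := h
    rfl
  · rw [Finset.disjoint_left]
    intro y hy hy'
    obtain ⟨p, _, rfl⟩ := Finset.mem_image.1 hy
    obtain ⟨a, _, ha⟩ := Finset.mem_image.1 hy'
    simp [DisjCyc.SolConstr.cen, leg] at ha
  · rw [Finset.disjoint_left]
    intro y hy hy'
    obtain ⟨a, _, ha⟩ := Finset.mem_image.1 hy'
    rw [Finset.mem_union] at hy
    rcases hy with hy | hy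
    · obtain ⟨p, _, rfl⟩ := Finset.mem_image.1 hy
      simp [DisjCyc.SolConstr.hub, leg] at ha
    · obtain ⟨p, _, rfl⟩ := Finset.mem_image.1 hy
      simp [DisjCyc.SolConstr.hub, DisjCyc.SolConstr.cen] at ha

theorem cycle_two {v : VT n d t m} (c : (GG n d t m).Walk v v) (hc : c.IsCycle) :
    Two {x | x ∈ c.support} := by
  intro x hx
  have h1 := hc.ncard_neighborSet_toSubgraph_eq_two hx
  obtain ⟨y, z, hyz, hS⟩ := Set.ncard_eq_two.1 h1
  have hy : y ∈ c.toSubgraph.neighborSet x := by rw [hS]; simp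
  have hz : z ∈ c.toSubgraph.neighborSet x := by rw [hS]; simp
  have hy' : c.toSubgraph.Adj x y := hy
  have hz' : c.toSubgraph.Adj x z := hz
  exact ⟨y, z, hyz, c.mem_verts_toSubgraph.1 hy'.snd_mem, c.mem_verts_toSubgraph.1 hz'.snd_mem,
    hy'.adj_sub, hz'.adj_sub⟩

theorem cycle_len {v : VT n d t m} (hd : 1 ≤ d) (c : (GG n d t m).Walk v v) (hc : c.IsCycle) :
    4 * d + 4 ≤ c.length := by
  have hnil : ¬ c.Nil := hc.not_nil
  have hmem : ∀ x, x ∈ c.support ↔ x ∈ c.support.tail := by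
    intro x
    constructor
    · intro hx
      rw [SimpleGraph.Walk.mem_support_iff] at hx
      rcases hx with rfl | hx
      · exact c.end_mem_tail_support hnil
      · exact hx
    · exact fun hx => List.mem_of_mem_tail hx
  have hW : Two ((c.support.tail.toFinset : Finset (VT n d t m)) : Set (VT n d t m)) := by
    have h1 := cycle_two c hc
    have h2 : ((c.support.tail.toFinset : Finset (VT n d t m)) : Set (VT n d t m)) =
        {x | x ∈ c.support} := by
      ext x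
      rw [Finset.mem_coe, List.mem_toFinset]
      exact (hmem x).symm
    rw [h2]
    exact h1
  have h3 := hW.card hd (x := v) (by
    rw [List.mem_toFinset]
    exact c.end_mem_tail_support hnil)
  rw [List.toFinset_card_of_nodup hc.support_nodup, List.length_tail,
    SimpleGraph.Walk.length_support] at h3
  omega

theorem no_disj (hd : 1 ≤ d) (k : ℕ) (hn : n < 2 * k) : ¬ HasDisjointCycles (GG n d t m) k := by
  rintro ⟨v, c, hc, hdis⟩
  have hex : ∀ q : Fin k, ∃ i i' : Fin n, i ≠ i' ∧ (hub i : VT n d t m) ∈ (c q).support ∧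
      (hub i' : VT n d t m) ∈ (c q).support := by
    intro q
    obtain ⟨τ, τ', i, i', i'', _, hi, _, h1, h2, _, _⟩ :=
      (cycle_two (c q) (hc q)).conf hd (x := v q) (by
        show v q ∈ (c q).support
        exact SimpleGraph.Walk.start_mem_support _)
    refine ⟨i, i', hi, ?_, ?_⟩
    · rw [← pt_hub τ i]
      exact h1 _ le_rfl
    · rw [← pt_hub τ i']
      exact h2 _ le_rfl
  choose a b hab ha hb using hex
  have hinj : Function.Injective (fun p : Fin k × Bool => if p.2 then a p.1 else b p.1) := by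
    rintro ⟨q, x⟩ ⟨q', x'⟩ h
    have hm1 : (hub (if x then a q else b q) : VT n d t m) ∈ (c q).support := by
      split_ifs
      · exact ha q
      · exact hb q
    have hm2 : (hub (if x' then a q' else b q') : VT n d t m) ∈ (c q').support := by
      split_ifs
      · exact ha q'
      · exact hb q'
    have h' : (if x then a q else b q) = (if x' then a q' else b q') := h
    have hq : q = q' := by
      by_contra hne
      rw [h'] at hm1
      exact hdis q q' hne _ hm1 hm2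
    subst hq
    have hx : x = x' := by
      cases x <;> cases x'
      · rfl
      · exact absurd h'.symm (hab q)
      · exact absurd h' (hab q)
      · rfl
    rw [hx]
  have h1 := Fintype.card_le_of_injective _ hinj
  simp at h1
  omega

theorem edges (hd : 1 ≤ d) : t * (n * (d + 1)) ≤ (GG n d t m).edgeSet.ncard := by
  let φ : Fin t × Fin n × Fin (d + 1) → Sym2 (VT n d t m) := fun p =>
    s(pt p.1 p.2.1 p.2.2, pt p.1 p.2.1 (p.2.2 + 1))
  have hinj : Function.Injective φ := by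
    rintro ⟨τ, i, ⟨j, hj⟩⟩ ⟨τ', i', ⟨j', hj'⟩⟩ h
    have h' : s((pt τ i j : VT n d t m), pt τ i (j + 1)) = s(pt τ' i' j', pt τ' i' (j' + 1)) := h
    rw [Sym2.eq_iff] at h'
    have hres : τ = τ' ∧ i = i' ∧ j = j' := by
      rcases h' with ⟨e1, e2⟩ | ⟨e1, e2⟩
      · rcases Nat.lt_or_ge j d with hlt | hge
        · obtain ⟨r1, r2, r3⟩ := pt_eq (by omega) (by omega) e2
          exact ⟨r1, r2, by omega⟩
        · exact pt_eq (by omega) (by omega) e1
      · exfalso
        rcases Nat.lt_or_ge j d with hlt | hge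
        · obtain ⟨rfl, rfl, r3⟩ := pt_eq (by omega) (by omega) e2
          rcases Nat.eq_zero_or_pos j with h0 | h0
          · subst h0
            rw [pt_zero] at e1
            have := (cen_eq_pt e1).1
            omega
          · have := (pt_eq (by omega) (by omega) e1).2.2
            omega
        · have hjd : j = d := by omega
          subst hjd
          obtain ⟨rfl, rfl, r3⟩ := pt_eq (by omega) (by omega) e1
          rw [pt_hub] at e2
          have := (hub_eq_pt e2).1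
          omega
    obtain ⟨rfl, rfl, rfl⟩ := hres
    rfl
  have hsub : Set.range φ ⊆ (GG n d t m).edgeSet := by
    rintro _ ⟨⟨τ, i, ⟨j, hj⟩⟩, rfl⟩
    show s((pt τ i j : VT n d t m), pt τ i (j + 1)) ∈ (GG n d t m).edgeSet
    rw [SimpleGraph.mem_edgeSet, GG, SimpleGraph.fromRel_adj]
    refine ⟨?_, Or.inl ⟨τ, i, j, by omega, rfl, rfl⟩⟩
    intro e
    rcases Nat.eq_zero_or_pos j with h0 | h0
    · subst h0
      rw [pt_zero] at e
      have := (cen_eq_pt e).1
      omega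
    · have := (pt_eq (by omega) (by omega) e).2.2
      omega
  have h1 := Set.ncard_le_ncard hsub (Set.toFinite _)
  rw [← Set.image_univ, Set.ncard_image_of_injective _ hinj, Set.ncard_univ] at h1
  have h2 : Nat.card (Fin t × Fin n × Fin (d + 1)) = t * (n * (d + 1)) := by simp
  rw [h2] at h1
  exact h1

end constr


/-- TARGET : the construction -/
theorem construction (k d t m : ℕ) (hk : 1 ≤ k) (hd : 1 ≤ d) :
    ∃ (V : Type) (_ : Fintype V) (G : SimpleGraph V),
      Fintype.card V = (2 * k - 1) + t * ((2 * k - 1) * d + 1) + m ∧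
      (∀ (v : V) (c : G.Walk v v), c.IsCycle → 4 * d + 4 ≤ c.length) ∧
      ¬ HasDisjointCycles G k ∧
      t * ((2 * k - 1) * (d + 1)) ≤ G.edgeSet.ncard := by
  refine ⟨VT (2 * k - 1) d t m, inferInstance, GG (2 * k - 1) d t m, ?_, ?_, ?_, ?_⟩
  · simp only [Fintype.card_sum, Fintype.card_prod, Fintype.card_fin]
    ring
  · intro v c hc
    exact cycle_len hd c hc
  · exact no_disj hd k (by omega)
  · exact edges hd


end SolConstr
end DisjCyc
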