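import Pool.Agent.Helper470.DC.Defs
set_option autoImplicit false
set_option maxHeartbeats 4000000
open scoped Classical
open Finset Filter Topology

namespace DisjCyc
namespace SolLimit


/-- TARGET 1 : any type may be used for lower bounds -/
theorem le_maxEdges (k n g : ℕ) (V : Type) [Fintype V] (G : SimpleGraph V) (hc : Fintype.card V = n)
    (hg : ∀ (v : V) (c : G.Walk v v), c.IsCycle → g ≤ c.length) (hk : ¬ HasDisjointCycles G k) :
    G.edgeSet.ncard ≤ maxEdges k n g := by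
  let e : V ≃ Fin n := Fintype.equivFinOfCardEq hc
  let G' : SimpleGraph (Fin n) := G.map e
  let φ : G ≃g G' := SimpleGraph.Iso.map e G
  have hinj : Function.Injective (φ.symm.toHom : Fin n → V) := φ.symm.injective
  have hcyc : ∀ (v : Fin n) (c : G'.Walk v v), c.IsCycle → (c.map φ.symm.toHom).IsCycle :=
    fun v c hcc => hcc.map hinj
  have hmem : G.edgeSet.ncard ∈ {m | ∃ G : SimpleGraph (Fin n), (g : ℕ∞) ≤ G.egirth ∧
      ¬ HasDisjointCycles G k ∧ G.edgeSet.ncard = m} := by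
    refine ⟨G', ?_, ?_, ?_⟩
    · rw [SimpleGraph.le_egirth]
      intro a w hw
      have h1 := hg _ _ (hcyc a w hw)
      rw [SimpleGraph.Walk.length_map] at h1
      exact_mod_cast h1
    · rintro ⟨v, c, hc1, hc2⟩
      apply hk
      refine ⟨fun i => φ.symm.toHom (v i), fun i => (c i).map φ.symm.toHom,
        fun i => hcyc _ _ (hc1 i), fun i j hij x hx => ?_⟩
      simp only [SimpleGraph.Walk.support_map, List.mem_map] at hx ⊢
      obtain ⟨y, hy, rfl⟩ := hx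
      rintro ⟨z, hz, hzy⟩
      have : z = y := hinj hzy
      subst this
      exact hc2 i j hij _ hy hz
    · exact (Nat.card_congr φ.mapEdgeSet).symm
  apply le_csSup _ hmem
  refine ⟨Nat.card (Sym2 (Fin n)), ?_⟩
  rintro m ⟨H, _, _, rfl⟩
  rw [← Set.ncard_univ]
  exact Set.ncard_le_ncard (Set.subset_univ _) Set.finite_univ

/-- TARGET 2 -/
theorem maxEdges_le (k n g B : ℕ) (hk : 1 ≤ k)
    (h : ∀ G : SimpleGraph (Fin n), (∀ (v : Fin n) (c : G.Walk v v), c.IsCycle → g ≤ c.length) →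
      ¬ HasDisjointCycles G k → G.edgeSet.ncard ≤ B) : maxEdges k n g ≤ B := by
  apply csSup_le
  · refine ⟨(⊥ : SimpleGraph (Fin n)).edgeSet.ncard, ⊥, ?_, ?_, rfl⟩
    · simp
    · rintro ⟨v, c, hc1, _⟩
      exact SimpleGraph.isAcyclic_bot (c ⟨0, hk⟩) (hc1 ⟨0, hk⟩)
  · rintro m ⟨G, hg, hG, rfl⟩
    refine h G ?_ hG
    rw [SimpleGraph.le_egirth] at hg
    intro v c hcc
    have := hg v c hcc
    exact_mod_cast this

/-- TARGET 3 : the limit from the two bounds -/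
theorem limit_of_bounds (k d g : ℕ) (hk : 1 ≤ k) (hd : 1 ≤ d) (hg : g = 4 * d + 3 ∨ g = 4 * d + 4)
    (UB : ∀ M : ℕ, 1 ≤ M → ∃ C : ℕ, ∀ (n : ℕ) (G : SimpleGraph (Fin n)),
      (∀ (v : Fin n) (c : G.Walk v v), c.IsCycle → 4 * d + 3 ≤ c.length) → ¬ HasDisjointCycles G k →
      M * ((2 * k - 1) * d + 1) * G.edgeSet.ncard ≤
        (M * ((2 * k - 1) * (d + 1)) + 10 * ((2 * k - 1) * d + 1)) * n + C)
    (LB : ∀ t m : ℕ, ∃ (V : Type) (_ : Fintype V) (G : SimpleGraph V),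
      Fintype.card V = (2 * k - 1) + t * ((2 * k - 1) * d + 1) + m ∧
      (∀ (v : V) (c : G.Walk v v), c.IsCycle → 4 * d + 4 ≤ c.length) ∧
      ¬ HasDisjointCycles G k ∧
      t * ((2 * k - 1) * (d + 1)) ≤ G.edgeSet.ncard) :
    Tendsto (fun n : ℕ => (maxEdges k n g : ℝ) / n) atTop
      (𝓝 (1 + (2 * (k : ℝ) - 2) / ((2 * (k : ℝ) - 1) * d + 1))) := by
  obtain ⟨j, rfl⟩ : ∃ j, k = j + 1 := ⟨k - 1, by omega⟩
  have hw : 2 * (j + 1) - 1 = 2 * j + 1 := by omega
  rw [hw] at UB LB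
  set w : ℕ := 2 * j + 1 with hwdef
  set v : ℕ := w * d + 1 with hvdef
  have hv1 : 1 ≤ v := by omega
  -- upper bound
  have hU : ∀ M : ℕ, 1 ≤ M → ∃ C : ℕ, ∀ n : ℕ,
      M * v * maxEdges (j + 1) n g ≤ (M * (w * (d + 1)) + 10 * v) * n + C := by
    intro M hM
    obtain ⟨C, hC⟩ := UB M hM
    refine ⟨C, fun n => ?_⟩
    have hMv : 0 < M * v := Nat.mul_pos hM hv1
    have h1 : maxEdges (j + 1) n g ≤ ((M * (w * (d + 1)) + 10 * v) * n + C) / (M * v) := by
      apply maxEdges_le _ _ _ _ hk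
      intro G hG1 hG2
      rw [Nat.le_div_iff_mul_le hMv, mul_comm]
      apply hC n G _ hG2
      intro x c hcc
      have := hG1 x c hcc
      omega
    calc M * v * maxEdges (j + 1) n g
        ≤ M * v * (((M * (w * (d + 1)) + 10 * v) * n + C) / (M * v)) :=
          Nat.mul_le_mul_left _ h1
      _ ≤ _ := Nat.mul_div_le _ _
  -- lower bound
  have hL : ∀ n : ℕ, w ≤ n → ((n - w) / v) * (w * (d + 1)) ≤ maxEdges (j + 1) n g := by
    intro n hn
    obtain ⟨V, hV, G, hcard, hG1, hG2, hG3⟩ := LB ((n - w) / v) ((n - w) % v)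
    refine hG3.trans ?_
    refine le_maxEdges (j + 1) n g V G ?_ ?_ hG2
    · rw [hcard]
      have := Nat.div_add_mod (n - w) v
      have h2 : v * ((n - w) / v) = (n - w) / v * v := mul_comm _ _
      omega
    · intro x c hcc
      have := hG1 x c hcc
      omega
  have hL2 : ∀ n : ℕ, w ≤ n →
      ((n : ℝ) - w - v) * (w * (d + 1)) ≤ v * (maxEdges (j + 1) n g : ℝ) := by
    intro n hn
    have h1 := hL n hn
    have h2 : (n - w) < (n - w) / v * v + v := by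
      have := Nat.div_add_mod (n - w) v
      have h3 := Nat.mod_lt (n - w) hv1
      have h4 : v * ((n - w) / v) = (n - w) / v * v := mul_comm _ _
      omega
    have h1' : (((n - w) / v : ℕ) : ℝ) * ((w : ℝ) * ((d : ℝ) + 1)) ≤ (maxEdges (j + 1) n g : ℝ) := by
      exact_mod_cast h1
    have h2' : ((n : ℝ) - w) < (((n - w) / v : ℕ) : ℝ) * (v : ℝ) + (v : ℝ) := by
      have h5 : ((n - w : ℕ) : ℝ) < (((n - w) / v * v + v : ℕ) : ℝ) := by exact_mod_cast h2
      rw [Nat.cast_sub hn] at h5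
      push_cast at h5 ⊢
      exact h5
    have hv0 : (0 : ℝ) ≤ (v : ℝ) := Nat.cast_nonneg _
    have hA : (0 : ℝ) ≤ (w : ℝ) * ((d : ℝ) + 1) := by positivity
    calc ((n : ℝ) - w - v) * (w * (d + 1))
        ≤ ((((n - w) / v : ℕ) : ℝ) * (v : ℝ)) * (w * (d + 1)) := by
          apply mul_le_mul_of_nonneg_right _ hA
          linarith
      _ = v * ((((n - w) / v : ℕ) : ℝ) * ((w : ℝ) * ((d : ℝ) + 1))) := by ring
      _ ≤ v * (maxEdges (j + 1) n g : ℝ) := mul_le_mul_of_nonneg_left h1' hv0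
  have hvR : (v : ℝ) = (w : ℝ) * d + 1 := by rw [hvdef]; push_cast; ring
  have hwR : (w : ℝ) = 2 * (j : ℝ) + 1 := by rw [hwdef]; push_cast; ring
  have hvpos : (0 : ℝ) < (v : ℝ) := by exact_mod_cast hv1
  set L : ℝ := (w : ℝ) * ((d : ℝ) + 1) / (v : ℝ) with hLdef
  have hLeq : 1 + (2 * (((j + 1 : ℕ) : ℝ)) - 2) / ((2 * (((j + 1 : ℕ) : ℝ)) - 1) * d + 1) = L := by
    have h1 : (2 * (((j + 1 : ℕ) : ℝ)) - 1) * d + 1 = (v : ℝ) := by
      rw [hvR, hwR]; push_cast; ring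
    rw [h1, hLdef, eq_div_iff hvpos.ne', add_mul, div_mul_cancel₀ _ hvpos.ne', hvR, hwR]
    push_cast
    ring
  rw [hLeq]
  have hLv : L * v = (w : ℝ) * ((d : ℝ) + 1) := div_mul_cancel₀ _ hvpos.ne'
  have hL0 : 0 ≤ L := by rw [hLdef]; positivity
  rw [Metric.tendsto_atTop]
  intro ε hε
  obtain ⟨M, hM⟩ := exists_nat_gt (20 / ε)
  have hMpos : (0 : ℝ) < (M : ℝ) := lt_trans (by positivity) hM
  have hM1 : 1 ≤ M := by exact_mod_cast hMpos
  obtain ⟨C, hC⟩ := hU M hM1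
  obtain ⟨N1, hN1⟩ := exists_nat_gt (2 * (C : ℝ) / ε)
  obtain ⟨N2, hN2⟩ := exists_nat_gt (L * ((w : ℝ) + v) / ε)
  refine ⟨N1 + N2 + w + 1, fun n hn => ?_⟩
  have hn1 : (N1 : ℝ) ≤ n := by exact_mod_cast (by omega : N1 ≤ n)
  have hn2 : (N2 : ℝ) ≤ n := by exact_mod_cast (by omega : N2 ≤ n)
  have hnw : w ≤ n := by omega
  have hn0 : (0 : ℝ) < n := by exact_mod_cast (by omega : 0 < n)
  have hUn : (M : ℝ) * v * (maxEdges (j + 1) n g : ℝ) ≤
      ((M : ℝ) * (w * (d + 1)) + 10 * v) * n + C := by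
    exact_mod_cast hC n
  have hLn := hL2 n hnw
  set E : ℝ := (maxEdges (j + 1) n g : ℝ) with hE
  rw [← hLv] at hUn hLn
  -- divide
  have hv1R : (1 : ℝ) ≤ (v : ℝ) := by exact_mod_cast hv1
  have hM1R : (1 : ℝ) ≤ (M : ℝ) := by exact_mod_cast hM1
  have hMε : 10 / (M : ℝ) < ε / 2 := by
    rw [div_lt_iff₀ hε] at hM
    rw [div_lt_div_iff₀ hMpos (by norm_num)]
    linarith
  have hCε : (C : ℝ) < ε / 2 * n := by
    rw [div_lt_iff₀ hε] at hN1
    nlinarith [mul_le_mul_of_nonneg_right hn1 hε.le]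
  have hup : E < (L + ε) * n := by
    have h1 : (M : ℝ) * v * E ≤ (M : ℝ) * v * ((L + 10 / M) * n + C) := by
      have h2 : (M : ℝ) * v * ((L + 10 / M) * n + C) =
          (M * (L * v) + 10 * v) * n + (M * v) * C := by
        field_simp
      rw [h2]
      have h3 : (C : ℝ) ≤ (M * v) * C := by
        have : (1 : ℝ) ≤ (M : ℝ) * v := by nlinarith
        have hC0 : (0 : ℝ) ≤ C := Nat.cast_nonneg _
        nlinarith
      linarith
    have h4 : E ≤ (L + 10 / M) * n + C := le_of_mul_le_mul_left h1 (by positivity)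
    have h5 : 10 / (M : ℝ) * n < ε / 2 * n := mul_lt_mul_of_pos_right hMε hn0
    linarith
  have hlo : (L - ε) * n < E := by
    have h1 : ((n : ℝ) - w - v) * L ≤ E := by
      have h2 : v * (((n : ℝ) - w - v) * L) ≤ v * E := by
        calc v * (((n : ℝ) - w - v) * L) = ((n : ℝ) - w - v) * (L * v) := by ring
          _ ≤ v * E := hLn
      exact le_of_mul_le_mul_left h2 hvpos
    rw [div_lt_iff₀ hε] at hN2
    have h3 : L * ((w : ℝ) + v) < ε * n := by
      nlinarith [mul_le_mul_of_nonneg_right hn2 hε.le]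
    nlinarith
  rw [Real.dist_eq, abs_lt]
  constructor
  · rw [lt_sub_iff_add_lt, lt_div_iff₀ hn0]
    linarith
  · rw [sub_lt_iff_lt_add, div_lt_iff₀ hn0]
    linarith


end SolLimit
end DisjCyc
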