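import Pool.Agent.Helper470.DC.Upper
import Pool.Agent.Helper470.DC.SolConstr
import Pool.Agent.Helper470.DC.SolLimit
set_option autoImplicit false
open scoped Classical
open Finset Filter Topology

namespace DisjCyc

theorem cyc_girth {V : Type} {G : SimpleGraph V} {g : ℕ}
    (hg : ∀ (v : V) (c : G.Walk v v), c.IsCycle → g ≤ c.length) : ∀ W, Cyc G W → g ≤ W.card := by
  intro W hW
  obtain ⟨v, c, hc, _, hl⟩ := SolCyc.exists_cycle_of_cyc G W hW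
  exact (hg v c hc).trans hl

theorem disjoint_of_KCyc {V : Type} {G : SimpleGraph V} {k : ℕ} {Y : Finset V} (h : KCyc G Y k) :
    HasDisjointCycles G k := by
  obtain ⟨𝒲, h1, h2, h3⟩ := h
  have e : Fin k ≃ 𝒲 := (Fintype.equivFinOfCardEq (by simpa using h1)).symm
  have h4 : ∀ i : Fin k, ∃ (v : V) (c : G.Walk v v), c.IsCycle ∧ (∀ x ∈ c.support, x ∈ (e i).1) := by
    intro i
    obtain ⟨v, c, hc, hs, _⟩ := SolCyc.exists_cycle_of_cyc G (e i).1 (h2 _ (e i).2).2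
    exact ⟨v, c, hc, hs⟩
  choose v c hc hs using h4
  refine ⟨v, c, hc, ?_⟩
  intro i j hij x hx hx'
  have hne : (e i).1 ≠ (e j).1 := fun h => hij (e.injective (Subtype.ext h))
  exact Finset.disjoint_left.1 (h3 _ (e i).2 _ (e j).2 hne) (hs i x hx) (hs j x hx')

theorem upper_bound (k d : ℕ) (hk : 1 ≤ k) (hd : 1 ≤ d) : ∀ M : ℕ, 1 ≤ M → ∃ C : ℕ, ∀ (n : ℕ)
    (G : SimpleGraph (Fin n)),
      (∀ (v : Fin n) (c : G.Walk v v), c.IsCycle → 4 * d + 3 ≤ c.length) → ¬ HasDisjointCycles G k →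
      M * ((2 * k - 1) * d + 1) * G.edgeSet.ncard ≤
        (M * ((2 * k - 1) * (d + 1)) + 10 * ((2 * k - 1) * d + 1)) * n + C := by
  intro M hM
  obtain ⟨K0, hK0⟩ : ∃ x, x = k * (4 * (3 * k * M) + 2) := ⟨_, rfl⟩
  obtain ⟨s', hs'⟩ : ∃ x, x = 2 * M * K0 := ⟨_, rfl⟩
  obtain ⟨C, hC⟩ : ∃ x, x = M * ((2 * (k - 1) + 1) * d + 1) * (K0 * K0 + (K0 * K0 + K0 * ((2 * k + 2) * s') +
    K0 * (K0 * ((2 * k + 2) * s')))) := ⟨_, rfl⟩
  refine ⟨C, fun n G hg hK => ?_⟩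
  have h := upper_core G k d M hk hd hM (cyc_girth hg) (fun Y hY => hK (disjoint_of_KCyc hY)) K0 s' _ C hK0 hs' rfl hC
  rw [SolCyc.ec_univ, Fintype.card_fin] at h
  have e1 : 2 * (k - 1) + 1 = 2 * k - 1 := by omega
  rw [e1] at h
  refine h.trans (Nat.add_le_add_right (Nat.mul_le_mul_right _ ?_) _)
  have e2 : 2 * (k - 1) + ((2 * k - 1) * d + 1) = (2 * k - 1) * (d + 1) := by
    rw [mul_add, mul_one]; omega
  rw [e2]
  omega

/-- the asymptotic edge density -/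
theorem density (k d g : ℕ) (hk : 1 ≤ k) (hd : 1 ≤ d) (hg : g = 4 * d + 3 ∨ g = 4 * d + 4) :
    Tendsto (fun n : ℕ => (maxEdges k n g : ℝ) / n) atTop
      (𝓝 (1 + (2 * (k : ℝ) - 2) / ((2 * (k : ℝ) - 1) * d + 1))) :=
  SolLimit.limit_of_bounds k d g hk hd hg (upper_bound k d hk hd)
    (fun t m => SolConstr.construction k d t m hk hd)

end DisjCyc
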