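import Pool.Agent.Helper470.DC.Base
set_option autoImplicit false
open scoped Classical
open Finset

namespace DisjCyc
namespace SolArith3


theorem arith3_num (K d Φ m m' s N q r : ℕ) (hK : 1 ≤ K) (hd : 1 ≤ d) (hm : m = s + m')
    (h2 : Φ ≤ 2 * K * m) (h3 : d * (Φ + m) + m' ≤ N) (h4 : Φ ≤ (2 * K + 1) * K + 2 * K * m')
    (hq : N + K = q * ((2 * K + 1) * d + 1) + r) :
    Φ ≤ 2 * K * q + max ((r - 1) / d - 1) (min (r / d - 1) K) := by
  rcases Nat.lt_or_ge (2 * K * q) Φ with h | h
  swap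
  · exact h.trans (Nat.le_add_right _ _)
  obtain ⟨b, hb⟩ : ∃ b, Φ = 2 * K * q + b := ⟨Φ - 2 * K * q, by omega⟩
  have hb1 : 1 ≤ b := by omega
  have hmq : q < m := by
    by_contra hcon
    rw [not_lt] at hcon
    have : 2 * K * m ≤ 2 * K * q := Nat.mul_le_mul_left _ hcon
    omega
  obtain ⟨x0, hx0⟩ : ∃ x0, m = q + x0 := ⟨m - q, by omega⟩
  have hx1 : 1 ≤ x0 := by omega
  have key : d * b + d * x0 + x0 + K ≤ r + s := by
    rw [hb, hx0] at h3
    have h5 : q + x0 = s + m' := by omega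
    nlinarith
  have hdx : d ≤ d * x0 := Nat.le_mul_of_pos_right d hx1
  rw [hb]
  apply Nat.add_le_add_left
  have fin1 : d * b + d + 1 ≤ r → b ≤ max ((r - 1) / d - 1) (min (r / d - 1) K) := by
    intro hr
    have h6 : b + 1 ≤ (r - 1) / d := by
      rw [Nat.le_div_iff_mul_le hd]
      have : (b + 1) * d = d * b + d := by ring
      omega
    exact le_max_of_le_left (by omega)
  rcases Nat.lt_or_ge K s with hs | hs
  swap
  · exact fin1 (by omega)
  obtain ⟨j, hj⟩ : ∃ j, s = K + j := ⟨s - K, by omega⟩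
  have hj1 : 1 ≤ j := by omega
  have key2 : b + 2 * K * j ≤ K + 2 * K * x0 := by
    rw [hb] at h4
    have h5 : q + x0 = K + j + m' := by omega
    nlinarith
  rcases Nat.lt_trichotomy x0 j with hxj | hxj | hxj
  · exfalso
    have h6 : 2 * K * (x0 + 1) ≤ 2 * K * j := Nat.mul_le_mul_left _ hxj
    have h7 : 2 * K * (x0 + 1) = 2 * K * x0 + 2 * K := by ring
    omega
  · subst hxj
    have hbK : b ≤ K := by omega
    have hr : d * b + d ≤ r := by omega
    have h6 : b + 1 ≤ r / d := by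
      rw [Nat.le_div_iff_mul_le hd]
      have : (b + 1) * d = d * b + d := by ring
      omega
    exact le_max_of_le_right (le_min (by omega) hbK)
  · exact fin1 (by omega)

/-- TARGET -/
theorem arith3 {ι : Type} (M : Finset ι) (a sz x : ι → ℕ) (k d N q r : ℕ) (hk : 2 ≤ k) (hd : 1 ≤ d)
    (ha : ∀ T ∈ M, 2 ≤ a T ∧ a T ≤ 2 * k - 1) (hs : ∀ T ∈ M, a T * d ≤ sz T)
    (hx : ∀ T ∈ M, sz T = a T * d → a T ≤ x T + 1)
    (hX : ∑ T ∈ M, x T ≤ (2 * k - 1) * (k - 1)) (hN : ∑ T ∈ M, sz T ≤ N)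
    (hq : N + (k - 1) = q * ((2 * k - 1) * d + 1) + r) :
    ∑ T ∈ M, (a T - 1) ≤ (2 * k - 2) * q + max ((r - 1) / d - 1) (min (r / d - 1) (k - 1)) := by
  obtain ⟨K, rfl⟩ : ∃ K, k = K + 1 := ⟨k - 1, by omega⟩
  have hK : 1 ≤ K := by omega
  have e1 : 2 * (K + 1) - 1 = 2 * K + 1 := by omega
  have e2 : 2 * (K + 1) - 2 = 2 * K := by omega
  have e3 : K + 1 - 1 = K := by omega
  rw [e1] at ha hX hq
  rw [e3] at hX hq ⊢
  rw [e2]
  have hcard : M.card = (M.filter (fun T => sz T = a T * d)).card +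
      (M.filter (fun T => ¬ sz T = a T * d)).card :=
    (Finset.card_filter_add_card_filter_not _).symm
  have h1 : ∑ T ∈ M, a T = ∑ T ∈ M, (a T - 1) + M.card := by
    rw [Finset.card_eq_sum_ones, ← Finset.sum_add_distrib]
    refine Finset.sum_congr rfl fun T hT => ?_
    have := (ha T hT).1
    omega
  have h2 : ∑ T ∈ M, (a T - 1) ≤ 2 * K * M.card := by
    have := Finset.sum_le_card_nsmul M (fun T => a T - 1) (2 * K) (fun T hT => by
      have := (ha T hT).2
      show a T - 1 ≤ 2 * K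
      omega)
    rw [smul_eq_mul] at this
    rw [mul_comm]
    exact this
  have h3 : d * (∑ T ∈ M, (a T - 1) + M.card) + (M.filter (fun T => ¬ sz T = a T * d)).card ≤
      N := by
    refine le_trans ?_ hN
    rw [← h1, Finset.mul_sum, Finset.card_filter, ← Finset.sum_add_distrib]
    refine Finset.sum_le_sum fun T hT => ?_
    have h5 := hs T hT
    have h6 : d * a T = a T * d := mul_comm _ _
    split_ifs with h7
    · omega
    · omega
  have h4 : ∑ T ∈ M, (a T - 1) ≤ (2 * K + 1) * K +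
      2 * K * (M.filter (fun T => ¬ sz T = a T * d)).card := by
    rw [← Finset.sum_filter_add_sum_filter_not M (fun T => sz T = a T * d)]
    refine Nat.add_le_add ?_ ?_
    · refine le_trans ?_ hX
      refine le_trans (Finset.sum_le_sum (g := x) fun T hT => ?_)
        (Finset.sum_le_sum_of_subset (Finset.filter_subset _ _))
      rw [Finset.mem_filter] at hT
      have := hx T hT.1 hT.2
      omega
    · have := Finset.sum_le_card_nsmul (M.filter (fun T => ¬ sz T = a T * d)) (fun T => a T - 1)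
        (2 * K) (fun T hT => by
          have := (ha T (Finset.mem_filter.1 hT).1).2
          show a T - 1 ≤ 2 * K
          omega)
      rw [smul_eq_mul] at this
      rw [mul_comm (2 * K)]
      exact this
  exact arith3_num K d _ M.card _ _ N q r hK hd hcard h2 h3 h4 hq


end SolArith3

end DisjCyc
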