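import Pool.Agent.Helper470.DC.SolTree
set_option autoImplicit false
open scoped Classical
open Finset

namespace DisjCyc
namespace SolTCard3
open SolTree
variable {V : Type}


/-- TARGET -/
theorem tree_card3 {V : Type} (F : SimpleGraph V) (hF : Acy F) (T : Finset V) (hT : Tr F T)
    (d : ℕ) (hd : 1 ≤ d) (Q : Finset V) (hQ : Q ⊆ T) (hQ2 : 2 ≤ Q.card)
    (h1 : ∀ p ∈ Q, ∀ q ∈ Q, p ≠ q → ∀ R ⊆ T, Tr F R → p ∈ R → q ∈ R → 2 * d ≤ R.card) :
    Q.card * d ≤ T.card ∧ (T.card = Q.card * d → ∃ E : Finset (Sym2 V), Q.card ≤ E.card + 1 ∧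
      ∀ e ∈ E, ∃ p ∈ Q, ∃ q ∈ Q, p ≠ q ∧ e = s(p, q) ∧
        ∃ R ⊆ T, Tr F R ∧ p ∈ R ∧ q ∈ R ∧ R.card ≤ 2 * d) := by
  obtain ⟨q0, hq0⟩ : Q.Nonempty := by rw [← card_pos]; omega
  obtain ⟨par, dep, h0, hp⟩ := exists_par F hF q0 T.card T rfl hT (hQ hq0)
  have hroot : ∀ v ∈ T, dep v = 0 → v = q0 := by
    intro v hv hv0
    by_contra hne
    have := (hp v hv hne).2.2
    omega
  have htop : ∀ v ∈ T, par^[dep v] v = q0 := by
    intro v hv
    obtain ⟨a, b⟩ := it_mem h0 hp (dep v) v hv le_rfl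
    exact hroot _ a (by omega)
  have hchain : ∀ p ∈ Q, ∃ R ⊆ T, Tr F R ∧ p ∈ R ∧ q0 ∈ R ∧ R.card ≤ dep p + 1 := by
    intro p hp'
    obtain ⟨R, hR, hTr, h2, h3, h4⟩ := lca hF h0 hp p q0 (hQ hp') (hQ hq0) (dep p) 0 le_rfl
      (by omega) (by simpa using htop p (hQ hp'))
    exact ⟨R, hR, hTr, h2, h3, by omega⟩
  have hdep : ∀ p ∈ Q.erase q0, 2 * d ≤ dep p + 1 := by
    intro p hp'
    rw [mem_erase] at hp'
    obtain ⟨R, hR, hTr, h2, h3, h4⟩ := hchain p hp'.2
    have := h1 p hp'.2 q0 hq0 hp'.1 R hR hTr h2 h3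
    omega
  have hQe : ∀ p ∈ Q.erase q0, p ∈ T := fun p hp' => hQ (mem_of_mem_erase hp')
  obtain ⟨p0, hp0⟩ : (Q.erase q0).Nonempty := by
    rw [← card_pos, card_erase_of_mem hq0]; omega
  have hinj : ∀ p ∈ Q.erase q0, ∀ i j : ℕ, i ≤ dep p → j ≤ dep p → par^[i] p = par^[j] p →
      i = j := by
    intro p hp' i j hi hj hij
    obtain ⟨_, b⟩ := it_mem h0 hp i p (hQe p hp') hi
    obtain ⟨_, b'⟩ := it_mem h0 hp j p (hQe p hp') hj
    rw [hij] at b
    omega
  have hPmem : ∀ p ∈ Q.erase q0, ∀ z ∈ (range d).image (fun i => par^[i] p),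
      z ∈ T ∧ d ≤ dep z := by
    intro p hp' z hz
    obtain ⟨i, hi, hz'⟩ := mem_image.1 hz
    rw [mem_range] at hi
    have h2 := hdep p hp'
    obtain ⟨a, b⟩ := it_mem h0 hp i p (hQe p hp') (by omega)
    have hz'' : par^[i] p = z := hz'
    rw [hz''] at a b
    exact ⟨a, by omega⟩
  have hPcard : ∀ p ∈ Q.erase q0, ((range d).image (fun i => par^[i] p)).card = d := by
    intro p hp'
    have h2 := hdep p hp'
    rw [card_image_of_injOn, card_range]
    intro i hi j hj hij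
    simp only [coe_range, Set.mem_Iio] at hi hj
    exact hinj p hp' i j (by omega) (by omega) hij
  have hPdisj : ∀ p ∈ Q.erase q0, ∀ p' ∈ Q.erase q0, p ≠ p' →
      Disjoint ((range d).image (fun i => par^[i] p)) ((range d).image (fun i => par^[i] p')) := by
    intro p hp' p' hp'' hne
    rw [Finset.disjoint_left]
    intro z hz hz'
    obtain ⟨i, hi, hzi⟩ := mem_image.1 hz
    obtain ⟨j, hj, hzj⟩ := mem_image.1 hz'
    rw [mem_range] at hi hj
    have h2 := hdep p hp'
    have h3 := hdep p' hp''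
    have hij : par^[i] p = par^[j] p' := hzi.trans hzj.symm
    obtain ⟨R, hR, hTr, h5, h6, h7⟩ := lca hF h0 hp p p' (hQe p hp') (hQe p' hp'') i j
      (by omega) (by omega) hij
    have := h1 p (mem_of_mem_erase hp') p' (mem_of_mem_erase hp'') hne R hR hTr h5 h6
    omega
  have hCmem : ∀ z ∈ (range d).image (fun i => par^[dep p0 - i] p0), z ∈ T ∧ dep z + 1 ≤ d := by
    intro z hz
    obtain ⟨i, hi, hz'⟩ := mem_image.1 hz
    rw [mem_range] at hi
    have h2 := hdep p0 hp0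
    obtain ⟨a, b⟩ := it_mem h0 hp (dep p0 - i) p0 (hQe p0 hp0) (by omega)
    have hz'' : par^[dep p0 - i] p0 = z := hz'
    rw [hz''] at a b
    exact ⟨a, by omega⟩
  have hCcard : ((range d).image (fun i => par^[dep p0 - i] p0)).card = d := by
    have h2 := hdep p0 hp0
    rw [card_image_of_injOn, card_range]
    intro i hi j hj hij
    simp only [coe_range, Set.mem_Iio] at hi hj
    have := hinj p0 hp0 (dep p0 - i) (dep p0 - j) (by omega) (by omega) hij
    omega
  set U : Finset V := (Q.erase q0).biUnion (fun p => (range d).image (fun i => par^[i] p)) with hU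
  set C : Finset V := (range d).image (fun i => par^[dep p0 - i] p0) with hC
  have hUcard : U.card = (Q.card - 1) * d := by
    rw [hU, card_biUnion hPdisj, sum_congr rfl hPcard, sum_const, card_erase_of_mem hq0,
      smul_eq_mul]
  have hdisj : Disjoint C U := by
    rw [Finset.disjoint_left]
    intro z hz hz'
    rw [hU, mem_biUnion] at hz'
    obtain ⟨p, hp', hz'⟩ := hz'
    have h2 := (hCmem z hz).2
    have h3 := (hPmem p hp' z hz').2
    omega
  have hsub : C ∪ U ⊆ T := by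
    apply union_subset
    · intro z hz
      exact (hCmem z hz).1
    · intro z hz
      rw [hU, mem_biUnion] at hz
      obtain ⟨p, hp', hz'⟩ := hz
      exact (hPmem p hp' z hz').1
  have hcard : (C ∪ U).card = Q.card * d := by
    rw [card_union_of_disjoint hdisj, hUcard, hCcard]
    obtain ⟨m, hm⟩ : ∃ m, Q.card = m + 1 := ⟨Q.card - 1, by omega⟩
    rw [hm, Nat.add_sub_cancel]
    ring
  refine ⟨by rw [← hcard]; exact card_le_card hsub, ?_⟩
  intro hTc
  have hTeq : C ∪ U = T := eq_of_subset_of_card_le hsub (by rw [hcard, hTc])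
  have hphi : ∀ p : V, ∃ q : V, p ∈ Q.erase q0 → q ∈ Q ∧ p ≠ q ∧
      (∃ R ⊆ T, Tr F R ∧ p ∈ R ∧ q ∈ R ∧ R.card ≤ 2 * d) ∧
      (q = q0 ∨ (dep q + 1 = dep p)) := by
    intro p
    by_cases hp' : p ∈ Q.erase q0
    swap
    · exact ⟨p, fun h => absurd h hp'⟩
    have h2 := hdep p hp'
    obtain ⟨a, b⟩ := it_mem h0 hp d p (hQe p hp') (by omega)
    have hz : par^[d] p ∈ C ∪ U := by rw [hTeq]; exact a
    rw [mem_union] at hz
    rcases hz with hz | hz
    · have h3 := (hCmem _ hz).2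
      refine ⟨q0, fun _ => ⟨hq0, (mem_erase.1 hp').1, ?_, Or.inl rfl⟩⟩
      obtain ⟨R, hR, hTr, h4, h5, h6⟩ := hchain p (mem_of_mem_erase hp')
      exact ⟨R, hR, hTr, h4, h5, by omega⟩
    · rw [hU, mem_biUnion] at hz
      obtain ⟨p', hp'', hz⟩ := hz
      obtain ⟨i, hi, hzi⟩ := mem_image.1 hz
      rw [mem_range] at hi
      have hzi' : par^[i] p' = par^[d] p := hzi
      have h3 := hdep p' hp''
      have hne : p ≠ p' := by
        intro e
        subst e
        have := hinj p hp' i d (by omega) (by omega) hzi'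
        omega
      obtain ⟨R, hR, hTr, h4, h5, h6⟩ := lca hF h0 hp p p' (hQe p hp') (hQe p' hp'') d i
        (by omega) (by omega) hzi'.symm
      have h7 := h1 p (mem_of_mem_erase hp') p' (mem_of_mem_erase hp'') hne R hR hTr h4 h5
      obtain ⟨_, b'⟩ := it_mem h0 hp i p' (hQe p' hp'') (by omega)
      rw [hzi'] at b'
      exact ⟨p', fun _ => ⟨mem_of_mem_erase hp'', hne, ⟨R, hR, hTr, h4, h5, by omega⟩,
        Or.inr (by omega)⟩⟩
  choose φ hφ using hphi
  refine ⟨(Q.erase q0).image (fun p => s(p, φ p)), ?_, ?_⟩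
  · rw [card_image_of_injOn, card_erase_of_mem hq0]
    · omega
    · intro p hp' p' hp'' he
      have hp1 : p ∈ Q.erase q0 := hp'
      have hp2 : p' ∈ Q.erase q0 := hp''
      have he' : s(p, φ p) = s(p', φ p') := he
      rcases Sym2.eq_iff.1 he' with ⟨h2, _⟩ | ⟨h2, h3⟩
      · exact h2
      · exfalso
        obtain ⟨_, _, _, h4⟩ := hφ p hp1
        obtain ⟨_, _, _, h5⟩ := hφ p' hp2
        rw [h3] at h4
        rw [← h2] at h5
        rcases h4 with h4 | h4
        · exact (mem_erase.1 hp2).1 h4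
        · rcases h5 with h5 | h5
          · exact (mem_erase.1 hp1).1 h5
          · omega
  · intro e he
    obtain ⟨p, hp', rfl⟩ := mem_image.1 he
    obtain ⟨h2, h3, h4, _⟩ := hφ p hp'
    exact ⟨p, mem_of_mem_erase hp', φ p, h2, h3, rfl, h4⟩


end SolTCard3

end DisjCyc
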