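import Pool.Agent.Helper470.DC.SolExact
import Pool.Agent.Helper470.DC.SolTCard3
import Pool.Agent.Helper470.DC.SolArith3
set_option autoImplicit false
open scoped Classical
open Finset

namespace DisjCyc
namespace SolExact3
open SolExact SolTCard3 SolArith3

theorem exact_of_pieces_D3 {V : Type} {F G : SimpleGraph V} (hF : Acy F) (d : ℕ) (hd : 1 ≤ d)
    (T K : Finset V) (hT : Tr F T) (hK : 2 ≤ K.card) (h1 : ∀ i ∈ K, 1 ≤ dg G T i)
    (hfar : ∀ i ∈ K, ∀ j ∈ K, i ≠ j → ∀ p ∈ T, ∀ q ∈ T, G.Adj p i → G.Adj q j →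
      ∀ R ⊆ T, Tr F R → p ∈ R → q ∈ R → 2 * d ≤ R.card) :
    K.card * d ≤ T.card ∧ (T.card = K.card * d → ∀ X : Finset (Sym2 V),
      (∀ i ∈ K, ∀ j ∈ K, i ≠ j → ∀ R ⊆ T, Tr F R → 1 ≤ dg G R i → 1 ≤ dg G R j →
        R.card ≤ 2 * d → s(i, j) ∈ X) → K.card ≤ X.card + 1) := by
  have h2 : ∀ i : V, ∃ p : V, i ∈ K → p ∈ T ∧ G.Adj i p := by
    intro i
    by_cases hi : i ∈ K
    · obtain ⟨p, hp, hip⟩ := dg_pos_iff.1 (h1 i hi)
      exact ⟨p, fun _ => ⟨hp, hip⟩⟩
    · exact ⟨i, fun h => absurd h hi⟩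
  choose att hatt using h2
  have hinj : ∀ i ∈ K, ∀ j ∈ K, att i = att j → i = j := by
    intro i hi j hj h
    by_contra hij
    have h3 := hfar i hi j hj hij (att i) (hatt i hi).1 (att i) (hatt i hi).1
      (hatt i hi).2.symm (by rw [h]; exact (hatt j hj).2.symm) {att i}
      (by simpa using (hatt i hi).1) (Tr_singleton F _) (by simp) (by simp)
    rw [card_singleton] at h3
    omega
  have hcard : (K.image att).card = K.card :=
    card_image_of_injOn (fun i hi j hj h => hinj i hi j hj h)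
  have h3 := tree_card3 F hF T hT d hd (K.image att) (by
      intro x hx
      obtain ⟨i, hi, rfl⟩ := mem_image.1 hx
      exact (hatt i hi).1) (by rw [hcard]; exact hK) (by
      intro p hp q hq hpq R hR hTR hpR hqR
      obtain ⟨i, hi, rfl⟩ := mem_image.1 hp
      obtain ⟨j, hj, rfl⟩ := mem_image.1 hq
      have hij : i ≠ j := fun h => hpq (by rw [h])
      exact hfar i hi j hj hij _ (hatt i hi).1 _ (hatt j hj).1 (hatt i hi).2.symm
        (hatt j hj).2.symm R hR hTR hpR hqR)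
  rw [hcard] at h3
  refine ⟨h3.1, fun h X hX => ?_⟩
  obtain ⟨E, hE1, hE2⟩ := h3.2 h
  have h4 : E ⊆ X.image (Sym2.map att) := by
    intro e he
    obtain ⟨p, hp, q, hq, hpq, rfl, R, hR, hTR, hpR, hqR, hc⟩ := hE2 e he
    obtain ⟨i, hi, rfl⟩ := mem_image.1 hp
    obtain ⟨j, hj, rfl⟩ := mem_image.1 hq
    have hij : i ≠ j := fun h => hpq (by rw [h])
    refine mem_image.2 ⟨s(i, j), hX i hi j hj hij R hR hTR (dg_pos_iff.2 ⟨_, hpR, (hatt i hi).2⟩)
      (dg_pos_iff.2 ⟨_, hqR, (hatt j hj).2⟩) hc, ?_⟩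
    rfl
  have h5 := (card_le_card h4).trans card_image_le
  omega

/-- TARGET : exact bound from the structure, girth at least `4 d + 3` -/
theorem exact_of_pieces3 {V : Type} [Fintype V] (G : SimpleGraph V) (k d : ℕ) (hk : 2 ≤ k) (hd : 1 ≤ d)
    (hg : ∀ W, Cyc G W → 4 * d + 3 ≤ W.card) (hK : ∀ Y, ¬ KCyc G Y k)
    (H : Finset V) (hH : H.card = 2 * k - 1) (Pc : Finset (Finset V)) (hN : 2 * k + 2 ≤ Pc.card)
    (hdis : ∀ P ∈ Pc, ∀ P' ∈ Pc, P ≠ P' → Disjoint P P') (hPH : ∀ P ∈ Pc, Disjoint P H)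
    (hTr : ∀ P ∈ Pc, Tr G P) (hno : ∀ P ∈ Pc, ∀ W ⊆ P, ¬ Cyc G W)
    (hout : ∀ P ∈ Pc, ∀ u ∈ P, ∀ w, G.Adj u w → w ∈ P ∨ w ∈ H)
    (h1 : ∀ P ∈ Pc, ∀ i ∈ H, dg G P i = 1) (hc : ∀ P ∈ Pc, P.card = (2 * k - 1) * d + 1)
    (hfar : ∀ P ∈ Pc, ∀ i ∈ H, ∀ j ∈ H, i ≠ j → ∀ p ∈ P, ∀ q ∈ P, G.Adj p i → G.Adj q j →
      ∀ R ⊆ P, Tr G R → p ∈ R → q ∈ R → 2 * d + 1 ≤ R.card) (q r : ℕ)
    (hqr : Fintype.card V - (2 * k - 1) + (k - 1) = q * ((2 * k - 1) * d + 1) + r) :
    ec G univ ≤ (Fintype.card V - (2 * k - 1)) +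
      ((2 * k - 2) * q + max ((r - 1) / d - 1) (min (r / d - 1) (k - 1))) := by
  -- no cyclic set outside `H`
  have hno' : ∀ W, Disjoint W H → ¬ Cyc G W := by
    intro W hWH hW
    obtain ⟨W', hW'W, hW', hd'⟩ := exact_of_pieces_A G H Pc hno hout W hW hWH
    obtain ⟨J, hJH, hJ⟩ := exists_subset_card_eq (s := H) (n := 2 * k - 2) (by omega)
    exact exact_of_pieces_B G k hk hK H Pc hN hdis hPH hTr h1 W' J hW' hd' hJH hJ
      ((hWH.mono_left hW'W).mono_right hJH)
  obtain ⟨F, hFadj⟩ : ∃ F : SimpleGraph V, ∀ u v, F.Adj u v ↔ G.Adj u v ∧ u ∉ H ∧ v ∉ H := by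
    refine ⟨SimpleGraph.fromRel (fun u v => G.Adj u v ∧ u ∉ H ∧ v ∉ H), fun u v => ?_⟩
    rw [SimpleGraph.fromRel_adj]
    constructor
    · rintro ⟨_, h | h⟩
      · exact h
      · exact ⟨h.1.symm, h.2.2, h.2.1⟩
    · intro h
      exact ⟨h.1.ne, Or.inl h⟩
  have hFG : F ≤ G := fun u v h => ((hFadj u v).1 h).1
  have hF : Acy F := exact_of_pieces_Acy hFadj hno'
  obtain ⟨S, hS⟩ : ∃ S : Finset V, S = univ \ H := ⟨_, rfl⟩
  have hecS : ∀ T, Disjoint T H → ec F T = ec G T := exact_of_pieces_ec hFadj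
  have hSH : Disjoint S H := by rw [hS]; exact sdiff_disjoint
  have hdisS : ∀ T : Finset V, T ⊆ S → Disjoint T H := fun T hT => hSH.mono_left hT
  have hPS : ∀ P ∈ Pc, P ⊆ S := by
    intro P hP x hx
    rw [hS, mem_sdiff]
    exact ⟨mem_univ _, Finset.disjoint_left.1 (hPH P hP) hx⟩
  have hPF : ∀ P ∈ Pc, Tr F P := fun P hP =>
    ⟨(hTr P hP).1, by rw [hecS P (hPH P hP)]; exact (hTr P hP).2⟩
  have hPC : ∀ P ∈ Pc, P ∈ comps F S := by
    intro P hP
    obtain ⟨p, hp⟩ := (hTr P hP).1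
    have hpS := hPS P hP hp
    have hsub : P ⊆ comp F S p := subset_comp (hPS P hP) (hPF P hP) hp
    have hsub' : comp F S p ⊆ P := by
      by_contra hcon
      have hne : (comp F S p \ P).Nonempty := by
        rw [Finset.nonempty_iff_ne_empty]
        intro h
        exact hcon (sdiff_eq_empty_iff_subset.1 h)
      have hdj : Disjoint P (comp F S p \ P) := disjoint_sdiff
      have h2 := ec_union_disj F hdj
      have h0 : ∑ a ∈ P, dg F (comp F S p \ P) a = 0 := by
        apply sum_eq_zero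
        intro a ha
        apply exact_of_pieces_dg0
        intro w hw haw
        rw [mem_sdiff] at hw
        rcases hout P hP a ha w (hFG haw) with h | h
        · exact hw.2 h
        · exact Finset.disjoint_left.1 hSH (comp_subset F S p hw.1) h
      have hU : P ∪ (comp F S p \ P) = comp F S p := union_sdiff_of_subset hsub
      rw [hU, h0, add_zero] at h2
      have h3 := (Tr_comp hF hpS).2
      have h4 := (hPF P hP).2
      have h5 := hF _ hne
      have h6 := card_union_of_disjoint hdj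
      rw [hU] at h6
      omega
    exact mem_comps.2 ⟨p, hpS, Subset.antisymm hsub' hsub⟩
  have hTP : ∀ T ∈ comps F S, T ∉ Pc → ∀ P ∈ Pc, Disjoint T P := fun T hT hTP P hP =>
    comps_disjoint hF hT (hPC P hP) (fun e => hTP (e ▸ hP))
  have hpair : ∀ P ∈ Pc, ∀ i ∈ H, ∀ j ∈ H, i ≠ j → ∃ R ⊆ P, Tr F R ∧ 1 ≤ dg G R i ∧
      1 ≤ dg G R j ∧ R.card ≤ 2 * d + 1 := by
    intro P hP
    refine (exact_of_pieces_D hF d hd P H (hPF P hP) (by omega)
      (fun i hi => (h1 P hP i hi).ge) ?_).2 (by rw [hc P hP, hH])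
    intro i hi j hj hij p hp q hq hpi hqj R hR hTR hpR hqR
    exact hfar P hP i hi j hj hij p hp q hq hpi hqj R hR
      ⟨hTR.1, by rw [← hecS R ((hPH P hP).mono_left hR)]; exact hTR.2⟩ hpR hqR
  have hTH : ∀ T ∈ comps F S, Disjoint T H := fun T hT => hdisS T (comps_subset hT)
  have hdg : ∀ T ∈ comps F S, ∀ h ∈ H, dg G T h ≤ 1 := by
    intro T hT h hh
    by_cases hTPc : T ∈ Pc
    · rw [h1 T hTPc h hh]
    · by_contra hcon
      have hhT : h ∉ T := fun h' => Finset.disjoint_left.1 (hTH T hT) h' hh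
      have h2 := cyc_solo hFG (comps_Tr hF hT) hhT (by omega)
      refine exact_of_pieces_B G k hk hK H Pc hN hdis hPH hTr h1 (insert h T) (H.erase h) h2 ?_
        (erase_subset _ _) (by rw [card_erase_of_mem hh]; omega) ?_
      · intro P hP
        rw [disjoint_insert_left]
        exact ⟨fun h' => Finset.disjoint_left.1 (hPH P hP) h' hh, hTP T hT hTPc P hP⟩
      · rw [disjoint_insert_left]
        exact ⟨by simp, (hTH T hT).mono_right (erase_subset _ _)⟩
  have hfar' : ∀ T ∈ comps F S, ∀ i ∈ H, ∀ j ∈ H, i ≠ j → ∀ p ∈ T, ∀ q ∈ T, G.Adj p i →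
      G.Adj q j → ∀ R ⊆ T, Tr F R → p ∈ R → q ∈ R → 2 * d ≤ R.card := by
    intro T hT i hi j hj hij p hp q hq hpi hqj R hR hTR hpR hqR
    obtain ⟨P, hP, hPT⟩ : ∃ P ∈ Pc, P ≠ T := by
      have h2 : 1 < Pc.card := by omega
      obtain ⟨A, hA, B, hB, hAB⟩ := one_lt_card.1 h2
      by_cases h3 : A = T
      · exact ⟨B, hB, fun e => hAB (h3.trans e.symm)⟩
      · exact ⟨A, hA, h3⟩
    have hdPT : Disjoint T P := comps_disjoint hF hT (hPC P hP) hPT.symm
    obtain ⟨R', hR', hTR', hi', hj', hc'⟩ := hpair P hP i hi j hj hij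
    have hRH : Disjoint R H := (hTH T hT).mono_left hR
    have hR'H : Disjoint R' H := (hPH P hP).mono_left hR'
    have hdRR : Disjoint R R' := (hdPT.mono_left hR).mono_right hR'
    have hiR : i ∉ R := fun h => Finset.disjoint_left.1 hRH h hi
    have hiR' : i ∉ R' := fun h => Finset.disjoint_left.1 hR'H h hi
    have hjR : j ∉ R := fun h => Finset.disjoint_left.1 hRH h hj
    have hjR' : j ∉ R' := fun h => Finset.disjoint_left.1 hR'H h hj
    have h2 := cyc_pair hFG hTR hTR' hdRR hij hiR hiR' hjR hjR'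
      (dg_pos_iff.2 ⟨p, hpR, hpi.symm⟩) (dg_pos_iff.2 ⟨q, hqR, hqj.symm⟩) hi' hj'
    have h3 := hg _ h2
    have e1 : i ∉ insert j (R ∪ R') := by simp [hij, hiR, hiR']
    have e2 : j ∉ R ∪ R' := by simp [hjR, hjR']
    rw [card_insert_of_notMem e1, card_insert_of_notMem e2, card_union_of_disjoint hdRR] at h3
    omega
  have hHind : ec G H = 0 := by
    have h2 := handshake G H
    have h3 : ∑ v ∈ H, dg G H v = 0 := by
      apply sum_eq_zero
      intro i hi
      apply exact_of_pieces_dg0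
      intro j hj hij
      obtain ⟨P, hP⟩ : Pc.Nonempty := card_pos.1 (by omega)
      obtain ⟨R', hR', hTR', hi', hj', hc'⟩ := hpair P hP i hi j hj hij.ne
      have hR'H : Disjoint R' H := (hPH P hP).mono_left hR'
      have hiR' : i ∉ R' := fun h => Finset.disjoint_left.1 hR'H h hi
      have hjR' : j ∉ R' := fun h => Finset.disjoint_left.1 hR'H h hj
      have e1 : i ∉ insert j R' := by simp [hij.ne, hiR']
      have h4 : 2 ≤ dg G (insert j R') i := by
        have hd1 : Disjoint ({j} : Finset V) R' := by simpa using hjR'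
        have e3 : insert j R' = {j} ∪ R' := rfl
        rw [e3, dg_union_disj G hd1]
        have h5 : 1 ≤ dg G {j} i := dg_pos_iff.2 ⟨j, by simp, hij⟩
        omega
      have h5 : Cyc G (insert i (insert j R')) := by
        refine ⟨by simp, ?_⟩
        rw [ec_insert G e1, ec_insert G hjR', card_insert_of_notMem e1,
          card_insert_of_notMem hjR']
        have h6 := ec_mono_graph hFG R'
        have h7 := hTR'.2
        omega
      have h6 := hg _ h5
      rw [card_insert_of_notMem e1, card_insert_of_notMem hjR'] at h6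
      omega
    omega
  -- attachments of the components
  have ha_eq : ∀ T ∈ comps F S, ∑ h ∈ H, dg G T h =
      (H.filter (fun h => 1 ≤ dg G T h)).card := by
    intro T hT
    rw [card_filter]
    refine sum_congr rfl fun h hh => ?_
    have h2 := hdg T hT h hh
    split_ifs with h3 <;> omega
  have ha_le : ∀ T ∈ comps F S, ∑ h ∈ H, dg G T h ≤ 2 * k - 1 := by
    intro T hT
    rw [ha_eq T hT, ← hH]
    exact card_filter_le _ _
  obtain ⟨ex, hex⟩ : ∃ ex : Finset V → Finset (Sym2 V), ∀ T, ex T = H.sym2.filter (fun e =>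
      ∃ i ∈ H, ∃ j ∈ H, i ≠ j ∧ e = s(i, j) ∧ ∃ R ⊆ T, Tr F R ∧ 1 ≤ dg G R i ∧ 1 ≤ dg G R j ∧
        R.card ≤ 2 * d) := ⟨_, fun _ => rfl⟩
  have ha_card : ∀ T ∈ comps F S, 2 ≤ ∑ h ∈ H, dg G T h →
      (∑ h ∈ H, dg G T h) * d ≤ T.card ∧ (T.card = (∑ h ∈ H, dg G T h) * d →
        (∑ h ∈ H, dg G T h) ≤ (ex T).card + 1) := by
    intro T hT h2
    rw [ha_eq T hT] at h2 ⊢
    have h3 := exact_of_pieces_D3 (G := G) hF d hd T (H.filter (fun h => 1 ≤ dg G T h)) (comps_Tr hF hT) h2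
      (fun i hi => (mem_filter.1 hi).2) (by
        intro i hi j hj hij p hp q hq hpi hqj R hR hTR hpR hqR
        exact hfar' T hT i (mem_filter.1 hi).1 j (mem_filter.1 hj).1 hij p hp q hq hpi hqj R hR hTR
          hpR hqR)
    refine ⟨h3.1, fun h4 => h3.2 h4 (ex T) ?_⟩
    intro i hi j hj hij R hR hTR h5 h6 h7
    rw [hex, mem_filter, mk_mem_sym2_iff]
    have hiH := (mem_filter.1 hi).1
    have hjH := (mem_filter.1 hj).1
    exact ⟨⟨hiH, hjH⟩, i, hiH, j, hjH, hij, rfl, R, hR, hTR, h5, h6, h7⟩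
  -- counting
  have hSc : S.card = Fintype.card V - (2 * k - 1) := by
    rw [hS, card_sdiff_of_subset (subset_univ _), card_univ, hH]
  have hcount : ec G univ = (∑ T ∈ comps F S, ec F T) +
      ∑ T ∈ comps F S, ∑ h ∈ H, dg G T h := by
    have hU : H ∪ S = univ := by
      rw [hS]
      exact union_sdiff_of_subset (subset_univ _)
    rw [← hU, ec_union_disj G hSH.symm, hHind, zero_add, ← hecS S hSH, sum_comm]
    congr 1
    · conv_lhs => rw [← comps_biUnion (F := F) (S := S)]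
      refine exact_of_pieces_ecU F _ (fun A hA B hB h => comps_disjoint hF hA hB h) ?_
      intro A hA B hB hAB u hu w hw huw
      have := comps_adj hF hA hu (comps_subset hB hw) huw
      exact Finset.disjoint_left.1 (comps_disjoint hF hA hB hAB) this hw
    · refine sum_congr rfl fun h _ => ?_
      conv_lhs => rw [← comps_biUnion (F := F) (S := S)]
      exact exact_of_pieces_dgU G _ (fun A hA B hB h => comps_disjoint hF hA hB h) h
  have hsumT : (∑ T ∈ comps F S, ec F T) + (comps F S).card = S.card := by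
    rw [← comps_card_sum hF S, card_eq_sum_ones, ← sum_add_distrib]
    exact sum_congr rfl fun T hT => (comps_Tr hF hT).2
  obtain ⟨M, hM⟩ : ∃ M, M = (comps F S).filter (fun T => 2 ≤ ∑ h ∈ H, dg G T h) := ⟨_, rfl⟩
  have hMmem : ∀ T ∈ M, T ∈ comps F S ∧ 2 ≤ ∑ h ∈ H, dg G T h := by
    intro T hT
    rw [hM, mem_filter] at hT
    exact hT
  have hsuma : ∑ T ∈ comps F S, ∑ h ∈ H, dg G T h ≤
      (comps F S).card + ∑ T ∈ M, ((∑ h ∈ H, dg G T h) - 1) := by
    rw [hM, sum_filter, card_eq_sum_ones, ← sum_add_distrib]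
    refine sum_le_sum fun T hT => ?_
    split_ifs with h3 <;> omega
  have hxdis : ∀ T ∈ M, ∀ T' ∈ M, T ≠ T' → Disjoint (ex T) (ex T') := by
    intro T hT T' hT' hne
    rw [Finset.disjoint_left]
    intro e he he'
    rw [hex, mem_filter] at he he'
    obtain ⟨-, i, hi, j, hj, hij, rfl, R, hR, hTR, h5, h6, h7⟩ := he
    obtain ⟨-, i', hi', j', hj', hij', he', R', hR', hTR', h5', h6', h7'⟩ := he'
    have hT1 := (hMmem T hT).1
    have hT1' := (hMmem T' hT').1
    have h8 : 1 ≤ dg G R' i ∧ 1 ≤ dg G R' j := by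
      rcases Sym2.eq_iff.1 he' with ⟨h9, h10⟩ | ⟨h9, h10⟩
      · rw [h9, h10]; exact ⟨h5', h6'⟩
      · rw [h9, h10]; exact ⟨h6', h5'⟩
    have hdRR : Disjoint R R' :=
      ((comps_disjoint hF hT1 hT1' hne).mono_left hR).mono_right hR'
    have hRH : Disjoint R H := (hTH T hT1).mono_left hR
    have hR'H : Disjoint R' H := (hTH T' hT1').mono_left hR'
    have hiR : i ∉ R := fun h => Finset.disjoint_left.1 hRH h hi
    have hiR' : i ∉ R' := fun h => Finset.disjoint_left.1 hR'H h hi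
    have hjR : j ∉ R := fun h => Finset.disjoint_left.1 hRH h hj
    have hjR' : j ∉ R' := fun h => Finset.disjoint_left.1 hR'H h hj
    have h2 := cyc_pair hFG hTR hTR' hdRR hij hiR hiR' hjR hjR' h5 h6 h8.1 h8.2
    have h3 := hg _ h2
    have e1 : i ∉ insert j (R ∪ R') := by simp [hij, hiR, hiR']
    have e2 : j ∉ R ∪ R' := by simp [hjR, hjR']
    rw [card_insert_of_notMem e1, card_insert_of_notMem e2, card_union_of_disjoint hdRR] at h3
    omega
  have hX : ∑ T ∈ M, (ex T).card ≤ (2 * k - 1) * (k - 1) := by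
    rw [← card_biUnion hxdis]
    have h2 : M.biUnion ex ⊆ H.offDiag.image Sym2.mk.uncurry := by
      intro e he
      obtain ⟨T, hT, he⟩ := mem_biUnion.1 he
      rw [hex, mem_filter] at he
      obtain ⟨-, i, hi, j, hj, hij, rfl, -⟩ := he
      exact mem_image.2 ⟨(i, j), mem_offDiag.2 ⟨hi, hj, hij⟩, rfl⟩
    have h3 := card_le_card h2
    rw [Sym2.card_image_offDiag, hH, Nat.choose_two_right] at h3
    have h4 : (2 * k - 1) * (2 * k - 1 - 1) / 2 = (2 * k - 1) * (k - 1) := by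
      have h5 : 2 * k - 1 - 1 = 2 * (k - 1) := by omega
      rw [h5, ← mul_assoc, mul_comm (2 * k - 1) 2, mul_assoc]
      exact Nat.mul_div_cancel_left _ (by norm_num)
    rw [h4] at h3
    exact h3
  have hfin := arith3 M (fun T => ∑ h ∈ H, dg G T h) (fun T => T.card) (fun T => (ex T).card) k d
    S.card q r hk hd (fun T hT => ⟨(hMmem T hT).2, ha_le T (hMmem T hT).1⟩)
    (fun T hT => (ha_card T (hMmem T hT).1 (hMmem T hT).2).1)
    (fun T hT => (ha_card T (hMmem T hT).1 (hMmem T hT).2).2) hX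
    (by
      rw [← comps_card_sum hF S]
      apply sum_le_sum_of_subset
      rw [hM]
      exact filter_subset _ _)
    (by rw [hSc]; exact hqr)
  beta_reduce at hfin
  rw [← hSc]
  omega


end SolExact3

end DisjCyc
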