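import Pool.Agent.Helper470.DC.DStarDef
set_option autoImplicit false
open scoped Classical
open Finset

namespace DisjCyc
namespace SolDStar


/-- the second component of the parent -/
noncomputable def j24092_b {m : ℕ} (τ : Fin m) : Option (Fin m × Bool) → Bool
  | none => false
  | some (j, c) => if j = τ then false else if τ < j then c else !c

/-- TARGET -/
theorem exists_dstar (m : ℕ) : ∃ rt pr rk, DStar m rt pr rk := by
  refine ⟨fun τ => some (τ, false), fun τ x => some (τ, j24092_b τ x),
    fun τ x => if x = some (τ, false) then 0 else if x = some (τ, true) then 1 else 2, ?_, ?_, ?_⟩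
  · intro τ x hx
    have hx' : x ≠ some (τ, false) := hx
    show (if (some (τ, j24092_b τ x) : Option (Fin m × Bool)) = some (τ, false) then 0 else
      if (some (τ, j24092_b τ x) : Option (Fin m × Bool)) = some (τ, true) then 1 else 2) <
      (if x = some (τ, false) then 0 else if x = some (τ, true) then 1 else 2)
    rw [if_neg hx']
    by_cases hx2 : x = some (τ, true)
    · subst hx2
      have h1 : j24092_b τ (some (τ, true)) = false := if_pos rfl
      rw [h1, if_pos rfl, if_pos rfl]
      exact Nat.zero_lt_one
    · rw [if_neg hx2]
      cases hb : j24092_b τ x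
      · rw [if_pos rfl]
        norm_num
      · rw [if_neg (by simp), if_pos rfl]
        norm_num
  · intro τ τ' x x' hx hx' h
    rcases Sym2.eq_iff.1 h with ⟨h1, h2⟩ | ⟨h1, h2⟩
    · simp only [Option.some.injEq, Prod.mk.injEq] at h2
      exact h2.1
    · by_contra hne
      have hne' : τ' ≠ τ := fun h => hne h.symm
      set c := j24092_b τ x with hc
      set c' := j24092_b τ' x' with hc'
      rw [h1] at hc
      rw [← h2] at hc'
      have e1 : c = if τ < τ' then c' else !c' := by
        rw [hc]
        show (if τ' = τ then false else if τ < τ' then c' else !c') = _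
        rw [if_neg hne']
      have e2 : c' = if τ' < τ then c else !c := by
        rw [hc']
        show (if τ = τ' then false else if τ' < τ then c else !c) = _
        rw [if_neg hne]
      rcases lt_or_gt_of_ne hne with hlt | hlt
      · rw [if_pos hlt] at e1
        rw [if_neg (not_lt.2 hlt.le)] at e2
        rw [e1] at e2
        revert e2
        cases c' <;> simp
      · rw [if_neg (not_lt.2 (le_of_lt hlt))] at e1
        rw [if_pos hlt] at e2
        rw [e2] at e1
        revert e1
        cases c <;> simp
  · intro τ x j hx h
    rcases Sym2.eq_iff.1 h with ⟨h1, h2⟩ | ⟨h1, h2⟩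
    · exact absurd h2 (by simp)
    · subst h1
      have h3 : j24092_b τ none = false := rfl
      simp only [h3, Option.some.injEq, Prod.mk.injEq] at h2
      exact absurd h2.2 (by simp)


end SolDStar

end DisjCyc
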