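import Pool.Agent.Helper470.DC.LGDef
set_option autoImplicit false
open scoped Classical
open Finset

namespace DisjCyc
namespace SolLG2


theorem lgc_lt {L I : Type} {d : ℕ} (τ : I) (i : L) {j : ℕ} (h : j < d) :
    (ptL τ i j : VL L I d) = Sum.inr (Sum.inl (τ, i, ⟨j, h⟩)) := by
  unfold ptL
  rw [dif_pos h]

theorem lgc_ge {L I : Type} {d : ℕ} (τ : I) (i : L) {j : ℕ} (h : ¬ j < d) :
    (ptL τ i j : VL L I d) = Sum.inl i := by
  unfold ptL
  rw [dif_neg h]

theorem lgc_inj {L I : Type} {d : ℕ} {τ τ' : I} {i i' : L} {j j' : ℕ} (h : j < d)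
    (he : (ptL τ i j : VL L I d) = ptL τ' i' j') : τ = τ' ∧ i = i' ∧ j = j' := by
  rw [lgc_lt τ i h] at he
  by_cases h' : j' < d
  · rw [lgc_lt τ' i' h'] at he
    have h1 := Sum.inl_injective (Sum.inr_injective he)
    rw [Prod.mk.injEq, Prod.mk.injEq, Fin.mk.injEq] at h1
    exact h1
  · rw [lgc_ge τ' i' h'] at he
    exact absurd he Sum.inr_ne_inl

theorem lgc_cen {L I : Type} {d : ℕ} (τ τ' : I) (i : L) (j : ℕ) :
    (ptL τ i j : VL L I d) ≠ cenL τ' := by
  intro he
  unfold cenL at he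
  by_cases h : j < d
  · rw [lgc_lt τ i h] at he
    exact Sum.inl_ne_inr (Sum.inr_injective he)
  · rw [lgc_ge τ i h] at he
    exact Sum.inl_ne_inr he

/-- second end of the edge with index `(τ, i, j)` -/
noncomputable def lgcB {L I : Type} {d : ℕ} (C : Finset I) (pr : I → L → L) (p : I × L × ℕ) :
    VL L I d :=
  if p.2.2 = 0 then (if p.1 ∈ C then cenL p.1 else ptL p.1 (pr p.1 p.2.1) 0)
    else ptL p.1 p.2.1 p.2.2

/-- the edge with index `(τ, i, j)` -/
noncomputable def lgcF {L I : Type} {d : ℕ} (C : Finset I) (pr : I → L → L) (p : I × L × ℕ) :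
    Sym2 (VL L I d) :=
  s(ptL p.1 p.2.1 (p.2.2 - 1), lgcB C pr p)

theorem lgc_present {L I : Type} [Fintype L] [Fintype I] {d : ℕ} (A : I → Finset L)
    (C : Finset I) (τ : I) (i : L) (hi : i ∈ A τ) (j : ℕ) :
    (ptL τ i j : VL L I d) ∈ presentL A C := by
  unfold presentL
  rw [mem_filter]
  refine ⟨mem_univ _, ?_⟩
  by_cases h : j < d
  · rw [lgc_lt τ i h]
    exact Or.inr (Or.inl ⟨τ, i, hi, ⟨j, h⟩, rfl⟩)
  · rw [lgc_ge τ i h]
    exact Or.inl ⟨i, rfl⟩

theorem lgc_cpresent {L I : Type} [Fintype L] [Fintype I] {d : ℕ} (A : I → Finset L)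
    (C : Finset I) (τ : I) (hτ : τ ∈ C) : (cenL τ : VL L I d) ∈ presentL A C := by
  unfold presentL
  rw [mem_filter]
  exact ⟨mem_univ _, Or.inr (Or.inr ⟨τ, hτ, rfl⟩)⟩

theorem lgc_card {L I : Type} [Fintype L] [Fintype I] {d : ℕ} (A : I → Finset L)
    (C : Finset I) :
    (presentL (d := d) A C).card = Fintype.card L + d * (∑ τ, (A τ).card) + C.card := by
  have e : presentL (d := d) A C = (univ : Finset L).disjSum
      (((univ : Finset (I × L × Fin d)).filter (fun p => p.2.1 ∈ A p.1)).disjSum C) := by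
    ext x
    unfold presentL
    rw [mem_filter]
    rcases x with i | ⟨⟨τ, i, j⟩ | τ⟩
    · simp
    · simp [cenL]
    · simp [cenL]
  have e2 : ((univ : Finset (I × L × Fin d)).filter (fun p => p.2.1 ∈ A p.1)).card =
      d * ∑ τ, (A τ).card := by
    rw [Finset.card_filter, Fintype.sum_prod_type, Finset.mul_sum]
    refine Finset.sum_congr rfl fun τ _ => ?_
    rw [Fintype.sum_prod_type]
    have : ∀ i : L, ∑ _j : Fin d, (if i ∈ A τ then 1 else 0) = if i ∈ A τ then d else 0 := by
      intro i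
      rw [Finset.sum_const, Finset.card_univ, Fintype.card_fin, smul_eq_mul]
      split_ifs <;> simp
    simp only [this]
    rw [← Finset.sum_filter, Finset.sum_const, Finset.filter_mem_eq_inter, Finset.univ_inter,
      smul_eq_mul, mul_comm]
  rw [e, Finset.card_disjSum, Finset.card_disjSum, e2, Finset.card_univ, add_assoc]

/-- TARGET -/
theorem LG_count {L I : Type} [Fintype L] [Fintype I] {d : ℕ} (hd : 1 ≤ d) (A : I → Finset L)
    (C : Finset I) (rt : I → L) (pr : I → L → L) (rk : I → L → ℕ)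
    (hrt : ∀ τ, τ ∉ C → rt τ ∈ A τ)
    (hpr : ∀ τ, τ ∉ C → ∀ i ∈ A τ, i ≠ rt τ → pr τ i ∈ A τ ∧ rk τ (pr τ i) < rk τ i) :
    (∀ u v : VL L I d, (LG A C rt pr).Adj u v → u ∈ presentL A C ∧ v ∈ presentL A C) ∧
    (presentL (d := d) A C).card = Fintype.card L + d * (∑ τ, (A τ).card) + C.card ∧
    (d + 1) * (∑ τ, (A τ).card) ≤ (LG (d := d) A C rt pr).edgeSet.ncard + (univ \ C).card := by
  refine ⟨?_, lgc_card A C, ?_⟩
  · have base : ∀ x y : VL L I d, ((∃ τ, ∃ i ∈ A τ, ∃ j, j < d ∧ x = ptL τ i j ∧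
        y = ptL τ i (j + 1)) ∨
        (∃ τ ∈ C, ∃ i ∈ A τ, x = ptL τ i 0 ∧ y = cenL τ) ∨
        (∃ τ, τ ∉ C ∧ ∃ i ∈ A τ, i ≠ rt τ ∧ x = ptL τ i 0 ∧ y = ptL τ (pr τ i) 0)) →
        x ∈ presentL A C ∧ y ∈ presentL A C := by
      rintro x y (⟨τ, i, hi, j, hj, rfl, rfl⟩ | ⟨τ, hτ, i, hi, rfl, rfl⟩ |
        ⟨τ, hτ, i, hi, hir, rfl, rfl⟩)
      · exact ⟨lgc_present A C τ i hi j, lgc_present A C τ i hi _⟩
      · exact ⟨lgc_present A C τ i hi 0, lgc_cpresent A C τ hτ⟩
      · exact ⟨lgc_present A C τ i hi 0, lgc_present A C τ _ (hpr τ hτ i hi hir).1 0⟩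
    intro u v huv
    unfold LG at huv
    rw [SimpleGraph.fromRel_adj] at huv
    rcases huv.2 with h | h
    · exact base u v h
    · exact (base v u h).symm
  · obtain ⟨Full, hFull⟩ : ∃ Full : Finset (I × L × ℕ), Full =
      (((univ : Finset I) ×ˢ ((univ : Finset L) ×ˢ range (d + 1))).filter
        (fun p => p.2.1 ∈ A p.1)) := ⟨_, rfl⟩
    obtain ⟨P, hP⟩ : ∃ P : Finset (I × L × ℕ), P = Full.filter
      (fun p => ¬ (p.1 ∉ C ∧ p.2.1 = rt p.1 ∧ p.2.2 = 0)) := ⟨_, rfl⟩
    have hFc : Full.card = (d + 1) * ∑ τ, (A τ).card := by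
      rw [hFull, Finset.card_filter, Finset.sum_product, Finset.mul_sum]
      refine Finset.sum_congr rfl fun τ _ => ?_
      rw [Finset.sum_product]
      have : ∀ i : L, ∑ _j ∈ range (d + 1), (if i ∈ A τ then 1 else 0) =
          if i ∈ A τ then (d + 1) else 0 := by
        intro i
        rw [Finset.sum_const, Finset.card_range, smul_eq_mul]
        split_ifs <;> simp
      simp only [this]
      rw [← Finset.sum_filter, Finset.sum_const, Finset.filter_mem_eq_inter, Finset.univ_inter,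
        smul_eq_mul, mul_comm]
    have hPF : Full.card ≤ P.card + (univ \ C).card := by
      have h1 : Full ⊆ P ∪ (univ \ C).image (fun τ => (τ, rt τ, 0)) := by
        intro p hp
        rw [mem_union, mem_image]
        by_cases h : p.1 ∉ C ∧ p.2.1 = rt p.1 ∧ p.2.2 = 0
        · right
          refine ⟨p.1, mem_sdiff.2 ⟨mem_univ _, h.1⟩, ?_⟩
          rw [← h.2.1, ← h.2.2]
        · left
          rw [hP, mem_filter]
          exact ⟨hp, h⟩
      exact (Finset.card_le_card h1).trans ((Finset.card_union_le _ _).trans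
        (Nat.add_le_add le_rfl Finset.card_image_le))
    have hmem : ∀ p ∈ P, p.2.1 ∈ A p.1 ∧ p.2.2 ≤ d ∧
        (p.2.2 = 0 → p.1 ∉ C → p.2.1 ≠ rt p.1) := by
      intro p hp
      rw [hP, mem_filter, hFull, mem_filter, mem_product, mem_product, mem_range] at hp
      obtain ⟨⟨⟨-, -, h1⟩, h2⟩, h3⟩ := hp
      exact ⟨h2, Nat.lt_succ_iff.1 h1, fun h4 h5 h6 => h3 ⟨h5, h6, h4⟩⟩
    have hne : ∀ p ∈ P, p.2.2 = 0 → p.1 ∉ C →
        pr p.1 p.2.1 ∈ A p.1 ∧ rk p.1 (pr p.1 p.2.1) < rk p.1 p.2.1 := by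
      intro p hp h1 h2
      obtain ⟨h3, h4, h5⟩ := hmem p hp
      exact hpr p.1 h2 p.2.1 h3 (h5 h1 h2)
    have hedge : ∀ p ∈ P, lgcF (d := d) C pr p ∈ (LG (d := d) A C rt pr).edgeSet := by
      rintro ⟨τ, i, j⟩ hp
      obtain ⟨h3, h4, h5⟩ := hmem _ hp
      have h6 := hne _ hp
      dsimp only at h3 h4 h5 h6
      unfold lgcF lgcB
      dsimp only
      rw [SimpleGraph.mem_edgeSet]
      unfold LG
      rw [SimpleGraph.fromRel_adj]
      by_cases hj : j = 0
      · subst hj
        rw [if_pos rfl]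
        by_cases hτ : τ ∈ C
        · rw [if_pos hτ]
          exact ⟨lgc_cen _ _ _ _, Or.inl (Or.inr (Or.inl ⟨τ, hτ, i, h3, rfl, rfl⟩))⟩
        · rw [if_neg hτ]
          refine ⟨fun he => ?_, Or.inl (Or.inr (Or.inr ⟨τ, hτ, i, h3, h5 rfl hτ, rfl, rfl⟩))⟩
          have h7 := (lgc_inj (by omega) he).2.1
          have h8 := (h6 rfl hτ).2
          rw [← h7] at h8
          exact lt_irrefl _ h8
      · rw [if_neg hj]
        refine ⟨fun he => ?_, Or.inl (Or.inl ⟨τ, i, h3, j - 1, by omega, rfl, ?_⟩)⟩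
        · have h7 := (lgc_inj (by omega) he).2.2
          omega
        · rw [Nat.sub_add_cancel (by omega)]
    have hinj : Set.InjOn (lgcF (d := d) C pr) (P : Set (I × L × ℕ)) := by
      rintro ⟨τ, i, j⟩ hp ⟨τ', i', j'⟩ hq he
      obtain ⟨h3, h4, h5⟩ := hmem _ hp
      obtain ⟨h3', h4', h5'⟩ := hmem _ hq
      have h6 := hne _ hp
      have h6' := hne _ hq
      dsimp only at h3 h4 h5 h6 h3' h4' h5' h6'
      unfold lgcF lgcB at he
      dsimp only at he
      rw [Sym2.eq_iff] at he
      rcases he with ⟨ha, hb⟩ | ⟨ha, hb⟩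
      · obtain ⟨rfl, rfl, hj⟩ := lgc_inj (by omega) ha
        by_cases j0 : j = 0
        · by_cases j0' : j' = 0
          · rw [j0, j0']
          · exfalso
            rw [if_pos j0, if_neg j0'] at hb
            by_cases hτ : τ ∈ C
            · rw [if_pos hτ] at hb
              exact lgc_cen _ _ _ _ hb.symm
            · rw [if_neg hτ] at hb
              have := (lgc_inj (by omega) hb).2.2
              omega
        · by_cases j0' : j' = 0
          · exfalso
            rw [if_neg j0, if_pos j0'] at hb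
            by_cases hτ : τ ∈ C
            · rw [if_pos hτ] at hb
              exact lgc_cen _ _ _ _ hb
            · rw [if_neg hτ] at hb
              have := (lgc_inj (by omega) hb.symm).2.2
              omega
          · have : j = j' := by omega
            rw [this]
      · exfalso
        by_cases j0' : j' = 0
        · rw [if_pos j0'] at ha
          by_cases hτ' : τ' ∈ C
          · rw [if_pos hτ'] at ha
            exact lgc_cen _ _ _ _ ha
          · rw [if_neg hτ'] at ha
            obtain ⟨rfl, e2, e3⟩ := lgc_inj (by omega) ha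
            by_cases j0 : j = 0
            · rw [if_pos j0, if_neg hτ', j0'] at hb
              have e4 := (lgc_inj (by omega) hb).2.1
              have r1 := (h6 j0 hτ').2
              have r2 := (h6' j0' hτ').2
              rw [e4] at r1
              rw [← e2] at r2
              omega
            · rw [if_neg j0] at hb
              have := (lgc_inj (by omega) hb.symm).2.2
              omega
        · rw [if_neg j0'] at ha
          obtain ⟨rfl, rfl, e3⟩ := lgc_inj (by omega) ha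
          by_cases j0 : j = 0
          · omega
          · rw [if_neg j0] at hb
            have := (lgc_inj (by omega) hb.symm).2.2
            omega
    have hPe : P.card ≤ (LG (d := d) A C rt pr).edgeSet.ncard := by
      rw [← Finset.card_image_of_injOn hinj, ← Set.ncard_coe_finset]
      refine Set.ncard_le_ncard ?_ (Set.toFinite _)
      intro e he
      rw [Finset.coe_image] at he
      obtain ⟨p, hp, rfl⟩ := he
      exact hedge p hp
    omega


end SolLG2

end DisjCyc
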