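import Pool.Agent.Helper470.DC.SolLimit
set_option autoImplicit false
open scoped Classical
open Finset

namespace DisjCyc
namespace SolPend
open SolLimit




/-- the graph with pendant vertices -/
def le_maxEdges_sub_G (V : Type) (G : SimpleGraph V) (S : Finset V) (m : ℕ) (s0 : {x // x ∈ S}) :
    SimpleGraph ({x // x ∈ S} ⊕ Fin m) where
  Adj x y := match x, y with
    | Sum.inl a, Sum.inl b => G.Adj a.1 b.1
    | Sum.inl a, Sum.inr _ => a = s0
    | Sum.inr _, Sum.inl a => a = s0
    | Sum.inr _, Sum.inr _ => False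
  symm := ⟨by
    rintro (a | j) (b | k) h
    · exact h.symm
    · exact h
    · exact h
    · exact h⟩
  loopless := ⟨by
    rintro (a | j) h
    · exact G.loopless.irrefl _ h
    · exact h⟩

theorem le_maxEdges_sub_notMem (V : Type) (G : SimpleGraph V) (S : Finset V) (m : ℕ)
    (s0 : {x // x ∈ S}) (v : {x // x ∈ S} ⊕ Fin m)
    (c : (le_maxEdges_sub_G V G S m s0).Walk v v) (hc : c.IsCycle) (j : Fin m) :
    Sum.inr j ∉ c.support := by
  intro hj
  have h1 := hc.ncard_neighborSet_toSubgraph_eq_two hj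
  have h2 : c.toSubgraph.neighborSet (Sum.inr j) ⊆ {Sum.inl s0} := by
    intro x hx
    have h3 : (le_maxEdges_sub_G V G S m s0).Adj (Sum.inr j) x := c.toSubgraph.adj_sub hx
    rcases x with a | k
    · have : a = s0 := h3
      rw [this]; rfl
    · exact h3.elim
  have h3 := Set.ncard_le_ncard h2 (Set.finite_singleton _)
  rw [h1, Set.ncard_singleton] at h3
  omega

theorem le_maxEdges_sub_cyc (V : Type) (G : SimpleGraph V) (S : Finset V) (m : ℕ)
    (s0 : {x // x ∈ S}) (v : {x // x ∈ S} ⊕ Fin m)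
    (c : (le_maxEdges_sub_G V G S m s0).Walk v v) (hc : c.IsCycle) :
    ∃ (v' : V) (c' : G.Walk v' v'), c'.IsCycle ∧ c'.length = c.length ∧
      ∀ x ∈ c'.support, ∃ a : {x // x ∈ S}, a.1 = x ∧ Sum.inl a ∈ c.support := by
  set s : Set ({x // x ∈ S} ⊕ Fin m) := {x | ∃ a, x = Sum.inl a} with hs
  have hsup : ∀ x ∈ c.support, x ∈ s := by
    rintro (a | j) hx
    · exact ⟨a, rfl⟩
    · exact absurd hx (le_maxEdges_sub_notMem V G S m s0 v c hc j)
  let φ : ((le_maxEdges_sub_G V G S m s0).induce s) →g G :=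
    { toFun := fun x => match x.1 with
        | Sum.inl a => a.1
        | Sum.inr _ => s0.1
      map_rel' := by
        rintro ⟨x, ⟨a, rfl⟩⟩ ⟨y, ⟨b, rfl⟩⟩ h
        exact h }
  have hφ : Function.Injective φ := by
    rintro ⟨x, ⟨a, rfl⟩⟩ ⟨y, ⟨b, rfl⟩⟩ h
    have : a = b := Subtype.ext h
    subst this
    rfl
  have hci : (c.induce s hsup).IsCycle := by
    have h1 := SimpleGraph.Walk.isCycle_map_iff_of_injective (p := c.induce s hsup)
      (f := (SimpleGraph.Embedding.induce (G := le_maxEdges_sub_G V G S m s0) s).toHom)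
      (SimpleGraph.Embedding.induce (G := le_maxEdges_sub_G V G S m s0) s).injective
    rw [← h1, SimpleGraph.Walk.map_induce]
    exact hc
  refine ⟨_, (c.induce s hsup).map φ, hci.map hφ, ?_, ?_⟩
  · rw [SimpleGraph.Walk.length_map]
    have h1 : ((c.induce s hsup).map (SimpleGraph.Embedding.induce (G := le_maxEdges_sub_G V G S m s0) s).toHom).length = c.length := by
      rw [SimpleGraph.Walk.map_induce]
      rfl
    rw [SimpleGraph.Walk.length_map] at h1
    exact h1
  · intro x hx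
    rw [SimpleGraph.Walk.support_map, List.mem_map] at hx
    obtain ⟨⟨y, ⟨a, rfl⟩⟩, hy, hyx⟩ := hx
    refine ⟨a, hyx, ?_⟩
    rw [SimpleGraph.Walk.support_induce] at hy
    rw [List.mem_attachWith] at hy
    exact hy

theorem le_maxEdges_sub_edges (V : Type) [Fintype V] (G : SimpleGraph V) (S : Finset V) (m : ℕ)
    (s0 : {x // x ∈ S}) (hE : ∀ u v, G.Adj u v → u ∈ S ∧ v ∈ S) :
    G.edgeSet.ncard + m ≤ (le_maxEdges_sub_G V G S m s0).edgeSet.ncard := by
  set G' := le_maxEdges_sub_G V G S m s0 with hG'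
  let r : V → {x // x ∈ S} ⊕ Fin m := fun x => if h : x ∈ S then Sum.inl ⟨x, h⟩ else Sum.inl s0
  have hr : ∀ x (h : x ∈ S), r x = Sum.inl ⟨x, h⟩ := fun x h => by simp only [r]; rw [dif_pos h]
  have hr2 : ∀ x j, r x ≠ Sum.inr j := by
    intro x j
    simp only [r]
    split_ifs <;> simp
  let p : {x // x ∈ S} ⊕ Fin m → V := fun x => match x with
    | Sum.inl a => a.1
    | Sum.inr _ => s0.1
  have hAinj : Set.InjOn (Sym2.map r) G.edgeSet := by
    have hli : Set.LeftInvOn (Sym2.map p) (Sym2.map r) G.edgeSet := by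
      intro e he
      induction e with
      | h x y =>
        rw [SimpleGraph.mem_edgeSet] at he
        rw [Sym2.map_mk, Sym2.map_mk]
        rw [hr x (hE x y he).1, hr y (hE x y he).2]
    exact hli.injOn
  have hBinj : Function.Injective (fun j : Fin m => (s(Sum.inl s0, Sum.inr j) : Sym2 ({x // x ∈ S} ⊕ Fin m))) := by
    intro j k h
    simp only [Sym2.eq_iff] at h
    rcases h with h | h
    · exact Sum.inr_injective h.2
    · exact absurd h.1 (by simp)
  have hsub : (Sym2.map r '' G.edgeSet) ∪ Set.range (fun j : Fin m => (s(Sum.inl s0, Sum.inr j) : Sym2 ({x // x ∈ S} ⊕ Fin m))) ⊆ G'.edgeSet := by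
    rintro _ (⟨e, he, rfl⟩ | ⟨j, rfl⟩)
    · induction e with
      | h x y =>
        rw [SimpleGraph.mem_edgeSet] at he
        rw [Sym2.map_mk]
        rw [hr x (hE x y he).1, hr y (hE x y he).2, SimpleGraph.mem_edgeSet]
        exact he
    · rw [SimpleGraph.mem_edgeSet]
      rfl
  have hdisj : Disjoint (Sym2.map r '' G.edgeSet) (Set.range (fun j : Fin m => (s(Sum.inl s0, Sum.inr j) : Sym2 ({x // x ∈ S} ⊕ Fin m)))) := by
    rw [Set.disjoint_left]
    rintro _ ⟨e, he, rfl⟩ ⟨j, hj⟩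
    induction e with
    | h x y =>
      rw [Sym2.map_mk] at hj
      simp only [Sym2.eq_iff] at hj
      rcases hj with h | h
      · exact hr2 _ _ h.2.symm
      · exact hr2 _ _ h.2.symm
  have h1 := Set.ncard_le_ncard hsub (Set.toFinite _)
  rw [Set.ncard_union_eq hdisj (Set.toFinite _) (Set.toFinite _), Set.InjOn.ncard_image hAinj] at h1
  have h2 : (Set.range (fun j : Fin m => (s(Sum.inl s0, Sum.inr j) : Sym2 ({x // x ∈ S} ⊕ Fin m)))).ncard = m := by
    rw [← Set.image_univ, Set.ncard_image_of_injective _ hBinj, Set.ncard_univ, Nat.card_eq_fintype_card, Fintype.card_fin]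
  rw [h2] at h1
  exact h1


/-- TARGET: restrict to a vertex set containing all edges and add `m` pendant vertices -/
theorem le_maxEdges_sub (k n g m : ℕ) (V : Type) [Fintype V] (G : SimpleGraph V) (S : Finset V)
    (hS : S.Nonempty) (hE : ∀ u v, G.Adj u v → u ∈ S ∧ v ∈ S) (hn : S.card + m = n)
    (hg : ∀ (v : V) (c : G.Walk v v), c.IsCycle → g ≤ c.length) (hK : ¬ HasDisjointCycles G k) :
    G.edgeSet.ncard + m ≤ maxEdges k n g := by
  obtain ⟨x0, hx0⟩ := hS
  have h := le_maxEdges k n g ({x // x ∈ S} ⊕ Fin m) (le_maxEdges_sub_G V G S m ⟨x0, hx0⟩)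
    (by rw [Fintype.card_sum, Fintype.card_coe, Fintype.card_fin, hn]) ?_ ?_
  · exact (le_maxEdges_sub_edges V G S m ⟨x0, hx0⟩ hE).trans h
  · intro v c hc
    obtain ⟨v', c', hc', hl, -⟩ := le_maxEdges_sub_cyc V G S m ⟨x0, hx0⟩ v c hc
    rw [← hl]
    exact hg v' c' hc'
  · rintro ⟨v, c, hc, hd⟩
    apply hK
    choose v' c' hc' hl hs using fun i => le_maxEdges_sub_cyc V G S m ⟨x0, hx0⟩ (v i) (c i) (hc i)
    refine ⟨v', c', hc', ?_⟩
    intro i j hij x hx hx2
    obtain ⟨a, ha, hac⟩ := hs i x hx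
    obtain ⟨b, hb, hbc⟩ := hs j x hx2
    have : a = b := Subtype.ext (ha.trans hb.symm)
    subst this
    exact hd i j hij _ hac hbc

end SolPend

end DisjCyc
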