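import Pool.Agent.Helper470.DC.SolLG1
import Pool.Agent.Helper470.DC.SolLG2
import Pool.Agent.Helper470.DC.SolPend
import Pool.Agent.Helper470.DC.SolDStar
set_option autoImplicit false
open scoped Classical
open Finset

namespace DisjCyc
namespace SolLow3a
open SolLG1 SolLG2 SolPend SolDStar


theorem card_compl_aux {I : Type} [Fintype I] (C : Finset I) : (univ \ C).card + C.card = Fintype.card I := by
  rw [card_sdiff_add_card_eq_card (subset_univ C), card_univ]

/-- lower bound with a partial spider -/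
theorem lower3_spider (k d q a r0 : ℕ) (hk : 2 ≤ k) (hd : 1 ≤ d) (hq : k - 1 ≤ q) (ha1 : 1 ≤ a)
    (ha2 : a ≤ 2 * k - 1) :
    (q * ((2 * k - 1) * d + 1) - (k - 1)) + (2 * k - 2) * q + (a * d + 1) + (a - 1) + r0 ≤
      maxEdges k ((2 * k - 1) + (q * ((2 * k - 1) * d + 1) - (k - 1)) + (a * d + 1) + r0) (4 * d + 3) := by
  obtain ⟨m, rfl⟩ : ∃ m, k = m + 1 := ⟨k - 1, by omega⟩
  have hkm : m + 1 - 1 = m := by omega
  have hk1 : 2 * (m + 1) - 1 = 2 * m + 1 := by omega
  have hk2 : 2 * (m + 1) - 2 = 2 * m := by omega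
  rw [hkm] at hq
  rw [hk1] at ha2
  rw [hkm, hk1, hk2]
  obtain ⟨rt0, pr0, rk0, hD1, hD2, -⟩ := exists_dstar m
  have hcardL : Fintype.card (Option (Fin m × Bool)) = 2 * m + 1 := by
    rw [Fintype.card_option, Fintype.card_prod, Fintype.card_fin, Fintype.card_bool, mul_comm]
  obtain ⟨S0, hS0⟩ : ∃ S0 : Finset (Option (Fin m × Bool)), S0.card = a := by
    have h : a ≤ (univ : Finset (Option (Fin m × Bool))).card := by
      rw [Finset.card_univ, hcardL]; exact ha2
    obtain ⟨t, _, ht⟩ := Finset.exists_subset_card_eq h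
    exact ⟨t, ht⟩
  let A : Fin m ⊕ (Fin (q - m) ⊕ Unit) → Finset (Option (Fin m × Bool)) :=
    Sum.elim (fun _ => univ) (Sum.elim (fun _ => univ) (fun _ => S0))
  let C : Finset (Fin m ⊕ (Fin (q - m) ⊕ Unit)) := univ.map ⟨Sum.inr, Sum.inr_injective⟩
  let rt : Fin m ⊕ (Fin (q - m) ⊕ Unit) → Option (Fin m × Bool) := Sum.elim rt0 (fun _ => none)
  let pr : Fin m ⊕ (Fin (q - m) ⊕ Unit) → Option (Fin m × Bool) → Option (Fin m × Bool) :=
    Sum.elim pr0 (fun _ _ => none)
  let rk : Fin m ⊕ (Fin (q - m) ⊕ Unit) → Option (Fin m × Bool) → ℕ :=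
    Sum.elim rk0 (fun _ _ => 0)
  have hCmem : ∀ τ, τ ∉ C → ∃ τ', τ = Sum.inl τ' := by
    intro τ hτ
    rcases τ with τ' | τ'
    · exact ⟨τ', rfl⟩
    · exact absurd (Finset.mem_map.2 ⟨τ', mem_univ _, rfl⟩) hτ
  have hrt : ∀ τ, τ ∉ C → rt τ ∈ A τ := by
    intro τ hτ
    obtain ⟨τ', rfl⟩ := hCmem τ hτ
    exact mem_univ _
  have hpr : ∀ τ, τ ∉ C → ∀ i ∈ A τ, i ≠ rt τ → pr τ i ∈ A τ ∧ rk τ (pr τ i) < rk τ i := by
    intro τ hτ i _ hi
    obtain ⟨τ', rfl⟩ := hCmem τ hτ
    exact ⟨mem_univ _, hD1 τ' i hi⟩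
  obtain ⟨-, hcyc, hdis⟩ := LG_cycles hd A C rt pr rk hrt hpr
  have hcyc' := hcyc (by
    intro τ τ' hτ hτ' i _ hi i' _ hi' he
    obtain ⟨σ, rfl⟩ := hCmem τ hτ
    obtain ⟨σ', rfl⟩ := hCmem τ' hτ'
    rw [hD2 σ σ' i i' hi hi' he])
  have hdis' := hdis (m + 1) (by rw [hcardL]; omega)
  obtain ⟨hadj, hcard, hedge⟩ := LG_count hd A C rt pr rk hrt hpr
  have hsum : ∑ τ, (A τ).card = q * (2 * m + 1) + a := by
    rw [Fintype.sum_sum_type, Fintype.sum_sum_type]
    have e1 : ∑ x : Fin m, (A (Sum.inl x)).card = m * (2 * m + 1) := by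
      have : ∀ x : Fin m, (A (Sum.inl x)).card = 2 * m + 1 := fun x => by
        show (univ : Finset (Option (Fin m × Bool))).card = 2 * m + 1
        rw [Finset.card_univ, hcardL]
      rw [Finset.sum_congr rfl fun x _ => this x]
      simp
    have e2 : ∑ x : Fin (q - m), (A (Sum.inr (Sum.inl x))).card = (q - m) * (2 * m + 1) := by
      have : ∀ x : Fin (q - m), (A (Sum.inr (Sum.inl x))).card = 2 * m + 1 := fun x => by
        show (univ : Finset (Option (Fin m × Bool))).card = 2 * m + 1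
        rw [Finset.card_univ, hcardL]
      rw [Finset.sum_congr rfl fun x _ => this x]
      simp
    have e3 : ∑ x : Unit, (A (Sum.inr (Sum.inr x))).card = a := by
      rw [Fintype.sum_unique]
      exact hS0
    rw [e1, e2, e3, ← add_assoc, ← add_mul]
    congr 2
    omega
  have hCcard : C.card = q - m + 1 := by
    rw [Finset.card_map, Finset.card_univ, Fintype.card_sum, Fintype.card_fin, Fintype.card_unit]
  have hCc := card_compl_aux C
  rw [hCcard, Fintype.card_sum, Fintype.card_sum, Fintype.card_fin, Fintype.card_fin,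
    Fintype.card_unit] at hCc
  rw [hsum, hCcard, hcardL] at hcard
  rw [hsum] at hedge
  have hedge2 : (d + 1) * (q * (2 * m + 1) + a) ≤ (LG (d := d) A C rt pr).edgeSet.ncard + m := by
    omega
  have hne : (presentL (d := d) A C).Nonempty := by
    rw [← Finset.card_pos, hcard]
    omega
  -- arithmetic
  have x1 : q * ((2 * m + 1) * d + 1) = q * ((2 * m + 1) * d) + q := by ring
  have x2 : d * (q * (2 * m + 1) + a) = q * ((2 * m + 1) * d) + a * d := by ring
  have x3 : (d + 1) * (q * (2 * m + 1) + a) = q * ((2 * m + 1) * d) + a * d + (2 * m * q + q + a) := by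
    ring
  rw [x1]
  rw [x2] at hcard
  rw [x3] at hedge2
  generalize hT : q * ((2 * m + 1) * d) = T at *
  generalize hP : 2 * m * q = P at *
  generalize hQ : a * d = Qd at *
  have hfin := le_maxEdges_sub (m + 1) (2 * m + 1 + (T + q - m) + (Qd + 1) + r0) (4 * d + 3) r0
    _ (LG (d := d) A C rt pr) (presentL A C) hne hadj (by rw [hcard]; omega) hcyc' hdis'
  refine le_trans ?_ hfin
  omega


end SolLow3a

end DisjCyc
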