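import Pool.Agent.Helper470.DC.SolLG1
import Pool.Agent.Helper470.DC.SolLG2
import Pool.Agent.Helper470.DC.SolPend
import Pool.Agent.Helper470.DC.SolDStar
set_option autoImplicit false
open scoped Classical
open Finset

namespace DisjCyc
namespace SolLow3b
open SolLG1 SolLG2 SolPend SolDStar



/-- the labels of the last component -/
noncomputable def zAl (m b : ℕ) (h : b ≤ m) : Finset (Option (Fin m × Bool)) :=
  insert none ((univ : Finset (Fin b)).map ⟨fun j => some (Fin.castLE h j, true), fun x y hxy => by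
    simpa using hxy⟩)

theorem zAl_none (m b : ℕ) (h : b ≤ m) : none ∈ zAl m b h := Finset.mem_insert_self _ _

theorem zAl_mem (m b : ℕ) (h : b ≤ m) (x : Option (Fin m × Bool)) (hx : x ∈ zAl m b h)
    (hn : x ≠ none) : ∃ j : Fin m, x = some (j, true) := by
  unfold zAl at hx
  rw [Finset.mem_insert] at hx
  rcases hx with hx | hx
  · exact absurd hx hn
  · rw [Finset.mem_map] at hx
    obtain ⟨j, -, hj⟩ := hx
    exact ⟨Fin.castLE h j, hj.symm⟩

theorem zAl_card (m b : ℕ) (h : b ≤ m) : (zAl m b h).card = b + 1 := by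
  unfold zAl
  rw [Finset.card_insert_of_notMem, Finset.card_map, Finset.card_univ, Fintype.card_fin]
  rw [Finset.mem_map]
  rintro ⟨j, -, hj⟩
  exact absurd hj (by simp)

/-- TARGET -/
theorem lower3_saved (k d q a r0 : ℕ) (hk : 2 ≤ k) (hd : 1 ≤ d) (hq : k - 1 ≤ q) (ha2 : a ≤ k) :
    (q * ((2 * k - 1) * d + 1) - (k - 1)) + (2 * k - 2) * q + a * d + (a - 1) + r0 ≤
      maxEdges k ((2 * k - 1) + (q * ((2 * k - 1) * d + 1) - (k - 1)) + a * d + r0) (4 * d + 3) := by
  obtain ⟨m, rfl⟩ : ∃ m, k = m + 1 := ⟨k - 1, by omega⟩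
  rw [Nat.add_sub_cancel] at hq ⊢
  obtain ⟨rt0, pr0, rk0, h1, h2, h3⟩ := exists_dstar m
  have hb : a - 1 ≤ m := by omega
  -- index type
  let I : Type := Fin m ⊕ (Fin (q - m) ⊕ Fin (min a 1))
  let L : Type := Option (Fin m × Bool)
  let A : I → Finset L := fun τ => match τ with
    | Sum.inl _ => univ
    | Sum.inr (Sum.inl _) => univ
    | Sum.inr (Sum.inr _) => zAl m (a - 1) hb
  let C : Finset I := (univ : Finset (Fin (q - m))).map
    ⟨fun x => Sum.inr (Sum.inl x), fun x y h => Sum.inl.inj (Sum.inr.inj h)⟩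
  let rt : I → L := fun τ => match τ with
    | Sum.inl τ => rt0 τ
    | Sum.inr _ => none
  let pr : I → L → L := fun τ => match τ with
    | Sum.inl τ => pr0 τ
    | Sum.inr _ => fun _ => none
  let rk : I → L → ℕ := fun τ => match τ with
    | Sum.inl τ => rk0 τ
    | Sum.inr _ => fun x => if x = none then 0 else 1
  have hC : ∀ x : Fin (q - m), (Sum.inr (Sum.inl x) : I) ∈ C := by
    intro x
    exact Finset.mem_map.2 ⟨x, Finset.mem_univ _, rfl⟩
  have hL : Fintype.card L = 2 * m + 1 := by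
    simp only [L, Fintype.card_option, Fintype.card_prod, Fintype.card_fin, Fintype.card_bool]
    ring
  have hrt : ∀ τ, τ ∉ C → rt τ ∈ A τ := by
    rintro (τ | τ | τ) hτ
    · exact Finset.mem_univ _
    · exact Finset.mem_univ _
    · exact zAl_none _ _ _
  have hpr : ∀ τ, τ ∉ C → ∀ i ∈ A τ, i ≠ rt τ → pr τ i ∈ A τ ∧ rk τ (pr τ i) < rk τ i := by
    rintro (τ | τ | τ) hτ i hi hne
    · exact ⟨Finset.mem_univ _, h1 τ i hne⟩
    · exact absurd (hC τ) hτ
    · refine ⟨zAl_none _ _ _, ?_⟩
      have hne' : i ≠ none := hne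
      change (if (none : L) = none then 0 else 1) < (if i = none then 0 else 1)
      rw [if_pos rfl, if_neg hne']
      exact one_pos
  have hex : ∀ τ τ', τ ∉ C → τ' ∉ C → ∀ i ∈ A τ, i ≠ rt τ → ∀ i' ∈ A τ', i' ≠ rt τ' →
        s(i, pr τ i) = s(i', pr τ' i') → τ = τ' := by
    rintro (τ | τ | τ) (τ' | τ' | τ') hτ hτ' i hi hne i' hi' hne' he
    · exact congrArg Sum.inl (h2 τ τ' i i' hne hne' he)
    · exact absurd (hC τ') hτ'
    · obtain ⟨j, rfl⟩ := zAl_mem _ _ _ i' hi' hne'
      exact absurd he (h3 τ i j hne)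
    · exact absurd (hC τ) hτ
    · exact absurd (hC τ) hτ
    · exact absurd (hC τ) hτ
    · obtain ⟨j, rfl⟩ := zAl_mem _ _ _ i hi hne
      exact absurd he.symm (h3 τ' i' j hne')
    · exact absurd (hC τ') hτ'
    · have : τ = τ' := by
        apply Fin.ext
        have e1 := τ.2
        have e2 := τ'.2
        omega
      rw [this]
  obtain ⟨-, cyc, dis⟩ := LG_cycles (L := L) (I := I) (d := d) hd A C rt pr rk hrt hpr
  obtain ⟨pE, pc, pe⟩ := LG_count (L := L) (I := I) (d := d) hd A C rt pr rk hrt hpr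
  have hsum : ∑ τ, (A τ).card = q * (2 * m + 1) + a := by
    rw [Fintype.sum_sum_type, Fintype.sum_sum_type]
    have e1 : ∑ τ : Fin m, (A (Sum.inl τ)).card = m * (2 * m + 1) := by
      have : ∀ τ : Fin m, (A (Sum.inl τ)).card = 2 * m + 1 := fun τ => by
        change (univ : Finset L).card = _
        rw [Finset.card_univ, hL]
      rw [Finset.sum_congr rfl (fun τ _ => this τ), Finset.sum_const, Finset.card_univ,
        Fintype.card_fin, smul_eq_mul]
    have e2 : ∑ τ : Fin (q - m), (A (Sum.inr (Sum.inl τ))).card = (q - m) * (2 * m + 1) := by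
      have : ∀ τ : Fin (q - m), (A (Sum.inr (Sum.inl τ))).card = 2 * m + 1 := fun τ => by
        change (univ : Finset L).card = _
        rw [Finset.card_univ, hL]
      rw [Finset.sum_congr rfl (fun τ _ => this τ), Finset.sum_const, Finset.card_univ,
        Fintype.card_fin, smul_eq_mul]
    have e3 : ∑ τ : Fin (min a 1), (A (Sum.inr (Sum.inr τ))).card = a := by
      have : ∀ τ : Fin (min a 1), (A (Sum.inr (Sum.inr τ))).card = (a - 1) + 1 := fun τ =>
        zAl_card _ _ _
      rw [Finset.sum_congr rfl (fun τ _ => this τ), Finset.sum_const, Finset.card_univ,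
        Fintype.card_fin, smul_eq_mul]
      rcases Nat.eq_zero_or_pos a with h | h
      · subst h; simp
      · rw [Nat.min_eq_right h]; omega
    rw [e1, e2, e3]
    obtain ⟨r, hr⟩ := Nat.exists_eq_add_of_le hq
    have : q - m = r := by omega
    rw [this, hr]
    ring
  have hCc : C.card = q - m := by
    rw [Finset.card_map, Finset.card_univ, Fintype.card_fin]
  rw [hsum, hCc, hL] at pc
  have hun := @Finset.card_univ_sdiff I (fun a b => Classical.propDecidable (a = b)) _ C
  rw [hsum, hun, hCc] at pe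
  have hI : Fintype.card I = m + ((q - m) + min a 1) := by
    simp only [I, Fintype.card_sum, Fintype.card_fin]
  rw [hI] at pe
  have hmain := le_maxEdges_sub (m + 1)
    ((2 * (m + 1) - 1) + (q * ((2 * (m + 1) - 1) * d + 1) - m) + a * d + r0) (4 * d + 3) r0
    (VL L I d) (LG A C rt pr) (presentL A C)
    (by
      rw [← Finset.card_pos, pc]
      omega)
    pE (by
      rw [pc]
      have e0 : 2 * (m + 1) - 1 = 2 * m + 1 := by omega
      rw [e0]
      obtain ⟨r, hr⟩ := Nat.exists_eq_add_of_le hq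
      have e1 : q - m = r := by omega
      have e2 : q * ((2 * m + 1) * d + 1) - m = q * ((2 * m + 1) * d) + r := by
        rw [Nat.mul_add, Nat.mul_one]; omega
      rw [e1, e2]
      ring)
    (cyc hex) (dis (m + 1) (by rw [hL]; omega))
  refine le_trans ?_ hmain
  have e0 : 2 * (m + 1) - 1 = 2 * m + 1 := by omega
  have e0' : 2 * (m + 1) - 2 = 2 * m := by omega
  rw [e0, e0']
  obtain ⟨r, hr⟩ := Nat.exists_eq_add_of_le hq
  have e1 : q - m = r := by omega
  have e2 : q * ((2 * m + 1) * d + 1) - m = q * ((2 * m + 1) * d) + r := by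
    rw [Nat.mul_add, Nat.mul_one]; omega
  rw [e2]
  rw [e1] at pe
  have e3 : m + (r + min a 1) - r = m + min a 1 := by omega
  rw [e3] at pe
  have e4 : (d + 1) * (q * (2 * m + 1) + a)
      = q * ((2 * m + 1) * d) + (2 * m * q + q) + (a * d + a) := by ring
  rw [e4] at pe
  have e5 : a - 1 + min a 1 = a := by omega
  have e6 : 2 * m * q = 2 * (m * q) := by ring
  rw [e6] at pe ⊢
  omega



end SolLow3b

end DisjCyc
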