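import Pool.Agent.Helper470.DC.NearExact
import Pool.Agent.Helper470.DC.SolExact3
import Pool.Agent.Helper470.DC.SolLow3a
import Pool.Agent.Helper470.DC.SolLow3b
import Pool.Agent.Helper470.DC.Final
set_option autoImplicit false
open scoped Classical
open Finset

namespace DisjCyc

/-- exact value for girth `4 d + 3` (truncated natural subtraction and natural division) -/
theorem exact_value3 (k d : ℕ) (hk : 2 ≤ k) (hd : 1 ≤ d) : ∃ n0 : ℕ, ∀ q r : ℕ,
    r < (2 * k - 1) * d + 1 → n0 ≤ k + q * ((2 * k - 1) * d + 1) + r →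
    maxEdges k (k + q * ((2 * k - 1) * d + 1) + r) (4 * d + 3) =
      (k + q * ((2 * k - 1) * d + 1) + r - (2 * k - 1)) + (2 * k - 2) * q +
        max ((r - 1) / d - 1) (min (r / d - 1) (k - 1)) := by
  obtain ⟨v, hv⟩ : ∃ x, x = (2 * (k - 1) + 1) * d + 1 := ⟨_, rfl⟩
  obtain ⟨M, hM⟩ : ∃ x, x = 2 + 12 * (Ctx.C1 k d * v) + 6 * v := ⟨_, rfl⟩
  obtain ⟨K0, hK0⟩ : ∃ x, x = k * (4 * (3 * k * M) + 2) + 24 * k * v := ⟨_, rfl⟩
  obtain ⟨s', hs'⟩ : ∃ x, x = 2 * M * K0 := ⟨_, rfl⟩
  obtain ⟨E1, hE1⟩ : ∃ x, x = K0 * K0 + K0 * ((2 * k + 2) * s') + K0 * (K0 * ((2 * k + 2) * s')) := ⟨_, rfl⟩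
  obtain ⟨C, hC⟩ : ∃ x, x = M * v * (K0 * K0 + E1) := ⟨_, rfl⟩
  obtain ⟨L, hL⟩ : ∃ x, x = (2 * (k - 1) + v) * (2 * k - 1) + 2 * (k - 1) * v := ⟨_, rfl⟩
  obtain ⟨C3, hC3⟩ : ∃ x, x = 4 * M * K0 + 4 * Ctx.C1 k d * (C + M * L) + 4 * (M * v * E1) := ⟨_, rfl⟩
  refine ⟨C3 + 4 * (M * v * ((2 * k + 2) * 2 ^ K0)) + 1 + (2 * k - 1) + k * v + v, ?_⟩
  intro q r hr hn
  have hv' : (2 * k - 1) * d + 1 = v := by rw [hv]; congr 2; omega
  rw [hv'] at hr hn ⊢
  have hv1 : 1 ≤ v := by omega
  have hqk : k - 1 ≤ q := by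
    by_contra hcon
    have h1 : q * v ≤ k * v := Nat.mul_le_mul_right _ (by omega)
    omega
  have hqv : k - 1 ≤ q * v := by
    calc k - 1 ≤ q := hqk
      _ ≤ q * v := Nat.le_mul_of_pos_right _ hv1
  obtain ⟨n, hnn⟩ : ∃ n, n = k + q * v + r := ⟨_, rfl⟩
  rw [← hnn] at hn ⊢
  set N := n - (2 * k - 1) with hN
  have hnN : n = N + (2 * k - 1) := by omega
  have hNq : N + (k - 1) = q * v + r := by omega
  apply le_antisymm
  · apply SolLimit.maxEdges_le k n (4 * d + 3) _ (by omega)
    intro G hg hK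
    rw [← SolCyc.ec_univ]
    have hg' := cyc_girth hg
    have hK' : ∀ Y, ¬ KCyc G Y k := fun Y hY => hK (disjoint_of_KCyc hY)
    by_cases hlow : (2 * (k - 1) + v) * Fintype.card (Fin n) ≤ v * ec G univ + L
    · obtain ⟨H, Pc, hS⟩ := near_exact G k d hk hd hg' hK' v M K0 s' E1 C C3 L
        hv hM hK0 hs' hE1 hC hC3 (by rw [Fintype.card_fin]; omega) hlow
      obtain ⟨a1, a2, a3, a4, a5, a6, a7, a8, a9, a10⟩ := hS
      have := SolExact3.exact_of_pieces3 G k d hk hd hg' hK' H a1 Pc a2 a3 a4 a5 a6 a7 a8 a9 a10 q r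
        (by rw [Fintype.card_fin, ← hN, hNq, hv'])
      rw [Fintype.card_fin, ← hN] at this
      omega
    · push Not at hlow
      rw [Fintype.card_fin] at hlow
      have h1 : v * ec G univ < v * (N + (2 * k - 2) * q) := by
        have e1 : v * (N + (2 * k - 2) * q) = v * N + (2 * (k - 1)) * (q * v) := by
          have : 2 * k - 2 = 2 * (k - 1) := by omega
          rw [this]; ring
        have e2 : (2 * (k - 1)) * N ≤ (2 * (k - 1)) * (q * v) + 2 * (k - 1) * v := by
          rw [← mul_add]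
          exact Nat.mul_le_mul_left _ (by omega)
        have e3 : (2 * (k - 1) + v) * n = (2 * (k - 1)) * N + v * N + (2 * (k - 1) + v) * (2 * k - 1) := by
          rw [hnN]; ring
        rw [e1]
        omega
      have h2 := Nat.lt_of_mul_lt_mul_left h1
      omega
  · -- lower bounds
    have hbase : (2 * k - 1) + (q * v - (k - 1)) + r = n := by omega
    by_cases hcase : (r - 1) / d - 1 ≤ min (r / d - 1) (k - 1)
    · rw [max_eq_right hcase]
      -- saved component with a labels
      set a := min (r / d) k with ha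
      have had : a * d ≤ r := by
        calc a * d ≤ (r / d) * d := Nat.mul_le_mul_right _ (min_le_left _ _)
          _ ≤ r := Nat.div_mul_le_self _ _
      have h1 := SolLow3b.lower3_saved k d q a (r - a * d) hk hd hqk (min_le_right _ _)
      rw [hv'] at h1
      have e1 : (2 * k - 1) + (q * v - (k - 1)) + a * d + (r - a * d) = n := by omega
      rw [e1] at h1
      have e2 : min (r / d - 1) (k - 1) = a - 1 := by
        rw [ha]; omega
      rw [e2]
      omega
    · push Not at hcase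
      rw [max_eq_left hcase.le]
      set a := (r - 1) / d with ha
      have ha2 : 2 ≤ a := by omega
      have had : a * d ≤ r - 1 := Nat.div_mul_le_self _ _
      have ha3 : a ≤ 2 * k - 1 := by
        have : a * d < (2 * k - 1 + 1) * d := by
          have : (2 * k - 1 + 1) * d = v - 1 + d := by rw [← hv']; rw [add_mul]; omega
          omega
        have := Nat.lt_of_mul_lt_mul_right this
        omega
      have hr1 : 1 ≤ r := by
        by_contra h0
        have : r = 0 := by omega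
        rw [this] at ha
        simp at ha
        omega
      have h1 := SolLow3a.lower3_spider k d q a (r - (a * d + 1)) hk hd hqk (by omega) ha3
      rw [hv'] at h1
      have e1 : (2 * k - 1) + (q * v - (k - 1)) + (a * d + 1) + (r - (a * d + 1)) = n := by omega
      rw [e1] at h1
      omega

end DisjCyc
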