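import Pool.Agent.Helper470.DC.SolConstr
set_option autoImplicit false
open scoped Classical
open Finset

namespace DisjCyc
namespace SolConstr

section pend
variable {n d t m : ℕ}

/-- the isolated vertices -/
def iso (z : Fin m) : VT n d t m := Sum.inr (Sum.inr z)

/-- with pendant edges at the hub `h0` -/
def GP (n d t m : ℕ) (h0 : Fin n) : SimpleGraph (VT n d t m) :=
  GG n d t m ⊔ SimpleGraph.fromRel (fun x y => ∃ z : Fin m, x = iso z ∧ y = hub h0)

theorem GP_adj_iso {h0 : Fin n} {z : Fin m} {y : VT n d t m}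
    (h : (GP n d t m h0).Adj (iso z) y) : y = hub h0 := by
  rw [GP, SimpleGraph.sup_adj, SimpleGraph.fromRel_adj] at h
  rcases h with h | ⟨_, ⟨z', h1, h2⟩ | ⟨z', h1, h2⟩⟩
  · exact (adj_iso h).elim
  · exact h2
  · simp [iso, hub] at h2

theorem GP_cycle_edges {h0 : Fin n} {v : VT n d t m} (c : (GP n d t m h0).Walk v v)
    (hc : c.IsCycle) : ∀ e ∈ c.edges, e ∈ (GG n d t m).edgeSet := by
  have hiso : ∀ z : Fin m, (iso z : VT n d t m) ∉ c.support := by
    intro z hz
    have h1 := hc.ncard_neighborSet_toSubgraph_eq_two hz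
    obtain ⟨y, y', hyz, hS⟩ := Set.ncard_eq_two.1 h1
    have hy : y ∈ c.toSubgraph.neighborSet (iso z) := by rw [hS]; simp
    have hz : y' ∈ c.toSubgraph.neighborSet (iso z) := by rw [hS]; simp
    have hy' : c.toSubgraph.Adj (iso z) y := hy
    have hz' : c.toSubgraph.Adj (iso z) y' := hz
    exact hyz ((GP_adj_iso hy'.adj_sub).trans (GP_adj_iso hz'.adj_sub).symm)
  intro e he
  induction e using Sym2.ind with
  | _ x y =>
    have hx := c.fst_mem_support_of_mem_edges he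
    have hy := c.snd_mem_support_of_mem_edges he
    have h := c.adj_of_mem_edges he
    rw [SimpleGraph.mem_edgeSet]
    rw [GP, SimpleGraph.sup_adj, SimpleGraph.fromRel_adj] at h
    rcases h with h | ⟨_, ⟨z', h1, h2⟩ | ⟨z', h1, h2⟩⟩
    · exact h
    · exact absurd (h1 ▸ hx) (hiso z')
    · exact absurd (h1 ▸ hy) (hiso z')

theorem phi_inj (hd : 1 ≤ d) : Function.Injective (fun p : Fin t × Fin n × Fin (d + 1) =>
    (s(pt p.1 p.2.1 p.2.2, pt p.1 p.2.1 (p.2.2 + 1)) : Sym2 (VT n d t m))) := by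
  rintro ⟨τ, i, ⟨j, hj⟩⟩ ⟨τ', i', ⟨j', hj'⟩⟩ h
  have h' : s((pt τ i j : VT n d t m), pt τ i (j + 1)) = s(pt τ' i' j', pt τ' i' (j' + 1)) := h
  rw [Sym2.eq_iff] at h'
  have hres : τ = τ' ∧ i = i' ∧ j = j' := by
    rcases h' with ⟨e1, e2⟩ | ⟨e1, e2⟩
    · rcases Nat.lt_or_ge j d with hlt | hge
      · obtain ⟨r1, r2, r3⟩ := pt_eq (by omega) (by omega) e2
        exact ⟨r1, r2, by omega⟩
      · exact pt_eq (by omega) (by omega) e1
    · exfalso
      rcases Nat.lt_or_ge j d with hlt | hge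
      · obtain ⟨rfl, rfl, r3⟩ := pt_eq (by omega) (by omega) e2
        rcases Nat.eq_zero_or_pos j with h0 | h0
        · subst h0
          rw [pt_zero] at e1
          have := (cen_eq_pt e1).1
          omega
        · have := (pt_eq (by omega) (by omega) e1).2.2
          omega
      · have hjd : j = d := by omega
        subst hjd
        obtain ⟨rfl, rfl, r3⟩ := pt_eq (by omega) (by omega) e1
        rw [pt_hub] at e2
        have := (hub_eq_pt e2).1
        omega
  obtain ⟨rfl, rfl, rfl⟩ := hres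
  rfl

theorem pt_ne_succ {τ : Fin t} {i : Fin n} {j : ℕ} (hd : 1 ≤ d) (hj : j ≤ d) :
    (pt τ i j : VT n d t m) ≠ pt τ i (j + 1) := by
  intro e
  rcases Nat.eq_zero_or_pos j with h0 | h0
  · subst h0
    rw [pt_zero] at e
    have := (cen_eq_pt e).1
    omega
  · have := (pt_eq (by omega) (by omega) e).2.2
    omega

/-- the vertex type with only the allowed legs -/
abbrev VS (n d t m : ℕ) (A : Fin t × Fin n → Prop) : Type :=
  Fin n ⊕ ((Fin t ⊕ ({p : Fin t × Fin n // A p} × Fin d)) ⊕ Fin m)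

/-- the inclusion -/
def incl (A : Fin t × Fin n → Prop) : VS n d t m A → VT n d t m
  | Sum.inl i => hub i
  | Sum.inr (Sum.inl (Sum.inl τ)) => cen τ
  | Sum.inr (Sum.inl (Sum.inr (p, j))) => leg p.1.1 p.1.2 j
  | Sum.inr (Sum.inr z) => iso z

theorem incl_inj (A : Fin t × Fin n → Prop) :
    Function.Injective (incl A : VS n d t m A → VT n d t m) := by
  rintro (i | ((τ | ⟨⟨⟨τ, i⟩, hp⟩, j⟩) | z)) (i' | ((τ' | ⟨⟨⟨τ', i'⟩, hp'⟩, j'⟩) | z')) h
  all_goals simp only [incl, hub, cen, leg, iso, Sum.inl.injEq, Sum.inr.injEq, Prod.mk.injEq,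
    reduceCtorEq] at h ⊢
  · exact h
  · exact h
  · obtain ⟨rfl, rfl, rfl⟩ := h
    exact ⟨rfl, rfl⟩
  · exact h

theorem pt_range (A : Fin t × Fin n → Prop) {τ : Fin t} {i : Fin n} (h : A (τ, i)) (j : ℕ) :
    ∃ x : VS n d t m A, incl A x = pt τ i j := by
  unfold pt
  split_ifs with h1 h2
  · exact ⟨Sum.inr (Sum.inl (Sum.inl τ)), rfl⟩
  · exact ⟨Sum.inr (Sum.inl (Sum.inr (⟨(τ, i), h⟩, ⟨j - 1, h2⟩))), rfl⟩
  · exact ⟨Sum.inl i, rfl⟩

/-- the graph -/
def GS (n d t m : ℕ) (A : Fin t × Fin n → Prop) (h0 : Fin n) : SimpleGraph (VS n d t m A) :=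
  (GP n d t m h0).comap (incl A)

/-- the hom -/
def homS (A : Fin t × Fin n → Prop) (h0 : Fin n) : GS n d t m A h0 →g GP n d t m h0 where
  toFun := incl A
  map_rel' := fun h => h

theorem GS_cycle (A : Fin t × Fin n → Prop) (h0 : Fin n) {v : VS n d t m A}
    (c : (GS n d t m A h0).Walk v v) (hc : c.IsCycle) :
    ∃ c' : (GG n d t m).Walk (incl A v) (incl A v), c'.IsCycle ∧ c'.length = c.length ∧
      c'.support = c.support.map (incl A) := by
  have h1 : (c.map (homS A h0)).IsCycle := hc.map (incl_inj A)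
  have h2 := GP_cycle_edges (c.map (homS A h0)) h1
  refine ⟨(c.map (homS A h0)).transfer (GG n d t m) h2, h1.transfer h2, ?_, ?_⟩
  · exact (SimpleGraph.Walk.length_transfer _ _).trans (SimpleGraph.Walk.length_map _ _)
  · exact (SimpleGraph.Walk.support_transfer _ _).trans (SimpleGraph.Walk.support_map _ _)

theorem GS_len (hd : 1 ≤ d) (A : Fin t × Fin n → Prop) (h0 : Fin n) {v : VS n d t m A}
    (c : (GS n d t m A h0).Walk v v) (hc : c.IsCycle) : 4 * d + 4 ≤ c.length := by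
  obtain ⟨c', h1, h2, _⟩ := GS_cycle A h0 c hc
  rw [← h2]
  exact cycle_len hd c' h1

theorem GS_no_disj (hd : 1 ≤ d) (A : Fin t × Fin n → Prop) (h0 : Fin n) (k : ℕ)
    (hn : n < 2 * k) : ¬ HasDisjointCycles (GS n d t m A h0) k := by
  rintro ⟨v, c, hc, hdis⟩
  choose c' h1 h2 h3 using fun i => GS_cycle A h0 (c i) (hc i)
  refine no_disj hd k hn ⟨fun i => incl A (v i), c', h1, ?_⟩
  intro i j hij x hx hx'
  rw [h3, List.mem_map] at hx hx'
  obtain ⟨a, ha, rfl⟩ := hx
  obtain ⟨b, hb, hab⟩ := hx'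
  have := incl_inj A hab
  subst this
  exact hdis i j hij _ ha hb

theorem GS_edges (hd : 1 ≤ d) (A : Fin t × Fin n → Prop) (h0 : Fin n) :
    Nat.card {p : Fin t × Fin n // A p} * (d + 1) + m ≤ (GS n d t m A h0).edgeSet.ncard := by
  let φ : ({p : Fin t × Fin n // A p} × Fin (d + 1)) ⊕ Fin m → Sym2 (VT n d t m) := fun p =>
    match p with
    | Sum.inl (p, j) => s(pt p.1.1 p.1.2 j, pt p.1.1 p.1.2 (j + 1))
    | Sum.inr z => s(iso z, hub h0)
  have hinj : Function.Injective φ := by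
    rintro (⟨⟨⟨τ, i⟩, hp⟩, j⟩ | z) (⟨⟨⟨τ', i'⟩, hp'⟩, j'⟩ | z') h
    · have h1 := @phi_inj n d t m hd (τ, i, j) (τ', i', j') h
      simp only [Prod.mk.injEq] at h1
      obtain ⟨rfl, rfl, rfl⟩ := h1
      rfl
    · exfalso
      have h' : s((pt τ i j : VT n d t m), pt τ i (j + 1)) = s(iso z', hub h0) := h
      rw [Sym2.eq_iff] at h'
      rcases h' with ⟨e1, e2⟩ | ⟨e1, e2⟩
      · exact iso_ne_pt e1.symm
      · exact iso_ne_pt e2.symm
    · exfalso
      have h' : s(iso z, hub h0) = s((pt τ' i' j' : VT n d t m), pt τ' i' (j' + 1)) := h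
      rw [Sym2.eq_iff] at h'
      rcases h' with ⟨e1, e2⟩ | ⟨e1, e2⟩
      · exact iso_ne_pt e1
      · exact iso_ne_pt e1
    · have h' : s((iso z : VT n d t m), hub h0) = s(iso z', hub h0) := h
      rw [Sym2.eq_iff] at h'
      rcases h' with ⟨e1, e2⟩ | ⟨e1, e2⟩
      · simp only [iso, Sum.inr.injEq] at e1
        rw [e1]
      · simp [iso, hub] at e1
  have hsub : Set.range φ ⊆ (Sym2.map (incl A)) '' (GS n d t m A h0).edgeSet := by
    rintro _ ⟨(⟨⟨⟨τ, i⟩, hp⟩, ⟨j, hj⟩⟩ | z), rfl⟩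
    · obtain ⟨x, hx⟩ := pt_range (m := m) (d := d) A hp j
      obtain ⟨y, hy⟩ := pt_range (m := m) (d := d) A hp (j + 1)
      refine ⟨s(x, y), ?_, ?_⟩
      · rw [SimpleGraph.mem_edgeSet]
        show (GP n d t m h0).Adj (incl A x) (incl A y)
        rw [hx, hy, GP, SimpleGraph.sup_adj]
        left
        rw [GG, SimpleGraph.fromRel_adj]
        exact ⟨pt_ne_succ hd (by omega), Or.inl ⟨τ, i, j, by omega, rfl, rfl⟩⟩
      · rw [Sym2.map_mk]
        show s(incl A x, incl A y) = s(pt τ i j, pt τ i (j + 1))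
        rw [hx, hy]
    · refine ⟨s(Sum.inr (Sum.inr z), Sum.inl h0), ?_, rfl⟩
      rw [SimpleGraph.mem_edgeSet]
      show (GP n d t m h0).Adj (iso z) (hub h0)
      rw [GP, SimpleGraph.sup_adj]
      right
      rw [SimpleGraph.fromRel_adj]
      refine ⟨?_, Or.inl ⟨z, rfl, rfl⟩⟩
      simp [iso, hub]
  have h1 := Set.ncard_le_ncard hsub (Set.toFinite _)
  rw [Set.ncard_image_of_injective _ (Sym2.map.injective (incl_inj A)), ← Set.image_univ,
    Set.ncard_image_of_injective _ hinj, Set.ncard_univ] at h1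
  have h2 : Nat.card (({p : Fin t × Fin n // A p} × Fin (d + 1)) ⊕ Fin m) =
      Nat.card {p : Fin t × Fin n // A p} * (d + 1) + m := by
    rw [Nat.card_sum, Nat.card_prod, Nat.card_fin, Nat.card_fin]
  rw [h2] at h1
  exact h1

theorem GS_main (k d t m N : ℕ) (hk : 1 ≤ k) (hd : 1 ≤ d) (A : Fin t × Fin (2 * k - 1) → Prop)
    (hN : Nat.card {p : Fin t × Fin (2 * k - 1) // A p} = N) :
    ∃ (V : Type) (_ : Fintype V) (G : SimpleGraph V),
      Fintype.card V = (2 * k - 1) + t + N * d + m ∧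
      (∀ (v : V) (c : G.Walk v v), c.IsCycle → 4 * d + 4 ≤ c.length) ∧
      ¬ HasDisjointCycles G k ∧
      N * (d + 1) + m ≤ G.edgeSet.ncard := by
  refine ⟨VS (2 * k - 1) d t m A, inferInstance, GS (2 * k - 1) d t m A ⟨0, by omega⟩, ?_, ?_,
    ?_, ?_⟩
  · rw [← Nat.card_eq_fintype_card, Nat.card_sum, Nat.card_sum, Nat.card_sum, Nat.card_prod, hN,
      Nat.card_fin, Nat.card_fin, Nat.card_fin, Nat.card_fin]
    ring
  · intro v c hc
    exact GS_len hd A _ c hc
  · exact GS_no_disj hd A _ k (by omega)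
  · rw [← hN]
    exact GS_edges hd A _

end pend

/-- TARGET 1 : q full spiders, one spider with only `a` legs, `m` pendant vertices -/
theorem construction2 (k d q a m : ℕ) (hk : 1 ≤ k) (hd : 1 ≤ d) (ha1 : 1 ≤ a) (ha : a ≤ 2 * k - 1) :
    ∃ (V : Type) (_ : Fintype V) (G : SimpleGraph V),
      Fintype.card V = (2 * k - 1) + q * ((2 * k - 1) * d + 1) + (a * d + 1) + m ∧
      (∀ (v : V) (c : G.Walk v v), c.IsCycle → 4 * d + 4 ≤ c.length) ∧
      ¬ HasDisjointCycles G k ∧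
      q * ((2 * k - 1) * (d + 1)) + a * (d + 1) + m ≤ G.edgeSet.ncard := by
  have hN : Nat.card {p : Fin (q + 1) × Fin (2 * k - 1) // p.1.1 < q ∨ p.2.1 < a} =
      q * (2 * k - 1) + a := by
    have e : (Fin q × Fin (2 * k - 1)) ⊕ Fin a ≃
        {p : Fin (q + 1) × Fin (2 * k - 1) // p.1.1 < q ∨ p.2.1 < a} := by
      refine Equiv.ofBijective (fun x => match x with
        | Sum.inl (τ, i) => ⟨(⟨τ.1, by omega⟩, i), Or.inl τ.2⟩
        | Sum.inr i => ⟨(⟨q, by omega⟩, ⟨i.1, by omega⟩), Or.inr i.2⟩) ⟨?_, ?_⟩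
      · rintro (⟨τ, i⟩ | i) (⟨τ', i'⟩ | i') h
        · simp only [Subtype.mk.injEq, Prod.mk.injEq, Fin.mk.injEq] at h
          obtain ⟨h1, rfl⟩ := h
          have := Fin.ext h1
          subst this
          rfl
        · simp only [Subtype.mk.injEq, Prod.mk.injEq, Fin.mk.injEq] at h
          have := τ.2
          omega
        · simp only [Subtype.mk.injEq, Prod.mk.injEq, Fin.mk.injEq] at h
          have := τ'.2
          omega
        · simp only [Subtype.mk.injEq, Prod.mk.injEq, Fin.mk.injEq] at h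
          have := Fin.ext h.2
          subst this
          rfl
      · rintro ⟨⟨⟨τ, hτ⟩, i⟩, hp⟩
        by_cases h : τ < q
        · exact ⟨Sum.inl (⟨τ, h⟩, i), rfl⟩
        · have h1 : τ = q := by omega
          subst h1
          have h2 : i.1 < a := by
            rcases hp with hp | hp
            · exact absurd hp h
            · exact hp
          exact ⟨Sum.inr ⟨i.1, h2⟩, rfl⟩
    rw [← Nat.card_congr e, Nat.card_sum, Nat.card_prod, Nat.card_fin, Nat.card_fin, Nat.card_fin]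
  obtain ⟨V, I, G, h1, h2, h3, h4⟩ := GS_main k d (q + 1) m _ hk hd _ hN
  refine ⟨V, I, G, ?_, h2, h3, ?_⟩
  · rw [h1]
    ring
  · refine le_trans (le_of_eq ?_) h4
    ring

/-- TARGET 2 : q full spiders and `m` pendant vertices -/
theorem construction3 (k d q m : ℕ) (hk : 1 ≤ k) (hd : 1 ≤ d) :
    ∃ (V : Type) (_ : Fintype V) (G : SimpleGraph V),
      Fintype.card V = (2 * k - 1) + q * ((2 * k - 1) * d + 1) + m ∧
      (∀ (v : V) (c : G.Walk v v), c.IsCycle → 4 * d + 4 ≤ c.length) ∧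
      ¬ HasDisjointCycles G k ∧
      q * ((2 * k - 1) * (d + 1)) + m ≤ G.edgeSet.ncard := by
  have hN : Nat.card {p : Fin q × Fin (2 * k - 1) // True} = q * (2 * k - 1) := by
    rw [Nat.card_congr (Equiv.subtypeUnivEquiv (fun _ => trivial)), Nat.card_prod, Nat.card_fin,
      Nat.card_fin]
  obtain ⟨V, I, G, h1, h2, h3, h4⟩ := GS_main k d q m _ hk hd _ hN
  refine ⟨V, I, G, ?_, h2, h3, ?_⟩
  · rw [h1]
    ring
  · refine le_trans (le_of_eq ?_) h4
    ring


end SolConstr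
end DisjCyc
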