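import Pool.Agent.Helper470.DC.SolTree
set_option autoImplicit false
open scoped Classical
open Finset

namespace DisjCyc
namespace SolTCard
open SolTree

variable {V : Type}




/-- TARGET -/
theorem tree_card {V : Type} (F : SimpleGraph V) (hF : Acy F) (T : Finset V) (hT : Tr F T)
    (d : ℕ) (Q : Finset V) (hQ : Q ⊆ T) (hQ2 : 2 ≤ Q.card)
    (h1 : ∀ p ∈ Q, ∀ q ∈ Q, p ≠ q → ∀ R ⊆ T, Tr F R → p ∈ R → q ∈ R → 2 * d + 1 ≤ R.card) :
    Q.card * d + 1 ≤ T.card ∧ (T.card = Q.card * d + 1 → ∀ p ∈ Q, ∀ q ∈ Q, p ≠ q →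
      ∃ R ⊆ T, Tr F R ∧ p ∈ R ∧ q ∈ R ∧ R.card ≤ 2 * d + 1) := by
  obtain ⟨p0, hp0, q0, hq0, hne0⟩ := Finset.one_lt_card.1 (show 1 < Q.card by omega)
  obtain ⟨par, dep, h0, hp⟩ := exists_par F hF q0 T.card T rfl hT (hQ hq0)
  have hD := it_mem h0 hp
  have hroot : ∀ v ∈ T, dep v = 0 → v = q0 := by
    intro v hv h
    by_contra hne
    have := (hp v hv hne).2.2
    omega
  have hend : ∀ v ∈ T, par^[dep v] v = q0 := by
    intro v hv
    obtain ⟨a, b⟩ := hD (dep v) v hv le_rfl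
    exact hroot _ a (by omega)
  -- chain to the root
  have hchain : ∀ v ∈ T, ∃ R ⊆ T, Tr F R ∧ v ∈ R ∧ q0 ∈ R ∧ R.card ≤ dep v + 1 := by
    intro v hv
    refine ⟨(range (dep v + 1)).image (fun i => par^[i] v), chain_sub h0 hp v hv _ le_rfl,
      chain_tr hF h0 hp v hv _ le_rfl, mem_image.2 ⟨0, by simp, rfl⟩,
      mem_image.2 ⟨dep v, by simp, hend v hv⟩, ?_⟩
    exact card_image_le.trans (by simp)
  have hdep : ∀ p ∈ Q, p ≠ q0 → 2 * d ≤ dep p := by
    intro p hpQ hne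
    obtain ⟨R, hR, hRT, hpR, hqR, hc⟩ := hchain p (hQ hpQ)
    have := h1 p hpQ q0 hq0 hne R hR hRT hpR hqR
    omega
  have hd0 := hdep p0 hp0 hne0
  set P : V → Finset V := fun p => (range d).image (fun i => par^[i] p) with hP
  set C : Finset V := (Icc (dep p0 - d) (dep p0)).image (fun i => par^[i] p0) with hC
  set U : Finset V := (Q.erase q0).biUnion P with hU
  have hinj : ∀ p ∈ T, ∀ i j, i ≤ dep p → j ≤ dep p → par^[i] p = par^[j] p → i = j := by
    intro p hpT i j hi hj e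
    have a := (hD i p hpT hi).2
    have b := (hD j p hpT hj).2
    rw [e] at a
    omega
  have hPc : ∀ p ∈ Q.erase q0, (P p).card = d := by
    intro p hpQ
    rw [mem_erase] at hpQ
    have h2 := hdep p hpQ.2 hpQ.1
    rw [hP]
    simp only
    rw [card_image_of_injOn, card_range]
    intro i hi j hj e
    simp only [coe_range, Set.mem_Iio] at hi hj
    exact hinj p (hQ hpQ.2) i j (by omega) (by omega) e
  have hCc : C.card = d + 1 := by
    rw [hC, card_image_of_injOn]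
    · rw [Nat.card_Icc]; omega
    · intro i hi j hj e
      simp only [coe_Icc, Set.mem_Icc] at hi hj
      exact hinj p0 (hQ hp0) i j (by omega) (by omega) e
  have hdisjP : ∀ p ∈ Q, ∀ q ∈ Q, p ≠ q → ∀ i j, i ≤ dep p → j ≤ dep q → i + j < 2 * d →
      par^[i] p ≠ par^[j] q := by
    intro p hpQ q hqQ hne i j hi hj hij e
    obtain ⟨R, hR, hRT, hpR, hqR, hc⟩ := lca hF h0 hp p q (hQ hpQ) (hQ hqQ) i j hi hj e
    have := h1 p hpQ q hqQ hne R hR hRT hpR hqR
    omega
  have hUc : U.card = (Q.card - 1) * d := by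
    rw [hU, card_biUnion, sum_congr rfl hPc, sum_const, smul_eq_mul, card_erase_of_mem hq0]
    intro p hpQ q hqQ hne
    rw [mem_coe, mem_erase] at hpQ hqQ
    have h2 := hdep p hpQ.2 hpQ.1
    have h3 := hdep q hqQ.2 hqQ.1
    show Disjoint (P p) (P q)
    rw [Finset.disjoint_left]
    intro x hx hx'
    obtain ⟨i, hi, rfl⟩ := mem_image.1 hx
    obtain ⟨j, hj, e⟩ := mem_image.1 hx'
    rw [mem_range] at hi hj
    exact hdisjP p hpQ.2 q hqQ.2 hne i j (by omega) (by omega) (by omega) e.symm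
  have hUT : U ⊆ T := by
    intro x hx
    rw [hU, mem_biUnion] at hx
    obtain ⟨p, hpQ, hx⟩ := hx
    rw [mem_erase] at hpQ
    have h2 := hdep p hpQ.2 hpQ.1
    obtain ⟨i, hi, rfl⟩ := mem_image.1 hx
    rw [mem_range] at hi
    exact (hD i p (hQ hpQ.2) (by omega)).1
  have hCT : C ⊆ T := by
    intro x hx
    rw [hC] at hx
    obtain ⟨i, hi, rfl⟩ := mem_image.1 hx
    rw [mem_Icc] at hi
    exact (hD i p0 (hQ hp0) (by omega)).1
  have hUd : ∀ x ∈ U, d + 1 ≤ dep x := by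
    intro x hx
    rw [hU, mem_biUnion] at hx
    obtain ⟨p, hpQ, hx⟩ := hx
    rw [mem_erase] at hpQ
    have h2 := hdep p hpQ.2 hpQ.1
    obtain ⟨i, hi, rfl⟩ := mem_image.1 hx
    rw [mem_range] at hi
    have := (hD i p (hQ hpQ.2) (by omega)).2
    omega
  have hCd : ∀ x ∈ C, dep x ≤ d := by
    intro x hx
    rw [hC] at hx
    obtain ⟨i, hi, rfl⟩ := mem_image.1 hx
    rw [mem_Icc] at hi
    have := (hD i p0 (hQ hp0) (by omega)).2
    omega
  have hUC : Disjoint U C := by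
    rw [Finset.disjoint_left]
    intro x hx hx'
    have := hUd x hx
    have := hCd x hx'
    omega
  have hcard : (U ∪ C).card = Q.card * d + 1 := by
    rw [card_union_of_disjoint hUC, hUc, hCc]
    obtain ⟨m, hm⟩ : ∃ m, Q.card = m + 1 := ⟨Q.card - 1, by omega⟩
    rw [hm]
    simp only [Nat.add_sub_cancel]
    ring
  refine ⟨hcard ▸ card_le_card (union_subset hUT hCT), ?_⟩
  intro hTc
  have hTeq : U ∪ C = T := eq_of_subset_of_card_le (union_subset hUT hCT) (by rw [hTc, hcard])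
  have hkey : ∀ p ∈ Q, p ≠ q0 → dep p = 2 * d ∧ par^[d] p = par^[dep p0 - d] p0 := by
    intro p hpQ hne
    have h2 := hdep p hpQ hne
    obtain ⟨a, b⟩ := hD d p (hQ hpQ) (by omega)
    rw [← hTeq, mem_union] at a
    rcases a with a | a
    · exfalso
      rw [hU, mem_biUnion] at a
      obtain ⟨q, hqQ, hx⟩ := a
      rw [mem_erase] at hqQ
      have h3 := hdep q hqQ.2 hqQ.1
      obtain ⟨j, hj, e⟩ := mem_image.1 hx
      rw [mem_range] at hj
      by_cases hpq : p = q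
      · subst hpq
        have := hinj p (hQ hpQ) j d (by omega) (by omega) e
        omega
      · exact hdisjP p hpQ q hqQ.2 hpq d j (by omega) (by omega) (by omega) e.symm
    · rw [hC] at a
      obtain ⟨i, hi, e⟩ := mem_image.1 a
      rw [mem_Icc] at hi
      have h4 := (hD i p0 (hQ hp0) (by omega)).2
      rw [e] at h4
      have h5 : i = dep p0 - d := by omega
      subst h5
      exact ⟨by omega, e.symm⟩
  intro p hpQ q hqQ hne
  by_cases hpe : p = q0
  · subst hpe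
    obtain ⟨R, hR, hRT, hpR, hqR, hc⟩ := hchain q (hQ hqQ)
    have := (hkey q hqQ (fun e => hne e.symm)).1
    exact ⟨R, hR, hRT, hqR, hpR, by omega⟩
  · by_cases hqe : q = q0
    · subst hqe
      obtain ⟨R, hR, hRT, hpR, hqR, hc⟩ := hchain p (hQ hpQ)
      have := (hkey p hpQ hpe).1
      exact ⟨R, hR, hRT, hpR, hqR, by omega⟩
    · have h2 := hkey p hpQ hpe
      have h3 := hkey q hqQ hqe
      obtain ⟨R, hR, hRT, hpR, hqR, hc⟩ := lca hF h0 hp p q (hQ hpQ) (hQ hqQ) d d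
        (by omega) (by omega) (h2.2.trans h3.2.symm)
      exact ⟨R, hR, hRT, hpR, hqR, by omega⟩


end SolTCard
end DisjCyc
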