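import Pool.Agent.Helper470.DC.Cycles
import Pool.Agent.Helper470.DC.SolTCard
set_option autoImplicit false
open scoped Classical
open Finset

namespace DisjCyc
namespace SolExact

/-- given (do not prove) -/
theorem tree_card {V : Type} (F : SimpleGraph V) (hF : Acy F) (T : Finset V) (hT : Tr F T)
    (d : ℕ) (Q : Finset V) (hQ : Q ⊆ T) (hQ2 : 2 ≤ Q.card)
    (h1 : ∀ p ∈ Q, ∀ q ∈ Q, p ≠ q → ∀ R ⊆ T, Tr F R → p ∈ R → q ∈ R → 2 * d + 1 ≤ R.card) :
    Q.card * d + 1 ≤ T.card ∧ (T.card = Q.card * d + 1 → ∀ p ∈ Q, ∀ q ∈ Q, p ≠ q →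
      ∃ R ⊆ T, Tr F R ∧ p ∈ R ∧ q ∈ R ∧ R.card ≤ 2 * d + 1) :=
  SolTCard.tree_card F hF T hT d Q hQ hQ2 h1

theorem exact_of_pieces_dg0 {V : Type} {G : SimpleGraph V} {W : Finset V} {v : V}
    (h : ∀ w ∈ W, ¬ G.Adj v w) : dg G W v = 0 := by
  by_contra hne
  obtain ⟨w, hw, hvw⟩ := dg_pos_iff.1 (Nat.pos_of_ne_zero hne)
  exact h w hw hvw

theorem exact_of_pieces_B {V : Type} (G : SimpleGraph V) (k : ℕ) (hk : 2 ≤ k)
    (hK : ∀ Y, ¬ KCyc G Y k)
    (H : Finset V) (Pc : Finset (Finset V)) (hN : 2 * k + 2 ≤ Pc.card)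
    (hdis : ∀ P ∈ Pc, ∀ P' ∈ Pc, P ≠ P' → Disjoint P P') (hPH : ∀ P ∈ Pc, Disjoint P H)
    (hTr : ∀ P ∈ Pc, Tr G P) (h1 : ∀ P ∈ Pc, ∀ i ∈ H, dg G P i = 1)
    (W J : Finset V) (hW : Cyc G W) (hWP : ∀ P ∈ Pc, Disjoint W P) (hJH : J ⊆ H)
    (hJ : J.card = 2 * k - 2) (hWJ : Disjoint W J) : False := by
  have key := many_cycles (le_refl G) Pc hTr hdis H hPH (2 * k + 2) (k - 1) ∅ J (by simp) hJH
    (by simp) (by simp) (fun i hi j hj _ => by
      have e : Pc.filter (fun P => 1 ≤ dg G P i ∧ 1 ≤ dg G P j) = Pc := by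
        apply filter_true_of_mem
        intro P hP
        rw [h1 P hP i (hJH hi), h1 P hP j (hJH hj)]
        exact ⟨le_rfl, le_rfl⟩
      rw [e]; exact hN) (by omega) ∅ (by rw [card_empty, card_empty]; omega)
  rw [card_empty, zero_add] at key
  have h2 : Disjoint W ((∅ ∪ J) ∪ (Pc \ ∅).biUnion id) := by
    rw [Finset.disjoint_left]
    intro x hx hx'
    rcases mem_union.1 hx' with h | h
    · rw [empty_union] at h
      exact Finset.disjoint_left.1 hWJ hx h
    · rw [mem_biUnion] at h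
      obtain ⟨P, hP, hxP⟩ := h
      rw [sdiff_empty] at hP
      exact Finset.disjoint_left.1 (hWP P hP) hx hxP
  have h3 := KCyc_insert key hW h2 (Y' := W ∪ ((∅ ∪ J) ∪ (Pc \ ∅).biUnion id))
    subset_union_left subset_union_right
  have e : k - 1 + 1 = k := by omega
  rw [e] at h3
  exact hK _ h3

theorem exact_of_pieces_A {V : Type} (G : SimpleGraph V) (H : Finset V) (Pc : Finset (Finset V))
    (hno : ∀ P ∈ Pc, ∀ W ⊆ P, ¬ Cyc G W)
    (hout : ∀ P ∈ Pc, ∀ u ∈ P, ∀ w, G.Adj u w → w ∈ P ∨ w ∈ H)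
    (W : Finset V) (hW : Cyc G W) (hWH : Disjoint W H) :
    ∃ W' ⊆ W, Cyc G W' ∧ ∀ P ∈ Pc, Disjoint W' P := by
  induction Pc using Finset.induction_on with
  | empty => exact ⟨W, Subset.refl _, hW, by simp⟩
  | insert P 𝒬 hP ih =>
    obtain ⟨W', hW'W, hW', hd⟩ := ih (fun P' hP' => hno P' (mem_insert_of_mem hP'))
      (fun P' hP' => hout P' (mem_insert_of_mem hP'))
    refine ⟨W' \ P, (sdiff_subset).trans hW'W, ?_, ?_⟩
    · have e : (W' ∩ P) ∪ (W' \ P) = W' := by
        ext x; simp only [mem_union, mem_inter, mem_sdiff]; tauto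
      have hdj : Disjoint (W' ∩ P) (W' \ P) := by
        rw [Finset.disjoint_left]; intro x hx hx'
        exact (mem_sdiff.1 hx').2 (mem_inter.1 hx).2
      have h1 := ec_union_disj G hdj
      have h2 : ∑ a ∈ W' ∩ P, dg G (W' \ P) a = 0 := by
        apply sum_eq_zero
        intro a ha
        apply exact_of_pieces_dg0
        intro w hw haw
        rcases hout P (mem_insert_self _ _) a (mem_inter.1 ha).2 w haw with h | h
        · exact (mem_sdiff.1 hw).2 h
        · exact Finset.disjoint_left.1 hWH (hW'W (mem_sdiff.1 hw).1) h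
      rw [e, h2, add_zero] at h1
      have h3 := card_union_of_disjoint hdj
      rw [e] at h3
      have h4 := hW'.2
      have h5 : ec G (W' ∩ P) ≤ (W' ∩ P).card ∧
          ((W' ∩ P).Nonempty → ec G (W' ∩ P) < (W' ∩ P).card) := by
        by_cases hne : (W' ∩ P).Nonempty
        · have : ec G (W' ∩ P) < (W' ∩ P).card := by
            by_contra hcon
            exact hno P (mem_insert_self _ _) _ inter_subset_right ⟨hne, by omega⟩
          exact ⟨this.le, fun _ => this⟩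
        · rw [not_nonempty_iff_eq_empty] at hne
          rw [hne, ec_empty]
          simp
      refine ⟨?_, by omega⟩
      by_contra hne
      rw [not_nonempty_iff_eq_empty] at hne
      rw [hne, ec_empty] at h1
      rw [hne, card_empty] at h3
      have h6 : (W' ∩ P).Nonempty := by
        rw [← card_pos]
        have := card_pos.2 hW'.1
        omega
      have := h5.2 h6
      omega
    · intro P' hP'
      rcases mem_insert.1 hP' with rfl | h
      · exact sdiff_disjoint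
      · exact (hd P' h).mono_left sdiff_subset

theorem exact_of_pieces_D {V : Type} {F G : SimpleGraph V} (hF : Acy F) (d : ℕ) (hd : 1 ≤ d)
    (T K : Finset V) (hT : Tr F T) (hK : 2 ≤ K.card) (h1 : ∀ i ∈ K, 1 ≤ dg G T i)
    (hfar : ∀ i ∈ K, ∀ j ∈ K, i ≠ j → ∀ p ∈ T, ∀ q ∈ T, G.Adj p i → G.Adj q j →
      ∀ R ⊆ T, Tr F R → p ∈ R → q ∈ R → 2 * d + 1 ≤ R.card) :
    K.card * d + 1 ≤ T.card ∧ (T.card = K.card * d + 1 → ∀ i ∈ K, ∀ j ∈ K, i ≠ j →
      ∃ R ⊆ T, Tr F R ∧ 1 ≤ dg G R i ∧ 1 ≤ dg G R j ∧ R.card ≤ 2 * d + 1) := by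
  have h2 : ∀ i : V, ∃ p : V, i ∈ K → p ∈ T ∧ G.Adj i p := by
    intro i
    by_cases hi : i ∈ K
    · obtain ⟨p, hp, hip⟩ := dg_pos_iff.1 (h1 i hi)
      exact ⟨p, fun _ => ⟨hp, hip⟩⟩
    · exact ⟨i, fun h => absurd h hi⟩
  choose att hatt using h2
  have hinj : ∀ i ∈ K, ∀ j ∈ K, att i = att j → i = j := by
    intro i hi j hj h
    by_contra hij
    have h3 := hfar i hi j hj hij (att i) (hatt i hi).1 (att i) (hatt i hi).1
      (hatt i hi).2.symm (by rw [h]; exact (hatt j hj).2.symm) {att i}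
      (by simpa using (hatt i hi).1) (Tr_singleton F _) (by simp) (by simp)
    rw [card_singleton] at h3
    omega
  have hcard : (K.image att).card = K.card :=
    card_image_of_injOn (fun i hi j hj h => hinj i hi j hj h)
  have h3 := tree_card F hF T hT d (K.image att) (by
      intro x hx
      obtain ⟨i, hi, rfl⟩ := mem_image.1 hx
      exact (hatt i hi).1) (by rw [hcard]; exact hK) (by
      intro p hp q hq hpq R hR hTR hpR hqR
      obtain ⟨i, hi, rfl⟩ := mem_image.1 hp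
      obtain ⟨j, hj, rfl⟩ := mem_image.1 hq
      have hij : i ≠ j := fun h => hpq (by rw [h])
      exact hfar i hi j hj hij _ (hatt i hi).1 _ (hatt j hj).1 (hatt i hi).2.symm
        (hatt j hj).2.symm R hR hTR hpR hqR)
  rw [hcard] at h3
  refine ⟨h3.1, fun h i hi j hj hij => ?_⟩
  obtain ⟨R, hR, hTR, hi', hj', hc⟩ := h3.2 h (att i) (mem_image_of_mem _ hi) (att j)
    (mem_image_of_mem _ hj) (fun e => hij (hinj i hi j hj e))
  exact ⟨R, hR, hTR, dg_pos_iff.2 ⟨_, hi', (hatt i hi).2⟩, dg_pos_iff.2 ⟨_, hj', (hatt j hj).2⟩,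
    hc⟩

theorem exact_of_pieces_ec {V : Type} {F G : SimpleGraph V} {H : Finset V}
    (hFadj : ∀ u v, F.Adj u v ↔ G.Adj u v ∧ u ∉ H ∧ v ∉ H) (T : Finset V) (hT : Disjoint T H) :
    ec F T = ec G T := by
  unfold ec
  congr 1
  ext e
  induction e using Sym2.ind with
  | _ a b =>
    simp only [mem_filter, mk_mem_sym2_iff, SimpleGraph.mem_edgeSet, hFadj]
    constructor
    · rintro ⟨h1, h2⟩; exact ⟨h1, h2.1⟩
    · rintro ⟨h1, h2⟩
      exact ⟨h1, h2, Finset.disjoint_left.1 hT h1.1, Finset.disjoint_left.1 hT h1.2⟩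

theorem exact_of_pieces_Acy {V : Type} {F G : SimpleGraph V} {H : Finset V}
    (hFadj : ∀ u v, F.Adj u v ↔ G.Adj u v ∧ u ∉ H ∧ v ∉ H)
    (hno' : ∀ W, Disjoint W H → ¬ Cyc G W) : Acy F := by
  intro W hW
  have h1 : ec F W ≤ ec G (W \ H) := by
    unfold ec
    apply card_le_card
    intro e
    induction e using Sym2.ind with
    | _ a b =>
      simp only [mem_filter, mk_mem_sym2_iff, SimpleGraph.mem_edgeSet, hFadj, mem_sdiff]
      rintro ⟨h1, h2⟩
      exact ⟨⟨⟨h1.1, h2.2.1⟩, ⟨h1.2, h2.2.2⟩⟩, h2.1⟩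
  by_cases hne : (W \ H).Nonempty
  · have h2 : ¬ Cyc G (W \ H) := hno' _ sdiff_disjoint
    have h3 : ec G (W \ H) < (W \ H).card := by
      by_contra hcon
      exact h2 ⟨hne, by omega⟩
    have h4 : (W \ H).card ≤ W.card := card_le_card sdiff_subset
    omega
  · rw [not_nonempty_iff_eq_empty] at hne
    rw [hne, ec_empty] at h1
    have := card_pos.2 hW
    omega

theorem exact_of_pieces_ecU {V : Type} (F : SimpleGraph V) (𝒟 : Finset (Finset V))
    (hdis : ∀ T ∈ 𝒟, ∀ T' ∈ 𝒟, T ≠ T' → Disjoint T T')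
    (hadj : ∀ T ∈ 𝒟, ∀ T' ∈ 𝒟, T ≠ T' → ∀ u ∈ T, ∀ w ∈ T', ¬ F.Adj u w) :
    ec F (𝒟.biUnion id) = ∑ T ∈ 𝒟, ec F T := by
  induction 𝒟 using Finset.induction_on with
  | empty => simp [ec_empty]
  | insert T 𝒟 hT ih =>
    have hd : Disjoint T (𝒟.biUnion id) := by
      rw [Finset.disjoint_biUnion_right]
      intro T' hT'
      exact hdis T (mem_insert_self _ _) T' (mem_insert_of_mem hT') (fun e => hT (e ▸ hT'))
    rw [biUnion_insert, sum_insert hT]
    change ec F (T ∪ 𝒟.biUnion id) = _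
    rw [ec_union_disj F hd, ih (fun A hA B hB => hdis A (mem_insert_of_mem hA) B
      (mem_insert_of_mem hB)) (fun A hA B hB => hadj A (mem_insert_of_mem hA) B
      (mem_insert_of_mem hB))]
    have h0 : ∑ a ∈ T, dg F (𝒟.biUnion id) a = 0 := by
      apply sum_eq_zero
      intro a ha
      apply exact_of_pieces_dg0
      intro w hw
      obtain ⟨T', hT', hwT'⟩ := mem_biUnion.1 hw
      exact hadj T (mem_insert_self _ _) T' (mem_insert_of_mem hT') (fun e => hT (e ▸ hT')) a ha w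
        hwT'
    rw [h0, add_zero]

theorem exact_of_pieces_dgU {V : Type} (G : SimpleGraph V) (𝒟 : Finset (Finset V))
    (hdis : ∀ T ∈ 𝒟, ∀ T' ∈ 𝒟, T ≠ T' → Disjoint T T') (v : V) :
    dg G (𝒟.biUnion id) v = ∑ T ∈ 𝒟, dg G T v := by
  induction 𝒟 using Finset.induction_on with
  | empty => simp [dg]
  | insert T 𝒟 hT ih =>
    have hd : Disjoint T (𝒟.biUnion id) := by
      rw [Finset.disjoint_biUnion_right]
      intro T' hT'
      exact hdis T (mem_insert_self _ _) T' (mem_insert_of_mem hT') (fun e => hT (e ▸ hT'))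
    rw [biUnion_insert, sum_insert hT]
    change dg G (T ∪ 𝒟.biUnion id) v = _
    rw [dg_union_disj G hd, ih (fun A hA B hB => hdis A (mem_insert_of_mem hA) B
      (mem_insert_of_mem hB))]

theorem exact_of_pieces_arith (c d N m σ q r : ℕ) (hd : 1 ≤ d) (h1 : σ ≤ m * c)
    (h2 : d * σ + m * (d + 1) ≤ N) (hN : ((c + 1) * d + 1) * q + r = N) :
    σ ≤ c * q + ((r - 1) / d - 1) := by
  rcases Nat.lt_or_ge q m with hm | hm
  · have h3 : (q + 1) * (d + 1) ≤ m * (d + 1) := Nat.mul_le_mul_right _ hm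
    have h4 : d * σ + (d + 1) ≤ d * (c * q) + r := by
      have e1 : ((c + 1) * d + 1) * q + r = d * (c * q) + q * (d + 1) + r := by ring
      have e2 : (q + 1) * (d + 1) = q * (d + 1) + (d + 1) := by ring
      omega
    rcases Nat.lt_or_ge (c * q) σ with h5 | h5
    · obtain ⟨y, hy⟩ := Nat.exists_eq_add_of_lt h5
      have h6 : (y + 2) * d ≤ r - 1 := by
        have e3 : d * σ = d * (c * q) + d * y + d := by rw [hy]; ring
        have e4 : (y + 2) * d = d * y + d + d := by ring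
        omega
      have h7 : y + 2 ≤ (r - 1) / d := (Nat.le_div_iff_mul_le (by omega)).2 h6
      omega
    · omega
  · have h3 : m * c ≤ q * c := Nat.mul_le_mul_right _ hm
    have h4 : q * c = c * q := Nat.mul_comm _ _
    omega

/-- TARGET : exact bound from the structure -/
theorem exact_of_pieces {V : Type} [Fintype V] (G : SimpleGraph V) (k d : ℕ) (hk : 2 ≤ k) (hd : 1 ≤ d)
    (hg : ∀ W, Cyc G W → 4 * d + 4 ≤ W.card) (hK : ∀ Y, ¬ KCyc G Y k)
    (H : Finset V) (hH : H.card = 2 * k - 1) (Pc : Finset (Finset V)) (hN : 2 * k + 2 ≤ Pc.card)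
    (hdis : ∀ P ∈ Pc, ∀ P' ∈ Pc, P ≠ P' → Disjoint P P') (hPH : ∀ P ∈ Pc, Disjoint P H)
    (hTr : ∀ P ∈ Pc, Tr G P) (hno : ∀ P ∈ Pc, ∀ W ⊆ P, ¬ Cyc G W)
    (hout : ∀ P ∈ Pc, ∀ u ∈ P, ∀ w, G.Adj u w → w ∈ P ∨ w ∈ H)
    (h1 : ∀ P ∈ Pc, ∀ i ∈ H, dg G P i = 1) (hc : ∀ P ∈ Pc, P.card = (2 * k - 1) * d + 1)
    (hfar : ∀ P ∈ Pc, ∀ i ∈ H, ∀ j ∈ H, i ≠ j → ∀ p ∈ P, ∀ q ∈ P, G.Adj p i → G.Adj q j →
      ∀ R ⊆ P, Tr G R → p ∈ R → q ∈ R → 2 * d + 1 ≤ R.card) :
    ec G univ ≤ (Fintype.card V - (2 * k - 1)) +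
      (2 * k - 2) * ((Fintype.card V - (2 * k - 1)) / ((2 * k - 1) * d + 1)) +
      (((Fintype.card V - (2 * k - 1)) % ((2 * k - 1) * d + 1) - 1) / d - 1) := by
  -- no cyclic set outside `H`
  have hno' : ∀ W, Disjoint W H → ¬ Cyc G W := by
    intro W hWH hW
    obtain ⟨W', hW'W, hW', hd'⟩ := exact_of_pieces_A G H Pc hno hout W hW hWH
    obtain ⟨J, hJH, hJ⟩ := exists_subset_card_eq (s := H) (n := 2 * k - 2) (by omega)
    exact exact_of_pieces_B G k hk hK H Pc hN hdis hPH hTr h1 W' J hW' hd' hJH hJ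
      ((hWH.mono_left hW'W).mono_right hJH)
  obtain ⟨F, hFadj⟩ : ∃ F : SimpleGraph V, ∀ u v, F.Adj u v ↔ G.Adj u v ∧ u ∉ H ∧ v ∉ H := by
    refine ⟨SimpleGraph.fromRel (fun u v => G.Adj u v ∧ u ∉ H ∧ v ∉ H), fun u v => ?_⟩
    rw [SimpleGraph.fromRel_adj]
    constructor
    · rintro ⟨_, h | h⟩
      · exact h
      · exact ⟨h.1.symm, h.2.2, h.2.1⟩
    · intro h
      exact ⟨h.1.ne, Or.inl h⟩
  have hFG : F ≤ G := fun u v h => ((hFadj u v).1 h).1
  have hF : Acy F := exact_of_pieces_Acy hFadj hno'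
  obtain ⟨S, hS⟩ : ∃ S : Finset V, S = univ \ H := ⟨_, rfl⟩
  have hecS : ∀ T, Disjoint T H → ec F T = ec G T := exact_of_pieces_ec hFadj
  have hSH : Disjoint S H := by rw [hS]; exact sdiff_disjoint
  have hdisS : ∀ T : Finset V, T ⊆ S → Disjoint T H := fun T hT => hSH.mono_left hT
  have hPS : ∀ P ∈ Pc, P ⊆ S := by
    intro P hP x hx
    rw [hS, mem_sdiff]
    exact ⟨mem_univ _, Finset.disjoint_left.1 (hPH P hP) hx⟩
  have hPF : ∀ P ∈ Pc, Tr F P := fun P hP =>
    ⟨(hTr P hP).1, by rw [hecS P (hPH P hP)]; exact (hTr P hP).2⟩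
  have hPC : ∀ P ∈ Pc, P ∈ comps F S := by
    intro P hP
    obtain ⟨p, hp⟩ := (hTr P hP).1
    have hpS := hPS P hP hp
    have hsub : P ⊆ comp F S p := subset_comp (hPS P hP) (hPF P hP) hp
    have hsub' : comp F S p ⊆ P := by
      by_contra hcon
      have hne : (comp F S p \ P).Nonempty := by
        rw [Finset.nonempty_iff_ne_empty]
        intro h
        exact hcon (sdiff_eq_empty_iff_subset.1 h)
      have hdj : Disjoint P (comp F S p \ P) := disjoint_sdiff
      have h2 := ec_union_disj F hdj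
      have h0 : ∑ a ∈ P, dg F (comp F S p \ P) a = 0 := by
        apply sum_eq_zero
        intro a ha
        apply exact_of_pieces_dg0
        intro w hw haw
        rw [mem_sdiff] at hw
        rcases hout P hP a ha w (hFG haw) with h | h
        · exact hw.2 h
        · exact Finset.disjoint_left.1 hSH (comp_subset F S p hw.1) h
      have hU : P ∪ (comp F S p \ P) = comp F S p := union_sdiff_of_subset hsub
      rw [hU, h0, add_zero] at h2
      have h3 := (Tr_comp hF hpS).2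
      have h4 := (hPF P hP).2
      have h5 := hF _ hne
      have h6 := card_union_of_disjoint hdj
      rw [hU] at h6
      omega
    exact mem_comps.2 ⟨p, hpS, Subset.antisymm hsub' hsub⟩
  have hTP : ∀ T ∈ comps F S, T ∉ Pc → ∀ P ∈ Pc, Disjoint T P := fun T hT hTP P hP =>
    comps_disjoint hF hT (hPC P hP) (fun e => hTP (e ▸ hP))
  have hpair : ∀ P ∈ Pc, ∀ i ∈ H, ∀ j ∈ H, i ≠ j → ∃ R ⊆ P, Tr F R ∧ 1 ≤ dg G R i ∧
      1 ≤ dg G R j ∧ R.card ≤ 2 * d + 1 := by
    intro P hP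
    refine (exact_of_pieces_D hF d hd P H (hPF P hP) (by omega)
      (fun i hi => (h1 P hP i hi).ge) ?_).2 (by rw [hc P hP, hH])
    intro i hi j hj hij p hp q hq hpi hqj R hR hTR hpR hqR
    exact hfar P hP i hi j hj hij p hp q hq hpi hqj R hR
      ⟨hTR.1, by rw [← hecS R ((hPH P hP).mono_left hR)]; exact hTR.2⟩ hpR hqR
  have hTH : ∀ T ∈ comps F S, Disjoint T H := fun T hT => hdisS T (comps_subset hT)
  have hdg : ∀ T ∈ comps F S, ∀ h ∈ H, dg G T h ≤ 1 := by
    intro T hT h hh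
    by_cases hTPc : T ∈ Pc
    · rw [h1 T hTPc h hh]
    · by_contra hcon
      have hhT : h ∉ T := fun h' => Finset.disjoint_left.1 (hTH T hT) h' hh
      have h2 := cyc_solo hFG (comps_Tr hF hT) hhT (by omega)
      refine exact_of_pieces_B G k hk hK H Pc hN hdis hPH hTr h1 (insert h T) (H.erase h) h2 ?_
        (erase_subset _ _) (by rw [card_erase_of_mem hh]; omega) ?_
      · intro P hP
        rw [disjoint_insert_left]
        exact ⟨fun h' => Finset.disjoint_left.1 (hPH P hP) h' hh, hTP T hT hTPc P hP⟩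
      · rw [disjoint_insert_left]
        exact ⟨by simp, (hTH T hT).mono_right (erase_subset _ _)⟩
  have hfar' : ∀ T ∈ comps F S, ∀ i ∈ H, ∀ j ∈ H, i ≠ j → ∀ p ∈ T, ∀ q ∈ T, G.Adj p i →
      G.Adj q j → ∀ R ⊆ T, Tr F R → p ∈ R → q ∈ R → 2 * d + 1 ≤ R.card := by
    intro T hT i hi j hj hij p hp q hq hpi hqj R hR hTR hpR hqR
    obtain ⟨P, hP, hPT⟩ : ∃ P ∈ Pc, P ≠ T := by
      have h2 : 1 < Pc.card := by omega
      obtain ⟨A, hA, B, hB, hAB⟩ := one_lt_card.1 h2
      by_cases h3 : A = T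
      · exact ⟨B, hB, fun e => hAB (h3.trans e.symm)⟩
      · exact ⟨A, hA, h3⟩
    have hdPT : Disjoint T P := comps_disjoint hF hT (hPC P hP) hPT.symm
    obtain ⟨R', hR', hTR', hi', hj', hc'⟩ := hpair P hP i hi j hj hij
    have hRH : Disjoint R H := (hTH T hT).mono_left hR
    have hR'H : Disjoint R' H := (hPH P hP).mono_left hR'
    have hdRR : Disjoint R R' := (hdPT.mono_left hR).mono_right hR'
    have hiR : i ∉ R := fun h => Finset.disjoint_left.1 hRH h hi
    have hiR' : i ∉ R' := fun h => Finset.disjoint_left.1 hR'H h hi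
    have hjR : j ∉ R := fun h => Finset.disjoint_left.1 hRH h hj
    have hjR' : j ∉ R' := fun h => Finset.disjoint_left.1 hR'H h hj
    have h2 := cyc_pair hFG hTR hTR' hdRR hij hiR hiR' hjR hjR'
      (dg_pos_iff.2 ⟨p, hpR, hpi.symm⟩) (dg_pos_iff.2 ⟨q, hqR, hqj.symm⟩) hi' hj'
    have h3 := hg _ h2
    have e1 : i ∉ insert j (R ∪ R') := by simp [hij, hiR, hiR']
    have e2 : j ∉ R ∪ R' := by simp [hjR, hjR']
    rw [card_insert_of_notMem e1, card_insert_of_notMem e2, card_union_of_disjoint hdRR] at h3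
    omega
  have hHind : ec G H = 0 := by
    have h2 := handshake G H
    have h3 : ∑ v ∈ H, dg G H v = 0 := by
      apply sum_eq_zero
      intro i hi
      apply exact_of_pieces_dg0
      intro j hj hij
      obtain ⟨P, hP⟩ : Pc.Nonempty := card_pos.1 (by omega)
      obtain ⟨R', hR', hTR', hi', hj', hc'⟩ := hpair P hP i hi j hj hij.ne
      have hR'H : Disjoint R' H := (hPH P hP).mono_left hR'
      have hiR' : i ∉ R' := fun h => Finset.disjoint_left.1 hR'H h hi
      have hjR' : j ∉ R' := fun h => Finset.disjoint_left.1 hR'H h hj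
      have e1 : i ∉ insert j R' := by simp [hij.ne, hiR']
      have h4 : 2 ≤ dg G (insert j R') i := by
        have hd1 : Disjoint ({j} : Finset V) R' := by simpa using hjR'
        have e3 : insert j R' = {j} ∪ R' := rfl
        rw [e3, dg_union_disj G hd1]
        have h5 : 1 ≤ dg G {j} i := dg_pos_iff.2 ⟨j, by simp, hij⟩
        omega
      have h5 : Cyc G (insert i (insert j R')) := by
        refine ⟨by simp, ?_⟩
        rw [ec_insert G e1, ec_insert G hjR', card_insert_of_notMem e1,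
          card_insert_of_notMem hjR']
        have h6 := ec_mono_graph hFG R'
        have h7 := hTR'.2
        omega
      have h6 := hg _ h5
      rw [card_insert_of_notMem e1, card_insert_of_notMem hjR'] at h6
      omega
    omega
  -- attachments of the components
  have ha_eq : ∀ T ∈ comps F S, ∑ h ∈ H, dg G T h =
      (H.filter (fun h => 1 ≤ dg G T h)).card := by
    intro T hT
    rw [card_filter]
    refine sum_congr rfl fun h hh => ?_
    have h2 := hdg T hT h hh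
    split_ifs with h3 <;> omega
  have ha_le : ∀ T ∈ comps F S, ∑ h ∈ H, dg G T h ≤ 2 * k - 1 := by
    intro T hT
    rw [ha_eq T hT, ← hH]
    exact card_filter_le _ _
  have ha_card : ∀ T ∈ comps F S, 2 ≤ ∑ h ∈ H, dg G T h →
      (∑ h ∈ H, dg G T h) * d + 1 ≤ T.card := by
    intro T hT h2
    rw [ha_eq T hT] at h2 ⊢
    refine (exact_of_pieces_D hF d hd T (H.filter (fun h => 1 ≤ dg G T h)) (comps_Tr hF hT) h2
      (fun i hi => (mem_filter.1 hi).2) ?_).1
    intro i hi j hj hij p hp q hq hpi hqj R hR hTR hpR hqR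
    exact hfar' T hT i (mem_filter.1 hi).1 j (mem_filter.1 hj).1 hij p hp q hq hpi hqj R hR hTR
      hpR hqR
  -- counting
  have hSc : S.card = Fintype.card V - (2 * k - 1) := by
    rw [hS, card_sdiff_of_subset (subset_univ _), card_univ, hH]
  have hcount : ec G univ = (∑ T ∈ comps F S, ec F T) +
      ∑ T ∈ comps F S, ∑ h ∈ H, dg G T h := by
    have hU : H ∪ S = univ := by
      rw [hS]
      exact union_sdiff_of_subset (subset_univ _)
    rw [← hU, ec_union_disj G hSH.symm, hHind, zero_add, ← hecS S hSH, sum_comm]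
    congr 1
    · conv_lhs => rw [← comps_biUnion (F := F) (S := S)]
      refine exact_of_pieces_ecU F _ (fun A hA B hB h => comps_disjoint hF hA hB h) ?_
      intro A hA B hB hAB u hu w hw huw
      have := comps_adj hF hA hu (comps_subset hB hw) huw
      exact Finset.disjoint_left.1 (comps_disjoint hF hA hB hAB) this hw
    · refine sum_congr rfl fun h _ => ?_
      conv_lhs => rw [← comps_biUnion (F := F) (S := S)]
      exact exact_of_pieces_dgU G _ (fun A hA B hB h => comps_disjoint hF hA hB h) h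
  have hsumT : (∑ T ∈ comps F S, ec F T) + (comps F S).card = S.card := by
    rw [← comps_card_sum hF S, card_eq_sum_ones, ← sum_add_distrib]
    exact sum_congr rfl fun T hT => (comps_Tr hF hT).2
  obtain ⟨M, hM⟩ : ∃ M, M = (comps F S).filter (fun T => 2 ≤ ∑ h ∈ H, dg G T h) := ⟨_, rfl⟩
  have hMmem : ∀ T ∈ M, T ∈ comps F S ∧ 2 ≤ ∑ h ∈ H, dg G T h := by
    intro T hT
    rw [hM, mem_filter] at hT
    exact hT
  have hsuma : ∑ T ∈ comps F S, ∑ h ∈ H, dg G T h ≤
      (comps F S).card + ∑ T ∈ M, ((∑ h ∈ H, dg G T h) - 1) := by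
    rw [hM, sum_filter, card_eq_sum_ones, ← sum_add_distrib]
    refine sum_le_sum fun T hT => ?_
    split_ifs with h3 <;> omega
  have hs1 : ∑ T ∈ M, ((∑ h ∈ H, dg G T h) - 1) ≤ M.card * (2 * k - 2) := by
    have := sum_le_card_nsmul M (fun T => (∑ h ∈ H, dg G T h) - 1) (2 * k - 2) (by
      intro T hT
      have := ha_le T (hMmem T hT).1
      change (∑ h ∈ H, dg G T h) - 1 ≤ _
      omega)
    rwa [smul_eq_mul] at this
  have hs2 : d * (∑ T ∈ M, ((∑ h ∈ H, dg G T h) - 1)) + M.card * (d + 1) ≤ S.card := by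
    have e : d * (∑ T ∈ M, ((∑ h ∈ H, dg G T h) - 1)) + M.card * (d + 1) =
        ∑ T ∈ M, (d * ((∑ h ∈ H, dg G T h) - 1) + (d + 1)) := by
      rw [sum_add_distrib, mul_sum, sum_const, smul_eq_mul]
    rw [e, ← comps_card_sum hF S]
    calc ∑ T ∈ M, (d * ((∑ h ∈ H, dg G T h) - 1) + (d + 1)) ≤ ∑ T ∈ M, T.card := by
          refine sum_le_sum fun T hT => ?_
          obtain ⟨hT1, hT2⟩ := hMmem T hT
          have h3 := ha_card T hT1 hT2
          obtain ⟨y, hy⟩ := Nat.exists_eq_add_of_le hT2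
          rw [hy] at h3 ⊢
          have e2 : 2 + y - 1 = y + 1 := by omega
          rw [e2]
          have e3 : (2 + y) * d + 1 = d * (y + 1) + (d + 1) := by ring
          omega
      _ ≤ ∑ T ∈ comps F S, T.card := by
          apply sum_le_sum_of_subset
          rw [hM]
          exact filter_subset _ _
  have hdm := Nat.div_add_mod S.card ((2 * k - 1) * d + 1)
  have hck : 2 * k - 2 + 1 = 2 * k - 1 := by omega
  have hfin := exact_of_pieces_arith (2 * k - 2) d S.card M.card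
    (∑ T ∈ M, ((∑ h ∈ H, dg G T h) - 1)) (S.card / ((2 * k - 1) * d + 1))
    (S.card % ((2 * k - 1) * d + 1)) hd hs1 hs2 (by rw [hck]; exact hdm)
  rw [← hSc]
  omega


end SolExact
end DisjCyc
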