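import Pool.Agent.Helper470.DC.NearExact
import Pool.Agent.Helper470.DC.SolExact
import Pool.Agent.Helper470.DC.SolConstr2
import Pool.Agent.Helper470.DC.Final
set_option autoImplicit false
open scoped Classical
open Finset

namespace DisjCyc

/-- the exact value (truncated natural subtraction and natural division) -/
theorem exact_value (k d : ℕ) (hk : 2 ≤ k) (hd : 1 ≤ d) : ∃ n0 : ℕ, ∀ n : ℕ, n0 ≤ n →
    maxEdges k n (4 * d + 4) = (n - (2 * k - 1)) + (2 * k - 2) * ((n - (2 * k - 1)) / ((2 * k - 1) * d + 1)) +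
      (((n - (2 * k - 1)) % ((2 * k - 1) * d + 1) - 1) / d - 1) := by
  obtain ⟨v, hv⟩ : ∃ x, x = (2 * (k - 1) + 1) * d + 1 := ⟨_, rfl⟩
  obtain ⟨M, hM⟩ : ∃ x, x = 2 + 12 * (Ctx.C1 k d * v) + 6 * v := ⟨_, rfl⟩
  obtain ⟨K0, hK0⟩ : ∃ x, x = k * (4 * (3 * k * M) + 2) + 24 * k * v := ⟨_, rfl⟩
  obtain ⟨s', hs'⟩ : ∃ x, x = 2 * M * K0 := ⟨_, rfl⟩
  obtain ⟨E1, hE1⟩ : ∃ x, x = K0 * K0 + K0 * ((2 * k + 2) * s') + K0 * (K0 * ((2 * k + 2) * s')) := ⟨_, rfl⟩
  obtain ⟨C, hC⟩ : ∃ x, x = M * v * (K0 * K0 + E1) := ⟨_, rfl⟩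
  obtain ⟨L, hL⟩ : ∃ x, x = (2 * (k - 1) + v) * (2 * k - 1) + 2 * (k - 1) * v := ⟨_, rfl⟩
  obtain ⟨C3, hC3⟩ : ∃ x, x = 4 * M * K0 + 4 * Ctx.C1 k d * (C + M * L) + 4 * (M * v * E1) := ⟨_, rfl⟩
  refine ⟨C3 + 4 * (M * v * ((2 * k + 2) * 2 ^ K0)) + 1 + (2 * k - 1), ?_⟩
  intro n hn
  have hv' : (2 * k - 1) * d + 1 = v := by rw [hv]; congr 2; omega
  rw [hv']
  have hv1 : 1 ≤ v := by omega
  set N := n - (2 * k - 1) with hN
  have hnN : n = N + (2 * k - 1) := by omega
  have hdm := Nat.div_add_mod N v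
  have hml : N % v < v := Nat.mod_lt _ (by omega)
  apply le_antisymm
  · apply SolLimit.maxEdges_le k n (4 * d + 4) _ (by omega)
    intro G hg hK
    rw [← SolCyc.ec_univ]
    have hg' := cyc_girth hg
    have hK' : ∀ Y, ¬ KCyc G Y k := fun Y hY => hK (disjoint_of_KCyc hY)
    by_cases hlow : (2 * (k - 1) + v) * Fintype.card (Fin n) ≤ v * ec G univ + L
    · obtain ⟨H, Pc, hS⟩ := near_exact G k d hk hd (fun W hW => by have := hg' W hW; omega) hK' v M K0 s' E1 C C3 L
        hv hM hK0 hs' hE1 hC hC3 (by rw [Fintype.card_fin]; omega) hlow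
      obtain ⟨a1, a2, a3, a4, a5, a6, a7, a8, a9, a10⟩ := hS
      have := SolExact.exact_of_pieces G k d hk hd hg' hK' H a1 Pc a2 a3 a4 a5 a6 a7 a8 a9 a10
      rw [Fintype.card_fin, hv', ← hN] at this
      exact this
    · push Not at hlow
      rw [Fintype.card_fin] at hlow
      -- v * ec < v * B
      have h1 : v * ec G univ < v * (N + (2 * k - 2) * (N / v)) := by
        have e1 : v * (N + (2 * k - 2) * (N / v)) = v * N + (2 * (k - 1)) * (v * (N / v)) := by
          have : 2 * k - 2 = 2 * (k - 1) := by omega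
          rw [this]; ring
        have e2 : (2 * (k - 1)) * N ≤ (2 * (k - 1)) * (v * (N / v)) + 2 * (k - 1) * v := by
          rw [← mul_add]
          exact Nat.mul_le_mul_left _ (by omega)
        have e3 : (2 * (k - 1) + v) * n = (2 * (k - 1)) * N + v * N + (2 * (k - 1) + v) * (2 * k - 1) := by
          rw [hnN]; ring
        rw [e1]
        omega
      have h2 := Nat.lt_of_mul_lt_mul_left h1
      omega
  · by_cases hr : d + 1 ≤ N % v
    · -- partial spider
      set a := (N % v - 1) / d with ha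
      have ha1 : 1 ≤ a := by
        rw [ha, Nat.le_div_iff_mul_le (by omega)]
        omega
      have hda : a * d ≤ N % v - 1 := Nat.div_mul_le_self _ _
      have ha2 : a ≤ 2 * k - 1 := by
        have : a * d < (2 * k - 1 + 1) * d := by
          have : (2 * k - 1 + 1) * d = v - 1 + d := by rw [← hv']; rw [add_mul]; omega
          omega
        have := Nat.lt_of_mul_lt_mul_right this
        omega
      obtain ⟨V, iV, G, h1, h2, h3, h4⟩ := SolConstr.construction2 k d (N / v) a (N % v - (a * d + 1)) (by omega) hd ha1 ha2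
      have h5 := SolLimit.le_maxEdges k n (4 * d + 4) V G (by
        rw [h1, hv', hnN]
        have : N / v * v = v * (N / v) := mul_comm _ _
        omega) h2 h3
      refine le_trans ?_ (h4.trans h5)
      have e1 : (2 * k - 1) * (d + 1) = v + (2 * k - 2) := by
        rw [← hv', mul_add, mul_one]; omega
      rw [e1]
      have e2 : N / v * (v + (2 * k - 2)) = v * (N / v) + (2 * k - 2) * (N / v) := by ring
      rw [e2]
      have e3 : a * (d + 1) = a * d + a := by ring
      rw [e3]
      omega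
    · push Not at hr
      have ha0 : (N % v - 1) / d - 1 = 0 := by
        have : (N % v - 1) / d < 2 := by
          rw [Nat.div_lt_iff_lt_mul (by omega)]
          omega
        omega
      rw [ha0, add_zero]
      obtain ⟨V, iV, G, h1, h2, h3, h4⟩ := SolConstr.construction3 k d (N / v) (N % v) (by omega) hd
      have h5 := SolLimit.le_maxEdges k n (4 * d + 4) V G (by
        rw [h1, hv', hnN]
        have : N / v * v = v * (N / v) := mul_comm _ _
        omega) h2 h3
      refine le_trans ?_ (h4.trans h5)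
      have e1 : (2 * k - 1) * (d + 1) = v + (2 * k - 2) := by
        rw [← hv', mul_add, mul_one]; omega
      rw [e1]
      have e2 : N / v * (v + (2 * k - 2)) = v * (N / v) + (2 * k - 2) * (N / v) := by ring
      rw [e2]
      omega

end DisjCyc
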