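import Pool.Agent.Helper470.DC.Defs
set_option autoImplicit false
open scoped Classical
open Finset

namespace DisjCyc
namespace SolG4L


theorem h208_bip_alt {a m : ℕ} {x y : Fin a ⊕ Fin m}
    (h : (completeBipartiteGraph (Fin a) (Fin m)).Adj x y) : x.isLeft = !y.isLeft := by
  rw [completeBipartiteGraph_adj] at h
  cases x <;> cases y <;> simp_all

theorem h208_bip_len {a m : ℕ} (v : Fin a ⊕ Fin m)
    (c : (completeBipartiteGraph (Fin a) (Fin m)).Walk v v) (hc : c.IsCycle) : 4 ≤ c.length := by
  have h3 := hc.three_le_length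
  by_contra hcon
  have hl : c.length = 3 := by omega
  have h01 : (c.getVert 0).isLeft = !(c.getVert 1).isLeft := h208_bip_alt (c.adj_getVert_succ (i := 0) (by omega))
  have h12 : (c.getVert 1).isLeft = !(c.getVert 2).isLeft := h208_bip_alt (c.adj_getVert_succ (i := 1) (by omega))
  have h23 : (c.getVert 2).isLeft = !(c.getVert 3).isLeft := h208_bip_alt (c.adj_getVert_succ (i := 2) (by omega))
  have h0 : c.getVert 0 = v := c.getVert_zero
  have h33 : c.getVert 3 = v := by rw [← hl]; exact c.getVert_length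
  rw [h33] at h23
  rw [h0, h12, h23, Bool.not_not] at h01
  revert h01
  cases v.isLeft <;> decide

theorem h208_bip_two {a m : ℕ} (v : Fin a ⊕ Fin m)
    (c : (completeBipartiteGraph (Fin a) (Fin m)).Walk v v) (hc : c.IsCycle) :
    ∃ x y : Fin a, x ≠ y ∧ Sum.inl x ∈ c.support ∧ Sum.inl y ∈ c.support := by
  have h4 := h208_bip_len v c hc
  have h01 : (c.getVert 0).isLeft = !(c.getVert 1).isLeft := h208_bip_alt (c.adj_getVert_succ (i := 0) (by omega))
  have h12 : (c.getVert 1).isLeft = !(c.getVert 2).isLeft := h208_bip_alt (c.adj_getVert_succ (i := 1) (by omega))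
  have h23 : (c.getVert 2).isLeft = !(c.getVert 3).isLeft := h208_bip_alt (c.adj_getVert_succ (i := 2) (by omega))
  have hex : ∃ i j : ℕ, c.getVert i ≠ c.getVert j ∧ (c.getVert i).isLeft = true ∧
      (c.getVert j).isLeft = true := by
    cases h : (c.getVert 1).isLeft
    · refine ⟨0, 2, ?_, ?_, ?_⟩
      · intro heq
        have := hc.getVert_injOn' (show 0 ≤ c.length - 1 by omega)
          (show 2 ≤ c.length - 1 by omega) heq
        omega
      · rw [h01, h]; rfl
      · rw [h] at h12
        revert h12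
        cases (c.getVert 2).isLeft <;> decide
    · refine ⟨1, 3, ?_, ?_, ?_⟩
      · intro heq
        have := hc.getVert_injOn (show 1 ≤ 1 ∧ 1 ≤ c.length by omega)
          (show 1 ≤ 3 ∧ 3 ≤ c.length by omega) heq
        omega
      · exact h
      · rw [h12, h23, Bool.not_not] at h
        exact h
  obtain ⟨i, j, hij, hi, hj⟩ := hex
  obtain ⟨x, hx⟩ := Sum.isLeft_iff.1 hi
  obtain ⟨y, hy⟩ := Sum.isLeft_iff.1 hj
  refine ⟨x, y, ?_, ?_, ?_⟩
  · intro heq
    apply hij
    rw [hx, hy, heq]
  · rw [← hx]; exact c.getVert_mem_support i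
  · rw [← hy]; exact c.getVert_mem_support j

/-- TARGET : complete bipartite graph -/
theorem construction_bip (k m : ℕ) (hk : 1 ≤ k) :
    ∃ (V : Type) (_ : Fintype V) (G : SimpleGraph V),
      Fintype.card V = (2 * k - 1) + m ∧
      (∀ (v : V) (c : G.Walk v v), c.IsCycle → 4 ≤ c.length) ∧
      ¬ HasDisjointCycles G k ∧
      (2 * k - 1) * m ≤ G.edgeSet.ncard := by
  refine ⟨Fin (2 * k - 1) ⊕ Fin m, inferInstance, completeBipartiteGraph _ _, by simp,
    fun v c hc => h208_bip_len v c hc, ?_, ?_⟩
  · rintro ⟨v, c, hcyc, hdis⟩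
    have hex := fun i => h208_bip_two (v i) (c i) (hcyc i)
    choose x y hxy hx hy using hex
    let f : Fin k × Bool → Fin (2 * k - 1) := fun p => if p.2 then x p.1 else y p.1
    have hf : ∀ p, Sum.inl (f p) ∈ (c p.1).support := by
      rintro ⟨i, b⟩
      cases b
      · exact hy i
      · exact hx i
    have hinj : Function.Injective f := by
      rintro ⟨i, b⟩ ⟨j, b'⟩ hfe
      by_cases hij : i = j
      · subst hij
        cases b <;> cases b'
        · rfl
        · exact absurd hfe.symm (hxy i)
        · exact absurd hfe (hxy i)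
        · rfl
      · exfalso
        have h1 := hf (i, b)
        have h2 := hf (j, b')
        rw [hfe] at h1
        exact hdis i j hij _ h1 h2
    have hcard := Fintype.card_le_of_injective f hinj
    simp only [Fintype.card_prod, Fintype.card_fin, Fintype.card_bool] at hcard
    omega
  · let f : Fin (2 * k - 1) × Fin m → Sym2 (Fin (2 * k - 1) ⊕ Fin m) :=
      fun p => s(Sum.inl p.1, Sum.inr p.2)
    have hinj : Function.Injective f := by
      rintro ⟨i, j⟩ ⟨i', j'⟩ h
      have h' : (s(Sum.inl i, Sum.inr j) : Sym2 (Fin (2 * k - 1) ⊕ Fin m)) =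
        s(Sum.inl i', Sum.inr j') := h
      rw [Sym2.eq_iff] at h'
      simp_all
    have hsub : f '' Set.univ ⊆ (completeBipartiteGraph (Fin (2 * k - 1)) (Fin m)).edgeSet := by
      rintro _ ⟨⟨i, j⟩, -, rfl⟩
      show s(Sum.inl i, Sum.inr j) ∈ (completeBipartiteGraph (Fin (2 * k - 1)) (Fin m)).edgeSet
      rw [SimpleGraph.mem_edgeSet]
      simp
    have h1 := Set.ncard_le_ncard hsub (Set.toFinite _)
    rw [Set.ncard_image_of_injective _ hinj, Set.ncard_univ, Nat.card_eq_fintype_card,
      Fintype.card_prod, Fintype.card_fin, Fintype.card_fin] at h1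
    exact h1


end SolG4L

end DisjCyc
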