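import Pool.Agent.Helper470.DC.SolG4
import Pool.Agent.Helper470.DC.SolG4L
import Pool.Agent.Helper470.DC.Final
set_option autoImplicit false
open scoped Classical
open Finset

namespace DisjCyc
open SolG4L

theorem bip_no (k a m : ℕ) (ha : a < 2 * k) :
    ¬ HasDisjointCycles (completeBipartiteGraph (Fin a) (Fin m)) k := by
  rintro ⟨v, c, hcyc, hdis⟩
  have hex := fun i => h208_bip_two (v i) (c i) (hcyc i)
  choose x y hxy hx hy using hex
  let f : Fin k × Bool → Fin a := fun p => if p.2 then x p.1 else y p.1
  have hf : ∀ p, Sum.inl (f p) ∈ (c p.1).support := by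
    rintro ⟨i, b⟩
    cases b
    · exact hy i
    · exact hx i
  have hinj : Function.Injective f := by
    rintro ⟨i, b⟩ ⟨j, b'⟩ hfe
    by_cases hij : i = j
    · subst hij
      cases b <;> cases b'
      · rfl
      · exact absurd hfe.symm (hxy i)
      · exact absurd hfe (hxy i)
      · rfl
    · exfalso
      have h1 := hf (i, b)
      have h2 := hf (j, b')
      rw [hfe] at h1
      exact hdis i j hij _ h1 h2
  have hcard := Fintype.card_le_of_injective f hinj
  simp only [Fintype.card_prod, Fintype.card_fin, Fintype.card_bool] at hcard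
  omega

theorem bip_edges (a m : ℕ) : (completeBipartiteGraph (Fin a) (Fin m)).edgeSet.ncard = a * m := by
  rw [Set.ncard, SimpleGraph.encard_edgeSet_completeBipartiteGraph]
  simp

theorem bip_low (k n a : ℕ) (ha : a < 2 * k) (han : a ≤ n) : a * (n - a) ≤ maxEdges k n 4 := by
  rw [← bip_edges a (n - a)]
  exact SolLimit.le_maxEdges k n 4 _ _ (by simp; omega) (fun v c hc => h208_bip_len v c hc) (bip_no k a _ ha)

theorem g4_large (k n : ℕ) (hk : 1 ≤ k) (hn : 4 * k - 1 ≤ n) :
    maxEdges k n 4 = (2 * k - 1) * (n - (2 * k - 1)) := by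
  apply le_antisymm
  · apply SolLimit.maxEdges_le k n 4 _ hk
    intro G hg hK
    rw [← SolCyc.ec_univ]
    have h := SolG4.g4_upper G k univ hk (by rw [card_univ, Fintype.card_fin]; exact hn)
      (fun W _ hW => cyc_girth hg W hW) (fun h => hK (disjoint_of_KCyc h))
    rwa [card_univ, Fintype.card_fin] at h
  · exact bip_low k n _ (by omega) (by omega)

theorem tri_cyc {V : Type} (G : SimpleGraph V) {a b c : V} (hab : G.Adj a b) (hac : G.Adj a c)
    (hbc : G.Adj b c) : ∃ W, Cyc G W ∧ W.card ≤ 3 := by
  have h1 : a ≠ b := hab.ne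
  have h2 : a ≠ c := hac.ne
  have h3 : b ≠ c := hbc.ne
  have hbc' : b ∉ ({c} : Finset V) := by simp [h3]
  have habc : a ∉ ({b, c} : Finset V) := by simp [h1, h2]
  have e1 : ec G {a, b, c} = 3 := by
    rw [ec_insert G habc, ec_insert G hbc', ec_singleton]
    have d1 : dg G {c} b = 1 := by simp [dg, filter_singleton, hbc]
    have d2 : dg G {b, c} a = 2 := by
      have : ({b, c} : Finset V).filter (fun w => G.Adj a w) = {b, c} := by
        apply filter_true_of_mem
        intro w hw
        simp only [mem_insert, mem_singleton] at hw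
        rcases hw with rfl | rfl
        · exact hab
        · exact hac
      rw [dg, this, card_pair h3]
    rw [d1, d2]
  have h6 := card_insert_le a ({b, c} : Finset V)
  have h5 : ({b, c} : Finset V).card ≤ 2 := card_le_two
  exact ⟨{a, b, c}, ⟨by simp, by omega⟩, by omega⟩

theorem g4_small (k n : ℕ) (hk : 1 ≤ k) (hn : n ≤ 4 * k - 1) : maxEdges k n 4 = n ^ 2 / 4 := by
  apply le_antisymm
  · apply SolLimit.maxEdges_le k n 4 _ hk
    intro G hg _
    rw [← SolCyc.ec_univ]
    have h := SolG4.g4_mantel G _ univ rfl (by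
      intro a _ b _ c _ hab hac hbc
      obtain ⟨W, hW, hW3⟩ := tri_cyc G hab hac hbc
      have h4 := cyc_girth hg _ hW
      omega)
    rw [card_univ, Fintype.card_fin] at h
    rw [Nat.le_div_iff_mul_le (by omega)]
    omega
  · have h1 := bip_low k n (n / 2) (by omega) (by omega)
    refine le_trans ?_ h1
    rcases Nat.even_or_odd' n with ⟨m, rfl | rfl⟩
    · have e1 : 2 * m / 2 = m := by omega
      rw [e1]
      have e2 : 2 * m - m = m := by omega
      rw [e2]
      have : (2 * m) ^ 2 / 4 = m * m := by
        have : (2 * m) ^ 2 = 4 * (m * m) := by ring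
        rw [this]; omega
      omega
    · have e1 : (2 * m + 1) / 2 = m := by omega
      rw [e1]
      have e2 : 2 * m + 1 - m = m + 1 := by omega
      rw [e2]
      have : (2 * m + 1) ^ 2 / 4 = m * (m + 1) := by
        have : (2 * m + 1) ^ 2 = 4 * (m * (m + 1)) + 1 := by ring
        rw [this]; omega
      omega

end DisjCyc
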