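import Pool.Agent.Helper470.DC.Defs
set_option autoImplicit false
open scoped Classical
open Finset

namespace DisjCyc
/-- vertices: hubs `L`, leg vertices, centres `I` -/
abbrev VL (L I : Type) (d : ℕ) : Type := L ⊕ ((I × L × Fin d) ⊕ I)

/-- centre of the component `τ` -/
def cenL {L I : Type} {d : ℕ} (τ : I) : VL L I d := Sum.inr (Sum.inr τ)

/-- point `j` of the leg of `τ` with label `i`; point `d` is the hub `i` -/
def ptL {L I : Type} {d : ℕ} (τ : I) (i : L) (j : ℕ) : VL L I d :=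
  if h : j < d then Sum.inr (Sum.inl (τ, i, ⟨j, h⟩)) else Sum.inl i

/-- leg graph: `A τ` = labels of the component `τ`, `C` = components with a centre; in the other
components the tops of the legs form a tree with root label `rt τ` and parent map `pr τ` -/
def LG {L I : Type} {d : ℕ} (A : I → Finset L) (C : Finset I) (rt : I → L) (pr : I → L → L) :
    SimpleGraph (VL L I d) :=
  SimpleGraph.fromRel (fun x y =>
    (∃ τ, ∃ i ∈ A τ, ∃ j, j < d ∧ x = ptL τ i j ∧ y = ptL τ i (j + 1)) ∨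
    (∃ τ ∈ C, ∃ i ∈ A τ, x = ptL τ i 0 ∧ y = cenL τ) ∨
    (∃ τ, τ ∉ C ∧ ∃ i ∈ A τ, i ≠ rt τ ∧ x = ptL τ i 0 ∧ y = ptL τ (pr τ i) 0))

/-- the vertices of the leg graph which are present -/
noncomputable def presentL {L I : Type} [Fintype L] [Fintype I] {d : ℕ} (A : I → Finset L) (C : Finset I) :
    Finset (VL L I d) :=
  univ.filter (fun x => (∃ i : L, x = Sum.inl i) ∨ (∃ τ, ∃ i ∈ A τ, ∃ j : Fin d, x = Sum.inr (Sum.inl (τ, i, j))) ∨
    ∃ τ ∈ C, x = cenL τ)


end DisjCyc
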