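import Pool.Agent.Helper470.DC.Comp
set_option autoImplicit false
open scoped Classical
open Finset

namespace DisjCyc
namespace SolDense

variable {V : Type}



theorem KCyc_mono {V : Type} (G : SimpleGraph V) {S S' : Finset V} {k : ℕ} (h : S ⊆ S')
    (hk : KCyc G S k) : KCyc G S' k := by
  obtain ⟨W, h1, h2, h3⟩ := hk
  exact ⟨W, h1, fun A hA => ⟨(h2 A hA).1.trans h, (h2 A hA).2⟩, h3⟩

theorem dg_single_le {V : Type} (G : SimpleGraph V) (a b : V) : dg G {b} a ≤ 1 := by
  unfold dg
  exact (card_le_card (filter_subset _ _)).trans (by simp)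

theorem cyc_card {V : Type} {G : SimpleGraph V} {C : Finset V} (h : Cyc G C) : 3 ≤ C.card := by
  by_contra hlt
  have hpos : 0 < C.card := card_pos.2 h.1
  have h2 := h.2
  have : C.card = 1 ∨ C.card = 2 := by omega
  rcases this with h1 | h1
  · obtain ⟨a, rfl⟩ := card_eq_one.1 h1
    rw [ec_singleton, h1] at h2
    omega
  · obtain ⟨a, b, hab, rfl⟩ := card_eq_two.1 h1
    have h3 := ec_insert G (W := {b}) (v := a) (by simp [hab])
    rw [ec_singleton] at h3
    have h4 := dg_single_le G a b
    have h5 : ec G (insert a {b}) = ec G {a, b} := rfl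
    omega

theorem KCyc_of_deg {V : Type} (G : SimpleGraph V) (k : ℕ) : ∀ S : Finset V, S.Nonempty →
    (∀ v ∈ S, 3 * k ≤ dg G S v) → KCyc G S k := by
  induction k with
  | zero =>
    intro S _ _
    exact ⟨∅, by simp, by simp, by simp⟩
  | succ k ih =>
    intro S hS hd
    have hsum : 3 * (k + 1) * S.card ≤ 2 * ec G S := by
      rw [← handshake]
      calc 3 * (k + 1) * S.card = ∑ v ∈ S, 3 * (k + 1) := by
            rw [sum_const, smul_eq_mul, mul_comm]
        _ ≤ _ := sum_le_sum hd
    have hScyc : Cyc G S := by
      refine ⟨hS, ?_⟩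
      have : 3 * (k + 1) * S.card = 3 * k * S.card + 3 * S.card := by ring
      omega
    have hne : (S.powerset.filter (fun C => Cyc G C)).Nonempty :=
      ⟨S, by simp [hScyc]⟩
    obtain ⟨C, hC, hmin⟩ := exists_min_image _ (fun C : Finset V => C.card) hne
    simp only [mem_filter, mem_powerset] at hC hmin
    obtain ⟨hCS, hCc⟩ := hC
    have hmin' : ∀ C' : Finset V, C' ⊆ S → Cyc G C' → C.card ≤ C'.card := fun C' h1 h2 =>
      hmin C' ⟨h1, h2⟩
    have hC3 := cyc_card hCc
    have hdeg : ∀ w ∈ C, ec G C + 2 ≤ C.card + dg G C w := by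
      intro w hw
      have h1 := ec_erase G hw
      rw [dg_erase] at h1
      have h2 : (C.erase w).card = C.card - 1 := card_erase_of_mem hw
      have h3 : (C.erase w).Nonempty := by
        rw [← card_pos]; omega
      have h4 : ¬ Cyc G (C.erase w) := fun hc => by
        have := hmin' _ ((erase_subset _ _).trans hCS) hc
        omega
      have h5 : ec G (C.erase w) < (C.erase w).card := by
        by_contra h
        exact h4 ⟨h3, by omega⟩
      omega
    obtain ⟨x, hx⟩ : ∃ x, ec G C = C.card + x := ⟨ec G C - C.card, by have := hCc.2; omega⟩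
    have hdeg' : ∀ w ∈ C, 2 + x ≤ dg G C w := fun w hw => by
      have := hdeg w hw; omega
    have hhs := handshake G C
    have hsum2 : C.card * (2 + x) ≤ 2 * ec G C := by
      rw [← hhs]
      calc C.card * (2 + x) = ∑ v ∈ C, (2 + x) := by rw [sum_const, smul_eq_mul]
        _ ≤ _ := sum_le_sum hdeg'
    have hx0 : x = 0 := by
      rw [hx] at hsum2
      by_contra hx0
      have : 1 ≤ x := by omega
      nlinarith
    subst hx0
    have hecC : ec G C = C.card := by omega
    have hdeg2 : ∀ w ∈ C, 2 = dg G C w := by
      have h1 : ∑ v ∈ C, 2 = ∑ v ∈ C, dg G C v := by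
        rw [hhs, hecC, sum_const, smul_eq_mul, mul_comm]
      exact (sum_eq_sum_iff_of_le (fun w hw => by have := hdeg' w hw; omega)).1 h1
    have hclaim : ∀ v ∈ S, v ∉ C → dg G C v ≤ 3 := by
      intro v hvS hvC
      by_contra hcon
      obtain ⟨w1, hw1⟩ := hCc.1
      have hp : 0 < dg G C w1 := by rw [← hdeg2 w1 hw1]; norm_num
      obtain ⟨w2, hw2, hadj⟩ := dg_pos_iff.1 hp
      have h12 : w2 ≠ w1 := fun h => by rw [h] at hadj; exact G.loopless.irrefl _ hadj
      have e0 := ec_insert G hvC
      have d1 := dg_insert_le G C v w1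
      have d2 := dg_insert_le G C v w2
      rw [← hdeg2 w1 hw1] at d1
      rw [← hdeg2 w2 hw2] at d2
      have m1 : w1 ∈ insert v C := mem_insert_of_mem hw1
      have m2 : w2 ∈ (insert v C).erase w1 := mem_erase.2 ⟨h12, mem_insert_of_mem hw2⟩
      have e1 := ec_erase G m1
      have e1' := dg_erase G (insert v C) w1
      have e2 := ec_erase G m2
      have e2' := dg_erase G ((insert v C).erase w1) w2
      have d3 : dg G (insert v C) w2 = dg G ((insert v C).erase w1) w2 + 1 := by
        have hu : insert v C = (insert v C).erase w1 ∪ {w1} := by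
          rw [union_comm, ← insert_eq, insert_erase m1]
        have hdj : Disjoint ((insert v C).erase w1) {w1} := by
          rw [disjoint_singleton_right]; exact notMem_erase _ _
        have := dg_union_disj G hdj w2
        rw [← hu] at this
        rw [this]
        congr 1
        unfold dg
        rw [filter_singleton, if_pos hadj.symm, card_singleton]
      have c0 : (insert v C).card = C.card + 1 := card_insert_of_notMem hvC
      have c1 : ((insert v C).erase w1).card = (insert v C).card - 1 := card_erase_of_mem m1
      have c2 : (((insert v C).erase w1).erase w2).card = ((insert v C).erase w1).card - 1 :=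
        card_erase_of_mem m2
      have hW : Cyc G (((insert v C).erase w1).erase w2) := by
        refine ⟨?_, ?_⟩
        · rw [← card_pos]; omega
        · omega
      have hsub : ((insert v C).erase w1).erase w2 ⊆ S :=
        (erase_subset _ _).trans ((erase_subset _ _).trans (insert_subset hvS hCS))
      have := hmin' _ hsub hW
      omega
    have hSu : S = (S \ C) ∪ C := (sdiff_union_of_subset hCS).symm
    rcases (S \ C).eq_empty_or_nonempty with hemp | hnon
    · have hSC : S = C := by
        rw [hemp, empty_union] at hSu; exact hSu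
      obtain ⟨w, hw⟩ := hCc.1
      have h1 := hd w (hCS hw)
      rw [hSC, ← hdeg2 w hw] at h1
      omega
    · have hd' : ∀ v ∈ S \ C, 3 * k ≤ dg G (S \ C) v := by
        intro v hv
        have hv' := mem_sdiff.1 hv
        have h1 := dg_union_disj G (show Disjoint (S \ C) C from sdiff_disjoint) v
        rw [← hSu] at h1
        have h2 := hd v hv'.1
        have h3 := hclaim v hv'.1 hv'.2
        omega
      obtain ⟨𝒲, h1, h2, h3⟩ := ih (S \ C) hnon hd'
      have hdis : ∀ W ∈ 𝒲, Disjoint C W := fun W hW =>
        (show Disjoint C (S \ C) from disjoint_sdiff).mono_right (h2 W hW).1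
      have hCn : C ∉ 𝒲 := fun h => by
        have := hdis C h
        rw [disjoint_self_iff_empty] at this
        exact hCc.1.ne_empty this
      refine ⟨insert C 𝒲, by rw [card_insert_of_notMem hCn, h1], ?_, ?_⟩
      · intro W hW
        rcases mem_insert.1 hW with rfl | hW
        · exact ⟨hCS, hCc⟩
        · exact ⟨(h2 W hW).1.trans sdiff_subset, (h2 W hW).2⟩
      · intro W hW W' hW' hne
        rcases mem_insert.1 hW with e | hW1
        · rcases mem_insert.1 hW' with e' | hW2
          · exact absurd (e.trans e'.symm) hne
          · rw [e]; exact hdis _ hW2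
        · rcases mem_insert.1 hW' with e' | hW2
          · rw [e']; exact (hdis _ hW1).symm
          · exact h3 W hW1 W' hW2 hne

/-- TARGET : a graph with at least 3k|S| edges on S has k disjoint cyclic sets -/
theorem KCyc_of_dense {V : Type} (G : SimpleGraph V) (S : Finset V) (hS : S.Nonempty) (k : ℕ)
    (h : 3 * k * S.card ≤ ec G S) : KCyc G S k := by
  induction hn : S.card using Nat.strong_induction_on generalizing S with
  | _ n ih =>
    by_cases hall : ∀ v ∈ S, 3 * k ≤ dg G S v
    · exact KCyc_of_deg G k S hS hall
    · push Not at hall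
      obtain ⟨v, hv, hlt⟩ := hall
      have e1 := ec_erase G hv
      rw [dg_erase] at e1
      have c1 : (S.erase v).card = S.card - 1 := card_erase_of_mem hv
      have hpos : 0 < S.card := card_pos.2 hS
      have hmul : 3 * k * S.card = 3 * k * (S.erase v).card + 3 * k := by
        rw [c1]
        obtain ⟨m, hm⟩ : ∃ m, S.card = m + 1 := ⟨S.card - 1, by omega⟩
        rw [hm]; simp; ring
      have hne : (S.erase v).Nonempty := by
        by_contra hcon
        rw [not_nonempty_iff_eq_empty] at hcon
        rw [hcon, ec_empty] at e1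
        have : 3 * k ≤ 3 * k * S.card := Nat.le_mul_of_pos_right _ hpos
        omega
      refine KCyc_mono G (erase_subset v S) (ih (S.erase v).card (by omega) (S.erase v) hne ?_ rfl)
      omega


end SolDense
end DisjCyc
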