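import Pool.Agent.Helper470.DC.Rich
import Pool.Agent.Helper470.DC.SolDense
set_option autoImplicit false
open scoped Classical
open Finset

namespace DisjCyc

variable {V : Type}

theorem exists_hitting2 [Fintype V] (G : SimpleGraph V) (k Φ v : ℕ) (hV : 1 ≤ Fintype.card V)
    (hK : ∀ Y, ¬ KCyc G Y k) :
    ∃ U : Finset V, U.card ≤ k * Φ + 24 * k * v ∧ (∀ W, Disjoint W U → Cyc G W → Φ < W.card) ∧
      ∀ z, z ∉ U → 4 * v * dg G univ z < Fintype.card V := by
  obtain ⟨U1, h1, h2⟩ := exists_hitting G k Φ hK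
  set n := Fintype.card V with hn
  set U2 : Finset V := univ.filter (fun z => n ≤ 4 * v * dg G univ z) with hU2
  have hec : ec G univ ≤ 3 * k * n := by
    by_contra h
    push Not at h
    have hne : (univ : Finset V).Nonempty := by
      rw [← card_pos, card_univ]; omega
    exact hK univ (SolDense.KCyc_of_dense G univ hne k (by rw [card_univ, ← hn]; exact h.le))
  have h3 : U2.card * n ≤ 4 * v * (2 * ec G univ) := by
    rw [← handshake, mul_sum]
    calc U2.card * n ≤ ∑ z ∈ U2, 4 * v * dg G univ z := by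
          rw [← smul_eq_mul]
          apply card_nsmul_le_sum
          intro z hz
          rw [hU2, mem_filter] at hz
          exact hz.2
      _ ≤ ∑ z ∈ univ, 4 * v * dg G univ z := sum_le_sum_of_subset (subset_univ _)
  have h4 : U2.card ≤ 24 * k * v := by
    have e1 : 4 * v * (2 * ec G univ) ≤ 4 * v * (2 * (3 * k * n)) :=
      Nat.mul_le_mul_left _ (Nat.mul_le_mul_left _ hec)
    have e2 : 4 * v * (2 * (3 * k * n)) = 24 * k * v * n := by ring
    rw [e2] at e1
    exact Nat.le_of_mul_le_mul_right (h3.trans e1) (by omega)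
  refine ⟨U1 ∪ U2, (card_union_le _ _).trans (Nat.add_le_add h1 h4), ?_, ?_⟩
  · intro W hW
    exact h2 W (hW.mono_right subset_union_left)
  · intro z hz
    by_contra h
    push Not at h
    exact hz (mem_union_right _ (by rw [hU2, mem_filter]; exact ⟨mem_univ _, h⟩))

namespace Ctx

variable {G F : SimpleGraph V} {U S Z : Finset V} {d k s' : ℕ}

/-- good pieces: perfect root pieces where nothing was discarded -/
def clean (G F : SimpleGraph V) (U S Z : Finset V) (d k : ℕ) (T : Finset V) : Prop :=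
  ∀ p ∈ T, ∀ i ∈ U, G.Adj p i → (p, i) ∈ A G F U S Z d k

noncomputable def Good (G F : SimpleGraph V) (U S Z : Finset V) (d k : ℕ) : Finset (Finset V) :=
  (Pc F S Z).filter (fun T => RP F Z T ∧ perfect G F U S Z d k T ∧ clean G F U S Z d k T)

section good

variable {T : Finset V}

theorem good_Jn_card (c : Ctx G F U S Z d k s') (hT : T ∈ Good G F U S Z d k) :
    (Jn G F U S Z d k T).card = 2 * (k - 1) + 1 := by
  rw [Good, mem_filter] at hT
  obtain ⟨hT, hRP, ⟨hX, hc, hA⟩, hcl⟩ := hT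
  have hi : ind G F U S Z d k T = 1 := by unfold ind; rw [if_pos (Or.inl hRP)]
  rw [c.Jn_card hT, c.Qn_card_eq hX, hA, hi]

theorem good_small (c : Ctx G F U S Z d k s') (hT : T ∈ Good G F U S Z d k)
    (hΦ : ∀ W ⊆ S, Cyc G W → (2 * (k - 1) + 1) * d + 1 < W.card) : ∀ W ⊆ T, ¬ Cyc G W := by
  intro W hW hcyc
  rw [Good, mem_filter] at hT
  have h1 := hΦ W (hW.trans ((pc_sub hT.1).trans sdiff_subset)) hcyc
  have h2 := card_le_card hW
  have h3 := hT.2.2.1.2.1
  omega

theorem good_ec (c : Ctx G F U S Z d k s') (hT : T ∈ Good G F U S Z d k)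
    (hΦ : ∀ W ⊆ S, Cyc G W → (2 * (k - 1) + 1) * d + 1 < W.card) : ∀ R ⊆ T, ec G R = ec F R := by
  have hno := c.good_small hT hΦ
  rw [Good, mem_filter] at hT
  have hTr := c.pc_Tr hT.1
  have h1 : ec G T = ec F T := by
    have e1 := ec_mono_graph c.hFG T
    have e2 : ec G T < T.card := by
      by_contra h
      push Not at h
      exact hno T (Subset.refl _) ⟨hTr.1, h⟩
    have e3 := hTr.2
    omega
  -- the edge sets agree
  have h2 : (T.sym2.filter (fun e => e ∈ F.edgeSet)) = (T.sym2.filter (fun e => e ∈ G.edgeSet)) := by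
    apply eq_of_subset_of_card_le
    · intro e he
      rw [mem_filter] at he ⊢
      exact ⟨he.1, SimpleGraph.edgeSet_mono c.hFG he.2⟩
    · exact h1.le
  intro R hR
  unfold ec
  congr 1
  ext e
  simp only [mem_filter]
  constructor
  · rintro ⟨h3, h4⟩
    have h5 : e ∈ T.sym2.filter (fun e => e ∈ G.edgeSet) := by
      rw [mem_filter]
      refine ⟨?_, h4⟩
      rw [mem_sym2_iff] at h3 ⊢
      exact fun a ha => hR (h3 a ha)
    rw [← h2, mem_filter] at h5
    exact ⟨h3, h5.2⟩
  · rintro ⟨h3, h4⟩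
    exact ⟨h3, SimpleGraph.edgeSet_mono c.hFG h4⟩

theorem good_label (c : Ctx G F U S Z d k s') (hT : T ∈ Good G F U S Z d k) {p i : V} (hp : p ∈ T) (hi : i ∈ U)
    (h : G.Adj p i) : i ∈ Jn G F U S Z d k T := by
  rw [Good, mem_filter] at hT
  obtain ⟨hT, hRP, ⟨hX, hc, hA⟩, hcl⟩ := hT
  have h1 := hcl p hp i hi h
  rw [Jn, mem_image]
  refine ⟨p, ?_, c.lab_eq h1⟩
  rw [c.mem_Qn, c.lab_eq h1]
  refine ⟨hp, h1, ?_⟩
  rw [card_eq_zero] at hX
  rw [hX]; simp



theorem good_out (c : Ctx G F U S Z d k s') (hSU : ∀ w, w ∈ S ∨ w ∈ U) (hT : T ∈ Good G F U S Z d k) :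
    ∀ u ∈ T, ∀ w, G.Adj u w → w ∈ T ∨ w ∈ Jn G F U S Z d k T := by
  intro u hu w h
  rcases hSU w with hw | hw
  · left
    rw [Good, mem_filter] at hT
    exact c.RP_closed hT.1 hT.2.1 hu hw h
  · right
    exact c.good_label hT hu hw h

theorem good_dg (c : Ctx G F U S Z d k s') (hT : T ∈ Good G F U S Z d k) :
    ∀ i ∈ Jn G F U S Z d k T, dg G T i = 1 := by
  intro i hi
  have h1 := c.Jn_dg hi
  rw [Jn, mem_image] at hi
  obtain ⟨p, hp, rfl⟩ := hi
  rw [c.mem_Qn] at hp
  rw [Good, mem_filter] at hT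
  by_contra hne
  refine (mem_A.1 hp.2.1).2.2.2.1 ⟨hp.2.2, ?_⟩
  have h3 : comp F (S \ Z) p = T := (comps_eq_comp c.hF hT.1 hp.1).symm
  simp only [h3]
  omega

theorem good_far (c : Ctx G F U S Z d k s') (hT : T ∈ Good G F U S Z d k)
    (hΦ : ∀ W ⊆ S, Cyc G W → (2 * (k - 1) + 1) * d + 1 < W.card) :
    ∀ i ∈ Jn G F U S Z d k T, ∀ j ∈ Jn G F U S Z d k T, i ≠ j → ∀ p ∈ T, ∀ q ∈ T, G.Adj p i → G.Adj q j →
      ∀ R ⊆ T, Tr G R → p ∈ R → q ∈ R → 2 * d + 1 ≤ R.card := by
  intro i hi j hj hij p hp q hq hpi hqj R hR hTr hpR hqR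
  have hec := c.good_ec hT hΦ R hR
  have hTrF : Tr F R := ⟨hTr.1, by rw [← hec]; exact hTr.2⟩
  have hiU := (mem_sdiff.1 (c.Jn_sub hi)).1
  have hjU := (mem_sdiff.1 (c.Jn_sub hj)).1
  rw [Good, mem_filter] at hT
  have h1 := hT.2.2.2 p hp i hiU hpi
  have h2 := hT.2.2.2 q hq j hjU hqj
  have hpq : p ≠ q := by
    rintro rfl
    exact hij (c.A_uniq h1 h2)
  exact (c.far_all h1 h2 hpq (hR.trans ((pc_sub hT.1).trans sdiff_subset)) hTrF hpR hqR).1

end good

/-- counting the pieces -/
theorem card_perfect_le (c : Ctx G F U S Z d k s') (hk2 : 2 ≤ k) (D : ℕ)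
    (hD : ∀ z ∈ Z, dg G (S \ Z) z ≤ D) :
    ((Pc F S Z).filter (fun T => perfect G F U S Z d k T)).card ≤ (Good G F U S Z d k).card +
      ((Aall G U S).card - (A G F U S Z d k).card) + Z.card * U.card + (Z.card * U.card + D) := by
  have hsub : (Pc F S Z).filter (fun T => perfect G F U S Z d k T) ⊆
      ((Good G F U S Z d k ∪ (Pc F S Z).filter (fun T => ¬ clean G F U S Z d k T)) ∪
        (Pc F S Z).filter (fun T => ¬ RP F Z T ∧ full G F U S Z d k T)) ∪ NPp G F U S Z d k := by
    intro T hT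
    rw [mem_filter] at hT
    simp only [mem_union, Good, NPp, mem_filter]
    tauto
  have h1 := card_le_card hsub
  have h2 := card_union_le ((Good G F U S Z d k ∪ (Pc F S Z).filter (fun T => ¬ clean G F U S Z d k T)) ∪
        (Pc F S Z).filter (fun T => ¬ RP F Z T ∧ full G F U S Z d k T)) (NPp G F U S Z d k)
  have h3 := card_union_le (Good G F U S Z d k ∪ (Pc F S Z).filter (fun T => ¬ clean G F U S Z d k T))
        ((Pc F S Z).filter (fun T => ¬ RP F Z T ∧ full G F U S Z d k T))
  have h4 := card_union_le (Good G F U S Z d k) ((Pc F S Z).filter (fun T => ¬ clean G F U S Z d k T))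
  have h5 := c.card_NPp hk2 D hD
  have h6 := c.card_full
  have h7 : ((Pc F S Z).filter (fun T => ¬ clean G F U S Z d k T)).card ≤
      (Aall G U S).card - (A G F U S Z d k).card := by
    have e1 : (Aall G U S \ A G F U S Z d k).card = (Aall G U S).card - (A G F U S Z d k).card := by
      apply card_sdiff_of_subset
      exact filter_subset _ _
    rw [← e1]
    rcases ((Pc F S Z).filter (fun T => ¬ clean G F U S Z d k T)).eq_empty_or_nonempty with he | ⟨T0, hT0⟩
    · rw [he]; simp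
    have hex : ∀ T ∈ (Pc F S Z).filter (fun T => ¬ clean G F U S Z d k T),
        ∃ a : V × V, a.1 ∈ T ∧ a ∈ Aall G U S \ A G F U S Z d k := by
      intro T hT
      rw [mem_filter] at hT
      have h := hT.2
      unfold clean at h
      push Not at h
      obtain ⟨p, hp, i, hi, hpi, hA⟩ := h
      refine ⟨(p, i), hp, ?_⟩
      rw [mem_sdiff, mem_Aall]
      exact ⟨⟨(pc_sub hT.1).trans sdiff_subset hp, hi, hpi⟩, hA⟩
    have : Nonempty (V × V) := ⟨(hex T0 hT0).choose⟩
    choose! l hl using hex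
    apply card_le_card_of_injOn l
    · intro T hT
      exact (hl T hT).2
    · intro T hT T' hT' he
      by_contra hne
      have h1 := (hl T hT).1
      have h2 := (hl T' hT').1
      rw [← he] at h2
      exact Finset.disjoint_left.1 (c.pc_dis T (mem_filter.1 hT).1 T' (mem_filter.1 hT').1 hne) h1 h2
  omega

/-- the sum of slacks -/
theorem slack_sum (c : Ctx G F U S Z d k s') (hk2 : 2 ≤ k) : ∃ SL : ℕ,
    (A G F U S Z d k).card * ((2 * (k - 1) + 1) * d + 1) + SL ≤ 2 * (k - 1) * S.card +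
      ((2 * (k - 1) + 1) * d + 1) * (((Pc F S Z).filter (fun T => RP F Z T)).card + Z.card * U.card) ∧
    (S \ Z).card ≤ C1 k d * SL + ((2 * (k - 1) + 1) * d + 1) *
      ((Pc F S Z).filter (fun T => perfect G F U S Z d k T)).card := by
  set v := (2 * (k - 1) + 1) * d + 1 with hv
  have h0 := fun T (hT : T ∈ Pc F S Z) => c.piece_slack hk2 hT
  choose! sl hsl using h0
  refine ⟨∑ T ∈ Pc F S Z, sl T, ?_, ?_⟩
  · have h1 : (A G F U S Z d k).card * v + ∑ T ∈ Pc F S Z, sl T ≤ ∑ T ∈ Pc F S Z, (2 * (k - 1) * T.card +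
        ind G F U S Z d k T * v) := by
      have e1 : (A G F U S Z d k).card * v ≤ ∑ T ∈ Pc F S Z, (AT G F U S Z d k T).card * v := by
        rw [← sum_mul]
        exact Nat.mul_le_mul_right _ c.card_A_sum
      calc (A G F U S Z d k).card * v + ∑ T ∈ Pc F S Z, sl T
          ≤ ∑ T ∈ Pc F S Z, (AT G F U S Z d k T).card * v + ∑ T ∈ Pc F S Z, sl T := Nat.add_le_add_right e1 _
        _ = ∑ T ∈ Pc F S Z, ((AT G F U S Z d k T).card * v + sl T) := by rw [sum_add_distrib]
        _ = _ := sum_congr rfl (fun T hT => (hsl T hT).1)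
    refine h1.trans ?_
    rw [sum_add_distrib]
    apply Nat.add_le_add
    · rw [← mul_sum]
      apply Nat.mul_le_mul_left
      unfold Pc
      rw [comps_card_sum c.hF]
      exact card_le_card sdiff_subset
    · rw [← sum_mul, mul_comm]
      apply Nat.mul_le_mul_left
      unfold ind
      rw [← card_filter]
      have h2 : (Pc F S Z).filter (fun T => RP F Z T ∨ full G F U S Z d k T) ⊆
          (Pc F S Z).filter (fun T => RP F Z T) ∪
          (Pc F S Z).filter (fun T => ¬ RP F Z T ∧ full G F U S Z d k T) := by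
        intro T hT
        simp only [mem_union, mem_filter] at hT ⊢
        tauto
      refine (card_le_card h2).trans ((card_union_le _ _).trans ?_)
      exact Nat.add_le_add_left c.card_full _
  · have h2 : (S \ Z).card = ∑ T ∈ Pc F S Z, T.card := by
      unfold Pc
      rw [comps_card_sum c.hF]
    rw [h2, mul_sum]
    have h3 : ∑ T ∈ Pc F S Z, T.card ≤ ∑ T ∈ Pc F S Z, (C1 k d * sl T +
        (if perfect G F U S Z d k T then v else 0)) := by
      apply sum_le_sum
      intro T hT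
      rcases (hsl T hT).2 with h | h
      · exact h.trans (Nat.le_add_right _ _)
      · rw [if_pos h, h.2.1]
        omega
    refine h3.trans ?_
    rw [sum_add_distrib]
    apply Nat.add_le_add_left
    rw [← sum_filter, sum_const, smul_eq_mul, mul_comm]

end Ctx

end DisjCyc
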