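import Pool.Agent.Helper470.DC.Near
set_option autoImplicit false
open scoped Classical
open Finset

namespace DisjCyc

variable {V : Type}

/-- the structure found in nearly extremal graphs -/
def Struct (G : SimpleGraph V) (k d : ℕ) (H : Finset V) (Pc : Finset (Finset V)) : Prop :=
  H.card = 2 * k - 1 ∧ 2 * k + 2 ≤ Pc.card ∧
  (∀ P ∈ Pc, ∀ P' ∈ Pc, P ≠ P' → Disjoint P P') ∧ (∀ P ∈ Pc, Disjoint P H) ∧
  (∀ P ∈ Pc, Tr G P) ∧ (∀ P ∈ Pc, ∀ W ⊆ P, ¬ Cyc G W) ∧
  (∀ P ∈ Pc, ∀ u ∈ P, ∀ w, G.Adj u w → w ∈ P ∨ w ∈ H) ∧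
  (∀ P ∈ Pc, ∀ i ∈ H, dg G P i = 1) ∧ (∀ P ∈ Pc, P.card = (2 * k - 1) * d + 1) ∧
  (∀ P ∈ Pc, ∀ i ∈ H, ∀ j ∈ H, i ≠ j → ∀ p ∈ P, ∀ q ∈ P, G.Adj p i → G.Adj q j →
      ∀ R ⊆ P, Tr G R → p ∈ R → q ∈ R → 2 * d + 1 ≤ R.card)

theorem near_exact [Fintype V] (G : SimpleGraph V) (k d : ℕ) (hk2 : 2 ≤ k) (hd : 1 ≤ d)
    (hg : ∀ W, Cyc G W → 4 * d + 3 ≤ W.card) (hK : ∀ Y, ¬ KCyc G Y k)
    (v M K0 s' E1 C C3 L : ℕ) (hv : v = (2 * (k - 1) + 1) * d + 1)
    (hM : M = 2 + 12 * (Ctx.C1 k d * v) + 6 * v)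
    (hK0 : K0 = k * (4 * (3 * k * M) + 2) + 24 * k * v) (hs' : s' = 2 * M * K0)
    (hE1 : E1 = K0 * K0 + K0 * ((2 * k + 2) * s') + K0 * (K0 * ((2 * k + 2) * s')))
    (hC : C = M * v * (K0 * K0 + E1))
    (hC3 : C3 = 4 * M * K0 + 4 * Ctx.C1 k d * (C + M * L) + 4 * (M * v * E1))
    (hn : C3 + 4 * (M * v * ((2 * k + 2) * 2 ^ K0)) + 1 ≤ Fintype.card V)
    (hlow : (2 * (k - 1) + v) * Fintype.card V ≤ v * ec G univ + L) :
    ∃ H Pc, Struct G k d H Pc := by
  have hk : 1 ≤ k := by omega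
  have hM1 : 1 ≤ M := by omega
  have hv1 : 1 ≤ v := by omega
  set n := Fintype.card V with hnn
  obtain ⟨U, hU, hUW, hUz⟩ := exists_hitting2 G k (4 * (3 * k * M) + 2) v (by omega) hK
  rw [← hK0] at hU
  have hK01 : 1 ≤ K0 := by
    have : 1 ≤ 24 * k * v := by
      have : 0 < 24 * k * v := by positivity
      omega
    omega
  set S : Finset V := univ \ U with hS
  obtain ⟨F, hFG, hF, hFS, hFc⟩ := SolMax.exists_max_acyclic G S
  obtain ⟨Z, hZ, hZc, hZs⟩ := SolCut.exists_cut F hF S s'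
  have c : Ctx G F U S Z d k s' := ⟨hFG, hF, sdiff_disjoint, hFc, hZ, hZs, hd, hk, hg, hK⟩
  have hΦ : ∀ W ⊆ S, Cyc G W → 4 * (3 * k * M) + 2 < W.card := by
    intro W hW hcyc
    exact hUW W (sdiff_disjoint.mono_left hW) hcyc
  have hMv : v ≤ M := by omega
  have hΦv : ∀ W ⊆ S, Cyc G W → (2 * (k - 1) + 1) * d + 1 < W.card := by
    intro W hW hcyc
    have := hΦ W hW hcyc
    have h2 : 1 * M ≤ 3 * k * M := Nat.mul_le_mul_right _ (by omega)
    omega
  have hSU : ∀ w, w ∈ S ∨ w ∈ U := by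
    intro w
    by_cases h : w ∈ U
    · exact Or.inr h
    · left; rw [hS]; simp [h]
  have e1 := c.card_Aall
  obtain ⟨SL, e2, e2'⟩ := c.slack_sum hk2
  have e3 := c.ec_S_le M (3 * k * M) hM1 (by omega) hΦ
  have e4 := c.card_big (4 * (3 * k * M) + 2)
  have e5 : ((Ctx.Pc F S Z).filter (fun T => Ctx.RP F Z T)).card ≤
      ((Ctx.Pc F S Z).filter (fun T => Ctx.RP F Z T ∧ T.card ≤ 4 * (3 * k * M) + 2)).card +
      ((Ctx.Pc F S Z).filter (fun T => Ctx.RP F Z T ∧ ¬ T.card ≤ 4 * (3 * k * M) + 2)).card := by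
    refine le_trans (card_le_card ?_) (card_union_le _ _)
    intro T hT
    simp only [mem_union, mem_filter] at hT ⊢
    tauto
  have e6 : ec G univ = ec G U + ec G S + (Ctx.Aall G U S).card := by
    have hdis : Disjoint U S := disjoint_sdiff
    have := ec_union_disj G hdis
    rw [c.card_Aall_eq, hS, union_sdiff_of_subset (subset_univ U)] at this
    exact this
  have e7 := ec_le_sq G U
  have e8 : S.card ≤ n := card_le_univ S
  have e9 : n ≤ S.card + K0 := by
    have := card_sdiff_add_card_eq_card (subset_univ U)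
    rw [← hS, card_univ, ← hnn] at this
    omega
  have e10 : S.card ≤ (S \ Z).card + Z.card := by
    have := card_sdiff_add_card_eq_card hZ
    omega
  have hD : ∀ z ∈ Z, dg G (S \ Z) z ≤ n / (4 * v) := by
    intro z hz
    have h1 : z ∉ U := by
      have := hZ hz
      rw [hS, mem_sdiff] at this
      exact this.2
    have h2 := hUz z h1
    rw [Nat.le_div_iff_mul_le (by omega)]
    have h3 : dg G (S \ Z) z ≤ dg G univ z := dg_mono (subset_univ _) z
    have h4 := Nat.mul_le_mul_left (4 * v) h3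
    rw [mul_comm]
    omega
  have e11 := c.card_perfect_le hk2 (n / (4 * v)) hD
  have e12 : 4 * v * (n / (4 * v)) ≤ n := Nat.mul_div_le n (4 * v)
  rw [← hv] at e2 e2'
  set a := (Ctx.Aall G U S).card
  set b := (Ctx.A G F U S Z d k).card
  set t := ((Ctx.Pc F S Z).filter (fun T => Ctx.RP F Z T ∧ T.card ≤ 4 * (3 * k * M) + 2)).card
  set w := ((Ctx.Pc F S Z).filter (fun T => Ctx.RP F Z T ∧ ¬ T.card ≤ 4 * (3 * k * M) + 2)).card
  set r := ((Ctx.Pc F S Z).filter (fun T => Ctx.RP F Z T)).card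
  set P := ((Ctx.Pc F S Z).filter (fun T => Ctx.perfect G F U S Z d k T)).card
  set g := (Ctx.Good G F U S Z d k).card with hgood
  set D := n / (4 * v)
  set K1 := Ctx.C1 k d
  set zk := Z.card * K0 with hzk
  have g0 : Z.card * U.card ≤ zk := Nat.mul_le_mul_left _ hU
  have f1 : a ≤ b + zk + E1 := by
    have g2 : U.card * U.card ≤ K0 * K0 := Nat.mul_le_mul hU hU
    have g3 : U.card * ((2 * k + 2) * s') ≤ K0 * ((2 * k + 2) * s') := Nat.mul_le_mul_right _ hU
    have g4 : U.card * (U.card * ((2 * k + 2) * s')) ≤ K0 * (K0 * ((2 * k + 2) * s')) := Nat.mul_le_mul hU g3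
    omega
  have f2 : b * v + SL ≤ 2 * (k - 1) * S.card + v * (r + zk) := by
    refine e2.trans ?_
    apply Nat.add_le_add_left
    apply Nat.mul_le_mul_left
    omega
  have f3 : 2 * M * zk ≤ S.card := by
    have : 2 * M * zk = Z.card * s' := by rw [hs', hzk]; ring
    rw [this]
    exact (Nat.mul_le_mul_left _ (Nat.le_succ _)).trans hZc
  have f3' : 2 * M * Z.card ≤ S.card := by
    refine le_trans (Nat.mul_le_mul_left _ ?_) f3
    exact Nat.le_mul_of_pos_right _ hK01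
  have f4 : M * w ≤ S.card := by
    refine le_trans (Nat.mul_le_mul_right _ ?_) e4
    have : M ≤ k * M := Nat.le_mul_of_pos_left _ hk
    have h2 : 3 * k * M = 3 * (k * M) := by ring
    omega
  have f5 : ec G U ≤ K0 * K0 := e7.trans (Nat.mul_le_mul hU hU)
  have h1 : M * v * ec G univ ≤ M * v * (K0 * K0) + v * (M * ec G S) + M * v * a := by
    rw [e6]
    calc M * v * (ec G U + ec G S + a) = M * v * ec G U + v * (M * ec G S) + M * v * a := by ring
      _ ≤ _ := by
        have := Nat.mul_le_mul_left (M * v) f5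
        omega
  have h2 : M * v * a ≤ M * v * b + M * v * zk + M * v * E1 := by
    calc M * v * a ≤ M * v * (b + zk + E1) := Nat.mul_le_mul_left (M * v) f1
      _ = _ := by ring
  have h3 : M * v * b + M * SL ≤ M * (2 * (k - 1)) * S.card + M * v * r + M * v * zk := by
    calc M * v * b + M * SL = M * (b * v + SL) := by ring
      _ ≤ M * (2 * (k - 1) * S.card + v * (r + zk)) := Nat.mul_le_mul_left M f2
      _ = _ := by ring
  have h4 : M * v * r ≤ v * (M * t) + v * (M * w) := by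
    calc M * v * r ≤ M * v * (t + w) := Nat.mul_le_mul_left (M * v) e5
      _ = _ := by ring
  have h5 : v * (M * ec G S) + v * (M * t) ≤ v * ((M + 1) * S.card) := by
    calc v * (M * ec G S) + v * (M * t) = v * (M * ec G S + M * t) := by ring
      _ ≤ _ := Nat.mul_le_mul_left v e3
  have h6 : v * (M * w) ≤ v * S.card := Nat.mul_le_mul_left v f4
  have h7 : 2 * (M * v * zk) ≤ v * S.card := by
    calc 2 * (M * v * zk) = v * (2 * M * zk) := by ring
      _ ≤ _ := Nat.mul_le_mul_left v f3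
  have h8 : (M * (2 * (k - 1) + v) + 3 * v) * S.card ≤ (M * (2 * (k - 1) + v) + 3 * v) * n :=
    Nat.mul_le_mul_left _ e8
  have h9 : M * (2 * (k - 1)) * S.card + v * ((M + 1) * S.card) + v * S.card + v * S.card =
      (M * (2 * (k - 1) + v) + 3 * v) * S.card := by ring
  have h10 : C = M * v * (K0 * K0) + M * v * E1 := by rw [hC]; ring
  have h11 : M * v * ec G univ + M * SL ≤ (M * (2 * (k - 1) + v) + 3 * v) * n + C := by omega
  have h12 : M * ((2 * (k - 1) + v) * n) ≤ M * v * ec G univ + M * L := by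
    calc M * ((2 * (k - 1) + v) * n) ≤ M * (v * ec G univ + L) := Nat.mul_le_mul_left _ hlow
      _ = _ := by ring
  have h13 : (M * (2 * (k - 1) + v) + 3 * v) * n = M * ((2 * (k - 1) + v) * n) + 3 * v * n := by ring
  have h14 : M * SL ≤ 3 * v * n + C + M * L := by omega
  -- second part
  have h15 : n ≤ K0 + Z.card + K1 * SL + v * P := by omega
  have h16 : P ≤ g + (zk + E1) + zk + (zk + D) := by omega
  have h17 : v * P ≤ v * g + 3 * (v * zk) + v * E1 + v * D := by
    calc v * P ≤ v * (g + (zk + E1) + zk + (zk + D)) := Nat.mul_le_mul_left _ h16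
      _ = _ := by ring
  have h18 : 4 * M * n ≤ 4 * M * K0 + 4 * M * Z.card + 4 * K1 * (M * SL) + 4 * (M * v * g) +
      12 * (M * v * zk) + 4 * (M * v * E1) + M * (4 * v * D) := by
    calc 4 * M * n ≤ 4 * M * (K0 + Z.card + K1 * SL + (v * g + 3 * (v * zk) + v * E1 + v * D)) := by
          apply Nat.mul_le_mul_left
          omega
      _ = _ := by ring
  have h19 : 4 * M * Z.card ≤ 2 * n := by
    have : 4 * M * Z.card = 2 * (2 * M * Z.card) := by ring
    omega
  have h20 : 4 * K1 * (M * SL) ≤ 12 * (K1 * v) * n + 4 * K1 * (C + M * L) := by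
    calc 4 * K1 * (M * SL) ≤ 4 * K1 * (3 * v * n + C + M * L) := Nat.mul_le_mul_left _ h14
      _ = _ := by ring
  have h21 : 12 * (M * v * zk) ≤ 6 * v * n := by
    have e : v * S.card ≤ v * n := Nat.mul_le_mul_left _ e8
    have e' : 6 * v * n = 6 * (v * n) := by ring
    omega
  have h22 : M * (4 * v * D) ≤ M * n := Nat.mul_le_mul_left _ e12
  have h23 : 4 * M * n = 2 * n + 12 * (K1 * v) * n + 6 * v * n + M * n + 2 * (M * n) := by
    rw [hM]; ring
  have h24 : 2 * (M * n) ≤ 4 * (M * v * g) + C3 := by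
    rw [hC3]; omega
  have h25 : n ≤ 2 * (M * n) := by
    have : 1 * n ≤ M * n := Nat.mul_le_mul_right _ hM1
    omega
  have h26 : M * v * ((2 * k + 2) * 2 ^ K0) ≤ M * v * g := by omega
  have h27 : (2 * k + 2) * 2 ^ K0 ≤ g := by
    have : 0 < M * v := by positivity
    exact Nat.le_of_mul_le_mul_left h26 this
  -- pigeonhole
  have hmaps : ∀ T ∈ Ctx.Good G F U S Z d k, Ctx.Jn G F U S Z d k T ∈ U.powerset := by
    intro T hT
    rw [mem_powerset]
    exact c.Jn_sub.trans sdiff_subset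
  obtain ⟨H, hH, hfib⟩ := exists_le_card_fiber_of_mul_le_card_of_maps_to hmaps ⟨∅, by simp⟩
    (n := 2 * k + 2) (by
      rw [card_powerset]
      refine le_trans ?_ h27
      rw [mul_comm]
      exact Nat.mul_le_mul_left _ (Nat.pow_le_pow_right (by norm_num) hU))
  set Pc := (Ctx.Good G F U S Z d k).filter (fun T => Ctx.Jn G F U S Z d k T = H) with hPc
  have hmem : ∀ P ∈ Pc, P ∈ Ctx.Good G F U S Z d k ∧ Ctx.Jn G F U S Z d k P = H := by
    intro P hP
    rw [hPc, mem_filter] at hP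
    exact hP
  have hpc : ∀ P ∈ Pc, P ∈ Ctx.Pc F S Z := fun P hP => (mem_filter.1 (hmem P hP).1).1
  refine ⟨H, Pc, ?_, hfib, ?_, ?_, ?_, ?_, ?_, ?_, ?_, ?_⟩
  · have : Pc.Nonempty := by
      rw [← card_pos]; omega
    obtain ⟨P, hP⟩ := this
    have h := c.good_Jn_card (hmem P hP).1
    rw [(hmem P hP).2] at h
    omega
  · intro P hP P' hP' hne
    exact c.pc_dis P (hpc P hP) P' (hpc P' hP') hne
  · intro P hP
    refine (c.pc_U P (hpc P hP)).mono_right ?_
    rw [mem_powerset] at hH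
    exact hH
  · intro P hP
    have hT := c.pc_Tr (hpc P hP)
    exact ⟨hT.1, by rw [c.good_ec (hmem P hP).1 hΦv P (Subset.refl _)]; exact hT.2⟩
  · intro P hP
    exact c.good_small (hmem P hP).1 hΦv
  · intro P hP u hu x hx
    have := c.good_out hSU (hmem P hP).1 u hu x hx
    rwa [(hmem P hP).2] at this
  · intro P hP i hi
    rw [← (hmem P hP).2] at hi
    exact c.good_dg (hmem P hP).1 i hi
  · intro P hP
    have h := (mem_filter.1 (hmem P hP).1).2.2.1.2.1
    rw [h]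
    congr 2
    omega
  · intro P hP i hi j hj
    rw [← (hmem P hP).2] at hi hj
    exact c.good_far (hmem P hP).1 hΦv i hi j hj

end DisjCyc
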