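import Mathlib
set_option autoImplicit false
open scoped Classical
open Finset

namespace DisjCyc

/-- rooted tree data: `par` is the parent map, `dep` the depth, `Q1 ∪ Q2` marked vertices, `lab` labels -/
structure Dat {V : Type} (T Q1 Q2 : Finset V) (par : V → V) (dep : V → ℕ) (lab : V → V) (d : ℕ) : Prop where
  hD : ∀ (t : ℕ) (v : V), v ∈ T → t ≤ dep v → par^[t] v ∈ T ∧ dep (par^[t] v) + t = dep v
  hQ1 : Q1 ⊆ T
  hQ2 : Q2 ⊆ T
  hdis : Disjoint Q1 Q2
  hdep : ∀ q ∈ Q1 ∪ Q2, 2 * d + 1 ≤ dep q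
  hfar : ∀ p ∈ Q1 ∪ Q2, ∀ q ∈ Q1 ∪ Q2, p ≠ q → ∀ a b, a ≤ dep p → b ≤ dep q →
    par^[a] p = par^[b] q → 2 * d + 1 ≤ a + b
  hsame : ∀ p ∈ Q1, ∀ q ∈ Q1, p ≠ q → lab p = lab q → ∀ a b, a ≤ dep p → b ≤ dep q →
    par^[a] p = par^[b] q → 4 * d + 3 ≤ a + b

/-- `w` has depth more than `d` and lies on no chain `q, par q, ..., par^[d] q`, `q ∈ Q` -/
def Free {V : Type} (Q : Finset V) (par : V → V) (dep : V → ℕ) (d : ℕ) (w : V) : Prop :=
  d < dep w ∧ ∀ q ∈ Q, ∀ u, u ≤ d → w ≠ par^[u] q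


/-! ### shift -/


/-- entry data -/
structure Ent {V : Type} (Q : Finset V) (par : V → V) (dep : V → ℕ) (d : ℕ) (p z : V)
    (i j : ℕ) : Prop where
  mem : z ∈ Q
  ne : z ≠ p
  eq : par^[i] p = par^[j] z
  dp : i + dep z = j + dep p
  jd : j < d
  i2 : i ≤ 2 * d + 1
  far : 2 * d + 1 ≤ i + j
  min : ∀ m, m < i → ∀ v, par^[m] p = par^[v] z → m + dep z ≠ v + dep p

theorem sh_mem {V : Type} {T Q1 Q2 : Finset V} {par : V → V} {dep : V → ℕ} {lab : V → V} {d : ℕ}
    (D : Dat T Q1 Q2 par dep lab d) {q : V} (hq : q ∈ Q1 ∪ Q2) : q ∈ T := by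
  rcases Finset.mem_union.mp hq with h | h
  · exact D.hQ1 h
  · exact D.hQ2 h

theorem sh_dep {V : Type} {T Q1 Q2 : Finset V} {par : V → V} {dep : V → ℕ} {lab : V → V} {d : ℕ}
    (D : Dat T Q1 Q2 par dep lab d) {x y : V} (hx : x ∈ T) (hy : y ∈ T) {a b : ℕ}
    (ha : a ≤ dep x) (hb : b ≤ dep y) (h : par^[a] x = par^[b] y) :
    a + dep y = b + dep x := by
  have h1 := (D.hD a x hx ha).2
  have h2 := (D.hD b y hy hb).2
  rw [h] at h1
  omega

theorem sh_push {V : Type} {par : V → V} {x y : V} {a b : ℕ} (c : ℕ)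
    (h : par^[a] x = par^[b] y) : par^[a + c] x = par^[b + c] y := by
  rw [add_comm a c, add_comm b c, Function.iterate_add_apply, Function.iterate_add_apply, h]

theorem sh_free {V : Type} {T Q1 Q2 : Finset V} {par : V → V} {dep : V → ℕ} {lab : V → V} {d : ℕ}
    (D : Dat T Q1 Q2 par dep lab d) {p : V} (hp : p ∈ Q1) {z : V} {i j : ℕ}
    (E : Ent (Q1 ∪ Q2) par dep d p z i j) {m : ℕ} (h1 : i + j ≤ m + d) (h2 : m < i) :
    Free (Q1 ∪ Q2) par dep d (par^[m] p) := by
  have hpQ : p ∈ Q1 ∪ Q2 := Finset.mem_union_left _ hp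
  have hpT := sh_mem D hpQ
  have hdp := D.hdep p hpQ
  have hzT := sh_mem D E.mem
  have hdz := D.hdep z E.mem
  have hjd := E.jd
  have hi2 := E.i2
  have hfar := E.far
  have hdpe := E.dp
  have hm := (D.hD m p hpT (by omega)).2
  refine ⟨by omega, ?_⟩
  intro y hy l hl hEq
  have hyT := sh_mem D hy
  have hdy := D.hdep y hy
  have hde := sh_dep D hpT hyT (a := m) (b := l) (by omega) (by omega) hEq
  by_cases hyp : y = p
  · rw [hyp] at hde
    omega
  by_cases hyz : y = z
  · rw [hyz] at hEq hde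
    exact E.min m h2 l hEq hde
  · have h3 := sh_push (i - m) hEq
    have h4 : m + (i - m) = i := by omega
    rw [h4, E.eq] at h3
    have h5 := D.hfar z E.mem y hy (fun h => hyz h.symm) j (l + (i - m)) (by omega) (by omega) h3
    omega

theorem sh_last {V : Type} {T Q1 Q2 : Finset V} {par : V → V} {dep : V → ℕ} {lab : V → V} {d : ℕ}
    (D : Dat T Q1 Q2 par dep lab d) {p : V} (hp : p ∈ Q1) {z : V} {i j : ℕ}
    (E : Ent (Q1 ∪ Q2) par dep d p z i j) {m : ℕ} (h1 : i + j ≤ m + d) (h2 : m < i)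
    (hz : z ∈ Q1) {p' : V} (hp' : p' ∈ Q1) {t' : ℕ} (ht' : t' ≤ 2 * d + 1)
    (h : par^[t'] p' = par^[m] p) : lab p' ≠ lab z := by
  intro hlab
  have hpQ : p ∈ Q1 ∪ Q2 := Finset.mem_union_left _ hp
  have hpQ' : p' ∈ Q1 ∪ Q2 := Finset.mem_union_left _ hp'
  have hpT := sh_mem D hpQ
  have hpT' := sh_mem D hpQ'
  have hdp := D.hdep p hpQ
  have hdp' := D.hdep p' hpQ'
  have hdz := D.hdep z E.mem
  have hjd := E.jd
  have hi2 := E.i2
  have hfar := E.far
  have hdpe := E.dp
  have hde := sh_dep D hpT' hpT (a := t') (b := m) (by omega) (by omega) h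
  by_cases hpz : p' = z
  · rw [hpz] at h hde
    exact E.min m h2 t' h.symm (by omega)
  · have h3 := sh_push (i - m) h
    have h4 : m + (i - m) = i := by omega
    rw [h4, E.eq] at h3
    have h5 := D.hsame p' hp' z hz hpz hlab (t' + (i - m)) j (by omega) (by omega) h3
    omega

theorem sh_entry {V : Type} {T Q1 Q2 : Finset V} {par : V → V} {dep : V → ℕ} {lab : V → V} {d : ℕ}
    (D : Dat T Q1 Q2 par dep lab d) {p : V} (hp : p ∈ Q1) {t : ℕ} (ht1 : d + 1 ≤ t)
    (ht2 : t ≤ 2 * d + 1)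
    (h : ∃ z ∈ Q1 ∪ Q2, ∃ u, u < d ∧ par^[t] p = par^[u] z) :
    ∃ (z : V) (i j : ℕ), Ent (Q1 ∪ Q2) par dep d p z i j ∧ i ≤ t ∧ t + j < d + i := by
  obtain ⟨z, hz, u, hu, hEq⟩ := h
  have hpQ : p ∈ Q1 ∪ Q2 := Finset.mem_union_left _ hp
  have hpT := sh_mem D hpQ
  have hzT := sh_mem D hz
  have hdp := D.hdep p hpQ
  have hdz := D.hdep z hz
  have hde := sh_dep D hpT hzT (a := t) (b := u) (by omega) (by omega) hEq
  have hex : ∃ s, ∃ v, par^[s] p = par^[v] z ∧ s + dep z = v + dep p := ⟨t, u, hEq, hde⟩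
  have hfind := Nat.find_spec hex
  have hmin : ∀ m, m < Nat.find hex → ∀ v, par^[m] p = par^[v] z → m + dep z ≠ v + dep p := by
    intro m hm v h1 h2
    exact Nat.find_min hex hm ⟨v, h1, h2⟩
  have hle : Nat.find hex ≤ t := Nat.find_min' hex ⟨u, hEq, hde⟩
  obtain ⟨i, hi⟩ : ∃ i, i = Nat.find hex := ⟨_, rfl⟩
  rw [← hi] at hfind hmin hle
  obtain ⟨j, hj1, hj2⟩ := hfind
  have hzp : z ≠ p := by
    intro hzp
    rw [hzp] at hde
    omega
  refine ⟨z, i, j, ⟨hz, hzp, hj1, hj2, by omega, by omega, ?_, hmin⟩, hle, by omega⟩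
  exact D.hfar p hpQ z hz hzp.symm i j (by omega) (by omega) hj1

/-- TARGET -/
theorem shift {V : Type} {T Q1 Q2 : Finset V} {par : V → V} {dep : V → ℕ} {lab : V → V} {d : ℕ}
    (D : Dat T Q1 Q2 par dep lab d) {p : V} (hp : p ∈ Q1) :
    ∃ φ : ℕ → ℕ,
      Set.InjOn φ {t | d + 1 ≤ t ∧ t ≤ 2 * d + 1 ∧ ∃ z ∈ Q1 ∪ Q2, ∃ u, u < d ∧ par^[t] p = par^[u] z} ∧
      ∀ t, d + 1 ≤ t → t ≤ 2 * d + 1 → (∃ z ∈ Q1 ∪ Q2, ∃ u, u < d ∧ par^[t] p = par^[u] z) →
        d + 1 ≤ φ t ∧ φ t ≤ 2 * d + 1 ∧ Free (Q1 ∪ Q2) par dep d (par^[φ t] p) ∧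
        ∃ z ∈ Q1 ∪ Q2, z ∈ Q1 → ∀ p' ∈ Q1, ∀ t', t' ≤ 2 * d + 1 → par^[t'] p' = par^[φ t] p →
          lab p' ≠ lab z := by
  have hent : ∀ t, (d + 1 ≤ t ∧ t ≤ 2 * d + 1 ∧ ∃ z ∈ Q1 ∪ Q2, ∃ u, u < d ∧
      par^[t] p = par^[u] z) → ∃ (z : V) (i j : ℕ), Ent (Q1 ∪ Q2) par dep d p z i j ∧
      i ≤ t ∧ t + j < d + i := fun t ht => sh_entry D hp ht.1 ht.2.1 ht.2.2
  have : Nonempty V := ⟨p⟩
  choose! z i j hE hi hj using hent
  refine ⟨fun t => 2 * i t - 1 - t, ?_, ?_⟩
  · intro t ht t' ht' hφ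
    have E := hE t ht
    have E' := hE t' ht'
    have a1 := hi t ht
    have a2 := hj t ht
    have a1' := hi t' ht'
    have a2' := hj t' ht'
    have f1 := E.far
    have f2 := E.jd
    have f1' := E'.far
    have f2' := E'.jd
    have hφ' : 2 * i t - 1 - t = 2 * i t' - 1 - t' := hφ
    rcases lt_trichotomy (i t) (i t') with h | h | h
    · exfalso
      have hF := sh_free D hp E' (m := i t) (by omega) h
      exact hF.2 (z t) E.mem (j t) E.jd.le E.eq
    · omega
    · exfalso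
      have hF := sh_free D hp E (m := i t') (by omega) h
      exact hF.2 (z t') E'.mem (j t') E'.jd.le E'.eq
  · intro t h1 h2 h3
    have E := hE t ⟨h1, h2, h3⟩
    have a1 := hi t ⟨h1, h2, h3⟩
    have a2 := hj t ⟨h1, h2, h3⟩
    have f1 := E.far
    have f2 := E.jd
    have b1 : i t + j t ≤ (2 * i t - 1 - t) + d := by omega
    have b2 : 2 * i t - 1 - t < i t := by omega
    refine ⟨by show d + 1 ≤ 2 * i t - 1 - t; omega, by show 2 * i t - 1 - t ≤ 2 * d + 1; omega,
      sh_free D hp E b1 b2, z t, E.mem, ?_⟩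
    intro hz p' hp' t' ht' heq
    exact sh_last D hp E b1 b2 hz hp' ht' heq


/-! ### tops, mult -/


/-- TARGET 1 -/
theorem tops {V : Type} {T Q1 Q2 : Finset V} {par : V → V} {dep : V → ℕ} {lab : V → V} {d : ℕ}
    (D : Dat T Q1 Q2 par dep lab d) (X : Finset V) (hX : ∀ q ∈ Q1, lab q ∈ X) {p : V} (hp : p ∈ Q1) :
    ((Icc (d + 1) (2 * d + 1)).filter (fun t => ∃ z ∈ Q1, par^[t] p = par^[d] z)).card + 1 ≤ X.card := by
  have hpT : 2 * d + 1 ≤ dep p := D.hdep p (mem_union_left _ hp)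
  have hpm : p ∈ T := D.hQ1 hp
  have key : ∀ t, ∃ z, t ∈ (Icc (d + 1) (2 * d + 1)).filter
      (fun t => ∃ z ∈ Q1, par^[t] p = par^[d] z) → z ∈ Q1 ∧ par^[t] p = par^[d] z := by
    intro t
    by_cases ht : t ∈ (Icc (d + 1) (2 * d + 1)).filter (fun t => ∃ z ∈ Q1, par^[t] p = par^[d] z)
    · obtain ⟨z, hz, hz2⟩ := (mem_filter.1 ht).2
      exact ⟨z, fun _ => ⟨hz, hz2⟩⟩
    · exact ⟨p, fun h => absurd h ht⟩
  choose z hz using key
  have hle : ((Icc (d + 1) (2 * d + 1)).filter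
      (fun t => ∃ z ∈ Q1, par^[t] p = par^[d] z)).card ≤ (X.erase (lab p)).card := by
    refine card_le_card_of_injOn (fun t => lab (z t)) ?_ ?_
    · intro t ht
      have ht' := Finset.mem_coe.1 ht
      obtain ⟨hz1, hz2⟩ := hz t ht'
      have htI := mem_Icc.1 (mem_filter.1 ht').1
      have hzd : 2 * d + 1 ≤ dep (z t) := D.hdep _ (mem_union_left _ hz1)
      refine Finset.mem_coe.2 (mem_erase.2 ⟨?_, hX _ hz1⟩)
      intro hlab
      by_cases hzp : z t = p
      · rw [hzp] at hz2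
        have h1 := (D.hD t p hpm (by omega)).2
        have h2 := (D.hD d p hpm (by omega)).2
        rw [hz2] at h1
        omega
      · have h1 := D.hsame p hp (z t) hz1 (fun h => hzp h.symm) hlab.symm t d (by omega) (by omega) hz2
        omega
    · have main : ∀ t ∈ (Icc (d + 1) (2 * d + 1)).filter
          (fun t => ∃ z ∈ Q1, par^[t] p = par^[d] z), ∀ t' ∈ (Icc (d + 1) (2 * d + 1)).filter
          (fun t => ∃ z ∈ Q1, par^[t] p = par^[d] z), t < t' → lab (z t) ≠ lab (z t') := by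
        intro t ht t' ht' htt hlab
        obtain ⟨hz1, hz2⟩ := hz t ht
        obtain ⟨hz1', hz2'⟩ := hz t' ht'
        have htI := mem_Icc.1 (mem_filter.1 ht).1
        have htI' := mem_Icc.1 (mem_filter.1 ht').1
        have hzd : 2 * d + 1 ≤ dep (z t) := D.hdep _ (mem_union_left _ hz1)
        have hzd' : 2 * d + 1 ≤ dep (z t') := D.hdep _ (mem_union_left _ hz1')
        have hne : z t ≠ z t' := by
          intro h
          have h3 : par^[t] p = par^[t'] p := by rw [hz2, hz2', h]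
          have h1 := (D.hD t p hpm (by omega)).2
          have h2 := (D.hD t' p hpm (by omega)).2
          rw [h3] at h1
          omega
        have h4 : par^[(t' - t) + d] (z t) = par^[d] (z t') := by
          rw [Function.iterate_add_apply, ← hz2, ← Function.iterate_add_apply, ← hz2']
          congr 1
          congr 1
          omega
        have h5 := D.hsame (z t) hz1 (z t') hz1' hne hlab _ _ (by omega) (by omega) h4
        omega
      intro t ht t' ht' hlab
      rcases lt_trichotomy t t' with h | h | h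
      · exact absurd hlab (main t (Finset.mem_coe.1 ht) t' (Finset.mem_coe.1 ht') h)
      · exact h
      · exact absurd hlab.symm (main t' (Finset.mem_coe.1 ht') t (Finset.mem_coe.1 ht) h)
  have hc := card_erase_add_one (hX p hp)
  omega

/-- TARGET 2 -/
theorem mult {V : Type} {T Q1 Q2 : Finset V} {par : V → V} {dep : V → ℕ} {lab : V → V} {d : ℕ}
    (D : Dat T Q1 Q2 par dep lab d) (X : Finset V) (hX : ∀ q ∈ Q1, lab q ∈ X) (w : V) :
    (Q1.filter (fun p => ∃ t, t ≤ 2 * d + 1 ∧ par^[t] p = w)).card ≤ X.card ∧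
    ∀ z ∈ Q1, (∀ p' ∈ Q1, ∀ t', t' ≤ 2 * d + 1 → par^[t'] p' = w → lab p' ≠ lab z) →
      (Q1.filter (fun p => ∃ t, t ≤ 2 * d + 1 ∧ par^[t] p = w)).card + 1 ≤ X.card := by
  have hinj : Set.InjOn lab (Q1.filter (fun p => ∃ t, t ≤ 2 * d + 1 ∧ par^[t] p = w) : Set V) := by
    intro p hp p' hp' hlab
    by_contra hne
    obtain ⟨h1, t, ht, h2⟩ := mem_filter.1 (Finset.mem_coe.1 hp)
    obtain ⟨h1', t', ht', h2'⟩ := mem_filter.1 (Finset.mem_coe.1 hp')
    have hd1 := D.hdep p (mem_union_left _ h1)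
    have hd2 := D.hdep p' (mem_union_left _ h1')
    have h3 := D.hsame p h1 p' h1' hne hlab t t' (by omega) (by omega) (h2.trans h2'.symm)
    omega
  constructor
  · refine card_le_card_of_injOn lab ?_ hinj
    intro p hp
    exact Finset.mem_coe.2 (hX p (mem_filter.1 (Finset.mem_coe.1 hp)).1)
  · intro z hz hav
    have hle : (Q1.filter (fun p => ∃ t, t ≤ 2 * d + 1 ∧ par^[t] p = w)).card ≤
        (X.erase (lab z)).card := by
      refine card_le_card_of_injOn lab ?_ hinj
      intro p hp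
      obtain ⟨h1, t, ht, h2⟩ := mem_filter.1 (Finset.mem_coe.1 hp)
      exact Finset.mem_coe.2 (mem_erase.2 ⟨hav p h1 t ht h2, hX p h1⟩)
    have hc := card_erase_add_one (hX z hz)
    omega


/-! ### core -/


theorem core1_inj {V : Type} {T Q1 Q2 : Finset V} {par : V → V} {dep : V → ℕ} {lab : V → V} {d : ℕ}
    (D : Dat T Q1 Q2 par dep lab d) {q : V} (hq : q ∈ Q1 ∪ Q2) {t t' : ℕ} (ht : t ≤ dep q)
    (ht' : t' ≤ dep q) (h : par^[t] q = par^[t'] q) : t = t' := by
  have hqT : q ∈ T := by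
    rcases Finset.mem_union.1 hq with h1 | h1
    · exact D.hQ1 h1
    · exact D.hQ2 h1
  have h1 := (D.hD t q hqT ht).2
  have h2 := (D.hD t' q hqT ht').2
  rw [h] at h1
  omega

theorem core1_dbl {V : Type} {T Q1 Q2 : Finset V} {par : V → V} {dep : V → ℕ} {lab : V → V} {d : ℕ}
    (D : Dat T Q1 Q2 par dep lab d) (X : Finset V) (hX : ∀ q ∈ Q1, lab q ∈ X) (S : Finset V) :
    ∑ p ∈ Q1, ((Icc (d + 1) (2 * d + 1)).filter (fun t => par^[t] p ∈ S)).card ≤
      X.card * S.card := by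
  have h1 : ∀ p ∈ Q1, ((Icc (d + 1) (2 * d + 1)).filter (fun t => par^[t] p ∈ S)).card ≤
      ∑ w ∈ S, if (∃ t, t ≤ 2 * d + 1 ∧ par^[t] p = w) then 1 else 0 := by
    intro p hp
    have hmaps : Set.MapsTo (fun t => par^[t] p)
        (((Icc (d + 1) (2 * d + 1)).filter (fun t => par^[t] p ∈ S) : Finset ℕ) : Set ℕ)
        (S : Set V) := fun t ht => (Finset.mem_filter.1 ht).2
    rw [Finset.card_eq_sum_card_fiberwise hmaps]
    refine Finset.sum_le_sum fun w hw => ?_
    split_ifs with h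
    · rw [Finset.card_le_one]
      intro t ht t' ht'
      rw [Finset.mem_filter, Finset.mem_filter, Finset.mem_Icc] at ht ht'
      have hpQ : p ∈ Q1 ∪ Q2 := Finset.mem_union_left _ hp
      have hdp := D.hdep p hpQ
      exact core1_inj D hpQ (by omega) (by omega) (ht.2.trans ht'.2.symm)
    · rw [Nat.le_zero, Finset.card_eq_zero, Finset.filter_eq_empty_iff]
      intro t ht h2
      rw [Finset.mem_filter, Finset.mem_Icc] at ht
      exact h ⟨t, ht.1.2, h2⟩
  calc ∑ p ∈ Q1, ((Icc (d + 1) (2 * d + 1)).filter (fun t => par^[t] p ∈ S)).card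
      ≤ ∑ p ∈ Q1, ∑ w ∈ S, if (∃ t, t ≤ 2 * d + 1 ∧ par^[t] p = w) then 1 else 0 :=
        Finset.sum_le_sum h1
    _ = ∑ w ∈ S, ∑ p ∈ Q1, if (∃ t, t ≤ 2 * d + 1 ∧ par^[t] p = w) then 1 else 0 :=
        Finset.sum_comm
    _ = ∑ w ∈ S, (Q1.filter (fun p => ∃ t, t ≤ 2 * d + 1 ∧ par^[t] p = w)).card :=
        Finset.sum_congr rfl fun w _ => (Finset.card_filter _ _).symm
    _ ≤ ∑ w ∈ S, X.card := Finset.sum_le_sum fun w _ => (mult D X hX w).1
    _ = X.card * S.card := by rw [Finset.sum_const, smul_eq_mul, mul_comm]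

/-- TARGET -/
theorem core1 {V : Type} {T Q1 Q2 : Finset V} {par : V → V} {dep : V → ℕ} {lab : V → V} {d : ℕ}
    (D : Dat T Q1 Q2 par dep lab d) (X : Finset V) (hX : ∀ q ∈ Q1, lab q ∈ X) (hne : (Q1 ∪ Q2).Nonempty) :
    ∃ ρ ε : ℕ, T.card = (Q1.card + Q2.card) * (d + 1) + (d + 1 + ρ) + ε ∧
      Q1.card * (d + 1) ≤ X.card * (d + 1 + ρ) + Q1.card * (X.card - 1) + X.card * Q2.card +
        2 * (X.card * ε) := by
  have hQT : ∀ q ∈ Q1 ∪ Q2, q ∈ T := by
    intro q hq
    rcases Finset.mem_union.1 hq with h1 | h1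
    · exact D.hQ1 h1
    · exact D.hQ2 h1
  have hQcard : (Q1 ∪ Q2).card = Q1.card + Q2.card := Finset.card_union_of_disjoint D.hdis
  -- the chains
  obtain ⟨PP, hPP⟩ : ∃ PP : Finset V, PP = ((Q1 ∪ Q2) ×ˢ Finset.range (d + 1)).image
    (fun x => par^[x.2] x.1) := ⟨_, rfl⟩
  have hPPcard : PP.card = (Q1.card + Q2.card) * (d + 1) := by
    rw [hPP, Finset.card_image_of_injOn, Finset.card_product, hQcard, Finset.card_range]
    rintro ⟨p, u⟩ hx ⟨q, u'⟩ hy hxy
    rw [Finset.mem_coe, Finset.mem_product, Finset.mem_range] at hx hy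
    dsimp only at hx hy hxy
    have hdp := D.hdep p hx.1
    have hdq := D.hdep q hy.1
    by_cases hpq : p = q
    · subst hpq
      have h1 := core1_inj D hx.1 (by omega) (by omega) hxy
      rw [h1]
    · exfalso
      have h2 := D.hfar p hx.1 q hy.1 hpq u u' (by omega) (by omega) hxy
      omega
  have hPPmem : ∀ w, w ∈ PP ↔ ∃ q ∈ Q1 ∪ Q2, ∃ u, u ≤ d ∧ w = par^[u] q := by
    intro w
    rw [hPP, Finset.mem_image]
    constructor
    · rintro ⟨⟨q, u⟩, hx, rfl⟩
      rw [Finset.mem_product, Finset.mem_range] at hx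
      exact ⟨q, hx.1, u, by have := hx.2; dsimp only at this; omega, rfl⟩
    · rintro ⟨q, hq, u, hu, rfl⟩
      exact ⟨(q, u), by rw [Finset.mem_product, Finset.mem_range]; exact ⟨hq, by dsimp only; omega⟩, rfl⟩
  obtain ⟨RR, hRR⟩ : ∃ RR : Finset V, RR = T.filter (fun w => dep w ≤ d) := ⟨_, rfl⟩
  obtain ⟨Fr, hFr⟩ : ∃ Fr : Finset V, Fr = T.filter (fun w => Free (Q1 ∪ Q2) par dep d w) :=
    ⟨_, rfl⟩
  have hRRcard : d + 1 ≤ RR.card := by
    obtain ⟨q0, hq0⟩ := hne
    have hdq := D.hdep q0 hq0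
    have h1 : (Finset.range (d + 1)).card ≤ RR.card := by
      refine Finset.card_le_card_of_injOn (fun j => par^[dep q0 - j] q0) ?_ ?_
      · intro j hj
        rw [Finset.mem_coe, Finset.mem_range] at hj
        have h2 := D.hD (dep q0 - j) q0 (hQT q0 hq0) (by omega)
        rw [Finset.mem_coe, hRR, Finset.mem_filter]
        exact ⟨h2.1, by have := h2.2; dsimp only; omega⟩
      · intro j hj j' hj' hjj
        rw [Finset.mem_coe, Finset.mem_range] at hj hj'
        have h2 := core1_inj D hq0 (t := dep q0 - j) (t' := dep q0 - j') (by omega) (by omega) hjj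
        omega
    rwa [Finset.card_range] at h1
  have hTcard : T.card = PP.card + RR.card + Fr.card := by
    have h1 := Finset.card_filter_add_card_filter_not (s := T) (fun w => dep w ≤ d)
    have h2 := Finset.card_filter_add_card_filter_not (s := T.filter (fun w => ¬ dep w ≤ d))
      (fun w => w ∈ PP)
    have h3 : (T.filter (fun w => ¬ dep w ≤ d)).filter (fun w => w ∈ PP) = PP := by
      ext w
      rw [Finset.mem_filter, Finset.mem_filter]
      constructor
      · exact fun h => h.2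
      · intro h
        obtain ⟨q, hq, u, hu, rfl⟩ := (hPPmem w).1 h
        have hdq := D.hdep q hq
        have h4 := D.hD u q (hQT q hq) (by omega)
        exact ⟨⟨h4.1, by have := h4.2; omega⟩, h⟩
    have h5 : (T.filter (fun w => ¬ dep w ≤ d)).filter (fun w => ¬ w ∈ PP) = Fr := by
      ext w
      rw [Finset.mem_filter, Finset.mem_filter, hFr, Finset.mem_filter, hPPmem]
      unfold Free
      constructor
      · rintro ⟨⟨k1, k2⟩, k3⟩
        refine ⟨k1, by omega, fun q hq u hu hw => k3 ⟨q, hq, u, hu, hw⟩⟩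
      · rintro ⟨k1, k2, k3⟩
        refine ⟨⟨k1, by omega⟩, ?_⟩
        rintro ⟨q, hq, u, hu, hw⟩
        exact k3 q hq u hu hw
    rw [h3, h5] at h2
    rw [← hRR] at h1
    omega
  refine ⟨RR.card - (d + 1), Fr.card, ?_, ?_⟩
  · rw [hTcard, hPPcard]
    omega
  · have hρ : d + 1 + (RR.card - (d + 1)) = RR.card := by omega
    rw [hρ]
    -- per vertex bound
    have hper : ∀ p ∈ Q1, d + 1 ≤
        ((Icc (d + 1) (2 * d + 1)).filter (fun t => par^[t] p ∈ RR)).card +
        (X.card - 1) +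
        ((Icc (d + 1) (2 * d + 1)).filter (fun t => par^[t] p ∈ Q2.image (par^[d]))).card +
        2 * ((Icc (d + 1) (2 * d + 1)).filter (fun t => par^[t] p ∈ Fr)).card := by
      intro p hp
      have hpQ : p ∈ Q1 ∪ Q2 := Finset.mem_union_left _ hp
      have hdp := D.hdep p hpQ
      have hpT : ∀ t, t ≤ 2 * d + 1 → par^[t] p ∈ T := fun t ht =>
        (D.hD t p (hQT p hpQ) (by omega)).1
      have htops := tops D X hX hp
      have hc : ((Icc (d + 1) (2 * d + 1)).filter
          (fun t => ∃ z ∈ Q1 ∪ Q2, ∃ u, u < d ∧ par^[t] p = par^[u] z)).card ≤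
          ((Icc (d + 1) (2 * d + 1)).filter (fun t => par^[t] p ∈ Fr)).card := by
        obtain ⟨φ, hφ1, hφ2⟩ := shift D hp
        refine Finset.card_le_card_of_injOn φ ?_ ?_
        · intro t ht
          rw [Finset.mem_coe, Finset.mem_filter, Finset.mem_Icc] at ht
          obtain ⟨k1, k2, k3, -⟩ := hφ2 t ht.1.1 ht.1.2 ht.2
          rw [Finset.mem_coe, Finset.mem_filter, Finset.mem_Icc, hFr, Finset.mem_filter]
          exact ⟨⟨k1, k2⟩, hpT _ k2, k3⟩
        · intro t ht t' ht' htt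
          rw [Finset.mem_coe, Finset.mem_filter, Finset.mem_Icc] at ht ht'
          exact hφ1 ⟨ht.1.1, ht.1.2, ht.2⟩ ⟨ht'.1.1, ht'.1.2, ht'.2⟩ htt
      have hcover : Icc (d + 1) (2 * d + 1) ⊆
          ((Icc (d + 1) (2 * d + 1)).filter (fun t => par^[t] p ∈ RR)) ∪
          ((Icc (d + 1) (2 * d + 1)).filter (fun t => ∃ z ∈ Q1, par^[t] p = par^[d] z)) ∪
          ((Icc (d + 1) (2 * d + 1)).filter (fun t => par^[t] p ∈ Q2.image (par^[d]))) ∪
          ((Icc (d + 1) (2 * d + 1)).filter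
            (fun t => ∃ z ∈ Q1 ∪ Q2, ∃ u, u < d ∧ par^[t] p = par^[u] z)) ∪
          ((Icc (d + 1) (2 * d + 1)).filter (fun t => par^[t] p ∈ Fr)) := by
        intro t ht
        have ht2 := Finset.mem_Icc.1 ht
        simp only [Finset.mem_union, Finset.mem_filter]
        have hT := hpT t ht2.2
        by_cases k1 : dep (par^[t] p) ≤ d
        · left; left; left; left
          exact ⟨ht, by rw [hRR, Finset.mem_filter]; exact ⟨hT, k1⟩⟩
        · by_cases k2 : par^[t] p ∈ PP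
          · obtain ⟨q, hq, u, hu, hw⟩ := (hPPmem _).1 k2
            rcases Nat.lt_or_ge u d with k3 | k3
            · left; right
              exact ⟨ht, q, Finset.mem_union.1 hq, u, k3, hw⟩
            · have k4 : u = d := by omega
              rw [k4] at hw
              rcases Finset.mem_union.1 hq with k5 | k5
              · left; left; left; right
                exact ⟨ht, q, k5, hw⟩
              · left; left; right
                exact ⟨ht, Finset.mem_image.2 ⟨q, k5, hw.symm⟩⟩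
          · right
            refine ⟨ht, ?_⟩
            rw [hFr, Finset.mem_filter]
            refine ⟨hT, by omega, fun q hq u hu hw => k2 ((hPPmem _).2 ⟨q, hq, u, hu, hw⟩)⟩
      have h1 := Finset.card_le_card hcover
      have hI : (Icc (d + 1) (2 * d + 1)).card = d + 1 := by
        rw [Nat.card_Icc]; omega
      rw [hI] at h1
      refine h1.trans ?_
      refine (Finset.card_union_le _ _).trans ?_
      have e1 := Finset.card_union_le
        (((Icc (d + 1) (2 * d + 1)).filter (fun t => par^[t] p ∈ RR)) ∪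
          ((Icc (d + 1) (2 * d + 1)).filter (fun t => ∃ z ∈ Q1, par^[t] p = par^[d] z)) ∪
          ((Icc (d + 1) (2 * d + 1)).filter (fun t => par^[t] p ∈ Q2.image (par^[d]))))
        ((Icc (d + 1) (2 * d + 1)).filter
            (fun t => ∃ z ∈ Q1 ∪ Q2, ∃ u, u < d ∧ par^[t] p = par^[u] z))
      have e2 := Finset.card_union_le
        (((Icc (d + 1) (2 * d + 1)).filter (fun t => par^[t] p ∈ RR)) ∪
          ((Icc (d + 1) (2 * d + 1)).filter (fun t => ∃ z ∈ Q1, par^[t] p = par^[d] z)))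
        ((Icc (d + 1) (2 * d + 1)).filter (fun t => par^[t] p ∈ Q2.image (par^[d])))
      have e3 := Finset.card_union_le
        ((Icc (d + 1) (2 * d + 1)).filter (fun t => par^[t] p ∈ RR))
        ((Icc (d + 1) (2 * d + 1)).filter (fun t => ∃ z ∈ Q1, par^[t] p = par^[d] z))
      omega
    have hsum := Finset.sum_le_sum hper
    rw [Finset.sum_const, smul_eq_mul, Finset.sum_add_distrib, Finset.sum_add_distrib,
      Finset.sum_add_distrib, Finset.sum_const, smul_eq_mul, ← Finset.mul_sum] at hsum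
    have g1 := core1_dbl D X hX RR
    have g2 := core1_dbl D X hX (Q2.image (par^[d]))
    have g3 := core1_dbl D X hX Fr
    have g4 : X.card * (Q2.image (par^[d])).card ≤ X.card * Q2.card :=
      Nat.mul_le_mul_left _ Finset.card_image_le
    omega


/-! ### core -/


theorem core2_it {V : Type} {T Q1 : Finset V} {par : V → V} {dep : V → ℕ} {lab : V → V} {d : ℕ}
    (D : Dat T Q1 ∅ par dep lab d) {p : V} (hp : p ∈ Q1) {t : ℕ} (ht : t ≤ 2 * d + 1) :
    par^[t] p ∈ T ∧ dep (par^[t] p) + t = dep p := by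
  have h1 : 2 * d + 1 ≤ dep p := D.hdep p (by simp [hp])
  exact D.hD t p (D.hQ1 hp) (ht.trans h1)

/-- counting pairs over a set of vertices -/
theorem core2_count {V : Type} {T Q1 : Finset V} {par : V → V} {dep : V → ℕ} {lab : V → V} {d : ℕ}
    (D : Dat T Q1 ∅ par dep lab d) (W : Finset V) (K : ℕ)
    (hK : ∀ w ∈ W, (Q1.filter (fun p => ∃ t, t ≤ 2 * d + 1 ∧ par^[t] p = w)).card ≤ K) :
    ∑ p ∈ Q1, ((Icc (d + 1) (2 * d + 1)).filter (fun t => par^[t] p ∈ W)).card ≤ K * W.card := by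
  have h1 : ∀ p ∈ Q1, ((Icc (d + 1) (2 * d + 1)).filter (fun t => par^[t] p ∈ W)).card ≤
      ∑ w ∈ W, (if ∃ t, t ≤ 2 * d + 1 ∧ par^[t] p = w then 1 else 0) := by
    intro p hp
    have hfib : ((Icc (d + 1) (2 * d + 1)).filter (fun t => par^[t] p ∈ W)).card =
        ∑ w ∈ W, (((Icc (d + 1) (2 * d + 1)).filter (fun t => par^[t] p ∈ W)).filter
          (fun t => par^[t] p = w)).card :=
      Finset.card_eq_sum_card_fiberwise (fun t ht => (Finset.mem_filter.1 (Finset.mem_coe.1 ht)).2)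
    rw [hfib]
    refine Finset.sum_le_sum fun w _ => ?_
    split_ifs with h
    · rw [Finset.card_le_one]
      intro a ha b hb
      simp only [Finset.mem_filter, Finset.mem_Icc] at ha hb
      have e1 := (core2_it D hp ha.1.1.2).2
      have e2 := (core2_it D hp hb.1.1.2).2
      rw [ha.2] at e1
      rw [hb.2] at e2
      omega
    · rw [Nat.le_zero, Finset.card_eq_zero, Finset.filter_eq_empty_iff]
      intro t ht he
      simp only [Finset.mem_filter, Finset.mem_Icc] at ht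
      exact h ⟨t, ht.1.2, he⟩
  calc ∑ p ∈ Q1, ((Icc (d + 1) (2 * d + 1)).filter (fun t => par^[t] p ∈ W)).card
      ≤ ∑ p ∈ Q1, ∑ w ∈ W, (if ∃ t, t ≤ 2 * d + 1 ∧ par^[t] p = w then 1 else 0) :=
        Finset.sum_le_sum h1
    _ = ∑ w ∈ W, ∑ p ∈ Q1, (if ∃ t, t ≤ 2 * d + 1 ∧ par^[t] p = w then 1 else 0) :=
        Finset.sum_comm
    _ = ∑ w ∈ W, (Q1.filter (fun p => ∃ t, t ≤ 2 * d + 1 ∧ par^[t] p = w)).card := by
        refine Finset.sum_congr rfl fun w _ => ?_
        rw [Finset.card_filter]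
    _ ≤ ∑ _w ∈ W, K := Finset.sum_le_sum hK
    _ = K * W.card := by rw [Finset.sum_const, smul_eq_mul, mul_comm]

/-- TARGET -/
theorem core2 {V : Type} {T Q1 : Finset V} {par : V → V} {dep : V → ℕ} {lab : V → V} {d : ℕ}
    (D : Dat T Q1 ∅ par dep lab d) (X : Finset V) (hX : ∀ q ∈ Q1, lab q ∈ X) (hne : Q1.Nonempty) :
    ∃ ρ ε : ℕ, T.card = Q1.card * (d + 1) + (d + 1 + ρ) + ε ∧
      (X.card = 1 → Q1.card * (d + 1) ≤ d + 1 + ρ + ε) ∧
      (2 ≤ X.card → Q1.card * (d + 1) ≤ X.card * (d + 1 + ρ) + Q1.card * (X.card - 1) +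
        2 * ((X.card - 1) * ε)) := by
  have hU : Q1 ∪ (∅ : Finset V) = Q1 := Finset.union_empty _
  -- the three parts
  set PP : Finset V := Q1.biUnion (fun q => (range (d + 1)).image (fun u => par^[u] q)) with hPP
  set RR : Finset V := T.filter (fun w => dep w ≤ d) with hRR
  set Fr : Finset V := T.filter (fun w => Free (Q1 ∪ ∅) par dep d w) with hFr
  have hPPmem : ∀ w, w ∈ PP ↔ ∃ q ∈ Q1, ∃ u, u ≤ d ∧ par^[u] q = w := by
    intro w
    simp only [hPP, Finset.mem_biUnion, Finset.mem_image, Finset.mem_range, Nat.lt_succ_iff]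
  have hPPcard : PP.card = Q1.card * (d + 1) := by
    rw [hPP, Finset.card_biUnion]
    · rw [Finset.sum_congr rfl (g := fun _ => d + 1), Finset.sum_const, smul_eq_mul]
      intro q hq
      rw [Finset.card_image_of_injOn, Finset.card_range]
      intro a ha b hb hab
      simp only [Finset.coe_range, Set.mem_Iio] at ha hb
      have e1 := (core2_it D hq (t := a) (by omega)).2
      have e2 := (core2_it D hq (t := b) (by omega)).2
      have hab' : par^[a] q = par^[b] q := hab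
      rw [hab'] at e1
      omega
    · intro p hp q hq hpq
      rw [Function.onFun, Finset.disjoint_left]
      intro w hw hw'
      simp only [Finset.mem_image, Finset.mem_range] at hw hw'
      obtain ⟨a, ha, rfl⟩ := hw
      obtain ⟨b, hb, hb'⟩ := hw'
      have h1 : 2 * d + 1 ≤ dep p := D.hdep p (by simpa using hp)
      have h2 : 2 * d + 1 ≤ dep q := D.hdep q (by simpa using hq)
      have := D.hfar p (by simpa using hp) q (by simpa using hq) hpq a b (by omega) (by omega)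
        hb'.symm
      omega
  have hPPT : ∀ w ∈ PP, w ∈ T ∧ d < dep w := by
    intro w hw
    obtain ⟨q, hq, u, hu, rfl⟩ := (hPPmem w).1 hw
    have h1 := core2_it D hq (t := u) (by omega)
    have h2 : 2 * d + 1 ≤ dep q := D.hdep q (by simp [hq])
    exact ⟨h1.1, by omega⟩
  have hFree : ∀ w, Free (Q1 ∪ ∅) par dep d w ↔ d < dep w ∧ w ∉ PP := by
    intro w
    unfold Free
    rw [hU, hPPmem]
    constructor
    · rintro ⟨h1, h2⟩
      refine ⟨h1, ?_⟩
      rintro ⟨q, hq, u, hu, he⟩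
      exact h2 q hq u hu he.symm
    · rintro ⟨h1, h2⟩
      refine ⟨h1, fun q hq u hu he => h2 ⟨q, hq, u, hu, he.symm⟩⟩
  have hTcard : T.card = PP.card + RR.card + Fr.card := by
    have hT : T = (PP ∪ RR) ∪ Fr := by
      ext w
      simp only [Finset.mem_union, hRR, hFr, Finset.mem_filter, hFree]
      constructor
      · intro hw
        by_cases h1 : dep w ≤ d
        · exact Or.inl (Or.inr ⟨hw, h1⟩)
        · by_cases h2 : w ∈ PP
          · exact Or.inl (Or.inl h2)
          · exact Or.inr ⟨hw, by omega, h2⟩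
      · rintro ((h | h) | h)
        · exact (hPPT w h).1
        · exact h.1
        · exact h.1
    have hd1 : Disjoint PP RR := by
      rw [Finset.disjoint_left]
      intro w hw hw'
      have h1 := (hPPT w hw).2
      have h2 := (Finset.mem_filter.1 hw').2
      omega
    have hd2 : Disjoint (PP ∪ RR) Fr := by
      rw [Finset.disjoint_left]
      intro w hw hw'
      have h2 := (hFree w).1 (Finset.mem_filter.1 hw').2
      rcases Finset.mem_union.1 hw with h | h
      · exact h2.2 h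
      · have h3 := (Finset.mem_filter.1 h).2
        omega
    conv_lhs => rw [hT]
    rw [Finset.card_union_of_disjoint hd2, Finset.card_union_of_disjoint hd1]
  have hRRcard : d + 1 ≤ RR.card := by
    obtain ⟨q0, hq0⟩ := hne
    have h0 : 2 * d + 1 ≤ dep q0 := D.hdep q0 (by simp [hq0])
    have hit : ∀ i, i ≤ d → par^[dep q0 - i] q0 ∈ T ∧ dep (par^[dep q0 - i] q0) = i := by
      intro i hi
      have h1 := D.hD (dep q0 - i) q0 (D.hQ1 hq0) (by omega)
      exact ⟨h1.1, by omega⟩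
    have h2 : (range (d + 1)).card ≤ RR.card := by
      apply Finset.card_le_card_of_injOn (fun i => par^[dep q0 - i] q0)
      · intro i hi
        have hi' : i ≤ d := by
          have := Finset.mem_range.1 (Finset.mem_coe.1 hi); omega
        rw [Finset.mem_coe, hRR, Finset.mem_filter]
        exact ⟨(hit i hi').1, by rw [(hit i hi').2]; exact hi'⟩
      · intro a ha b hb hab
        have ha' : a ≤ d := by
          have := Finset.mem_range.1 (Finset.mem_coe.1 ha); omega
        have hb' : b ≤ d := by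
          have := Finset.mem_range.1 (Finset.mem_coe.1 hb); omega
        have e1 := (hit a ha').2
        have e2 := (hit b hb').2
        have hab' : par^[dep q0 - a] q0 = par^[dep q0 - b] q0 := hab
        rw [hab'] at e1
        omega
    simpa using h2
  -- the main count
  set n1 := X.card with hn1
  have hn1pos : 1 ≤ n1 := by
    obtain ⟨q0, hq0⟩ := hne
    exact Finset.card_pos.2 ⟨lab q0, hX q0 hq0⟩
  set E1 : Finset V := Fr.filter (fun w => ∃ z ∈ Q1, ∀ p' ∈ Q1, ∀ t', t' ≤ 2 * d + 1 →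
    par^[t'] p' = w → lab p' ≠ lab z) with hE1
  set E0 : Finset V := Fr.filter (fun w => ¬ ∃ z ∈ Q1, ∀ p' ∈ Q1, ∀ t', t' ≤ 2 * d + 1 →
    par^[t'] p' = w → lab p' ≠ lab z) with hE0
  have hEcard : E1.card + E0.card = Fr.card := Finset.card_filter_add_card_filter_not _
  have cA := core2_count D RR n1 (fun w _ => (mult D X hX w).1)
  have cE0 := core2_count D E0 n1 (fun w _ => (mult D X hX w).1)
  have cE1 := core2_count D E1 (n1 - 1) (by
    intro w hw
    obtain ⟨z, hz, h⟩ := (Finset.mem_filter.1 hw).2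
    have := (mult D X hX w).2 z hz h
    omega)
  have cB : ∑ p ∈ Q1, ((Icc (d + 1) (2 * d + 1)).filter
      (fun t => ∃ z ∈ Q1, par^[t] p = par^[d] z)).card ≤ Q1.card * (n1 - 1) := by
    calc _ ≤ ∑ _p ∈ Q1, (n1 - 1) := Finset.sum_le_sum fun p hp => by
          have := tops D X hX hp
          omega
      _ = _ := by rw [Finset.sum_const, smul_eq_mul]
  have hper : ∀ p ∈ Q1, d + 1 ≤
      ((Icc (d + 1) (2 * d + 1)).filter (fun t => par^[t] p ∈ RR)).card +
      ((Icc (d + 1) (2 * d + 1)).filter (fun t => ∃ z ∈ Q1, par^[t] p = par^[d] z)).card +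
      (((Icc (d + 1) (2 * d + 1)).filter (fun t => par^[t] p ∈ E1)).card +
      ((Icc (d + 1) (2 * d + 1)).filter (fun t => par^[t] p ∈ E1)).card) +
      ((Icc (d + 1) (2 * d + 1)).filter (fun t => par^[t] p ∈ E0)).card := by
    intro p hp
    set J := Icc (d + 1) (2 * d + 1) with hJ
    set Jc := J.filter (fun t => ∃ z ∈ Q1 ∪ ∅, ∃ u, u < d ∧ par^[t] p = par^[u] z) with hJc
    have hc : Jc.card ≤ (J.filter (fun t => par^[t] p ∈ E1)).card := by
      obtain ⟨φ, hφ, h⟩ := shift D hp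
      apply Finset.card_le_card_of_injOn φ
      · intro t ht
        have ht' := Finset.mem_filter.1 (Finset.mem_coe.1 ht)
        have ht2 := Finset.mem_Icc.1 ht'.1
        obtain ⟨a1, a2, a3, z, hz, a4⟩ := h t ht2.1 ht2.2 ht'.2
        rw [Finset.mem_coe, Finset.mem_filter, hJ, Finset.mem_Icc]
        refine ⟨⟨a1, a2⟩, ?_⟩
        rw [hE1, Finset.mem_filter, hFr, Finset.mem_filter]
        have hz' : z ∈ Q1 := by simpa using hz
        exact ⟨⟨(core2_it D hp a2).1, a3⟩, z, hz', a4 hz'⟩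
      · intro a ha b hb hab
        have ha' := Finset.mem_filter.1 (Finset.mem_coe.1 ha)
        have hb' := Finset.mem_filter.1 (Finset.mem_coe.1 hb)
        have ha2 := Finset.mem_Icc.1 ha'.1
        have hb2 := Finset.mem_Icc.1 hb'.1
        exact hφ ⟨ha2.1, ha2.2, ha'.2⟩ ⟨hb2.1, hb2.2, hb'.2⟩ hab
    have hJcard : J.card = d + 1 := by
      rw [hJ, Nat.card_Icc]; omega
    have hcov : J ⊆ (((J.filter (fun t => par^[t] p ∈ RR)) ∪
        (J.filter (fun t => ∃ z ∈ Q1, par^[t] p = par^[d] z))) ∪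
        (Jc ∪ (J.filter (fun t => par^[t] p ∈ E1)))) ∪ (J.filter (fun t => par^[t] p ∈ E0)) := by
      intro t ht
      have ht2 := Finset.mem_Icc.1 ht
      have hw := core2_it D hp ht2.2
      simp only [Finset.mem_union, Finset.mem_filter, hJc, ht, true_and]
      by_cases h1 : dep (par^[t] p) ≤ d
      · exact Or.inl (Or.inl (Or.inl (by rw [hRR, Finset.mem_filter]; exact ⟨hw.1, h1⟩)))
      · by_cases h2 : par^[t] p ∈ PP
        · obtain ⟨q, hq, u, hu, he⟩ := (hPPmem _).1 h2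
          rcases Nat.eq_or_lt_of_le hu with rfl | hlt
          · exact Or.inl (Or.inl (Or.inr ⟨q, hq, he.symm⟩))
          · exact Or.inl (Or.inr (Or.inl ⟨q, Or.inl hq, u, hlt, he.symm⟩))
        · have h3 : par^[t] p ∈ Fr := by
            rw [hFr, Finset.mem_filter, hFree]
            exact ⟨hw.1, by omega, h2⟩
          by_cases h4 : ∃ z ∈ Q1, ∀ p' ∈ Q1, ∀ t', t' ≤ 2 * d + 1 →
              par^[t'] p' = par^[t] p → lab p' ≠ lab z
          · exact Or.inl (Or.inr (Or.inr (by rw [hE1, Finset.mem_filter]; exact ⟨h3, h4⟩)))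
          · exact Or.inr (by rw [hE0, Finset.mem_filter]; exact ⟨h3, h4⟩)
    have h5 := Finset.card_le_card hcov
    rw [hJcard] at h5
    have h6 := Finset.card_union_le (((J.filter (fun t => par^[t] p ∈ RR)) ∪
        (J.filter (fun t => ∃ z ∈ Q1, par^[t] p = par^[d] z))) ∪
        (Jc ∪ (J.filter (fun t => par^[t] p ∈ E1)))) (J.filter (fun t => par^[t] p ∈ E0))
    have h7 := Finset.card_union_le ((J.filter (fun t => par^[t] p ∈ RR)) ∪
        (J.filter (fun t => ∃ z ∈ Q1, par^[t] p = par^[d] z)))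
        (Jc ∪ (J.filter (fun t => par^[t] p ∈ E1)))
    have h8 := Finset.card_union_le (J.filter (fun t => par^[t] p ∈ RR))
        (J.filter (fun t => ∃ z ∈ Q1, par^[t] p = par^[d] z))
    have h9 := Finset.card_union_le Jc (J.filter (fun t => par^[t] p ∈ E1))
    omega
  have htot : Q1.card * (d + 1) ≤ n1 * RR.card + Q1.card * (n1 - 1) +
      ((n1 - 1) * E1.card + (n1 - 1) * E1.card) + n1 * E0.card := by
    calc Q1.card * (d + 1) = ∑ _p ∈ Q1, (d + 1) := by rw [Finset.sum_const, smul_eq_mul]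
      _ ≤ _ := Finset.sum_le_sum hper
      _ ≤ _ := by
        simp only [Finset.sum_add_distrib]
        omega
  refine ⟨RR.card - (d + 1), Fr.card, ?_, ?_, ?_⟩
  · rw [hTcard, hPPcard]; omega
  · intro h1
    rw [h1] at htot
    simp only [Nat.sub_self, mul_zero, zero_mul, one_mul, add_zero] at htot
    omega
  · intro h1
    have e1 : d + 1 + (RR.card - (d + 1)) = RR.card := by omega
    rw [e1]
    have e2 : n1 * E0.card ≤ 2 * (n1 - 1) * E0.card := Nat.mul_le_mul_right _ (by omega)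
    have e3 : 2 * ((n1 - 1) * Fr.card) = (n1 - 1) * E1.card + (n1 - 1) * E1.card
        + 2 * (n1 - 1) * E0.card := by
      rw [← hEcard]; ring
    omega


end DisjCyc
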