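import Pool.Agent.Helper470.DC.Defs
set_option autoImplicit false
open scoped Classical
open Finset

namespace DisjCyc
namespace SolCat


/-- caterpillar graph: hubs `Fin K`, vertices `(s, j)`, `s < N`, `j ≤ d`; spine `(s,0)`, legs
`(s,0),...,(s,d)`, and `(s,d)` is joined to the hub number `s % π` -/
def CatG (K N d π : ℕ) : SimpleGraph (Fin K ⊕ (Fin N × Fin (d + 1))) :=
  SimpleGraph.fromRel (fun x y =>
    (∃ s : Fin N, ∃ j : ℕ, ∃ h : j + 1 < d + 1, x = Sum.inr (s, ⟨j, by omega⟩) ∧ y = Sum.inr (s, ⟨j + 1, h⟩)) ∨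
    (∃ s : Fin N, ∃ i : Fin K, (i : ℕ) = s % π ∧ x = Sum.inr (s, Fin.last d) ∧ y = Sum.inl i) ∨
    (∃ s s' : Fin N, (s : ℕ) + 1 = s' ∧ x = Sum.inr (s, 0) ∧ y = Sum.inr (s', 0)))

theorem cat_adj_iff (K N d π : ℕ) (x y : Fin K ⊕ (Fin N × Fin (d + 1))) :
    (CatG K N d π).Adj x y ↔ x ≠ y ∧
      (((∃ s : Fin N, ∃ j : ℕ, ∃ h : j + 1 < d + 1, x = Sum.inr (s, ⟨j, by omega⟩) ∧ y = Sum.inr (s, ⟨j + 1, h⟩)) ∨
    (∃ s : Fin N, ∃ i : Fin K, (i : ℕ) = s % π ∧ x = Sum.inr (s, Fin.last d) ∧ y = Sum.inl i) ∨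
    (∃ s s' : Fin N, (s : ℕ) + 1 = s' ∧ x = Sum.inr (s, 0) ∧ y = Sum.inr (s', 0))) ∨
    ((∃ s : Fin N, ∃ j : ℕ, ∃ h : j + 1 < d + 1, y = Sum.inr (s, ⟨j, by omega⟩) ∧ x = Sum.inr (s, ⟨j + 1, h⟩)) ∨
    (∃ s : Fin N, ∃ i : Fin K, (i : ℕ) = s % π ∧ y = Sum.inr (s, Fin.last d) ∧ x = Sum.inl i) ∨
    (∃ s s' : Fin N, (s : ℕ) + 1 = s' ∧ y = Sum.inr (s, 0) ∧ x = Sum.inr (s', 0)))) := by
  unfold CatG
  rw [SimpleGraph.fromRel_adj]

theorem cat_adj_hub {K N d π : ℕ} {i : Fin K} {y : Fin K ⊕ (Fin N × Fin (d + 1))}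
    (h : (CatG K N d π).Adj (Sum.inl i) y) :
    ∃ s : Fin N, y = Sum.inr (s, Fin.last d) ∧ (i : ℕ) = s % π := by
  rw [cat_adj_iff] at h
  obtain ⟨-, (⟨s, j, h, h1, -⟩ | ⟨s, i', h, h1, -⟩ | ⟨s, s', h, h1, -⟩) |
    (⟨s, j, h, h1, h2⟩ | ⟨s, i', h, h1, h2⟩ | ⟨s, s', h, h1, h2⟩)⟩ := h
  · cases h1
  · cases h1
  · cases h1
  · cases h2
  · cases h2
    exact ⟨s, h1, h⟩
  · cases h2

theorem cat_adj_v {K N d π : ℕ} {s : Fin N} {j : Fin (d + 1)} {y : Fin K ⊕ (Fin N × Fin (d + 1))}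
    (h : (CatG K N d π).Adj (Sum.inr (s, j)) y) :
    (∃ j' : Fin (d + 1), y = Sum.inr (s, j') ∧ ((j' : ℕ) = j + 1 ∨ (j : ℕ) = j' + 1)) ∨
    (∃ i : Fin K, y = Sum.inl i ∧ (i : ℕ) = s % π ∧ (j : ℕ) = d) ∨
    (∃ s' : Fin N, y = Sum.inr (s', 0) ∧ (j : ℕ) = 0 ∧ ((s' : ℕ) = s + 1 ∨ (s : ℕ) = s' + 1)) := by
  rw [cat_adj_iff] at h
  obtain ⟨-, (⟨s1, j1, h, h1, h2⟩ | ⟨s1, i', h, h1, h2⟩ | ⟨s1, s', h, h1, h2⟩) |
    (⟨s1, j1, h, h1, h2⟩ | ⟨s1, i', h, h1, h2⟩ | ⟨s1, s', h, h1, h2⟩)⟩ := h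
  · cases h1
    exact Or.inl ⟨_, h2, Or.inl rfl⟩
  · cases h1
    exact Or.inr (Or.inl ⟨i', h2, h, rfl⟩)
  · cases h1
    exact Or.inr (Or.inr ⟨s', h2, rfl, Or.inl h.symm⟩)
  · cases h2
    exact Or.inl ⟨_, h1, Or.inr rfl⟩
  · cases h2
  · cases h2
    exact Or.inr (Or.inr ⟨s1, h1, rfl, Or.inr h.symm⟩)

/-- two-regular subgraph -/
structure Cyc2 (K N d π : ℕ) (W : Finset (Fin K ⊕ (Fin N × Fin (d + 1))))
    (E : Fin K ⊕ (Fin N × Fin (d + 1)) → Fin K ⊕ (Fin N × Fin (d + 1)) → Prop) : Prop where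
  symm : ∀ x y, E x y → E y x
  adj : ∀ x y, E x y → (CatG K N d π).Adj x y
  mem : ∀ x y, E x y → x ∈ W
  two : ∀ x ∈ W, ∃ y z, y ≠ z ∧ E x y ∧ E x z ∧ ∀ u, E x u → u = y ∨ u = z

variable {K N d π : ℕ} {W : Finset (Fin K ⊕ (Fin N × Fin (d + 1)))}
    {E : Fin K ⊕ (Fin N × Fin (d + 1)) → Fin K ⊕ (Fin N × Fin (d + 1)) → Prop}

theorem Cyc2.legstep (h : Cyc2 K N d π W E) {s : Fin N} {j : Fin (d + 1)} (hj : 1 ≤ (j : ℕ))
    (hm : Sum.inr (s, j) ∈ W) :
    (∀ j' : Fin (d + 1), ((j' : ℕ) = j + 1 ∨ (j : ℕ) = j' + 1) → Sum.inr (s, j') ∈ W) ∧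
    ((j : ℕ) = d → ∀ i : Fin K, (i : ℕ) = s % π → E (Sum.inr (s, j)) (Sum.inl i)) := by
  obtain ⟨y, z, hyz, hy, hz, -⟩ := h.two _ hm
  have hym := h.mem _ _ (h.symm _ _ hy)
  have hzm := h.mem _ _ (h.symm _ _ hz)
  rcases cat_adj_v (h.adj _ _ hy) with ⟨a, ha, ha'⟩ | ⟨i, hi, hi', hi''⟩ | ⟨r, hr, hr', -⟩
  · rcases cat_adj_v (h.adj _ _ hz) with ⟨b, hb, hb'⟩ | ⟨i, hi, hi', hi''⟩ | ⟨r, hr, hr', -⟩
    · subst ha hb
      have hab : (a : ℕ) ≠ b := by
        intro hab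
        apply hyz
        rw [Fin.ext hab]
      have ha2 := a.2
      have hb2 := b.2
      constructor
      · intro j' hj'
        by_cases h1 : (j' : ℕ) = a
        · rw [Fin.ext h1]; exact hym
        · have h2 : (j' : ℕ) = b := by omega
          rw [Fin.ext h2]; exact hzm
      · intro hd
        omega
    · subst ha hi
      constructor
      · intro j' hj'
        have h2 := j'.2
        have ha2 := a.2
        have h1 : (j' : ℕ) = a := by omega
        rw [Fin.ext h1]; exact hym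
      · intro _ i' hi'2
        have : i' = i := Fin.ext (by omega)
        rw [this]; exact hz
    · omega
  · rcases cat_adj_v (h.adj _ _ hz) with ⟨b, hb, hb'⟩ | ⟨i2, hi2, hi2', hi2''⟩ | ⟨r, hr, hr', -⟩
    · subst hb hi
      constructor
      · intro j' hj'
        have h2 := j'.2
        have hb2 := b.2
        have h1 : (j' : ℕ) = b := by omega
        rw [Fin.ext h1]; exact hzm
      · intro _ i' hi'2
        have : i' = i := Fin.ext (by omega)
        rw [this]; exact hy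
    · exfalso
      apply hyz
      rw [hi, hi2]
      congr 1
      exact Fin.ext (by omega)
    · omega
  · omega

theorem Cyc2.leg_all (h : Cyc2 K N d π W E) {s : Fin N} {j : Fin (d + 1)} (hj : 1 ≤ (j : ℕ))
    (hm : Sum.inr (s, j) ∈ W) :
    (∀ j' : Fin (d + 1), Sum.inr (s, j') ∈ W) ∧
    ∀ i : Fin K, (i : ℕ) = s % π → E (Sum.inr (s, Fin.last d)) (Sum.inl i) := by
  have hup : ∀ n : ℕ, ∀ j' : Fin (d + 1), (j' : ℕ) = j + n → Sum.inr (s, j') ∈ W := by
    intro n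
    induction n with
    | zero =>
      intro j' hj'
      have : j' = j := Fin.ext (by omega)
      rw [this]; exact hm
    | succ n ih =>
      intro j' hj'
      have h2 := j'.2
      have h1 := ih ⟨j + n, by omega⟩ rfl
      exact (h.legstep (j := ⟨j + n, by omega⟩) (by simp only; omega) h1).1 j'
        (Or.inl (by simp only; omega))
  have hdn : ∀ n : ℕ, ∀ j' : Fin (d + 1), (j' : ℕ) + n = j → Sum.inr (s, j') ∈ W := by
    intro n
    induction n with
    | zero =>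
      intro j' hj'
      have : j' = j := Fin.ext (by omega)
      rw [this]; exact hm
    | succ n ih =>
      intro j' hj'
      have h2 := j'.2
      have h3 := j.2
      have h1 := ih ⟨j' + 1, by omega⟩ (by simp only; omega)
      exact (h.legstep (j := ⟨j' + 1, by omega⟩) (by simp only; omega) h1).1 j'
        (Or.inr rfl)
  have hall : ∀ j' : Fin (d + 1), Sum.inr (s, j') ∈ W := by
    intro j'
    rcases le_total (j : ℕ) j' with hle | hle
    · exact hup (j' - j) j' (by omega)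
    · exact hdn (j - j') j' (by omega)
  refine ⟨hall, fun i hi => ?_⟩
  have hjd := j.2
  exact (h.legstep (j := Fin.last d) (by simp only [Fin.val_last]; omega) (hall _)).2
    (by simp) i hi

theorem Cyc2.leg_of_hub (h : Cyc2 K N d π W E) {s : Fin N} {i : Fin K}
    (hE : E (Sum.inr (s, Fin.last d)) (Sum.inl i)) (j' : Fin (d + 1)) :
    Sum.inr (s, j') ∈ W := by
  have hm := h.mem _ _ hE
  by_cases hd : 1 ≤ d
  · exact (h.leg_all (j := Fin.last d) (by simp only [Fin.val_last]; omega) hm).1 j'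
  · have : j' = Fin.last d := Fin.ext (by have := j'.2; simp only [Fin.val_last]; omega)
    rw [this]; exact hm

theorem Cyc2.spine (h : Cyc2 K N d π W E) (hπ : 1 ≤ π) (hK : π ≤ K) {s : Fin N}
    (hm : Sum.inr (s, 0) ∈ W)
    (hnot : ∀ i : Fin K, ¬ E (Sum.inr (s, Fin.last d)) (Sum.inl i)) :
    (∃ s' : Fin N, (s' : ℕ) + 1 = s ∧ Sum.inr (s', 0) ∈ W) ∧
    (∃ s' : Fin N, (s' : ℕ) = s + 1 ∧ Sum.inr (s', 0) ∈ W) := by
  have hnoleg : ∀ y, E (Sum.inr (s, 0)) y →
      ∃ s' : Fin N, y = Sum.inr (s', 0) ∧ ((s' : ℕ) = s + 1 ∨ (s : ℕ) = s' + 1) := by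
    intro y hy
    have hym := h.mem _ _ (h.symm _ _ hy)
    rcases cat_adj_v (h.adj _ _ hy) with ⟨a, ha, ha'⟩ | ⟨i, hi, hi', hi''⟩ | ⟨r, hr, -, hr'⟩
    · exfalso
      have ha1 : 1 ≤ (a : ℕ) := by
        rcases ha' with h1 | h1
        · omega
        · simp only [Fin.val_zero] at h1
          omega
      rw [ha] at hym
      exact hnot ⟨s % π, by have := Nat.mod_lt s hπ; omega⟩ ((h.leg_all ha1 hym).2 _ rfl)
    · exfalso
      have : (0 : Fin (d + 1)) = Fin.last d := Fin.ext (by simpa using hi'')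
      rw [this, hi] at hy
      exact hnot i hy
    · exact ⟨r, hr, hr'⟩
  obtain ⟨y, z, hyz, hy, hz, -⟩ := h.two _ hm
  have hym := h.mem _ _ (h.symm _ _ hy)
  have hzm := h.mem _ _ (h.symm _ _ hz)
  obtain ⟨a, rfl, ha'⟩ := hnoleg y hy
  obtain ⟨b, rfl, hb'⟩ := hnoleg z hz
  have hab : (a : ℕ) ≠ b := fun hab => hyz (by rw [Fin.ext hab])
  rcases ha' with ha' | ha'
  · exact ⟨⟨b, by omega, hzm⟩, ⟨a, ha', hym⟩⟩
  · exact ⟨⟨a, by omega, hym⟩, ⟨b, by omega, hzm⟩⟩

theorem Cyc2.desc (h : Cyc2 K N d π W E) (hπ : 1 ≤ π) (hK : π ≤ K) (m : ℕ)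
    (hnot : ∀ r : Fin N, (r : ℕ) < m → ∀ i : Fin K, ¬ E (Sum.inr (r, Fin.last d)) (Sum.inl i)) :
    ∀ n : ℕ, ∀ r : Fin N, (r : ℕ) = n → n < m → Sum.inr (r, 0) ∉ W := by
  intro n
  induction n with
  | zero =>
    intro r hr hn hm
    obtain ⟨⟨s', hs', -⟩, -⟩ := h.spine hπ hK hm (hnot r (by omega))
    omega
  | succ n ih =>
    intro r hr hn hm
    obtain ⟨⟨s', hs', hs''⟩, -⟩ := h.spine hπ hK hm (hnot r (by omega))
    exact ih s' (by omega) (by omega) hs''

theorem Cyc2.hub (h : Cyc2 K N d π W E) (hπ : 1 ≤ π) (hK : π ≤ K) (hW : W.Nonempty) :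
    ∃ i : Fin K, Sum.inl i ∈ W := by
  by_contra hne
  push Not at hne
  have hnot : ∀ r : Fin N, ∀ i : Fin K, ¬ E (Sum.inr (r, Fin.last d)) (Sum.inl i) :=
    fun r i hE => hne i (h.mem _ _ (h.symm _ _ hE))
  obtain ⟨x, hx⟩ := hW
  rcases x with i | ⟨s, j⟩
  · exact hne i hx
  · by_cases hj : 1 ≤ (j : ℕ)
    · exact hnot s _ ((h.leg_all hj hx).2 ⟨s % π, by have := Nat.mod_lt s hπ; omega⟩ rfl)
    · have : j = 0 := Fin.ext (by simp only [Fin.val_zero]; omega)
      rw [this] at hx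
      exact h.desc hπ hK (s + 1) (fun r _ => hnot r) s s rfl (by omega) hx

theorem Cyc2.hub2 (h : Cyc2 K N d π W E) {i : Fin K} (hi : Sum.inl i ∈ W) :
    ∃ s s' : Fin N, (s : ℕ) < s' ∧ (i : ℕ) = s % π ∧ (i : ℕ) = s' % π ∧
      E (Sum.inr (s, Fin.last d)) (Sum.inl i) ∧ E (Sum.inr (s', Fin.last d)) (Sum.inl i) ∧
      ∀ t : Fin N, E (Sum.inr (t, Fin.last d)) (Sum.inl i) → t = s ∨ t = s' := by
  obtain ⟨y, z, hyz, hy, hz, hu⟩ := h.two _ hi
  obtain ⟨a, rfl, ha⟩ := cat_adj_hub (h.adj _ _ hy)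
  obtain ⟨b, rfl, hb⟩ := cat_adj_hub (h.adj _ _ hz)
  have hab : (a : ℕ) ≠ b := fun hab => hyz (by rw [Fin.ext hab])
  have hu' : ∀ t : Fin N, E (Sum.inr (t, Fin.last d)) (Sum.inl i) → t = a ∨ t = b := by
    intro t ht
    rcases hu _ (h.symm _ _ ht) with h1 | h1
    · left
      simpa using h1
    · right
      simpa using h1
  rcases lt_or_gt_of_ne hab with hlt | hlt
  · exact ⟨a, b, hlt, ha, hb, h.symm _ _ hy, h.symm _ _ hz, hu'⟩
  · exact ⟨b, a, hlt, hb, ha, h.symm _ _ hz, h.symm _ _ hy, fun t ht => (hu' t ht).symm⟩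

theorem Cyc2.case1 (h : Cyc2 K N d π W E) {i i' : Fin K} (hii : i ≠ i') (hi : Sum.inl i ∈ W)
    (hi' : Sum.inl i' ∈ W) : 4 * d + 6 ≤ W.card := by
  obtain ⟨s, s', hss, hs1, hs2, hs3, hs4, -⟩ := h.hub2 hi
  obtain ⟨r, r', hrr, hr1, hr2, hr3, hr4, -⟩ := h.hub2 hi'
  have hne : (i : ℕ) ≠ i' := fun he => hii (Fin.ext he)
  have e1 : s ≠ s' := fun he => by rw [he] at hss; omega
  have e2 : r ≠ r' := fun he => by rw [he] at hrr; omega
  have e3 : s ≠ r := fun he => by rw [he] at hs1; omega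
  have e4 : s ≠ r' := fun he => by rw [he] at hs1; omega
  have e5 : s' ≠ r := fun he => by rw [he] at hs2; omega
  have e6 : s' ≠ r' := fun he => by rw [he] at hs2; omega
  have hsub : ({i, i'} : Finset (Fin K)).disjSum
      (({s, s', r, r'} : Finset (Fin N)) ×ˢ (Finset.univ : Finset (Fin (d + 1)))) ⊆ W := by
    intro x hx
    rw [Finset.mem_disjSum] at hx
    rcases hx with ⟨a, ha, rfl⟩ | ⟨⟨a, b⟩, hab, rfl⟩
    · simp only [Finset.mem_insert, Finset.mem_singleton] at ha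
      rcases ha with rfl | rfl
      · exact hi
      · exact hi'
    · simp only [Finset.mem_product, Finset.mem_insert, Finset.mem_singleton, Finset.mem_univ,
        and_true] at hab
      rcases hab with rfl | rfl | rfl | rfl
      · exact h.leg_of_hub hs3 b
      · exact h.leg_of_hub hs4 b
      · exact h.leg_of_hub hr3 b
      · exact h.leg_of_hub hr4 b
  have hcard := Finset.card_le_card hsub
  rw [Finset.card_disjSum, Finset.card_product, Finset.card_univ, Fintype.card_fin,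
    Finset.card_pair hii] at hcard
  have h4 : ({s, s', r, r'} : Finset (Fin N)).card = 4 := by
    rw [Finset.card_insert_of_notMem, Finset.card_insert_of_notMem, Finset.card_pair e2]
    · simp [e5, e6]
    · simp [e1, e3, e4]
  rw [h4] at hcard
  omega

theorem Cyc2.case2 (h : Cyc2 K N d π W E) (hπ : 1 ≤ π) (hK : π ≤ K) {i : Fin K}
    (hi : Sum.inl i ∈ W) (hu : ∀ i' : Fin K, Sum.inl i' ∈ W → i' = i) :
    2 * d + 2 + π ≤ W.card := by
  obtain ⟨s, s', hss, hs1, hs2, hs3, hs4, hs5⟩ := h.hub2 hi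
  have hnot : ∀ t : Fin N, t ≠ s → t ≠ s' → ∀ i' : Fin K,
      ¬ E (Sum.inr (t, Fin.last d)) (Sum.inl i') := by
    intro t h1 h2 i' hE
    have : i' = i := hu i' (h.mem _ _ (h.symm _ _ hE))
    rw [this] at hE
    rcases hs5 t hE with h3 | h3
    · exact h1 h3
    · exact h2 h3
  have hdesc := h.desc hπ hK s (fun r hr => hnot r (fun he => by rw [he] at hr; omega)
    (fun he => by rw [he] at hr; omega))
  have hs0 : Sum.inr (s, 0) ∈ W := h.leg_of_hub hs3 0
  -- first spine step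
  have hfirst : ∃ t : Fin N, (t : ℕ) = s + 1 ∧ Sum.inr (t, 0) ∈ W := by
    obtain ⟨y, z, hyz, hy, hz, -⟩ := h.two _ hs0
    have hym := h.mem _ _ (h.symm _ _ hy)
    have hzm := h.mem _ _ (h.symm _ _ hz)
    rcases cat_adj_v (h.adj _ _ hy) with ⟨a, ha, ha'⟩ | ⟨i1, hi1, hi1', hi1''⟩ | ⟨r, hr, -, hr'⟩
    · rcases cat_adj_v (h.adj _ _ hz) with ⟨b, hb, hb'⟩ | ⟨i1, hi1, hi1', hi1''⟩ | ⟨r, hr, -, hr'⟩
      · exfalso
        apply hyz
        rw [ha, hb]
        have : a = b := Fin.ext (by simp only [Fin.val_zero] at ha' hb'; omega)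
        rw [this]
      · exfalso
        simp only [Fin.val_zero] at ha' hi1''
        have := a.2
        omega
      · rcases hr' with hr' | hr'
        · exact ⟨r, hr', hr ▸ hzm⟩
        · exact absurd (hr ▸ hzm) (hdesc r r rfl (by omega))
    · rcases cat_adj_v (h.adj _ _ hz) with ⟨b, hb, hb'⟩ | ⟨i2, hi2, hi2', hi2''⟩ | ⟨r, hr, -, hr'⟩
      · exfalso
        simp only [Fin.val_zero] at hb' hi1''
        have := b.2
        omega
      · exfalso
        apply hyz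
        rw [hi1, hi2]
        congr 1
        exact Fin.ext (by omega)
      · rcases hr' with hr' | hr'
        · exact ⟨r, hr', hr ▸ hzm⟩
        · exact absurd (hr ▸ hzm) (hdesc r r rfl (by omega))
    · rcases hr' with hr' | hr'
      · exact ⟨r, hr', hr ▸ hym⟩
      · exact absurd (hr ▸ hym) (hdesc r r rfl (by omega))
  have hasc : ∀ n : ℕ, ∀ t : Fin N, (t : ℕ) = s + 1 + n → (t : ℕ) ≤ s' → Sum.inr (t, 0) ∈ W := by
    intro n
    induction n with
    | zero =>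
      intro t ht _
      obtain ⟨t', ht', hm⟩ := hfirst
      have : t = t' := Fin.ext (by omega)
      rw [this]; exact hm
    | succ n ih =>
      intro t ht ht'
      have h2 := t.2
      have h3 := ih ⟨s + 1 + n, by omega⟩ rfl (by simp only; omega)
      obtain ⟨-, t', ht1, ht2⟩ := h.spine hπ hK h3 (hnot _
        (fun he => by rw [Fin.ext_iff] at he; simp only at he; omega)
        (fun he => by rw [Fin.ext_iff] at he; simp only at he; omega))
      have : t = t' := Fin.ext (by simp only at ht1; omega)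
      rw [this]; exact ht2
  have hgap : (s : ℕ) + π ≤ s' := by
    have h1 : (s : ℕ) % π = s' % π := by omega
    have h2 : π ∣ (s' : ℕ) - s := (Nat.modEq_iff_dvd' hss.le).1 h1
    have h3 := Nat.le_of_dvd (by omega) h2
    omega
  have e1 : s ≠ s' := fun he => by rw [he] at hss; omega
  have hsub : ({i} : Finset (Fin K)).disjSum
      ((({s, s'} : Finset (Fin N)) ×ˢ (Finset.univ : Finset (Fin (d + 1)))) ∪
        ((Finset.Ioo s s') ×ˢ ({0} : Finset (Fin (d + 1))))) ⊆ W := by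
    intro x hx
    rw [Finset.mem_disjSum] at hx
    rcases hx with ⟨a, ha, rfl⟩ | ⟨⟨a, b⟩, hab, rfl⟩
    · simp only [Finset.mem_singleton] at ha
      rw [ha]; exact hi
    · simp only [Finset.mem_union, Finset.mem_product, Finset.mem_insert, Finset.mem_singleton,
        Finset.mem_univ, and_true, Finset.mem_Ioo] at hab
      rcases hab with (rfl | rfl) | ⟨⟨h1, h2⟩, rfl⟩
      · exact h.leg_of_hub hs3 b
      · exact h.leg_of_hub hs4 b
      · rw [Fin.lt_def] at h1 h2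
        exact hasc (a - s - 1) a (by omega) (by omega)
  have hcard := Finset.card_le_card hsub
  rw [Finset.card_disjSum, Finset.card_union_of_disjoint, Finset.card_product, Finset.card_product,
    Finset.card_univ, Fintype.card_fin, Finset.card_pair e1, Finset.card_singleton,
    Finset.card_singleton, Fin.card_Ioo] at hcard
  · omega
  · rw [Finset.disjoint_left]
    rintro ⟨a, b⟩ h1 h2
    simp only [Finset.mem_product, Finset.mem_insert, Finset.mem_singleton,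
        Finset.mem_univ, and_true, Finset.mem_Ioo] at h1 h2
    rcases h1 with rfl | rfl
    · exact lt_irrefl _ h2.1.1
    · exact lt_irrefl _ h2.1.2

theorem cat_cyc2 (K N d π : ℕ) (v : Fin K ⊕ (Fin N × Fin (d + 1)))
    (c : (CatG K N d π).Walk v v) (hc : c.IsCycle) :
    Cyc2 K N d π c.support.toFinset (fun x y => c.toSubgraph.Adj x y) := by
  refine ⟨fun x y h => h.symm, fun x y h => h.adj_sub, fun x y h => ?_, fun x hx => ?_⟩
  · have := c.toSubgraph.edge_vert h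
    rw [SimpleGraph.Walk.mem_verts_toSubgraph] at this
    rw [List.mem_toFinset]; exact this
  · rw [List.mem_toFinset] at hx
    have h2 := hc.ncard_neighborSet_toSubgraph_eq_two hx
    rw [Set.ncard_eq_two] at h2
    obtain ⟨y, z, hyz, hset⟩ := h2
    refine ⟨y, z, hyz, ?_, ?_, ?_⟩
    · have : y ∈ c.toSubgraph.neighborSet x := by rw [hset]; simp
      exact this
    · have : z ∈ c.toSubgraph.neighborSet x := by rw [hset]; simp
      exact this
    · intro u hu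
      have : u ∈ c.toSubgraph.neighborSet x := hu
      rw [hset] at this
      simpa using this

theorem cat_card_le (K N d π : ℕ) (v : Fin K ⊕ (Fin N × Fin (d + 1)))
    (c : (CatG K N d π).Walk v v) (hc : c.IsCycle) : c.support.toFinset.card ≤ c.length := by
  have h1 : v ∈ c.support.tail := c.end_mem_tail_support hc.not_nil
  have h2 : c.support.toFinset = c.support.tail.toFinset := by
    rw [← SimpleGraph.Walk.cons_tail_support c, List.toFinset_cons]
    simp only [List.tail_cons]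
    exact Finset.insert_eq_of_mem (List.mem_toFinset.2 h1)
  rw [h2]
  refine (List.toFinset_card_le _).trans ?_
  rw [List.length_tail, SimpleGraph.Walk.length_support]
  omega

theorem cat_girth (K N d π g : ℕ) (hπ : 1 ≤ π) (hK : π ≤ K) (hg1 : g ≤ 4 * d + 6)
    (hg2 : g ≤ 2 * d + 2 + π) (v : Fin K ⊕ (Fin N × Fin (d + 1)))
    (c : (CatG K N d π).Walk v v) (hc : c.IsCycle) : g ≤ c.length := by
  have h := cat_cyc2 K N d π v c hc
  have hne : c.support.toFinset.Nonempty := ⟨v, by simp⟩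
  obtain ⟨i, hi⟩ := h.hub hπ hK hne
  have hle := cat_card_le K N d π v c hc
  by_cases hu : ∀ i' : Fin K, Sum.inl i' ∈ c.support.toFinset → i' = i
  · have := h.case2 hπ hK hi hu
    omega
  · push Not at hu
    obtain ⟨i', hi', hne'⟩ := hu
    have := h.case1 hne'.symm hi hi'
    omega

theorem cat_nodisj (K N d π : ℕ) (hπ : 1 ≤ π) (hK : π ≤ K) :
    ¬ HasDisjointCycles (CatG K N d π) (K + 1) := by
  rintro ⟨v, c, hc, hdis⟩
  have hhub : ∀ a : Fin (K + 1), ∃ i : Fin K, Sum.inl i ∈ (c a).support := by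
    intro a
    have h := cat_cyc2 K N d π (v a) (c a) (hc a)
    obtain ⟨i, hi⟩ := h.hub hπ hK ⟨v a, by simp⟩
    exact ⟨i, List.mem_toFinset.1 hi⟩
  choose f hf using hhub
  obtain ⟨a, b, hab, hfab⟩ := Fintype.exists_ne_map_eq_of_card_lt f (by simp)
  exact hdis a b hab _ (hf a) (hfab ▸ hf b)

theorem cat_edges (K N d π : ℕ) (hπ : 1 ≤ π) (hK : π ≤ K) :
    N * (d + 2) ≤ (CatG K N d π).edgeSet.ncard + 1 := by
  rcases Nat.eq_zero_or_pos N with hN | hN
  · rw [hN]; simp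
  obtain ⟨f, hf⟩ : ∃ f : (Fin N × Fin d) ⊕ (Fin N ⊕ Fin (N - 1)) →
      Sym2 (Fin K ⊕ (Fin N × Fin (d + 1))), f = Sum.elim
        (fun p => s(Sum.inr (p.1, p.2.castSucc), Sum.inr (p.1, p.2.succ)))
        (Sum.elim (fun s => s(Sum.inr (s, Fin.last d),
          Sum.inl ⟨s % π, by have := Nat.mod_lt s hπ; omega⟩))
        (fun s => s(Sum.inr (⟨s, by omega⟩, 0), Sum.inr (⟨s + 1, by omega⟩, 0)))) := ⟨_, rfl⟩
  have hinj : Function.Injective f := by
    rw [hf]
    rintro (⟨a, b⟩ | a | a) (⟨a', b'⟩ | a' | a') hab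
    · simp only [Sum.elim_inl, Sym2.eq_iff, Sum.inr.injEq, Prod.mk.injEq, Fin.ext_iff,
        Fin.val_castSucc, Fin.val_succ] at hab
      have e1 : a = a' := Fin.ext (by omega)
      have e2 : b = b' := Fin.ext (by omega)
      rw [e1, e2]
    · simp only [Sum.elim_inl, Sum.elim_inr, Sym2.eq_iff, reduceCtorEq, and_false, or_self,
        false_and] at hab
    · exfalso
      simp only [Sum.elim_inl, Sum.elim_inr, Sym2.eq_iff, Sum.inr.injEq, Prod.mk.injEq, Fin.ext_iff,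
        Fin.val_castSucc, Fin.val_succ, Fin.val_zero] at hab
      omega
    · simp only [Sum.elim_inl, Sum.elim_inr, Sym2.eq_iff, reduceCtorEq, and_false, or_self,
        false_and] at hab
    · simp only [Sum.elim_inr, Sum.elim_inl, Sym2.eq_iff, Sum.inr.injEq, Prod.mk.injEq,
        Fin.ext_iff, reduceCtorEq, and_false, or_false, false_and] at hab
      have e1 : a = a' := Fin.ext (by omega)
      rw [e1]
    · simp only [Sum.elim_inl, Sum.elim_inr, Sym2.eq_iff, reduceCtorEq, and_false, or_self,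
        false_and] at hab
    · exfalso
      simp only [Sum.elim_inl, Sum.elim_inr, Sym2.eq_iff, Sum.inr.injEq, Prod.mk.injEq, Fin.ext_iff,
        Fin.val_castSucc, Fin.val_succ, Fin.val_zero] at hab
      omega
    · simp only [Sum.elim_inl, Sum.elim_inr, Sym2.eq_iff, reduceCtorEq, and_false, or_self,
        false_and] at hab
    · simp only [Sum.elim_inr, Sym2.eq_iff, Sum.inr.injEq, Prod.mk.injEq,
        Fin.ext_iff] at hab
      have e1 : a = a' := Fin.ext (by omega)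
      rw [e1]
  have hmem : ∀ x, f x ∈ (CatG K N d π).edgeSet := by
    rw [hf]
    rintro (⟨a, b⟩ | a | a)
    · simp only [Sum.elim_inl, SimpleGraph.mem_edgeSet]
      rw [cat_adj_iff]
      refine ⟨?_, Or.inl (Or.inl ⟨a, b, by have := b.2; omega, rfl, rfl⟩)⟩
      intro he
      simp only [Sum.inr.injEq, Prod.mk.injEq, Fin.ext_iff, Fin.val_castSucc, Fin.val_succ] at he
      omega
    · simp only [Sum.elim_inl, Sum.elim_inr, SimpleGraph.mem_edgeSet]
      rw [cat_adj_iff]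
      exact ⟨by simp, Or.inl (Or.inr (Or.inl ⟨a, _, rfl, rfl, rfl⟩))⟩
    · simp only [Sum.elim_inr, SimpleGraph.mem_edgeSet]
      rw [cat_adj_iff]
      refine ⟨?_, Or.inl (Or.inr (Or.inr ⟨_, _, rfl, rfl, rfl⟩))⟩
      intro he
      simp only [Sum.inr.injEq, Prod.mk.injEq, Fin.ext_iff] at he
      omega
  have hcard : (Set.range f).ncard ≤ (CatG K N d π).edgeSet.ncard := by
    refine Set.ncard_le_ncard ?_ (Set.toFinite _)
    rintro _ ⟨x, rfl⟩
    exact hmem x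
  have hr : (Set.range f).ncard = N * d + (N + (N - 1)) := by
    rw [← Set.image_univ, Set.ncard_image_of_injective _ hinj, Set.ncard_univ,
      Nat.card_eq_fintype_card]
    simp
  rw [hr] at hcard
  have : N * (d + 2) = N * d + 2 * N := by ring
  omega

/-- TARGET -/
theorem cat_main (K N d π g : ℕ) (hπ : 1 ≤ π) (hK : π ≤ K) (hg1 : g ≤ 4 * d + 6) (hg2 : g ≤ 2 * d + 2 + π) :
    (∀ (v : Fin K ⊕ (Fin N × Fin (d + 1))) (c : (CatG K N d π).Walk v v), c.IsCycle → g ≤ c.length) ∧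
    ¬ HasDisjointCycles (CatG K N d π) (K + 1) ∧
    N * (d + 2) ≤ (CatG K N d π).edgeSet.ncard + 1 :=
  ⟨fun v c hc => cat_girth K N d π g hπ hK hg1 hg2 v c hc, cat_nodisj K N d π hπ hK,
    cat_edges K N d π hπ hK⟩


end SolCat

end DisjCyc
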