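import Pool.Agent.Helper470.DC.Defs
set_option autoImplicit false
open scoped Classical
open Finset

namespace DisjCyc
namespace SolLim2


open Filter Topology

/-- TARGET -/
theorem limit_gen (k g a b D : ℕ) (hb : 1 ≤ b)
    (hup : ∀ M : ℕ, 1 ≤ M → ∃ C : ℕ, ∀ n : ℕ, M * b * maxEdges k n g ≤ (M * a + D) * n + C)
    (hlow : ∃ C : ℕ, ∀ n : ℕ, a * n ≤ b * maxEdges k n g + C) :
    Tendsto (fun n : ℕ => (maxEdges k n g : ℝ) / n) atTop (𝓝 ((a : ℝ) / b)) := by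
  rw [Metric.tendsto_atTop]
  intro ε hε
  have hb0 : (0 : ℝ) < b := by exact_mod_cast hb
  obtain ⟨M, hM⟩ := exists_nat_gt (2 * (D : ℝ) / (b * ε))
  have hM1 : (2 * (D : ℝ) / (b * ε)) < ((M + 1 : ℕ) : ℝ) := by push_cast; linarith
  obtain ⟨C, hC⟩ := hup (M + 1) (by omega)
  obtain ⟨C', hC'⟩ := hlow
  obtain ⟨N, hN⟩ := exists_nat_gt (2 * (C : ℝ) / (b * ε) + (C' : ℝ) / (b * ε))
  refine ⟨N + 1, ?_⟩
  intro n hn
  have hnN : (2 * (C : ℝ) / (b * ε) + (C' : ℝ) / (b * ε)) < n := by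
    have : (N : ℝ) ≤ n := by exact_mod_cast (by omega : N ≤ n)
    linarith
  have hn0 : (0 : ℝ) < n := by exact_mod_cast (by omega : 0 < n)
  have hMp : (0 : ℝ) < ((M + 1 : ℕ) : ℝ) := by positivity
  have hM1' : (1 : ℝ) ≤ ((M + 1 : ℕ) : ℝ) := by push_cast; linarith [(Nat.cast_nonneg M : (0:ℝ) ≤ M)]
  have h1 : (((M + 1 : ℕ) : ℝ)) * b * (maxEdges k n g : ℝ) ≤ (((M + 1 : ℕ) : ℝ) * a + D) * n + C := by
    exact_mod_cast hC n
  have h2 : (a : ℝ) * n ≤ b * (maxEdges k n g : ℝ) + C' := by exact_mod_cast hC' n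
  set m : ℝ := (maxEdges k n g : ℝ) with hm
  set M' : ℝ := ((M + 1 : ℕ) : ℝ) with hM'
  have hbe : 0 < b * ε := by positivity
  have h3 : 2 * (D : ℝ) < M' * (b * ε) := by
    rw [div_lt_iff₀ hbe] at hM1; exact hM1
  have h4 : 2 * (C : ℝ) + C' < n * (b * ε) := by
    rw [← add_div, div_lt_iff₀ hbe] at hnN; exact hnN
  have hC0 : (0 : ℝ) ≤ C := Nat.cast_nonneg C
  have hC0' : (0 : ℝ) ≤ C' := Nat.cast_nonneg C'
  have hD0 : (0 : ℝ) ≤ D := Nat.cast_nonneg D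
  rw [Real.dist_eq, abs_lt]
  constructor
  · rw [lt_sub_iff_add_lt, lt_div_iff₀ hn0]
    have h5 : (-ε + (a : ℝ) / b) * n * b = -(ε * n * b) + a * n := by field_simp
    have h6 : (-ε + (a : ℝ) / b) * n * b < m * b := by
      rw [h5]; nlinarith
    exact lt_of_mul_lt_mul_right h6 hb0.le
  · rw [sub_lt_iff_lt_add, div_lt_iff₀ hn0]
    have h5 : (ε + (a : ℝ) / b) * n * (M' * b) = ε * n * (M' * b) + a * n * M' := by field_simp
    have h6 : m * (M' * b) < (ε + (a : ℝ) / b) * n * (M' * b) := by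
      rw [h5]
      have h7 : 2 * (D : ℝ) * n < M' * (b * ε) * n := mul_lt_mul_of_pos_right h3 hn0
      have h8 : 2 * (C : ℝ) < M' * (n * (b * ε)) := by
        have : n * (b * ε) ≤ M' * (n * (b * ε)) := by
          have : 0 ≤ n * (b * ε) := by positivity
          nlinarith
        linarith
      nlinarith
    exact lt_of_mul_lt_mul_right h6 (by positivity)


end SolLim2

end DisjCyc
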