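import Pool.Agent.Helper470.DC.SolLG1
import Pool.Agent.Helper470.DC.SolLG2
import Pool.Agent.Helper470.DC.SolPend
set_option autoImplicit false
open scoped Classical
open Finset

namespace DisjCyc
namespace SolStar
open SolLG1 SolLG2 SolPend


theorem lower_star_arith (K d t E : ℕ) (hK : 0 < K) (h : (d + 1 + 1) * (t * K) ≤ E + t) :
    t * (K * (d + 2) - 1) ≤ E := by
  have h2 : t * (K * (d + 2) - 1) + t = t * (K * (d + 2)) := by
    obtain ⟨m, hm⟩ : ∃ m, K * (d + 2) = m + 1 := ⟨K * (d + 2) - 1, by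
      have : 0 < K * (d + 2) := by positivity
      omega⟩
    rw [hm, Nat.add_sub_cancel]
    ring
  have h3 : (d + 1 + 1) * (t * K) = t * (K * (d + 2)) := by ring
  omega

/-- TARGET -/
theorem lower_star (k d t : ℕ) (hk : 2 ≤ k) (r0 : ℕ) :
    t * ((2 * k - 1) * (d + 2) - 1) + r0 ≤
      maxEdges k ((2 * k - 1) + t * ((2 * k - 1) * (d + 1)) + r0) (4 * d + 6) := by
  have hK0 : 0 < 2 * k - 1 := by omega
  let z : Fin (2 * k - 1) := ⟨0, hK0⟩
  let A : Fin t → Finset (Fin (2 * k - 1)) := fun _ => univ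
  let rt : Fin t → Fin (2 * k - 1) := fun _ => z
  let pr : Fin t → Fin (2 * k - 1) → Fin (2 * k - 1) := fun _ _ => z
  let rk : Fin t → Fin (2 * k - 1) → ℕ := fun _ i => i.val
  have hrt : ∀ τ, τ ∉ (∅ : Finset (Fin t)) → rt τ ∈ A τ := fun τ _ => mem_univ _
  have hpr : ∀ τ, τ ∉ (∅ : Finset (Fin t)) → ∀ i ∈ A τ, i ≠ rt τ →
      pr τ i ∈ A τ ∧ rk τ (pr τ i) < rk τ i := by
    intro τ _ i _ hi
    refine ⟨mem_univ _, ?_⟩
    change 0 < i.val
    rcases Nat.eq_zero_or_pos i.val with h | h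
    · exact absurd (Fin.ext h) hi
    · exact h
  obtain ⟨hc1, -, hc3⟩ := LG_cycles (d := d + 1) (by omega) A ∅ rt pr rk hrt hpr
  obtain ⟨hE, hcard, hcount⟩ := LG_count (d := d + 1) (by omega) A ∅ rt pr rk hrt hpr
  have hsum : ∑ τ, (A τ).card = t * (2 * k - 1) := by
    simp [A]
  rw [hsum, Fintype.card_fin, card_empty, add_zero] at hcard
  have hle : (univ \ (∅ : Finset (Fin t))).card ≤ t := (card_le_univ _).trans (by simp)
  have hcount' := hcount.trans (Nat.add_le_add_left hle _)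
  rw [hsum] at hcount'
  have hS : (presentL (d := d + 1) A (∅ : Finset (Fin t))).Nonempty := by
    rw [← card_pos, hcard]
    omega
  have h1 := le_maxEdges_sub k ((2 * k - 1) + t * ((2 * k - 1) * (d + 1)) + r0) (4 * d + 6) r0 _
    (LG (d := d + 1) A ∅ rt pr) (presentL A ∅) hS hE (by
      rw [hcard]
      ring) (fun v c hc => by
      have := hc1 v c hc
      omega) (hc3 k (by
      rw [Fintype.card_fin]
      omega))
  refine le_trans ?_ h1
  apply Nat.add_le_add_right
  exact lower_star_arith _ d t _ hK0 hcount'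


end SolStar

end DisjCyc
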