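import Pool.Agent.Helper470.DC.UpperE
import Pool.Agent.Helper470.DC.Final
import Pool.Agent.Helper470.DC.SolStar
import Pool.Agent.Helper470.DC.SolCat
import Pool.Agent.Helper470.DC.SolLim2
set_option autoImplicit false
open scoped Classical
open Finset Filter Topology

namespace DisjCyc

theorem upperM (k e g q v : ℕ) (hk : 1 ≤ k) (he : 2 ≤ e) (hv : 1 ≤ v) (hTI : TI e (k - 1) q v)
    (hg : 2 * e + 1 ≤ g) : ∀ M : ℕ, 1 ≤ M → ∃ C : ℕ, ∀ n : ℕ,
      M * v * maxEdges k n g ≤ (M * (q + v) + 3 * v) * n + C := by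
  intro M hM
  obtain ⟨K0, hK0⟩ : ∃ x, x = k * (4 * (3 * k * M) + 2) := ⟨_, rfl⟩
  obtain ⟨s', hs'⟩ : ∃ x, x = 2 * M * K0 := ⟨_, rfl⟩
  obtain ⟨C, hC⟩ : ∃ x, x = M * v * (K0 * K0 + (K0 * K0 + K0 * ((2 * k + 2) * s') +
    K0 * (K0 * ((2 * k + 2) * s')))) := ⟨_, rfl⟩
  refine ⟨C, fun n => ?_⟩
  have hMv : 0 < M * v := Nat.mul_pos hM hv
  have h1 : maxEdges k n g ≤ ((M * (q + v) + 3 * v) * n + C) / (M * v) := by
    apply SolLimit.maxEdges_le _ _ _ _ hk
    intro G hG1 hG2
    rw [Nat.le_div_iff_mul_le hMv, mul_comm]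
    have hcy := cyc_girth hG1
    have h := upper_coreE G k e M hk he hM q v hTI (fun W hW => by have := hcy W hW; omega)
      (fun Y hY => hG2 (disjoint_of_KCyc hY)) K0 s' C hK0 hs' hC
    rw [SolCyc.ec_univ, Fintype.card_fin] at h
    exact h
  calc M * v * maxEdges k n g
      ≤ M * v * (((M * (q + v) + 3 * v) * n + C) / (M * v)) := Nat.mul_le_mul_left _ h1
    _ ≤ _ := Nat.mul_div_le _ _

theorem maxEdges_anti (k n g g' : ℕ) (h : g ≤ g') (hk : 1 ≤ k) : maxEdges k n g' ≤ maxEdges k n g := by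
  apply SolLimit.maxEdges_le _ _ _ _ hk
  intro G hG1 hG2
  exact SolLimit.le_maxEdges k n g (Fin n) G (by simp) (fun v c hc => h.trans (hG1 v c hc)) hG2

theorem odd_small (k d g : ℕ) (hk : 2 ≤ k) (hd : (k - 1) * (k - 2) ≤ d + 1) (hg : g = 4 * d + 5 ∨ g = 4 * d + 6) :
    Tendsto (fun n : ℕ => (maxEdges k n g : ℝ) / n) atTop
      (𝓝 (1 + (2 * (k : ℝ) - 2) / ((2 * (k : ℝ) - 1) * (d + 1)))) := by
  have hTI : TI (2 * d + 2) (k - 1) (2 * (k - 1)) ((2 * (k - 1) + 1) * (d + 1)) :=
    TI_odd_small d (k - 1) (by omega) (by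
      have : k - 1 - 1 = k - 2 := by omega
      rw [this]; exact hd)
  set q := 2 * (k - 1) with hq
  set v := (q + 1) * (d + 1) with hv
  have hv1 : 1 ≤ v := by rw [hv]; exact Nat.mul_pos (by omega) (by omega)
  have hup := upperM k (2 * d + 2) g q v (by omega) (by omega) hv1 hTI (by omega)
  have hlim := SolLim2.limit_gen k g (q + v) v (3 * v) hv1 hup ⟨(q + v) * (2 * k - 1) + (q + v) * v, fun n => ?_⟩
  · have e : (((q + v : ℕ) : ℝ) / ((v : ℕ) : ℝ)) = 1 + (2 * (k : ℝ) - 2) / ((2 * (k : ℝ) - 1) * (d + 1)) := by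
      have hk1 : ((k - 1 : ℕ) : ℝ) = (k : ℝ) - 1 := by
        rw [Nat.cast_sub (by omega)]; simp
      have h1 : (q : ℝ) = 2 * k - 2 := by
        rw [hq]; push_cast; rw [hk1]; ring
      have h2 : (v : ℝ) = (2 * (k : ℝ) - 1) * (d + 1) := by
        rw [hv]; push_cast; rw [h1]; ring
      have h3 : (v : ℝ) ≠ 0 := by
        have : (0 : ℝ) < v := by exact_mod_cast hv1
        exact this.ne'
      rw [← h1, ← h2]
      push_cast
      field_simp
      ring
    rw [e] at hlim
    exact hlim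
  · by_cases hn : 2 * k - 1 ≤ n
    · set t := (n - (2 * k - 1)) / v with ht
      set r := (n - (2 * k - 1)) % v with hr
      have hdm : v * t + r = n - (2 * k - 1) := Nat.div_add_mod _ _
      have hrv : r < v := Nat.mod_lt _ hv1
      have h1 := SolStar.lower_star k d t hk r
      have e1 : 2 * k - 1 = q + 1 := by omega
      rw [e1] at h1 hdm ⊢
      rw [← hv] at h1
      have e2 : (q + 1) * (d + 2) - 1 = v + q := by
        have : (q + 1) * (d + 2) = v + q + 1 := by rw [hv]; ring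
        omega
      rw [e2] at h1
      have e3 : q + 1 + t * v + r = n := by
        have : t * v = v * t := mul_comm _ _
        omega
      rw [e3] at h1
      have h2 : maxEdges k n (4 * d + 6) ≤ maxEdges k n g := maxEdges_anti k n g _ (by omega) (by omega)
      have h3 : v * (t * (v + q) + r) ≤ v * maxEdges k n g := Nat.mul_le_mul_left _ (h1.trans h2)
      have h4 : (q + v) * n = (q + v) * (q + 1) + v * (t * (v + q)) + (q + v) * r := by
        rw [← e3]; ring
      have h5 : (q + v) * r ≤ (q + v) * v := Nat.mul_le_mul_left _ hrv.le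
      have h6 : v * (t * (v + q) + r) = v * (t * (v + q)) + v * r := by ring
      omega
    · have h1 : (q + v) * n ≤ (q + v) * (2 * k - 1) := Nat.mul_le_mul_left _ (by omega)
      omega

theorem odd_large (k d g : ℕ) (hk : g / 2 + 1 ≤ k - 1) (hg : g = 4 * d + 5 ∨ g = 4 * d + 6) :
    Tendsto (fun n : ℕ => (maxEdges k n g : ℝ) / n) atTop (𝓝 (1 + 1 / ((d : ℝ) + 1))) := by
  have hTI : TI (2 * d + 2) (k - 1) 1 (d + 1) := TI_odd_large d (k - 1)
  have hup := upperM k (2 * d + 2) g 1 (d + 1) (by omega) (by omega) (by omega) hTI (by omega)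
  have hlim := SolLim2.limit_gen k g (1 + (d + 1)) (d + 1) (3 * (d + 1)) (by omega) hup
    ⟨(d + 2) * ((k - 1) + (d + 1)) + (d + 1), fun n => ?_⟩
  · have e : (((1 + (d + 1) : ℕ) : ℝ) / ((d + 1 : ℕ) : ℝ)) = 1 + 1 / ((d : ℝ) + 1) := by
      have h3 : ((d : ℝ) + 1) ≠ 0 := by positivity
      push_cast
      field_simp
      ring
    rw [e] at hlim
    exact hlim
  · by_cases hn : k - 1 ≤ n
    · set N := (n - (k - 1)) / (d + 1) with hN
      set r := (n - (k - 1)) % (d + 1) with hr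
      have hdm : (d + 1) * N + r = n - (k - 1) := Nat.div_add_mod _ _
      have hrv : r < d + 1 := Nat.mod_lt _ (by omega)
      obtain ⟨h1, h2, h3⟩ := SolCat.cat_main (k - 1) N d (g - (2 * d + 2)) g (by omega) (by omega) (by omega)
        (by omega)
      have hk1 : k - 1 + 1 = k := by omega
      rw [hk1] at h2
      have h4 := SolPend.le_maxEdges_sub k n g r _ (SolCat.CatG (k - 1) N d (g - (2 * d + 2))) univ
        ⟨Sum.inl ⟨0, by omega⟩, mem_univ _⟩ (fun u v _ => ⟨mem_univ _, mem_univ _⟩) (by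
          rw [card_univ, Fintype.card_sum, Fintype.card_prod, Fintype.card_fin, Fintype.card_fin, Fintype.card_fin]
          have : N * (d + 1) = (d + 1) * N := mul_comm _ _
          omega) h1 h2
      have h5 : (d + 1) * (N * (d + 2) + r) ≤ (d + 1) * (maxEdges k n g + 1) := Nat.mul_le_mul_left _ (by omega)
      have e3 : (k - 1) + (d + 1) * N + r = n := by omega
      have h6 : (1 + (d + 1)) * n = (d + 2) * (k - 1) + (d + 1) * (N * (d + 2)) + (d + 2) * r := by
        rw [← e3]; ring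
      have h7 : (d + 2) * r ≤ (d + 2) * (d + 1) := Nat.mul_le_mul_left _ hrv.le
      have h8 : (d + 1) * (N * (d + 2) + r) = (d + 1) * (N * (d + 2)) + (d + 1) * r := by ring
      have h9 : (d + 2) * ((k - 1) + (d + 1)) = (d + 2) * (k - 1) + (d + 2) * (d + 1) := by ring
      have h10 : (d + 1) * (maxEdges k n g + 1) = (d + 1) * maxEdges k n g + (d + 1) := by ring
      omega
    · have h1 : (1 + (d + 1)) * n ≤ (1 + (d + 1)) * (k - 1) := Nat.mul_le_mul_left _ (by omega)
      have h2 : (d + 2) * ((k - 1) + (d + 1)) = (d + 2) * (k - 1) + (d + 2) * (d + 1) := by ring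
      have h3 : (1 + (d + 1)) * (k - 1) = (d + 2) * (k - 1) := by ring
      omega

end DisjCyc
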