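import Pool.Agent.Helper470.DC.Comp
set_option autoImplicit false
open scoped Classical
open Finset

namespace DisjCyc
namespace SolTree

variable {V : Type}




theorem exists_par {V : Type} (F : SimpleGraph V) (hF : Acy F) (r : V) : ∀ (n : ℕ) (T : Finset V),
    T.card = n → Tr F T → r ∈ T →
    ∃ (par : V → V) (dep : V → ℕ), dep r = 0 ∧
      ∀ v ∈ T, v ≠ r → par v ∈ T ∧ F.Adj v (par v) ∧ dep v = dep (par v) + 1 := by
  intro n
  induction n with
  | zero =>
    intro T hn hT hr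
    rw [card_eq_zero] at hn
    subst hn
    simp at hr
  | succ n ih =>
    intro T hn hT hr
    by_cases h1 : T.card = 1
    · refine ⟨id, fun _ => 0, rfl, ?_⟩
      intro v hv hvr
      obtain ⟨a, rfl⟩ := card_eq_one.1 h1
      rw [mem_singleton] at hv hr
      exact absurd (hv.trans hr.symm) hvr
    · have h2 : 2 ≤ T.card := by have := hT.1.card_pos; omega
      have hpos : ∀ v ∈ T, 1 ≤ dg F T v := by
        intro v hv
        by_contra h0
        have h3 := ec_erase F hv
        rw [dg_erase] at h3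
        have h4 := hF (T.erase v) (by rw [← card_pos, card_erase_of_mem hv]; omega)
        rw [card_erase_of_mem hv] at h4
        have := hT.2
        omega
      have hleaf : ∃ v ∈ T, v ≠ r ∧ dg F T v = 1 := by
        by_contra hcon
        push Not at hcon
        have hs := handshake F T
        rw [← add_sum_erase T _ hr] at hs
        have h3 : ∑ v ∈ T.erase r, 2 ≤ ∑ v ∈ T.erase r, dg F T v := by
          apply sum_le_sum
          intro v hv
          have h4 := hcon v (mem_of_mem_erase hv) (ne_of_mem_erase hv)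
          have h5 := hpos v (mem_of_mem_erase hv)
          omega
        rw [sum_const, card_erase_of_mem hr, smul_eq_mul] at h3
        have h6 := hpos r hr
        have := hT.2
        omega
      obtain ⟨v, hv, hvr, hd⟩ := hleaf
      have hT' : Tr F (T.erase v) := by
        refine ⟨⟨r, mem_erase.2 ⟨hvr.symm, hr⟩⟩, ?_⟩
        have h3 := ec_erase F hv
        rw [dg_erase, hd] at h3
        rw [card_erase_of_mem hv]
        have := hT.2
        omega
      obtain ⟨par, dep, h0, hp⟩ := ih (T.erase v) (by rw [card_erase_of_mem hv]; omega) hT'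
        (mem_erase.2 ⟨hvr.symm, hr⟩)
      obtain ⟨u, hu, huv⟩ := dg_pos_iff.1 (show 0 < dg F T v by omega)
      have huv' : u ≠ v := fun e => F.loopless.irrefl v (by rwa [e] at huv)
      refine ⟨Function.update par v u, Function.update dep v (dep u + 1), ?_, ?_⟩
      · rw [Function.update_of_ne hvr.symm]; exact h0
      · intro w hw hwr
        by_cases hwv : w = v
        · subst hwv
          rw [Function.update_self, Function.update_self, Function.update_of_ne huv']
          exact ⟨hu, huv, rfl⟩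
        · obtain ⟨a1, a2, a3⟩ := hp w (mem_erase.2 ⟨hwv, hw⟩) hwr
          rw [Function.update_of_ne hwv, Function.update_of_ne hwv,
            Function.update_of_ne (ne_of_mem_erase a1)]
          exact ⟨mem_of_mem_erase a1, a2, a3⟩

theorem it_mem {V : Type} {F : SimpleGraph V} {T : Finset V} {r : V} {par : V → V} {dep : V → ℕ}
    (h0 : dep r = 0)
    (hp : ∀ v ∈ T, v ≠ r → par v ∈ T ∧ F.Adj v (par v) ∧ dep v = dep (par v) + 1) :
    ∀ (t : ℕ) (v : V), v ∈ T → t ≤ dep v → par^[t] v ∈ T ∧ dep (par^[t] v) + t = dep v := by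
  intro t
  induction t with
  | zero => intro v hv _; exact ⟨hv, rfl⟩
  | succ t ih =>
    intro v hv ht
    obtain ⟨h1, h2⟩ := ih v hv (by omega)
    have hne : par^[t] v ≠ r := by
      intro e
      rw [e, h0] at h2
      omega
    obtain ⟨a1, a2, a3⟩ := hp _ h1 hne
    rw [Function.iterate_succ_apply']
    exact ⟨a1, by omega⟩

theorem chain_tr {V : Type} {F : SimpleGraph V} (hF : Acy F) {T : Finset V} {r : V} {par : V → V}
    {dep : V → ℕ} (h0 : dep r = 0)
    (hp : ∀ v ∈ T, v ≠ r → par v ∈ T ∧ F.Adj v (par v) ∧ dep v = dep (par v) + 1)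
    (v : V) (hv : v ∈ T) :
    ∀ t : ℕ, t ≤ dep v → Tr F ((range (t + 1)).image (fun i => par^[i] v)) := by
  intro t
  induction t with
  | zero =>
    intro _
    have : (range (0 + 1)).image (fun i => par^[i] v) = {v} := by simp
    rw [this]
    exact Tr_singleton F v
  | succ t ih =>
    intro ht
    have h1 := ih (by omega)
    obtain ⟨h2, h3⟩ := it_mem h0 hp t v hv (by omega)
    have hne : par^[t] v ≠ r := by
      intro e
      rw [e, h0] at h3
      omega
    obtain ⟨a1, a2, a3⟩ := hp _ h2 hne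
    have h4 := Tr_insert hF h1 (a := par^[t] v) (b := par (par^[t] v))
      (mem_image.2 ⟨t, by simp, rfl⟩) a2
    have h5 : (range (t + 1 + 1)).image (fun i => par^[i] v) =
        insert (par (par^[t] v)) ((range (t + 1)).image (fun i => par^[i] v)) := by
      rw [range_add_one, image_insert, Function.iterate_succ_apply']
    rw [h5]
    exact h4

theorem chain_sub {V : Type} {F : SimpleGraph V} {T : Finset V} {r : V} {par : V → V}
    {dep : V → ℕ} (h0 : dep r = 0)
    (hp : ∀ v ∈ T, v ≠ r → par v ∈ T ∧ F.Adj v (par v) ∧ dep v = dep (par v) + 1)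
    (v : V) (hv : v ∈ T) (t : ℕ) (ht : t ≤ dep v) :
    (range (t + 1)).image (fun i => par^[i] v) ⊆ T := by
  intro w hw
  obtain ⟨i, hi, rfl⟩ := mem_image.1 hw
  rw [mem_range] at hi
  exact (it_mem h0 hp i v hv (by omega)).1

theorem lca {V : Type} {F : SimpleGraph V} (hF : Acy F) {T : Finset V} {r : V} {par : V → V}
    {dep : V → ℕ} (h0 : dep r = 0)
    (hp : ∀ v ∈ T, v ≠ r → par v ∈ T ∧ F.Adj v (par v) ∧ dep v = dep (par v) + 1)
    (p q : V) (hpT : p ∈ T) (hqT : q ∈ T) (a b : ℕ) (ha : a ≤ dep p) (hb : b ≤ dep q)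
    (hab : par^[a] p = par^[b] q) :
    ∃ R ⊆ T, Tr F R ∧ p ∈ R ∧ q ∈ R ∧ R.card ≤ a + b + 1 := by
  set A := (range (a + 1)).image (fun i => par^[i] p) with hA
  set B := (range (b + 1)).image (fun i => par^[i] q) with hB
  have h1 := chain_tr hF h0 hp p hpT a ha
  have h2 := chain_tr hF h0 hp q hqT b hb
  have hne : (A ∩ B).Nonempty := ⟨par^[a] p, mem_inter.2
    ⟨mem_image.2 ⟨a, by simp, rfl⟩, mem_image.2 ⟨b, by simp, hab.symm⟩⟩⟩
  refine ⟨A ∪ B, union_subset (chain_sub h0 hp p hpT a ha) (chain_sub h0 hp q hqT b hb),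
    Tr_union hF h1 h2 hne, ?_, ?_, ?_⟩
  · exact mem_union_left _ (mem_image.2 ⟨0, by simp, rfl⟩)
  · exact mem_union_right _ (mem_image.2 ⟨0, by simp, rfl⟩)
  · have h3 := card_union_add_card_inter A B
    have h4 := hne.card_pos
    have h5 : A.card ≤ a + 1 := by
      have := card_image_le (s := range (a + 1)) (f := fun i => par^[i] p)
      rwa [card_range] at this
    have h6 : B.card ≤ b + 1 := by
      have := card_image_le (s := range (b + 1)) (f := fun i => par^[i] q)
      rwa [card_range] at this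
    omega

theorem cov_le {V : Type} {T Q : Finset V} {par : V → V} {dep : V → ℕ} {d : ℕ}
    (hD : ∀ (t : ℕ) (v : V), v ∈ T → t ≤ dep v → par^[t] v ∈ T ∧ dep (par^[t] v) + t = dep v)
    (hQ1 : ∀ q ∈ Q, q ∈ T ∧ 2 * d ≤ dep q)
    (hQ2 : ∀ p ∈ Q, ∀ q ∈ Q, p ≠ q → ∀ a b, a ≤ dep p → b ≤ dep q → par^[a] p = par^[b] q →
      2 * d ≤ a + b) (p : V) (hpQ : p ∈ Q) :
    ((Icc d (2 * d)).filter (fun t => ∃ q ∈ Q, ∃ u, u < d ∧ par^[t] p = par^[u] q)).card ≤
    ((Icc d (2 * d)).filter (fun t => ¬ ∃ q ∈ Q, ∃ u, u < d ∧ par^[t] p = par^[u] q)).card := by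
  have hch : ∀ t : ℕ, ∃ (q : V) (u : ℕ), (∃ q ∈ Q, ∃ u, u < d ∧ par^[t] p = par^[u] q) →
      q ∈ Q ∧ u < d ∧ par^[t] p = par^[u] q := by
    intro t
    by_cases h : ∃ q ∈ Q, ∃ u, u < d ∧ par^[t] p = par^[u] q
    · obtain ⟨q, hq, u, hu, e⟩ := h
      exact ⟨q, u, fun _ => ⟨hq, hu, e⟩⟩
    · exact ⟨p, 0, fun h' => absurd h' h⟩
  choose qq uu hqu using hch
  let Sset : V → Set ℕ := fun q => {s | dep p - dep q ≤ s ∧ par^[s] p = par^[s - (dep p - dep q)] q}
  let τ : V → ℕ := fun q => sInf (Sset q)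
  obtain ⟨hpT, hpd⟩ := hQ1 p hpQ
  -- depth comparison
  have hdep : ∀ q ∈ Q, ∀ t u, t ≤ 2 * d → u < d → par^[t] p = par^[u] q →
      dep p + u = dep q + t := by
    intro q hq t u ht hu e
    obtain ⟨hqT, hqd⟩ := hQ1 q hq
    have h1 := (hD t p hpT (by omega)).2
    have h2 := (hD u q hqT (by omega)).2
    rw [e] at h1
    omega
  have key : ∀ t, t ∈ (Icc d (2 * d)).filter (fun t => ∃ q ∈ Q, ∃ u, u < d ∧ par^[t] p = par^[u] q) →
      d ≤ t ∧ t ≤ 2 * d ∧ qq t ∈ Q ∧ qq t ≠ p ∧ uu t < d ∧ dep p + uu t = dep (qq t) + t ∧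
      dep p - dep (qq t) ≤ τ (qq t) ∧
      par^[τ (qq t)] p = par^[τ (qq t) - (dep p - dep (qq t))] (qq t) ∧ τ (qq t) ≤ t ∧
      2 * d ≤ τ (qq t) + (τ (qq t) - (dep p - dep (qq t))) := by
    intro t ht
    rw [mem_filter, mem_Icc] at ht
    obtain ⟨⟨hdt, ht2⟩, hex⟩ := ht
    obtain ⟨hq, hu, e⟩ := hqu t hex
    have hde := hdep (qq t) hq t (uu t) ht2 hu e
    have hne : qq t ≠ p := by
      intro h
      rw [h] at hde
      omega
    have hmemt : t ∈ Sset (qq t) := by
      refine ⟨by omega, ?_⟩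
      have : t - (dep p - dep (qq t)) = uu t := by omega
      rw [this]
      exact e
    have hmem : τ (qq t) ∈ Sset (qq t) := Nat.sInf_mem ⟨t, hmemt⟩
    have hle : τ (qq t) ≤ t := Nat.sInf_le hmemt
    obtain ⟨hm1, hm2⟩ := hmem
    have hb : 2 * d ≤ τ (qq t) + (τ (qq t) - (dep p - dep (qq t))) := by
      apply hQ2 p hpQ (qq t) hq hne.symm _ _ (by omega) _ hm2
      omega
    exact ⟨hdt, ht2, hq, hne, hu, hde, hm1, hm2, hle, hb⟩
  have hmin : ∀ q s, dep p - dep q ≤ s → par^[s] p = par^[s - (dep p - dep q)] q → τ q ≤ s :=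
    fun q s h1 h2 => Nat.sInf_le ⟨h1, h2⟩
  apply card_le_card_of_injOn (fun t => 2 * τ (qq t) - 1 - t)
  · intro t ht
    have ht' : t ∈ (Icc d (2 * d)).filter (fun t => ∃ q ∈ Q, ∃ u, u < d ∧ par^[t] p = par^[u] q) := by
      simpa using ht
    obtain ⟨hdt, ht2, hq, hne, hu, hde, hm1, hm2, hle, hb⟩ := key t ht'
    obtain ⟨hqT, hqd⟩ := hQ1 _ hq
    set q := qq t with hqdef
    set u := uu t with hudef
    set t' := τ q with ht'def
    have hφ : 2 * t' - 1 - t + t + 1 = 2 * t' := by omega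
    have goal : 2 * t' - 1 - t ∈
        (Icc d (2 * d)).filter (fun t => ¬ ∃ q ∈ Q, ∃ u, u < d ∧ par^[t] p = par^[u] q) := by
      rw [mem_filter, mem_Icc]
      refine ⟨⟨by omega, by omega⟩, ?_⟩
      rintro ⟨q2, hq2, u2, hu2, e2⟩
      obtain ⟨hq2T, hq2d⟩ := hQ1 _ hq2
      have hde2 := hdep q2 hq2 _ u2 (by omega) hu2 e2
      by_cases h1 : q2 = q
      · rw [h1] at e2 hde2
        have h3 := hmin q (2 * t' - 1 - t) (by omega) (by
          have : 2 * t' - 1 - t - (dep p - dep q) = u2 := by omega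
          rw [this]; exact e2)
        omega
      · have e3 : par^[t' - (2 * t' - 1 - t) + u2] q2 = par^[t' - (dep p - dep q)] q := by
          rw [Function.iterate_add_apply, ← e2, ← Function.iterate_add_apply]
          rw [← hm2]
          congr 1
          omega
        have h4 := hQ2 q2 hq2 q hq h1 _ _ (by omega) (by omega) e3
        omega
    simpa using goal
  · intro t1 ht1 t2 ht2 he
    have ht1' : t1 ∈ (Icc d (2 * d)).filter (fun t => ∃ q ∈ Q, ∃ u, u < d ∧ par^[t] p = par^[u] q) := by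
      simpa using ht1
    have ht2' : t2 ∈ (Icc d (2 * d)).filter (fun t => ∃ q ∈ Q, ∃ u, u < d ∧ par^[t] p = par^[u] q) := by
      simpa using ht2
    obtain ⟨hdt1, ht12, hq1, hne1, hu1, hde1, hm11, hm12, hle1, hb1⟩ := key t1 ht1'
    obtain ⟨hdt2, ht22, hq2, hne2, hu2, hde2, hm21, hm22, hle2, hb2⟩ := key t2 ht2'
    obtain ⟨hq1T, hq1d⟩ := hQ1 _ hq1
    obtain ⟨hq2T, hq2d⟩ := hQ1 _ hq2
    simp only at he
    by_cases hqe : qq t1 = qq t2
    · rw [hqe] at he hm11 hb1 hle1 hde1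
      omega
    · exfalso
      rcases le_total (τ (qq t1)) (τ (qq t2)) with hle | hle
      · have e3 : par^[τ (qq t2) - (dep p - dep (qq t1))] (qq t1) =
            par^[τ (qq t2) - (dep p - dep (qq t2))] (qq t2) := by
          rw [← hm22]
          have e4 : τ (qq t2) - (dep p - dep (qq t1)) =
            (τ (qq t2) - τ (qq t1)) + (τ (qq t1) - (dep p - dep (qq t1))) := by omega
          rw [e4, Function.iterate_add_apply, ← hm12, ← Function.iterate_add_apply]
          congr 1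
          omega
        have h4 := hQ2 _ hq1 _ hq2 hqe _ _ (by omega) (by omega) e3
        omega
      · have e3 : par^[τ (qq t1) - (dep p - dep (qq t2))] (qq t2) =
            par^[τ (qq t1) - (dep p - dep (qq t1))] (qq t1) := by
          rw [← hm12]
          have e4 : τ (qq t1) - (dep p - dep (qq t2)) =
            (τ (qq t1) - τ (qq t2)) + (τ (qq t2) - (dep p - dep (qq t2))) := by omega
          rw [e4, Function.iterate_add_apply, ← hm22, ← Function.iterate_add_apply]
          congr 1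
          omega
        have h4 := hQ2 _ hq2 _ hq1 (Ne.symm hqe) _ _ (by omega) (by omega) e3
        omega

/-- TARGET : the rooted tree lemma -/
theorem tree_lemma {V : Type} (F : SimpleGraph V) (hF : Acy F) (T : Finset V) (hT : Tr F T) (r : V) (hr : r ∈ T)
    (d x κ : ℕ) (Qs Qn : Finset V) (hQs : Qs ⊆ T) (hQn : Qn ⊆ T) (hdisj : Disjoint Qs Qn)
    (h1 : ∀ p ∈ Qs ∪ Qn, ∀ q ∈ Qs ∪ Qn, p ≠ q → ∀ R ⊆ T, Tr F R → p ∈ R → q ∈ R → 2 * d + 1 ≤ R.card)
    (h2 : ∀ p ∈ Qs ∪ Qn, ∀ R ⊆ T, Tr F R → p ∈ R → r ∈ R → 2 * d + 1 ≤ R.card)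
    (lab : V → V) (X : Finset V) (hX : X.card ≤ x) (hlab : ∀ p ∈ Qs, lab p ∈ X)
    (h3 : ∀ p ∈ Qs, ∀ q ∈ Qs, p ≠ q → lab p = lab q → ∀ R ⊆ T, Tr F R → p ∈ R → q ∈ R → 4 * d + 2 ≤ R.card)
    (hn : Qn.card ≤ 2 * κ) :
    (Qs ∪ Qn).card * ((2 * (κ + x) + 1) * d + 1) ≤ 2 * (κ + x) * T.card := by
  obtain ⟨par, dep, h0, hp⟩ := exists_par F hF r T.card T rfl hT hr
  have hD := it_mem h0 hp
  set Q := Qs ∪ Qn with hQ
  have hQT : ∀ q ∈ Q, q ∈ T := by
    intro q hq
    rcases mem_union.1 hq with h | h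
    · exact hQs h
    · exact hQn h
  have hroot : ∀ v ∈ T, dep v = 0 → v = r := by
    intro v hv hd
    by_contra hne
    have := (hp v hv hne).2.2
    omega
  have hQ1 : ∀ q ∈ Q, q ∈ T ∧ 2 * d ≤ dep q := by
    intro q hq
    refine ⟨hQT q hq, ?_⟩
    have hqT := hQT q hq
    have h3 := h2 q hq ((range (dep q + 1)).image (fun i => par^[i] q))
      (chain_sub h0 hp q hqT _ le_rfl) (chain_tr hF h0 hp q hqT _ le_rfl)
      (mem_image.2 ⟨0, by simp, rfl⟩) (by
        have h4 := hD (dep q) q hqT le_rfl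
        have h5 := hroot _ h4.1 (by omega)
        exact mem_image.2 ⟨dep q, by simp, h5⟩)
    have h6 := card_image_le (s := range (dep q + 1)) (f := fun i => par^[i] q)
    rw [card_range] at h6
    omega
  have hQ2 : ∀ p ∈ Q, ∀ q ∈ Q, p ≠ q → ∀ a b, a ≤ dep p → b ≤ dep q → par^[a] p = par^[b] q →
      2 * d ≤ a + b := by
    intro p hpQ q hqQ hne a b ha hb e
    obtain ⟨R, hR, hRT, hpR, hqR, hRc⟩ := lca hF h0 hp p q (hQT p hpQ) (hQT q hqQ) a b ha hb e
    have := h1 p hpQ q hqQ hne R hR hRT hpR hqR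
    omega
  have hQ3 : ∀ p ∈ Qs, ∀ q ∈ Qs, p ≠ q → ∀ a b, a ≤ dep p → b ≤ dep q → par^[a] p = par^[b] q →
      a + b ≤ 4 * d → lab p ≠ lab q := by
    intro p hpQ q hqQ hne a b ha hb e hab hl
    obtain ⟨R, hR, hRT, hpR, hqR, hRc⟩ := lca hF h0 hp p q (hQs hpQ) (hQs hqQ) a b ha hb e
    have := h3 p hpQ q hqQ hne hl R hR hRT hpR hqR
    omega
  -- the private paths
  let P : V → Finset V := fun q => (range d).image (fun i => par^[i] q)
  have hPcard : ∀ q ∈ Q, (P q).card = d := by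
    intro q hq
    obtain ⟨hqT, hqd⟩ := hQ1 q hq
    simp only [P]
    rw [card_image_of_injOn, card_range]
    intro i hi j hj hij
    simp only [coe_range, Set.mem_Iio] at hi hj
    have h4 := (hD i q hqT (by omega)).2
    have h5 := (hD j q hqT (by omega)).2
    simp only at hij
    rw [hij] at h4
    omega
  have hPsub : ∀ q ∈ Q, P q ⊆ T := by
    intro q hq w hw
    obtain ⟨hqT, hqd⟩ := hQ1 q hq
    obtain ⟨i, hi, rfl⟩ := mem_image.1 hw
    rw [mem_range] at hi
    exact (hD i q hqT (by omega)).1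
  have hPdisj : ∀ p ∈ Q, ∀ q ∈ Q, p ≠ q → Disjoint (P p) (P q) := by
    intro p hpQ q hqQ hne
    rw [Finset.disjoint_left]
    intro w hw hw'
    obtain ⟨i, hi, rfl⟩ := mem_image.1 hw
    obtain ⟨j, hj, e⟩ := mem_image.1 hw'
    rw [mem_range] at hi hj
    obtain ⟨_, hpd⟩ := hQ1 p hpQ
    obtain ⟨_, hqd⟩ := hQ1 q hqQ
    have := hQ2 p hpQ q hqQ hne i j (by omega) (by omega) e.symm
    omega
  set U := Q.biUnion P with hU
  have hUcard : U.card = Q.card * d := by
    rw [hU, card_biUnion hPdisj, sum_congr rfl hPcard, sum_const, smul_eq_mul]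
  have hUT : U ⊆ T := by
    intro w hw
    obtain ⟨q, hq, hw⟩ := mem_biUnion.1 hw
    exact hPsub q hq hw
  set S := T \ U with hS
  have hTc : T.card = Q.card * d + S.card := by
    rw [← hUcard, hS, card_sdiff_of_subset hUT]
    have := card_le_card hUT
    omega
  have hmemU : ∀ w, w ∈ U ↔ ∃ q ∈ Q, ∃ u, u < d ∧ w = par^[u] q := by
    intro w
    rw [hU, mem_biUnion]
    constructor
    · rintro ⟨q, hq, hw⟩
      obtain ⟨i, hi, e⟩ := mem_image.1 hw
      exact ⟨q, hq, i, mem_range.1 hi, e.symm⟩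
    · rintro ⟨q, hq, u, hu, e⟩
      exact ⟨q, hq, mem_image.2 ⟨u, mem_range.2 hu, e.symm⟩⟩
  -- step 2
  have hstep2 : Q.Nonempty → d + 1 ≤ S.card := by
    rintro ⟨p, hpQ⟩
    obtain ⟨hpT, hpd⟩ := hQ1 p hpQ
    have h4 : ((range (d + 1)).image (fun i => par^[dep p - i] p)) ⊆ S := by
      intro w hw
      obtain ⟨i, hi, rfl⟩ := mem_image.1 hw
      rw [mem_range] at hi
      have h5 := hD (dep p - i) p hpT (by omega)
      rw [hS, mem_sdiff]
      refine ⟨h5.1, ?_⟩
      rw [hmemU]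
      rintro ⟨q, hq, u, hu, e⟩
      obtain ⟨hqT, hqd⟩ := hQ1 q hq
      have h6 := (hD u q hqT (by omega)).2
      rw [e] at h5
      omega
    have h5 : ((range (d + 1)).image (fun i => par^[dep p - i] p)).card = d + 1 := by
      rw [card_image_of_injOn, card_range]
      intro i hi j hj hij
      simp only [coe_range, Set.mem_Iio] at hi hj
      have h6 := (hD (dep p - i) p hpT (by omega)).2
      have h7 := (hD (dep p - j) p hpT (by omega)).2
      simp only at hij
      rw [hij] at h6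
      omega
    rw [← h5]
    exact card_le_card h4
  -- step 3
  let Unc : V → Finset ℕ := fun p =>
    (Icc d (2 * d)).filter (fun t => ¬ ∃ q ∈ Q, ∃ u, u < d ∧ par^[t] p = par^[u] q)
  have hUnc : ∀ p ∈ Q, d + 1 ≤ 2 * (Unc p).card := by
    intro p hpQ
    have h4 := cov_le hD hQ1 hQ2 p hpQ
    have h5 := card_filter_add_card_filter_not (s := Icc d (2 * d))
      (fun t => ∃ q ∈ Q, ∃ u, u < d ∧ par^[t] p = par^[u] q)
    have h6 : (Icc d (2 * d)).card = d + 1 := by
      rw [Nat.card_Icc]; omega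
    simp only [Unc]
    omega
  have hcount : ∑ p ∈ Qs, (Unc p).card ≤ S.card * x := by
    have h4 : ∑ p ∈ Qs, (Unc p).card = (Qs.sigma Unc).card := by
      rw [card_sigma]
    rw [h4]
    have h5 : ∀ z ∈ Qs.sigma Unc, par^[z.2] z.1 ∈ S := by
      rintro ⟨p, t⟩ hz
      obtain ⟨hpQs, ht⟩ := mem_sigma.1 hz
      simp only [Unc, mem_filter, mem_Icc] at ht
      have hpQ : p ∈ Q := mem_union_left _ hpQs
      obtain ⟨hpT, hpd⟩ := hQ1 p hpQ
      rw [hS, mem_sdiff]
      refine ⟨(hD t p hpT (by omega)).1, ?_⟩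
      rw [hmemU]
      exact ht.2
    refine (card_le_mul_card_image_of_maps_to h5 x ?_).trans (by rw [mul_comm])
    intro c hc
    refine le_trans ?_ hX
    apply card_le_card_of_injOn (fun z : (_ : V) × ℕ => lab z.1)
    · rintro ⟨p, t⟩ hz
      have hz' : (⟨p, t⟩ : (_ : V) × ℕ) ∈ (Qs.sigma Unc).filter (fun z => par^[z.2] z.1 = c) := by
        simpa using hz
      rw [mem_filter] at hz'
      have := hlab p (mem_sigma.1 hz'.1).1
      simpa using this
    · rintro ⟨p, t⟩ hz ⟨p', t2⟩ hz2 he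
      have hz' : (⟨p, t⟩ : (_ : V) × ℕ) ∈ (Qs.sigma Unc).filter (fun z => par^[z.2] z.1 = c) := by
        simpa using hz
      have hz2' : (⟨p', t2⟩ : (_ : V) × ℕ) ∈ (Qs.sigma Unc).filter (fun z => par^[z.2] z.1 = c) := by
        simpa using hz2
      rw [mem_filter, mem_sigma] at hz' hz2'
      obtain ⟨⟨hpQs, ht⟩, e1⟩ := hz'
      obtain ⟨⟨hpQs2, ht2⟩, e2⟩ := hz2'
      simp only [Unc, mem_filter, mem_Icc] at ht ht2 hpQs hpQs2 e1 e2
      have hpQ : p ∈ Q := mem_union_left _ hpQs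
      have hpQ2 : p' ∈ Q := mem_union_left _ hpQs2
      obtain ⟨hpT, hpd⟩ := hQ1 p hpQ
      obtain ⟨hpT2, hpd2⟩ := hQ1 p' hpQ2
      have hpp : p = p' := by
        by_contra hne
        exact hQ3 p hpQs p' hpQs2 hne t t2 (by omega) (by omega) (e1.trans e2.symm) (by omega) he
      subst hpp
      have h6 := (hD t p hpT (by omega)).2
      have h7 := (hD t2 p hpT (by omega)).2
      rw [e1] at h6
      rw [e2] at h7
      have : t = t2 := by omega
      subst this
      rfl
  have hs3 : Qs.card * (d + 1) ≤ 2 * x * S.card := by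
    have h4 : ∑ p ∈ Qs, (d + 1) ≤ ∑ p ∈ Qs, 2 * (Unc p).card :=
      sum_le_sum (fun p hp' => hUnc p (mem_union_left _ hp'))
    rw [sum_const, smul_eq_mul, ← mul_sum] at h4
    calc Qs.card * (d + 1) ≤ 2 * ∑ p ∈ Qs, (Unc p).card := h4
      _ ≤ 2 * (S.card * x) := Nat.mul_le_mul_left 2 hcount
      _ = 2 * x * S.card := by ring
  have hs2 : Qn.card * (d + 1) ≤ 2 * κ * S.card := by
    rcases Qn.eq_empty_or_nonempty with h | h
    · rw [h]; simp
    · have h4 := hstep2 (h.mono subset_union_right)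
      exact Nat.mul_le_mul hn h4
  have hQc : Q.card = Qs.card + Qn.card := by
    rw [hQ, card_union_of_disjoint hdisj]
  have hfin : Q.card * (d + 1) ≤ 2 * (κ + x) * S.card := by
    rw [hQc]
    calc (Qs.card + Qn.card) * (d + 1) = Qs.card * (d + 1) + Qn.card * (d + 1) := by ring
      _ ≤ 2 * x * S.card + 2 * κ * S.card := Nat.add_le_add hs3 hs2
      _ = 2 * (κ + x) * S.card := by ring
  rw [hTc]
  calc Q.card * ((2 * (κ + x) + 1) * d + 1) = 2 * (κ + x) * (Q.card * d) + Q.card * (d + 1) := by ring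
    _ ≤ 2 * (κ + x) * (Q.card * d) + 2 * (κ + x) * S.card := Nat.add_le_add_left hfin _
    _ = 2 * (κ + x) * (Q.card * d + S.card) := by ring


end SolTree
end DisjCyc
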