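import Pool.Agent.Helper470.DC.OddCore
import Pool.Agent.Helper470.DC.SolTree
set_option autoImplicit false
open scoped Classical
open Finset

namespace DisjCyc

/-- packing inequality for marked trees -/
def TI (e K c v : ℕ) : Prop :=
  ∀ (V : Type) (F : SimpleGraph V), Acy F → ∀ (T : Finset V), Tr F T → ∀ r ∈ T, ∀ (x κ : ℕ), κ + x = K →
    ∀ (Qs Qn : Finset V), Qs ⊆ T → Qn ⊆ T → Disjoint Qs Qn →
    (∀ p ∈ Qs ∪ Qn, ∀ q ∈ Qs ∪ Qn, p ≠ q → ∀ R ⊆ T, Tr F R → p ∈ R → q ∈ R → e ≤ R.card) →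
    (∀ p ∈ Qs ∪ Qn, ∀ R ⊆ T, Tr F R → p ∈ R → r ∈ R → e ≤ R.card) →
    ∀ (lab : V → V) (X : Finset V), X.card ≤ x → (∀ p ∈ Qs, lab p ∈ X) →
    (∀ p ∈ Qs, ∀ q ∈ Qs, p ≠ q → lab p = lab q → ∀ R ⊆ T, Tr F R → p ∈ R → q ∈ R → 2 * e ≤ R.card) →
    Qn.card ≤ 2 * κ → (Qs ∪ Qn).card * v ≤ c * T.card

open SolTree

theorem dat_of_tree {V : Type} {F : SimpleGraph V} (hF : Acy F) {T : Finset V} (hT : Tr F T) {r : V} (hr : r ∈ T)
    {d : ℕ} {Qs Qn : Finset V} (hQs : Qs ⊆ T) (hQn : Qn ⊆ T) (hdisj : Disjoint Qs Qn)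
    (h1 : ∀ p ∈ Qs ∪ Qn, ∀ q ∈ Qs ∪ Qn, p ≠ q → ∀ R ⊆ T, Tr F R → p ∈ R → q ∈ R → 2 * d + 2 ≤ R.card)
    (h2 : ∀ p ∈ Qs ∪ Qn, ∀ R ⊆ T, Tr F R → p ∈ R → r ∈ R → 2 * d + 2 ≤ R.card)
    {lab : V → V}
    (h3 : ∀ p ∈ Qs, ∀ q ∈ Qs, p ≠ q → lab p = lab q → ∀ R ⊆ T, Tr F R → p ∈ R → q ∈ R →
      2 * (2 * d + 2) ≤ R.card) :
    ∃ par dep, Dat T Qs Qn par dep lab d := by
  obtain ⟨par, dep, h0, hp⟩ := exists_par F hF r T.card T rfl hT hr
  have hD := it_mem h0 hp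
  have hQT : ∀ q ∈ Qs ∪ Qn, q ∈ T := by
    intro q hq
    rcases mem_union.1 hq with h | h
    · exact hQs h
    · exact hQn h
  have hroot : ∀ v ∈ T, dep v = 0 → v = r := by
    intro v hv hd
    by_contra hne
    have := (hp v hv hne).2.2
    omega
  refine ⟨par, dep, hD, hQs, hQn, hdisj, ?_, ?_, ?_⟩
  · intro q hq
    have hqT := hQT q hq
    have h3 := h2 q hq ((range (dep q + 1)).image (fun i => par^[i] q))
      (chain_sub h0 hp q hqT _ le_rfl) (chain_tr hF h0 hp q hqT _ le_rfl)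
      (mem_image.2 ⟨0, by simp, rfl⟩) (by
        have h4 := hD (dep q) q hqT le_rfl
        have h5 := hroot _ h4.1 (by omega)
        exact mem_image.2 ⟨dep q, by simp, h5⟩)
    have h6 := card_image_le (s := range (dep q + 1)) (f := fun i => par^[i] q)
    rw [card_range] at h6
    omega
  · intro p hpQ q hqQ hne a b ha hb e
    obtain ⟨R, hR, hRT, hpR, hqR, hRc⟩ := lca hF h0 hp p q (hQT p hpQ) (hQT q hqQ) a b ha hb e
    have := h1 p hpQ q hqQ hne R hR hRT hpR hqR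
    omega
  · intro p hpQ q hqQ hne hl a b ha hb e
    obtain ⟨R, hR, hRT, hpR, hqR, hRc⟩ := lca hF h0 hp p q (hQs hpQ) (hQs hqQ) a b ha hb e
    have := h3 p hpQ q hqQ hne hl R hR hRT hpR hqR
    omega

theorem TI_odd_large (d K : ℕ) : TI (2 * d + 2) K 1 (d + 1) := by
  intro V F hF T hT r hr x κ hK Qs Qn hQs hQn hdisj h1 h2 lab X hX hlab h3 hn
  by_cases hne : (Qs ∪ Qn).Nonempty
  · obtain ⟨par, dep, D⟩ := dat_of_tree hF hT hr hQs hQn hdisj h1 h2 h3
    obtain ⟨ρ, ε, h4, -⟩ := core1 D X hlab hne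
    rw [card_union_of_disjoint hdisj]
    omega
  · rw [not_nonempty_iff_eq_empty] at hne
    rw [hne]
    simp

theorem arith_full (K D q ρ ε : ℕ) (hK : 2 ≤ K) (hD : K * (K - 1) ≤ D)
    (h : q * D ≤ K * (D + ρ) + q * (K - 1) + 2 * ((K - 1) * ε)) : q * D ≤ 2 * K * (D + ρ + ε) := by
  obtain ⟨k, rfl⟩ := Nat.exists_eq_add_of_le hK
  have e : 2 + k - 1 = k + 1 := by omega
  rw [e] at hD h
  have h1 : (k + 1) * (q * D) + q * ((2 + k) * (k + 1)) ≤ (2 + k) * (q * D) := by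
    have := Nat.mul_le_mul_left q hD
    nlinarith
  have h2 : (2 + k) * (q * D) ≤ (2 + k) * ((2 + k) * (D + ρ) + q * (k + 1) + 2 * ((k + 1) * ε)) :=
    Nat.mul_le_mul_left _ h
  have h3 : (k + 1) * (q * D) ≤ (k + 1) * (2 * (2 + k) * (D + ρ + ε)) := by
    nlinarith [Nat.zero_le (k * D), Nat.zero_le (k * k * D), Nat.zero_le (k * ρ), Nat.zero_le (k * k * ρ)]
  exact Nat.le_of_mul_le_mul_left h3 (by omega)

theorem arith_part (n y D s m ρ ε : ℕ) (hn : 1 ≤ n) (hy : 1 ≤ y) (hD : (n + y) * (n + y - 1) ≤ D)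
    (hm : m ≤ 2 * y)
    (h : s * D ≤ n * (D + ρ) + s * (n - 1) + n * m + 2 * (n * ε)) :
    (s + m) * D ≤ 2 * (n + y) * (D + ρ + ε) := by
  by_cases hq : s + m ≤ 2 * (n + y)
  · calc (s + m) * D ≤ 2 * (n + y) * D := Nat.mul_le_mul_right _ hq
      _ ≤ _ := Nat.mul_le_mul_left _ (by omega)
  push Not at hq
  obtain ⟨n, rfl⟩ := Nat.exists_eq_add_of_le hn
  obtain ⟨y, rfl⟩ := Nat.exists_eq_add_of_le hy
  have e1 : 1 + n - 1 = n := by omega
  have e2 : 1 + n + (1 + y) - 1 = n + y + 1 := by omega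
  rw [e1] at h
  rw [e2] at hD
  zify at *
  -- A = yD - K(n-1) ≥ 0
  have hA : 0 ≤ (1 + (y:ℤ)) * D - (1 + n + (1 + y)) * n := by
    have h5 : (1 + (y:ℤ)) * ((1 + n + (1 + y)) * (n + y + 1)) ≤ (1 + (y:ℤ)) * D :=
      mul_le_mul_of_nonneg_left hD (by positivity)
    have h6 : 0 ≤ (1 + (y:ℤ)) * ((1 + n + (1 + y)) * (n + y + 1)) - (1 + n + (1 + y)) * n := by
      have : (1 + (y:ℤ)) * ((1 + n + (1 + y)) * (n + y + 1)) - (1 + n + (1 + y)) * n =
        (1 + n + (1 + y)) * ((y + 1) + y * (n + y + 1)) := by ring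
      rw [this]
      positivity
    linarith
  have h7 : 0 ≤ ((s:ℤ) + m - 2 * (1 + n + (1 + y)) - 1) * ((1 + (y:ℤ)) * D - (1 + n + (1 + y)) * n) :=
    mul_nonneg (by linarith) hA
  -- decreasing in m
  have h8 : 0 ≤ (2 * (1 + (y:ℤ)) - m) * (((1 + (y:ℤ)) * D - (1 + n + (1 + y)) * n) + (1 + n) * ((1 + n + (1 + y)) + D)) := by
    apply mul_nonneg (by linarith)
    have : 0 ≤ (1 + (n:ℤ)) * ((1 + n + (1 + y)) + D) := by positivity
    linarith
  have h9 : 0 ≤ (D:ℤ) * ((1 + y) + (1 + n) * (1 + n + (1 + y))) -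
      (1 + n + (1 + y)) * (2 * (1 + n) * (1 + n + (1 + y)) - (1 + n) - 1) := by
    have h10 : ((1 + n + (1 + y)) * (n + y + 1)) * ((1 + y) + (1 + n) * (1 + n + (1 + y))) ≤
        (D:ℤ) * ((1 + y) + (1 + n) * (1 + n + (1 + y))) :=
      mul_le_mul_of_nonneg_right hD (by positivity)
    have h11 : 0 ≤ ((1 + (n:ℤ) + (1 + y)) * (n + y + 1)) * ((1 + y) + (1 + n) * (1 + n + (1 + y))) -
        (1 + n + (1 + y)) * (2 * (1 + n) * (1 + n + (1 + y)) - (1 + n) - 1) := by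
      have : ((1 + (n:ℤ) + (1 + y)) * (n + y + 1)) * ((1 + y) + (1 + n) * (1 + n + (1 + y))) -
        (1 + n + (1 + y)) * (2 * (1 + n) * (1 + n + (1 + y)) - (1 + n) - 1) =
        (1 + n + (1 + y)) * ((n + y + 1) * (1 + y) + (1 + n) * (1 + n + (1 + y)) * (n + y) -
          (1 + n) * (1 + n + (1 + y)) + (1 + n) + 1) := by ring
      rw [this]
      apply mul_nonneg (by positivity)
      rcases Nat.eq_zero_or_pos (n + y) with h0 | h0
      · have hn0 : n = 0 := by omega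
        have hy0 : y = 0 := by omega
        subst hn0 hy0
        norm_num
      · have : (1:ℤ) ≤ n + y := by exact_mod_cast h0
        nlinarith [mul_nonneg (mul_nonneg (show (0:ℤ) ≤ 1 + n by positivity) (show (0:ℤ) ≤ 1 + n + (1 + y) by positivity)) (show (0:ℤ) ≤ n + y - 1 by linarith)]
    linarith
  have h12 : (1 + (n:ℤ)) * ((s + m) * D) ≤ (1 + n) * (2 * (1 + n + (1 + y)) * (D + ρ + ε)) := by
    have h13 : (1 + (n:ℤ) + (1 + y)) * (s * D) ≤ (1 + n + (1 + y)) *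
        ((1 + n) * (D + ρ) + s * n + (1 + n) * m + 2 * ((1 + n) * ε)) :=
      mul_le_mul_of_nonneg_left h (by positivity)
    have h14 : 0 ≤ (1 + (n:ℤ)) * ((1 + n + (1 + y)) * ρ) := by positivity
    nlinarith
  exact le_of_mul_le_mul_left h12 (by positivity)

theorem TI_odd_small (d K : ℕ) (hK1 : 1 ≤ K) (hKd : K * (K - 1) ≤ d + 1) :
    TI (2 * d + 2) K (2 * K) ((2 * K + 1) * (d + 1)) := by
  intro V F hF T hT r hr x κ hK Qs Qn hQs hQn hdisj h1 h2 lab X hX hlab h3 hn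
  by_cases hne : (Qs ∪ Qn).Nonempty
  · obtain ⟨par, dep, D⟩ := dat_of_tree hF hT hr hQs hQn hdisj h1 h2 h3
    rw [card_union_of_disjoint hdisj]
    have key : ∃ ρ ε : ℕ, T.card = (Qs.card + Qn.card) * (d + 1) + (d + 1 + ρ) + ε ∧
        (Qs.card + Qn.card) * (d + 1) ≤ 2 * K * (d + 1 + ρ + ε) := by
      by_cases hXK : X.card = K
      · have hκ : κ = 0 := by omega
        have hQn0 : Qn = ∅ := by
          rw [← card_eq_zero]; omega
        subst hQn0
        have hne' : Qs.Nonempty := by simpa using hne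
        obtain ⟨ρ, ε, h4, h5, h6⟩ := core2 D X hlab hne'
        refine ⟨ρ, ε, by simpa using h4, ?_⟩
        rw [card_empty, add_zero]
        by_cases hK2 : K = 1
        · have := h5 (by omega)
          rw [hK2]
          omega
        · have := h6 (by omega)
          rw [hXK] at this
          exact arith_full K (d + 1) Qs.card ρ ε (by omega) hKd this
      · obtain ⟨ρ, ε, h4, h5⟩ := core1 D X hlab hne
        refine ⟨ρ, ε, h4, ?_⟩
        by_cases hX0 : X.card = 0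
        · have hQs0 : Qs = ∅ := by
            rw [card_eq_zero] at hX0
            rw [Finset.eq_empty_iff_forall_notMem]
            intro p hp
            have := hlab p hp
            rw [hX0] at this
            simp at this
          rw [hQs0, card_empty, zero_add]
          calc Qn.card * (d + 1) ≤ 2 * K * (d + 1) := Nat.mul_le_mul_right _ (by omega)
            _ ≤ _ := Nat.mul_le_mul_left _ (by omega)
        · have hXK' : X.card < K := by omega
          obtain ⟨y, hy⟩ := Nat.exists_eq_add_of_lt hXK'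
          have := arith_part X.card (y + 1) (d + 1) Qs.card Qn.card ρ ε (by omega) (by omega)
            (by rw [← add_assoc, ← hy]; exact hKd) (by omega) h5
          rwa [← add_assoc, ← hy] at this
    obtain ⟨ρ, ε, h4, h5⟩ := key
    rw [h4]
    nlinarith
  · rw [not_nonempty_iff_eq_empty] at hne
    rw [hne]
    simp

end DisjCyc
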