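import Pool.Agent.Helper470.DC.Count
import Pool.Agent.Helper470.DC.SolTree
set_option autoImplicit false
open scoped Classical
open Finset

namespace DisjCyc

variable {V : Type}

namespace Ctx

variable {G F : SimpleGraph V} {U S Z : Finset V} {d k s' : ℕ}

theorem mem_A {a : V × V} : a ∈ A G F U S Z d k ↔ (a.1 ∈ S ∧ a.2 ∈ U ∧ G.Adj a.1 a.2) ∧
    ¬ near F S Z d a.1 ∧ ¬ bad G F U S d a ∧ ¬ rare1 G F U S Z k a ∧ ¬ rare2 G F U S Z k a := by
  simp only [A, mem_filter, mem_Aall]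

/-- label of a vertex -/
noncomputable def lab (G F : SimpleGraph V) (U S Z : Finset V) (d k : ℕ) (p : V) : V :=
  if h : ∃ i, (p, i) ∈ A G F U S Z d k then h.choose else p

theorem A_uniq (c : Ctx G F U S Z d k s') {p i j : V} (hi : (p, i) ∈ A G F U S Z d k)
    (hj : (p, j) ∈ A G F U S Z d k) : i = j := by
  by_contra hij
  rw [mem_A] at hi hj
  refine hi.2.2.1 ⟨j, hj.1.2.1, Ne.symm hij, p, hj.1.1, hj.1.2.2, {p}, by simpa using hj.1.1,
    Tr_singleton F p, by simp, by simp, ?_⟩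
  have := c.hd
  simp
  omega

theorem lab_eq (c : Ctx G F U S Z d k s') {p i : V} (hi : (p, i) ∈ A G F U S Z d k) :
    lab G F U S Z d k p = i := by
  have h : ∃ i, (p, i) ∈ A G F U S Z d k := ⟨i, hi⟩
  unfold lab
  rw [dif_pos h]
  exact c.A_uniq h.choose_spec hi

theorem far_all (c : Ctx G F U S Z d k s') {p q i j : V} (hi : (p, i) ∈ A G F U S Z d k)
    (hj : (q, j) ∈ A G F U S Z d k) (hpq : p ≠ q) {R : Finset V} (hR : R ⊆ S) (hT : Tr F R) (hp : p ∈ R)
    (hq : q ∈ R) : 2 * d + 1 ≤ R.card ∧ (i = j → 4 * d + 2 ≤ R.card) := by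
  rw [mem_A] at hi hj
  have hsame : i = j → 4 * d + 2 ≤ R.card := by
    rintro rfl
    exact c.far_same hT (c.notU hR hi.1.2.1) hp hq hpq hi.1.2.2 hj.1.2.2
  refine ⟨?_, hsame⟩
  by_cases hij : i = j
  · have := hsame hij
    omega
  · by_contra h
    push Not at h
    exact hi.2.2.1 ⟨j, hj.1.2.1, Ne.symm hij, q, hj.1.1, hj.1.2.2, R, hR, hT, hp, hq, by omega⟩

theorem far_gate (c : Ctx G F U S Z d k s') {p i a z : V} (hi : (p, i) ∈ A G F U S Z d k) (hz : z ∈ Z)
    (haz : F.Adj a z) {R : Finset V} (hR : R ⊆ S \ Z) (hT : Tr F R) (hp : p ∈ R)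
    (ha : a ∈ R) : 2 * d + 1 ≤ R.card := by
  rw [mem_A] at hi
  by_contra h
  push Not at h
  refine hi.2.1 ⟨z, hz, insert z R, ?_, Tr_insert c.hF hT ha haz, mem_insert_of_mem hp, mem_insert_self _ _, ?_⟩
  · exact insert_subset (c.hZ hz) (hR.trans sdiff_subset)
  · have := card_insert_le z R
    omega

/-- elements of A at the piece T -/
noncomputable def AT (G F : SimpleGraph V) (U S Z : Finset V) (d k : ℕ) (T : Finset V) : Finset (V × V) :=
  (A G F U S Z d k).filter (fun a => a.1 ∈ T)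

noncomputable def Q (G F : SimpleGraph V) (U S Z : Finset V) (d k : ℕ) (T : Finset V) : Finset V :=
  (AT G F U S Z d k T).image Prod.fst

noncomputable def Qs (G F : SimpleGraph V) (U S Z : Finset V) (d k : ℕ) (T : Finset V) : Finset V :=
  (Q G F U S Z d k T).filter (fun p => lab G F U S Z d k p ∈ Xs G F U S Z k)

noncomputable def Qn (G F : SimpleGraph V) (U S Z : Finset V) (d k : ℕ) (T : Finset V) : Finset V :=
  (Q G F U S Z d k T).filter (fun p => lab G F U S Z d k p ∉ Xs G F U S Z k)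

theorem mem_Q (c : Ctx G F U S Z d k s') {T : Finset V} {p : V} : p ∈ Q G F U S Z d k T ↔
    p ∈ T ∧ (p, lab G F U S Z d k p) ∈ A G F U S Z d k := by
  rw [Q, mem_image]
  constructor
  · rintro ⟨⟨q, i⟩, hi, rfl⟩
    rw [AT, mem_filter] at hi
    simp only at hi ⊢
    rw [c.lab_eq hi.1]
    exact ⟨hi.2, hi.1⟩
  · rintro ⟨hp, h⟩
    exact ⟨_, mem_filter.2 ⟨h, hp⟩, rfl⟩

theorem card_Q (c : Ctx G F U S Z d k s') (T : Finset V) :
    (Q G F U S Z d k T).card = (AT G F U S Z d k T).card := by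
  apply card_image_of_injOn
  intro a ha b hb hab
  rw [mem_coe, AT, mem_filter] at ha hb
  refine Prod.ext hab (c.A_uniq (p := a.1) ha.1 ?_)
  rw [hab]
  exact hb.1

theorem Q_union (T : Finset V) : Qs G F U S Z d k T ∪ Qn G F U S Z d k T = Q G F U S Z d k T :=
  filter_union_filter_not_eq _ _

theorem Q_disj (T : Finset V) : Disjoint (Qs G F U S Z d k T) (Qn G F U S Z d k T) :=
  disjoint_filter_filter_not _ _ _

/-- non-solo labels of T -/
noncomputable def Jn (G F : SimpleGraph V) (U S Z : Finset V) (d k : ℕ) (T : Finset V) : Finset V :=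
  (Qn G F U S Z d k T).image (lab G F U S Z d k)

theorem mem_Qn (c : Ctx G F U S Z d k s') {T : Finset V} {p : V} : p ∈ Qn G F U S Z d k T ↔
    p ∈ T ∧ (p, lab G F U S Z d k p) ∈ A G F U S Z d k ∧ lab G F U S Z d k p ∉ Xs G F U S Z k := by
  rw [Qn, mem_filter, c.mem_Q, and_assoc]

theorem Jn_card (c : Ctx G F U S Z d k s') {T : Finset V} (hT : T ∈ Pc F S Z) :
    (Jn G F U S Z d k T).card = (Qn G F U S Z d k T).card := by
  apply card_image_of_injOn
  intro p hp q hq hpq
  rw [mem_coe, c.mem_Qn] at hp hq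
  by_contra hne
  have h1 := mem_A.1 hp.2.1
  have h2 := mem_A.1 hq.2.1
  refine h1.2.2.2.1 ⟨hp.2.2, ?_⟩
  have h3 : comp F (S \ Z) p = T := (comps_eq_comp c.hF hT hp.1).symm
  simp only [h3]
  refine two_le_dg hp.1 hq.1 hne h1.1.2.2 ?_
  have := h2.1.2.2
  simp only [← hpq] at this
  exact this

theorem Jn_sub (c : Ctx G F U S Z d k s') {T : Finset V} : Jn G F U S Z d k T ⊆ U \ Xs G F U S Z k := by
  intro i hi
  rw [Jn, mem_image] at hi
  obtain ⟨p, hp, rfl⟩ := hi
  rw [c.mem_Qn] at hp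
  exact mem_sdiff.2 ⟨(mem_A.1 hp.2.1).1.2.1, hp.2.2⟩

theorem Jn_dg (c : Ctx G F U S Z d k s') {T : Finset V} {i : V} (hi : i ∈ Jn G F U S Z d k T) :
    1 ≤ dg G T i := by
  rw [Jn, mem_image] at hi
  obtain ⟨p, hp, rfl⟩ := hi
  rw [c.mem_Qn] at hp
  exact one_le_dg hp.1 (mem_A.1 hp.2.1).1.2.2

theorem Jn_fr (c : Ctx G F U S Z d k s') {T : Finset V} (hT : T ∈ Pc F S Z) :
    ∀ i ∈ Jn G F U S Z d k T, ∀ j ∈ Jn G F U S Z d k T, i ≠ j → fr G F S Z k i j := by
  intro i hi j hj hij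
  have hj1 := c.Jn_dg hj
  have hj2 := c.Jn_sub hj
  rw [Jn, mem_image] at hi
  obtain ⟨p, hp, rfl⟩ := hi
  rw [c.mem_Qn] at hp
  by_contra hfr
  refine (mem_A.1 hp.2.1).2.2.2.2 ⟨hp.2.2, j, (mem_sdiff.1 hj2).1, (mem_sdiff.1 hj2).2, Ne.symm hij, ?_, hfr⟩
  have h3 : comp F (S \ Z) p = T := (comps_eq_comp c.hF hT hp.1).symm
  simp only [h3]
  exact hj1

theorem Qn_card (c : Ctx G F U S Z d k s') {T : Finset V} (hT : T ∈ Pc F S Z) :
    (Qn G F U S Z d k T).card ≤ 2 * (k - 1 - (Xs G F U S Z k).card) + 1 := by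
  rw [← c.Jn_card hT]
  exact c.J_card c.Jn_sub (c.Jn_fr hT)

def RP (F : SimpleGraph V) (Z : Finset V) (T : Finset V) : Prop := ∀ z ∈ Z, ∀ a ∈ T, ¬ F.Adj a z

def full (G F : SimpleGraph V) (U S Z : Finset V) (d k : ℕ) (T : Finset V) : Prop :=
  2 * (k - 1 - (Xs G F U S Z k).card) + 1 ≤ (Qn G F U S Z d k T).card

/-- application of the tree lemma -/
theorem tree_app (c : Ctx G F U S Z d k s') {T : Finset V} (hT : T ∈ Pc F S Z) (r : V) (hr : r ∈ T)
    (Q1 Q2 : Finset V) (h1 : Q1 ⊆ Qs G F U S Z d k T) (h2 : Q2 ⊆ Qn G F U S Z d k T)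
    (hc : Q2.card ≤ 2 * (k - 1 - (Xs G F U S Z k).card))
    (hroot : ∀ p ∈ Q1 ∪ Q2, ∀ R ⊆ T, Tr F R → p ∈ R → r ∈ R → 2 * d + 1 ≤ R.card) :
    (Q1.card + Q2.card) * ((2 * (k - 1) + 1) * d + 1) ≤ 2 * (k - 1) * T.card := by
  have hX := c.X_card
  have hTS : T ⊆ S := (pc_sub hT).trans sdiff_subset
  have hQ1 : ∀ p ∈ Q1, p ∈ T ∧ (p, lab G F U S Z d k p) ∈ A G F U S Z d k ∧
      lab G F U S Z d k p ∈ Xs G F U S Z k := by
    intro p hp
    have := h1 hp
    rw [Qs, mem_filter, c.mem_Q] at this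
    exact ⟨this.1.1, this.1.2, this.2⟩
  have hQ2 : ∀ p ∈ Q2, p ∈ T ∧ (p, lab G F U S Z d k p) ∈ A G F U S Z d k := by
    intro p hp
    have := h2 hp
    rw [c.mem_Qn] at this
    exact ⟨this.1, this.2.1⟩
  have hQ12 : ∀ p ∈ Q1 ∪ Q2, p ∈ T ∧ (p, lab G F U S Z d k p) ∈ A G F U S Z d k := by
    intro p hp
    rcases mem_union.1 hp with h | h
    · exact ⟨(hQ1 p h).1, (hQ1 p h).2.1⟩
    · exact hQ2 p h
  have hdis : Disjoint Q1 Q2 := (Q_disj T).mono h1 h2
  have key := SolTree.tree_lemma F c.hF T (c.pc_Tr hT) r hr d (Xs G F U S Z k).card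
    (k - 1 - (Xs G F U S Z k).card) Q1 Q2 (fun p hp => (hQ1 p hp).1) (fun p hp => (hQ2 p hp).1) hdis
    (fun p hp q hq hpq R hR hRT hpR hqR =>
      (c.far_all (hQ12 p hp).2 (hQ12 q hq).2 hpq (hR.trans hTS) hRT hpR hqR).1)
    hroot (lab G F U S Z d k) (Xs G F U S Z k) le_rfl (fun p hp => (hQ1 p hp).2.2)
    (fun p hp q hq hpq hl R hR hRT hpR hqR =>
      (c.far_all (hQ1 p hp).2.1 (hQ1 q hq).2.1 hpq (hR.trans hTS) hRT hpR hqR).2 hl)
    hc
  rw [card_union_of_disjoint hdis, show k - 1 - (Xs G F U S Z k).card + (Xs G F U S Z k).card = k - 1 by omega]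
    at key
  exact key

theorem piece_lemma (c : Ctx G F U S Z d k s') {T : Finset V} (hT : T ∈ Pc F S Z) :
    (AT G F U S Z d k T).card * ((2 * (k - 1) + 1) * d + 1) ≤ 2 * (k - 1) * T.card +
      (if RP F Z T ∨ full G F U S Z d k T then ((2 * (k - 1) + 1) * d + 1) else 0) := by
  rw [← c.card_Q T, ← Q_union, card_union_of_disjoint (Q_disj T)]
  set v := (2 * (k - 1) + 1) * d + 1 with hv
  have hX := c.X_card
  have hQn := c.Qn_card hT
  have hTS : T ⊆ S := (pc_sub hT).trans sdiff_subset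
  have hTne : T.Nonempty := (c.pc_Tr hT).1
  -- root at an attachment
  have hrootQ : ∀ p0 ∈ Q G F U S Z d k T, ∀ p ∈ Q G F U S Z d k T, p ≠ p0 → ∀ R ⊆ T, Tr F R → p ∈ R → p0 ∈ R →
      2 * d + 1 ≤ R.card := by
    intro p0 hp0 p hp hne R hR hRT hpR hp0R
    rw [c.mem_Q] at hp0 hp
    exact (c.far_all hp.2 hp0.2 hne (hR.trans hTS) hRT hpR hp0R).1
  have hQsQ : Qs G F U S Z d k T ⊆ Q G F U S Z d k T := filter_subset _ _
  have hQnQ : Qn G F U S Z d k T ⊆ Q G F U S Z d k T := filter_subset _ _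
  by_cases hRP : RP F Z T
  · rw [if_pos (Or.inl hRP)]
    by_cases hn : (Qn G F U S Z d k T).Nonempty
    · obtain ⟨p0, hp0⟩ := hn
      have h := c.tree_app hT p0 ((c.mem_Qn.1 hp0).1) (Qs G F U S Z d k T) ((Qn G F U S Z d k T).erase p0)
        (Subset.refl _) (erase_subset _ _) (by rw [card_erase_of_mem hp0]; omega) (by
          intro p hp
          refine hrootQ p0 (hQnQ hp0) p ?_ ?_
          · rcases mem_union.1 hp with h | h
            · exact hQsQ h
            · exact hQnQ (mem_of_mem_erase h)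
          · rcases mem_union.1 hp with h | h
            · rintro rfl
              exact Finset.disjoint_left.1 (Q_disj T) h hp0
            · exact ne_of_mem_erase h)
      have h2 : (Qn G F U S Z d k T).card = ((Qn G F U S Z d k T).erase p0).card + 1 := by
        rw [card_erase_of_mem hp0]
        have := card_pos.2 ⟨p0, hp0⟩
        omega
      rw [← hv] at h
      rw [h2, ← add_assoc, add_mul, one_mul]
      omega
    · rw [not_nonempty_iff_eq_empty] at hn
      rw [hn, card_empty, add_zero]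
      by_cases hs : (Qs G F U S Z d k T).Nonempty
      · obtain ⟨p0, hp0⟩ := hs
        have h := c.tree_app hT p0 ((c.mem_Q.1 (hQsQ hp0)).1) ((Qs G F U S Z d k T).erase p0) ∅
          (erase_subset _ _) (by simp) (by simp) (by
            intro p hp
            rw [union_empty] at hp
            exact hrootQ p0 (hQsQ hp0) p (hQsQ (mem_of_mem_erase hp)) (ne_of_mem_erase hp))
        have h2 : (Qs G F U S Z d k T).card = ((Qs G F U S Z d k T).erase p0).card + 1 := by
          rw [card_erase_of_mem hp0]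
          have := card_pos.2 ⟨p0, hp0⟩
          omega
        rw [card_empty, add_zero, ← hv] at h
        rw [h2, add_mul, one_mul]
        omega
      · rw [not_nonempty_iff_eq_empty] at hs
        rw [hs, card_empty]
        omega
  · -- gate
    have hgate := hRP
    unfold RP at hgate
    push Not at hgate
    obtain ⟨z, hz, a, ha, haz⟩ := hgate
    have hroot : ∀ p ∈ Q G F U S Z d k T, ∀ R ⊆ T, Tr F R → p ∈ R → a ∈ R → 2 * d + 1 ≤ R.card := by
      intro p hp R hR hRT hpR haR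
      rw [c.mem_Q] at hp
      exact c.far_gate hp.2 hz haz (hR.trans (pc_sub hT)) hRT hpR haR
    by_cases hf : full G F U S Z d k T
    · rw [if_pos (Or.inr hf)]
      have hn : (Qn G F U S Z d k T).Nonempty := by
        rw [← card_pos]
        unfold full at hf
        omega
      obtain ⟨p0, hp0⟩ := hn
      have h := c.tree_app hT a ha (Qs G F U S Z d k T) ((Qn G F U S Z d k T).erase p0)
        (Subset.refl _) (erase_subset _ _) (by rw [card_erase_of_mem hp0]; omega) (by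
          intro p hp
          refine hroot p ?_
          rcases mem_union.1 hp with h | h
          · exact hQsQ h
          · exact hQnQ (mem_of_mem_erase h))
      have h2 : (Qn G F U S Z d k T).card = ((Qn G F U S Z d k T).erase p0).card + 1 := by
        rw [card_erase_of_mem hp0]
        have := card_pos.2 ⟨p0, hp0⟩
        omega
      rw [← hv] at h
      rw [h2, ← add_assoc, add_mul, one_mul]
      omega
    · rw [if_neg (by tauto)]
      have h := c.tree_app hT a ha (Qs G F U S Z d k T) (Qn G F U S Z d k T)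
        (Subset.refl _) (Subset.refl _) (by unfold full at hf; omega) (by
          intro p hp
          rw [Q_union] at hp
          exact hroot p hp)
      omega

/-- number of full pieces with a gate -/
theorem card_full (c : Ctx G F U S Z d k s') :
    ((Pc F S Z).filter (fun T => ¬ RP F Z T ∧ full G F U S Z d k T)).card ≤ Z.card * U.card := by
  rw [← card_product]
  rcases ((Pc F S Z).filter (fun T => ¬ RP F Z T ∧ full G F U S Z d k T)).eq_empty_or_nonempty with he | ⟨T0, hT0⟩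
  · rw [he]; simp
  have hgate : ∀ T ∈ (Pc F S Z).filter (fun T => ¬ RP F Z T ∧ full G F U S Z d k T),
      ∃ zj : V × V, zj.1 ∈ Z ∧ (∃ a ∈ T, F.Adj a zj.1) ∧ zj.2 ∈ Jn G F U S Z d k T := by
    intro T hT
    rw [mem_filter] at hT
    obtain ⟨hT, hRP, hf⟩ := hT
    unfold RP at hRP
    push Not at hRP
    obtain ⟨z, hz, a, ha, haz⟩ := hRP
    have hn : (Jn G F U S Z d k T).Nonempty := by
      rw [← card_pos, c.Jn_card hT]
      unfold full at hf
      omega
    obtain ⟨j, hj⟩ := hn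
    exact ⟨(z, j), hz, ⟨a, ha, haz⟩, hj⟩
  haveI : Nonempty (V × V) := ⟨(hgate T0 hT0).choose⟩
  choose! g hg using hgate
  apply card_le_card_of_injOn g
  · intro T hT
    have := hg T hT
    rw [mem_coe, mem_product]
    exact ⟨this.1, (mem_sdiff.1 (c.Jn_sub this.2.2)).1⟩
  · intro T hT T' hT' hTT
    by_contra hne
    have h1 := hg T hT
    have h2 := hg T' hT'
    rw [← hTT] at h2
    rw [mem_coe, mem_filter] at hT hT'
    obtain ⟨a, ha, haz⟩ := h1.2.1
    obtain ⟨a', ha', haz'⟩ := h2.2.1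
    refine c.not_full_gate (J := (Jn G F U S Z d k T).erase (g T).2) ((erase_subset _ _).trans c.Jn_sub)
      (fun i hi j hj => c.Jn_fr hT.1 i (mem_of_mem_erase hi) j (mem_of_mem_erase hj)) ?_ hT.1 hT'.1 hne h1.1
      ha ha' haz haz' (c.Jn_sub h1.2.2) (notMem_erase _ _) (c.Jn_dg h1.2.2) (c.Jn_dg h2.2.2)
    rw [card_erase_of_mem h1.2.2, c.Jn_card hT.1]
    have := hT.2.2
    unfold full at this
    omega

end Ctx

end DisjCyc
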