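import Pool.Agent.Helper470.DC.Comp
set_option autoImplicit false
open scoped Classical
open Finset

namespace DisjCyc
namespace SolCyc

variable {V : Type}



/-- TARGET 1 -/
theorem exists_cycle_of_cyc {V : Type} (G : SimpleGraph V) (W : Finset V) (h : Cyc G W) :
    ∃ (v : V) (c : G.Walk v v), c.IsCycle ∧ (∀ x ∈ c.support, x ∈ W) ∧ c.length ≤ W.card := by
  classical
  set H : SimpleGraph (W : Set V) := G.induce (W : Set V) with hH
  have hne : Nonempty (W : Set V) := h.1.to_subtype
  have hfin : Finite (W : Set V) := W.finite_toSet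
  have : Fintype (W : Set V) := Fintype.ofFinite _
  have hcardW : Fintype.card (W : Set V) = W.card := by
    rw [← Nat.card_eq_fintype_card]
    simp
  have hnac : ¬ H.IsAcyclic := by
    intro hac
    obtain ⟨F, hF, _, hT⟩ := (SimpleGraph.connected_top (V := (W : Set V))).exists_isTree_le_of_le_of_isAcyclic
      (le_top : H ≤ ⊤) hac
    have h1 := hT.card_edgeFinset
    have h2 : H.edgeFinset.card ≤ F.edgeFinset.card :=
      card_le_card (SimpleGraph.edgeFinset_mono hF)
    have h3 : ec G W ≤ H.edgeFinset.card := by
      unfold ec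
      refine (card_le_card (t := H.edgeFinset.image (Sym2.map Subtype.val)) ?_).trans card_image_le
      intro e
      induction e using Sym2.ind with
      | _ a b =>
        intro he
        simp only [mem_filter, mk_mem_sym2_iff, SimpleGraph.mem_edgeSet] at he
        rw [mem_image]
        refine ⟨s((⟨a, he.1.1⟩ : (W : Set V)), (⟨b, he.1.2⟩ : (W : Set V))), ?_, ?_⟩
        · rw [SimpleGraph.mem_edgeFinset, SimpleGraph.mem_edgeSet]
          exact he.2
        · simp
    have h4 := h.2
    omega
  unfold SimpleGraph.IsAcyclic at hnac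
  push Not at hnac
  obtain ⟨v, c, hc⟩ := hnac
  let f : H →g G := ⟨Subtype.val, fun {a b} hab => hab⟩
  have hf : Function.Injective f := Subtype.val_injective
  refine ⟨f v, c.map f, hc.map hf, ?_, ?_⟩
  · intro x hx
    rw [SimpleGraph.Walk.support_map, List.mem_map] at hx
    obtain ⟨y, _, rfl⟩ := hx
    exact y.2
  · rw [SimpleGraph.Walk.length_map]
    have h1 := hc.support_nodup.length_le_card
    rw [List.length_tail, SimpleGraph.Walk.length_support, hcardW] at h1
    omega

/-- TARGET 2 -/
theorem ec_univ {V : Type} [Fintype V] (G : SimpleGraph V) : ec G univ = G.edgeSet.ncard := by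
  classical
  unfold ec
  rw [← Set.ncard_coe_finset]
  congr 1
  ext e
  simp


end SolCyc
end DisjCyc
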