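import Pool.Agent.Helper470.DC.Comp
set_option autoImplicit false
open scoped Classical
open Finset

namespace DisjCyc
namespace SolCut

variable {V : Type}



/-- TARGET : cutting an acyclic graph into small pieces by deleting few vertices -/
theorem exists_cut {V : Type} (F : SimpleGraph V) (hF : Acy F) (S : Finset V) (s : ℕ) :
    ∃ Z ⊆ S, Z.card * (s + 1) ≤ S.card ∧ ∀ T ⊆ S \ Z, Tr F T → T.card ≤ s := by
  induction' hn : S.card using Nat.strong_induction_on with n ih generalizing S
  by_cases h : ∀ T ⊆ S, Tr F T → T.card ≤ s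
  · refine ⟨∅, empty_subset _, by simp, ?_⟩
    intro T hT hTr
    exact h T (hT.trans sdiff_subset) hTr
  push Not at h
  obtain ⟨T₀, hT₀S, hT₀, hT₀c⟩ := h
  obtain ⟨v₀, hv₀⟩ := hT₀.1
  -- good pairs
  let good : Finset V × V → Prop := fun p =>
    p.1 ⊆ S ∧ p.2 ∈ p.1 ∧ s + 1 ≤ p.1.card ∧
      ∀ u ∈ p.1, u ≠ p.2 → ∀ x ∈ S, x ∉ p.1 → ¬ F.Adj u x
  have hv₀S : v₀ ∈ S := hT₀S hv₀
  have hgood₀ : good (comp F S v₀, v₀) := by
    refine ⟨comp_subset F S v₀, mem_comp_self F hv₀S, ?_, ?_⟩
    · have := card_le_card (subset_comp hT₀S hT₀ hv₀)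
      show s + 1 ≤ (comp F S v₀).card
      omega
    · intro u hu _ x hx hxn hadj
      exact hxn (comp_adj hF hv₀S hu hx hadj)
  obtain ⟨p, hp, hmin⟩ := exists_min_image ((S.powerset ×ˢ S).filter good) (fun p => p.1.card)
    ⟨(comp F S v₀, v₀), by
      simp only [mem_filter, mem_product, mem_powerset]
      exact ⟨⟨comp_subset F S v₀, hv₀S⟩, hgood₀⟩⟩
  simp only [mem_filter, mem_product, mem_powerset] at hp
  obtain ⟨_, hBS, hwB, hBc, hBedge⟩ := hp
  obtain ⟨B, w⟩ := p
  simp only at hBS hwB hBc hBedge hmin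
  have hwS : w ∈ S := hBS hwB
  have claim : ∀ R ⊆ B.erase w, Tr F R → R.card ≤ s := by
    intro R hR hRT
    by_contra hRc
    push Not at hRc
    obtain ⟨v, hv⟩ := hRT.1
    have hvB : v ∈ B.erase w := hR hv
    set D := comp F (B.erase w) v with hD
    have hRD : R ⊆ D := subset_comp hR hRT hv
    have hDB : D ⊆ B.erase w := comp_subset F _ v
    have hDT : Tr F D := Tr_comp hF hvB
    have hvD : v ∈ D := mem_comp_self F hvB
    have hDc : s + 1 ≤ D.card := by
      have := card_le_card hRD
      omega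
    have hwD : w ∉ D := fun hw => (mem_erase.1 (hDB hw)).1 rfl
    have hdg : dg F D w ≤ 1 := by
      have h1 := hF (insert w D) (by simp)
      rw [ec_insert F hwD, card_insert_of_notMem hwD] at h1
      have h2 := hDT.2
      omega
    have hex : ∃ e ∈ D, ∀ u ∈ D, u ≠ e → ¬ F.Adj w u := by
      by_cases hh : ∃ d ∈ D, F.Adj w d
      · obtain ⟨d, hd, hwd⟩ := hh
        refine ⟨d, hd, ?_⟩
        intro u hu hud hwu
        unfold dg at hdg
        have h3 : ({u, d} : Finset V) ⊆ D.filter (fun x => F.Adj w x) := by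
          intro x hx
          simp only [mem_insert, mem_singleton] at hx
          rcases hx with rfl | rfl
          · simp [hu, hwu]
          · simp [hd, hwd]
        have h4 := card_le_card h3
        rw [card_pair hud] at h4
        omega
      · push Not at hh
        exact ⟨v, hvD, fun u hu _ => hh u hu⟩
    obtain ⟨e, heD, he⟩ := hex
    have hDS : D ⊆ S := hDB.trans ((erase_subset _ _).trans hBS)
    have hgoodD : good (D, e) := by
      refine ⟨hDS, heD, hDc, ?_⟩
      intro u hu hue x hxS hxD hadj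
      have hu' : u ∈ D := hu
      have huB := mem_erase.1 (hDB hu')
      by_cases hxB : x ∈ B
      · by_cases hxw : x = w
        · subst hxw
          exact he u hu' hue hadj.symm
        · exact hxD (comp_adj hF hvB hu' (mem_erase.2 ⟨hxw, hxB⟩) hadj)
      · exact hBedge u huB.2 huB.1 x hxS hxB hadj
    have h5 := hmin (D, e) (by
      simp only [mem_filter, mem_product, mem_powerset]
      exact ⟨⟨hDS, hDS heD⟩, hgoodD⟩)
    simp only at h5
    have h6 := card_le_card hDB
    rw [card_erase_of_mem hwB] at h6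
    have h7 : 0 < B.card := card_pos.2 ⟨w, hwB⟩
    omega
  have hsd : (S \ B).card + B.card = S.card := card_sdiff_add_card_eq_card hBS
  obtain ⟨Z', hZ'S, hZ'c, hZ'⟩ := ih (S \ B).card (by omega) (S \ B) rfl
  refine ⟨insert w Z', ?_, ?_, ?_⟩
  · exact insert_subset hwS (hZ'S.trans sdiff_subset)
  · have h1 : (insert w Z').card ≤ Z'.card + 1 := card_insert_le _ _
    calc (insert w Z').card * (s + 1) ≤ (Z'.card + 1) * (s + 1) := Nat.mul_le_mul_right _ h1
      _ = Z'.card * (s + 1) + (s + 1) := by ring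
      _ ≤ (S \ B).card + B.card := Nat.add_le_add hZ'c hBc
      _ = n := by rw [hsd, hn]
  · intro T hT hTT
    have hTm : ∀ x ∈ T, x ∈ S ∧ x ≠ w ∧ x ∉ Z' := by
      intro x hx
      have := hT hx
      simp only [mem_sdiff, mem_insert, not_or] at this
      exact ⟨this.1, this.2.1, this.2.2⟩
    rcases (T ∩ B).eq_empty_or_nonempty with h1 | h1
    · apply hZ' T _ hTT
      intro x hx
      have hxB : x ∉ B := fun hxB => by
        have : x ∈ T ∩ B := mem_inter.2 ⟨hx, hxB⟩
        rw [h1] at this
        simp at this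
      have := hTm x hx
      simp only [mem_sdiff]
      exact ⟨⟨this.1, hxB⟩, this.2.2⟩
    rcases (T \ B).eq_empty_or_nonempty with h2 | h2
    · apply claim T _ hTT
      intro x hx
      have hxB : x ∈ B := by
        by_contra hxB
        have : x ∈ T \ B := mem_sdiff.2 ⟨hx, hxB⟩
        rw [h2] at this
        simp at this
      exact mem_erase.2 ⟨(hTm x hx).2.1, hxB⟩
    exfalso
    have hdis : Disjoint (T ∩ B) (T \ B) := by
      rw [Finset.disjoint_left]
      intro x hx hx'
      exact (mem_sdiff.1 hx').2 (mem_inter.1 hx).2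
    have hun : (T ∩ B) ∪ (T \ B) = T := by
      ext x
      simp only [mem_union, mem_inter, mem_sdiff]
      tauto
    have hec := ec_union_disj F hdis
    have hsum : ∑ a ∈ T ∩ B, dg F (T \ B) a = 0 := by
      apply sum_eq_zero
      intro a ha
      by_contra h0
      obtain ⟨x, hx, hax⟩ := dg_pos_iff.1 (Nat.pos_of_ne_zero h0)
      have ha' := mem_inter.1 ha
      have hx' := mem_sdiff.1 hx
      exact hBedge a ha'.2 (hTm a ha'.1).2.1 x (hTm x hx'.1).1 hx'.2 hax
    rw [hun, hsum] at hec
    have h3 := hF _ h1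
    have h4 := hF _ h2
    have h5 := hTT.2
    have h6 := card_union_of_disjoint hdis
    rw [hun] at h6
    omega


end SolCut
end DisjCyc
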