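import Pool.Agent.Helper470.DC.Comp
set_option autoImplicit false
open scoped Classical
open Finset

namespace DisjCyc
namespace SolMax

variable {V : Type}



theorem ec_eq_card {G : SimpleGraph V} {W : Finset V} (s : Finset (Sym2 V))
    (h : ∀ e, e ∈ s ↔ e ∈ W.sym2 ∧ e ∈ G.edgeSet) : ec G W = s.card := by
  unfold ec
  congr 1
  ext e
  rw [mem_filter, h]

theorem ec_add_edge {F : SimpleGraph V} {u v : V} (huv : u ≠ v) (hn : ¬ F.Adj u v) (W : Finset V) :
    ec (F ⊔ SimpleGraph.edge u v) W = ec F W + (if u ∈ W ∧ v ∈ W then 1 else 0) := by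
  have hset : (F ⊔ SimpleGraph.edge u v).edgeSet = F.edgeSet ∪ {s(u, v)} := by
    rw [SimpleGraph.edgeSet_sup, SimpleGraph.edgeSet_edge_of_ne huv]
  split_ifs with h
  · rw [ec_eq_card (G := F ⊔ SimpleGraph.edge u v)
      (insert s(u, v) (W.sym2.filter (fun e => e ∈ F.edgeSet))), card_insert_of_notMem]
    · rfl
    · simp only [mem_filter, SimpleGraph.mem_edgeSet]
      exact fun h' => hn h'.2
    · intro e
      rw [hset]
      simp only [mem_filter, mem_insert, Set.mem_union, Set.mem_singleton_iff]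
      constructor
      · rintro (rfl | ⟨h1, h2⟩)
        · exact ⟨by simpa using h, Or.inr rfl⟩
        · exact ⟨h1, Or.inl h2⟩
      · rintro ⟨h1, h2 | h2⟩
        · exact Or.inr ⟨h1, h2⟩
        · exact Or.inl h2
  · rw [add_zero, ec_eq_card (G := F ⊔ SimpleGraph.edge u v)
      (W.sym2.filter (fun e => e ∈ F.edgeSet))]
    · rfl
    · intro e
      rw [hset]
      simp only [mem_filter, Set.mem_union, Set.mem_singleton_iff]
      constructor
      · rintro ⟨h1, h2⟩
        exact ⟨h1, Or.inl h2⟩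
      · rintro ⟨h1, h2 | h2⟩
        · exact ⟨h1, h2⟩
        · subst h2
          exact absurd (by simpa using h1) h

/-- TARGET : maximal acyclic subgraph -/
theorem exists_max_acyclic {V : Type} (G : SimpleGraph V) (S : Finset V) :
    ∃ F : SimpleGraph V, F ≤ G ∧ Acy F ∧ (∀ u v, F.Adj u v → u ∈ S ∧ v ∈ S) ∧
      ∀ u ∈ S, ∀ v ∈ S, G.Adj u v → ∃ T ⊆ S, Tr F T ∧ u ∈ T ∧ v ∈ T := by
  set A : Set ℕ := {n | ∃ F : SimpleGraph V, (F ≤ G ∧ Acy F ∧ (∀ u v, F.Adj u v → u ∈ S ∧ v ∈ S)) ∧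
    ec F S = n} with hA
  have hne : A.Nonempty := by
    refine ⟨ec ⊥ S, ⊥, ⟨bot_le, ?_, fun u v h => absurd h (by simp)⟩, rfl⟩
    intro W hW
    have : ec (⊥ : SimpleGraph V) W = 0 := by simp [ec]
    rw [this]
    exact hW.card_pos
  have hbd : BddAbove A := by
    refine ⟨ec G S, ?_⟩
    rintro n ⟨F, ⟨h1, -, -⟩, rfl⟩
    exact ec_mono_graph h1 S
  obtain ⟨F, ⟨h1, h2, h3⟩, h4⟩ := Nat.sSup_mem hne hbd
  have hmax : ∀ F' : SimpleGraph V, F' ≤ G → Acy F' → (∀ u v, F'.Adj u v → u ∈ S ∧ v ∈ S) →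
      ec F' S ≤ ec F S := by
    intro F' a b c
    rw [h4]
    exact le_csSup hbd ⟨F', ⟨a, b, c⟩, rfl⟩
  refine ⟨F, h1, h2, h3, ?_⟩
  intro u hu v hv huv
  have hne' : u ≠ v := huv.ne
  by_cases hF : F.Adj u v
  · refine ⟨{u, v}, ?_, ?_, by simp, by simp⟩
    · intro x hx
      simp only [mem_insert, mem_singleton] at hx
      rcases hx with rfl | rfl <;> assumption
    · have := Tr_insert h2 (Tr_singleton F v) (a := v) (b := u) (by simp) hF.symm
      exact this
  · have hnA : ¬ Acy (F ⊔ SimpleGraph.edge u v) := by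
      intro hAcy
      have := hmax (F ⊔ SimpleGraph.edge u v) ?_ hAcy ?_
      · rw [ec_add_edge hne' hF, if_pos ⟨hu, hv⟩] at this
        omega
      · apply sup_le h1
        intro a b hab
        rw [SimpleGraph.edge_adj] at hab
        rcases hab.1 with ⟨rfl, rfl⟩ | ⟨rfl, rfl⟩
        · exact huv
        · exact huv.symm
      · intro a b hab
        rw [SimpleGraph.sup_adj, SimpleGraph.edge_adj] at hab
        rcases hab with hab | ⟨⟨rfl, rfl⟩ | ⟨rfl, rfl⟩, -⟩
        · exact h3 a b hab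
        · exact ⟨hu, hv⟩
        · exact ⟨hv, hu⟩
    unfold Acy at hnA
    push Not at hnA
    obtain ⟨W, hW, hWc⟩ := hnA
    rw [ec_add_edge hne' hF] at hWc
    have h5 := h2 W hW
    have huW : u ∈ W ∧ v ∈ W := by
      by_contra h
      rw [if_neg h] at hWc
      omega
    rw [if_pos huW] at hWc
    have hT : (W ∩ S).Nonempty := ⟨u, mem_inter.2 ⟨huW.1, hu⟩⟩
    have h6 : ec F W ≤ ec F (W ∩ S) := by
      unfold ec
      apply card_le_card
      intro e he
      simp only [mem_filter, mem_sym2_iff, mem_inter] at he ⊢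
      refine ⟨fun a ha => ⟨he.1 a ha, ?_⟩, he.2⟩
      induction e using Sym2.ind with
      | _ x y =>
        have hxy := h3 x y (by simpa using he.2)
        rcases Sym2.mem_iff.1 ha with rfl | rfl
        · exact hxy.1
        · exact hxy.2
    have h7 : (W ∩ S).card ≤ W.card := card_le_card inter_subset_left
    exact ⟨W ∩ S, inter_subset_right, Tr_of_le h2 hT (by omega), mem_inter.2 ⟨huW.1, hu⟩,
      mem_inter.2 ⟨huW.2, hv⟩⟩


end SolMax
end DisjCyc
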