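import Pool.Agent.Helper470.DC.SolDense
import Pool.Agent.Helper470.DC.SolMax
import Pool.Agent.Helper470.DC.SolCut
set_option autoImplicit false
open scoped Classical
open Finset

namespace DisjCyc
namespace SolSparse

variable {V : Type}



/-- given (do not prove) -/
theorem KCyc_of_dense {V : Type} (G : SimpleGraph V) (S : Finset V) (hS : S.Nonempty) (k : ℕ)
    (h : 3 * k * S.card ≤ ec G S) : KCyc G S k :=  SolDense.KCyc_of_dense G S hS k h

/-- given (do not prove) -/
theorem exists_max_acyclic {V : Type} (G : SimpleGraph V) (S : Finset V) :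
    ∃ F : SimpleGraph V, F ≤ G ∧ Acy F ∧ (∀ u v, F.Adj u v → u ∈ S ∧ v ∈ S) ∧
      ∀ u ∈ S, ∀ v ∈ S, G.Adj u v → ∃ T ⊆ S, Tr F T ∧ u ∈ T ∧ v ∈ T :=  SolMax.exists_max_acyclic G S

/-- given (do not prove) -/
theorem exists_cut {V : Type} (F : SimpleGraph V) (hF : Acy F) (S : Finset V) (s : ℕ) :
    ∃ Z ⊆ S, Z.card * (s + 1) ≤ S.card ∧ ∀ T ⊆ S \ Z, Tr F T → T.card ≤ s :=  SolCut.exists_cut F hF S s


theorem ec_lt_of_extra {F G : SimpleGraph V} (h : F ≤ G) {W : Finset V} {u v : V} (hu : u ∈ W)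
    (hv : v ∈ W) (hG : G.Adj u v) (hF : ¬ F.Adj u v) : ec F W < ec G W := by
  unfold ec
  apply card_lt_card
  rw [Finset.ssubset_iff_of_subset]
  · refine ⟨s(u, v), ?_, ?_⟩
    · simp only [mem_filter, mk_mem_sym2_iff, SimpleGraph.mem_edgeSet]
      exact ⟨⟨hu, hv⟩, hG⟩
    · simp only [mem_filter, mk_mem_sym2_iff, SimpleGraph.mem_edgeSet]
      intro h'
      exact hF h'.2
  · intro e he
    simp only [mem_filter] at he ⊢
    exact ⟨he.1, SimpleGraph.edgeSet_mono h he.2⟩

theorem ec_le_of_adj {F G : SimpleGraph V} {W : Finset V}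
    (h : ∀ u ∈ W, ∀ v ∈ W, G.Adj u v → F.Adj u v) : ec G W ≤ ec F W := by
  unfold ec
  apply card_le_card
  intro e
  induction e using Sym2.ind with
  | _ a b =>
    simp only [mem_filter, mk_mem_sym2_iff, SimpleGraph.mem_edgeSet]
    rintro ⟨⟨ha, hb⟩, hab⟩
    exact ⟨⟨ha, hb⟩, h a ha b hb hab⟩

noncomputable def crossE {ι : Type} (G : SimpleGraph V) (p : V → ι) (W : Finset V) : Finset (Sym2 V) :=
  (W.sym2.filter (fun e => e ∈ G.edgeSet)).filter (fun e => ¬ (Sym2.map p e).IsDiag)

theorem ec_decomp {ι : Type} [DecidableEq ι] (G : SimpleGraph V) (p : V → ι) (W : Finset V) :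
    ec G W = ∑ i ∈ W.image p, ec G (W.filter (fun v => p v = i)) + (crossE G p W).card := by
  have h1 := Finset.card_filter_add_card_filter_not (s := W.sym2.filter (fun e => e ∈ G.edgeSet))
    (fun e => (Sym2.map p e).IsDiag)
  have h2 : (W.sym2.filter (fun e => e ∈ G.edgeSet)).filter (fun e => (Sym2.map p e).IsDiag)
      = (W.image p).biUnion (fun i => (W.filter (fun v => p v = i)).sym2.filter (fun e => e ∈ G.edgeSet)) := by
    ext e
    induction e using Sym2.ind with
    | _ a b =>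
      simp only [mem_filter, mem_biUnion, mk_mem_sym2_iff, Sym2.map_mk, Sym2.mk_isDiag_iff,
        SimpleGraph.mem_edgeSet, mem_image]
      constructor
      · rintro ⟨⟨⟨ha, hb⟩, hab⟩, he⟩
        exact ⟨p a, ⟨a, ha, rfl⟩, ⟨⟨ha, rfl⟩, ⟨hb, he.symm⟩⟩, hab⟩
      · rintro ⟨i, _, ⟨⟨ha, ha'⟩, ⟨hb, hb'⟩⟩, hab⟩
        exact ⟨⟨⟨ha, hb⟩, hab⟩, ha'.trans hb'.symm⟩
  have h3 : ((W.sym2.filter (fun e => e ∈ G.edgeSet)).filter (fun e => (Sym2.map p e).IsDiag)).card
      = ∑ i ∈ W.image p, ec G (W.filter (fun v => p v = i)) := by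
    rw [h2, card_biUnion]
    · rfl
    · intro i _ j _ hij
      rw [Function.onFun, Finset.disjoint_left]
      intro e he he'
      induction e using Sym2.ind with
      | _ a b =>
        simp only [mem_filter, mk_mem_sym2_iff] at he he'
        exact hij (he.1.1.2.symm.trans he'.1.1.2)
  have h5 : crossE G p W = (W.sym2.filter (fun e => e ∈ G.edgeSet)).filter
      (fun e => ¬ (Sym2.map p e).IsDiag) := by
    unfold crossE
    congr
  rw [← h3, h5]
  exact h1.symm



/-- a tree set meeting `P` but not inside `P` has an edge leaving `P` -/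
theorem Tr_edge_out {F : SimpleGraph V} (hF : Acy F) {T P : Finset V} (hT : Tr F T)
    (h1 : (T ∩ P).Nonempty) (h2 : (T \ P).Nonempty) : ∃ a ∈ T ∩ P, ∃ b ∈ T \ P, F.Adj a b := by
  by_contra hc
  push Not at hc
  have hd : Disjoint (T ∩ P) (T \ P) := by
    rw [Finset.disjoint_left]; intro x hx hx'
    exact (mem_sdiff.1 hx').2 (mem_inter.1 hx).2
  have hu : (T ∩ P) ∪ (T \ P) = T := by
    ext x; simp only [mem_union, mem_inter, mem_sdiff]; tauto
  have e1 := ec_union_disj F hd
  rw [hu] at e1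
  have e2 : ∑ a ∈ T ∩ P, dg F (T \ P) a = 0 := by
    apply Finset.sum_eq_zero
    intro a ha
    by_contra h0
    obtain ⟨w, hw, hw'⟩ := dg_pos_iff.1 (Nat.pos_of_ne_zero h0)
    exact hc a ha w hw hw'
  have e3 := hF _ h1
  have e4 := hF _ h2
  have e5 : (T ∩ P).card + (T \ P).card = T.card := by
    rw [← card_union_of_disjoint hd, hu]
  have e6 := hT.2
  omega

noncomputable def gg (F : SimpleGraph V) (Z P : Finset V) : Option V :=
  if h : ∃ z ∈ Z, ∃ a ∈ P, F.Adj a z then some h.choose else none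

noncomputable def pr (F : SimpleGraph V) (S Z : Finset V) (u : V) : Option V :=
  if u ∈ Z then some u else gg F Z (comp F (S \ Z) u)

theorem gg_some {F : SimpleGraph V} {Z P : Finset V} {z : V} (h : gg F Z P = some z) :
    z ∈ Z ∧ ∃ a ∈ P, F.Adj a z := by
  unfold gg at h
  split_ifs at h with h'
  rw [← Option.some.inj h]
  exact h'.choose_spec

theorem gg_none {F : SimpleGraph V} {Z P : Finset V} (h : gg F Z P = none) :
    ∀ z ∈ Z, ∀ a ∈ P, ¬ F.Adj a z := by
  unfold gg at h
  split_ifs at h with h'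
  push Not at h'
  exact h'

theorem pr_tree {F : SimpleGraph V} (hF : Acy F) {S Z : Finset V} (hZS : Z ⊆ S) {s : ℕ}
    (hZ : ∀ T ⊆ S \ Z, Tr F T → T.card ≤ s) {u z : V} (hu : u ∈ S) (h : pr F S Z u = some z) :
    z ∈ Z ∧ ∃ R ⊆ S, Tr F R ∧ u ∈ R ∧ z ∈ R ∧ R.card ≤ s + 1 ∧ ∀ x ∈ R, pr F S Z x = some z := by
  unfold pr at h
  split_ifs at h with huZ
  · have := Option.some.inj h
    subst this
    refine ⟨huZ, {u}, by simpa using hu, Tr_singleton F u, by simp, by simp, by simp, ?_⟩
    intro x hx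
    rw [mem_singleton] at hx
    subst hx
    simp [pr, huZ]
  · have huS : u ∈ S \ Z := mem_sdiff.2 ⟨hu, huZ⟩
    obtain ⟨hz, a, ha, haz⟩ := gg_some h
    refine ⟨hz, insert z (comp F (S \ Z) u), ?_, Tr_insert hF (Tr_comp hF huS) ha haz,
      mem_insert_of_mem (mem_comp_self F huS), mem_insert_self _ _, ?_, ?_⟩
    · intro x hx
      rcases mem_insert.1 hx with rfl | hx
      · exact hZS hz
      · exact (mem_sdiff.1 (comp_subset F _ _ hx)).1
    · have h1 := hZ _ (comp_subset F (S \ Z) u) (Tr_comp hF huS)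
      have h2 := card_insert_le z (comp F (S \ Z) u)
      omega
    · intro x hx
      rcases mem_insert.1 hx with rfl | hx
      · simp [pr, hz]
      · have hxZ : x ∉ Z := (mem_sdiff.1 (comp_subset F _ _ hx)).2
        unfold pr
        rw [if_neg hxZ, comp_eq_of_mem hF huS hx]
        exact h

theorem card_union_share {A B : Finset V} {z : V} (hA : z ∈ A) (hB : z ∈ B) {s : ℕ}
    (h1 : A.card ≤ s + 1) (h2 : B.card ≤ s + 1) : (A ∪ B).card ≤ 2 * s + 1 := by
  have h3 := card_union_add_card_inter A B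
  have h4 : 0 < (A ∩ B).card := card_pos.2 ⟨z, mem_inter.2 ⟨hA, hB⟩⟩
  omega

/-- edges inside a part are edges of the forest -/
theorem inside_adj {F G : SimpleGraph V} (hFG : F ≤ G) (hF : Acy F) {S Z : Finset V} (hZS : Z ⊆ S) {s : ℕ}
    (hZ : ∀ T ⊆ S \ Z, Tr F T → T.card ≤ s)
    (hgirth : ∀ W ⊆ S, Cyc G W → 4 * s + 2 < W.card) {u v z : V} (hu : u ∈ S) (hv : v ∈ S)
    (h1 : pr F S Z u = some z) (h2 : pr F S Z v = some z) (hG : G.Adj u v) : F.Adj u v := by
  by_contra hc
  obtain ⟨_, R, hRS, hR, huR, hzR, hRc, _⟩ := pr_tree hF hZS hZ hu h1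
  obtain ⟨_, R', hRS', hR', hvR', hzR', hRc', _⟩ := pr_tree hF hZS hZ hv h2
  have h3 : Tr F (R ∪ R') := Tr_union hF hR hR' ⟨z, mem_inter.2 ⟨hzR, hzR'⟩⟩
  have h4 := ec_lt_of_extra hFG (W := R ∪ R') (mem_union_left _ huR) (mem_union_right _ hvR') hG hc
  have h5 := card_union_share hzR hzR' hRc hRc'
  have h6 := h3.2
  have h7 := hgirth (R ∪ R') (union_subset hRS hRS') ⟨h3.1, by omega⟩
  omega

/-- at most one edge between two parts -/
theorem one_edge {F G : SimpleGraph V} (hFG : F ≤ G) (hF : Acy F) {S Z : Finset V} (hZS : Z ⊆ S) {s : ℕ}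
    (hZ : ∀ T ⊆ S \ Z, Tr F T → T.card ≤ s)
    (hgirth : ∀ W ⊆ S, Cyc G W → 4 * s + 2 < W.card) {u v u' v' z z' : V} (hzz : z ≠ z')
    (hu : u ∈ S) (hv : v ∈ S) (hu' : u' ∈ S) (hv' : v' ∈ S)
    (h1 : pr F S Z u = some z) (h2 : pr F S Z v = some z')
    (h1' : pr F S Z u' = some z) (h2' : pr F S Z v' = some z')
    (hG : G.Adj u v) (hG' : G.Adj u' v') : s(u, v) = s(u', v') := by
  by_contra hc
  obtain ⟨_, R1, hR1S, hR1, huR1, hzR1, hR1c, hp1⟩ := pr_tree hF hZS hZ hu h1
  obtain ⟨_, R2, hR2S, hR2, huR2, hzR2, hR2c, hp2⟩ := pr_tree hF hZS hZ hu' h1'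
  obtain ⟨_, R3, hR3S, hR3, huR3, hzR3, hR3c, hp3⟩ := pr_tree hF hZS hZ hv h2
  obtain ⟨_, R4, hR4S, hR4, huR4, hzR4, hR4c, hp4⟩ := pr_tree hF hZS hZ hv' h2'
  have hA : Tr F (R1 ∪ R2) := Tr_union hF hR1 hR2 ⟨z, mem_inter.2 ⟨hzR1, hzR2⟩⟩
  have hB : Tr F (R3 ∪ R4) := Tr_union hF hR3 hR4 ⟨z', mem_inter.2 ⟨hzR3, hzR4⟩⟩
  have hAc := card_union_share hzR1 hzR2 hR1c hR2c
  have hBc := card_union_share hzR3 hzR4 hR3c hR4c
  have hpA : ∀ x ∈ R1 ∪ R2, pr F S Z x = some z := by
    intro x hx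
    rcases mem_union.1 hx with hx | hx
    · exact hp1 x hx
    · exact hp2 x hx
  have hpB : ∀ x ∈ R3 ∪ R4, pr F S Z x = some z' := by
    intro x hx
    rcases mem_union.1 hx with hx | hx
    · exact hp3 x hx
    · exact hp4 x hx
  have hd : Disjoint (R1 ∪ R2) (R3 ∪ R4) := by
    rw [Finset.disjoint_left]
    intro x hx hx'
    have e1 := hpA x hx
    rw [hpB x hx'] at e1
    exact hzz (Option.some.inj e1).symm
  have e0 := ec_union_disj G hd
  have e1 : ec F (R1 ∪ R2) ≤ ec G (R1 ∪ R2) := ec_mono_graph hFG _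
  have e2 : ec F (R3 ∪ R4) ≤ ec G (R3 ∪ R4) := ec_mono_graph hFG _
  have huA : u ∈ R1 ∪ R2 := mem_union_left _ huR1
  have huA' : u' ∈ R1 ∪ R2 := mem_union_right _ huR2
  have hvB : v ∈ R3 ∪ R4 := mem_union_left _ huR3
  have hvB' : v' ∈ R3 ∪ R4 := mem_union_right _ huR4
  have e3 : 2 ≤ ∑ a ∈ R1 ∪ R2, dg G (R3 ∪ R4) a := by
    by_cases huu : u = u'
    · subst huu
      have hvv : v ≠ v' := by
        rintro rfl
        exact hc rfl
      have h5 : 2 ≤ dg G (R3 ∪ R4) u := by
        unfold dg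
        rw [← card_pair hvv]
        apply card_le_card
        intro x hx
        simp only [mem_insert, mem_singleton] at hx
        rcases hx with rfl | rfl
        · exact mem_filter.2 ⟨hvB, hG⟩
        · exact mem_filter.2 ⟨hvB', hG'⟩
      exact h5.trans (Finset.single_le_sum (f := fun a => dg G (R3 ∪ R4) a) (fun _ _ => Nat.zero_le _) huA)
    · have h5 : ∑ a ∈ ({u, u'} : Finset V), dg G (R3 ∪ R4) a ≤ ∑ a ∈ R1 ∪ R2, dg G (R3 ∪ R4) a := by
        apply Finset.sum_le_sum_of_subset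
        intro x hx
        simp only [mem_insert, mem_singleton] at hx
        rcases hx with rfl | rfl
        · exact huA
        · exact huA'
      rw [sum_pair huu] at h5
      have h6 : 0 < dg G (R3 ∪ R4) u := dg_pos_iff.2 ⟨v, hvB, hG⟩
      have h7 : 0 < dg G (R3 ∪ R4) u' := dg_pos_iff.2 ⟨v', hvB', hG'⟩
      omega
  have e4 : ((R1 ∪ R2) ∪ (R3 ∪ R4)).card = (R1 ∪ R2).card + (R3 ∪ R4).card :=
    card_union_of_disjoint hd
  have e5 := hA.2
  have e6 := hB.2
  have h7 := hgirth ((R1 ∪ R2) ∪ (R3 ∪ R4))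
    (union_subset (union_subset hR1S hR2S) (union_subset hR3S hR4S))
    ⟨hA.1.mono subset_union_left, by omega⟩
  omega

/-- unattached pieces are isolated and acyclic in `G` -/
theorem none_adj {F G : SimpleGraph V} (hFG : F ≤ G) (hF : Acy F) {S Z : Finset V} {s : ℕ}
    (hZ : ∀ T ⊆ S \ Z, Tr F T → T.card ≤ s)
    (hT : ∀ u ∈ S, ∀ v ∈ S, G.Adj u v → ∃ T ⊆ S, Tr F T ∧ u ∈ T ∧ v ∈ T)
    (hgirth : ∀ W ⊆ S, Cyc G W → 4 * s + 2 < W.card) {u v : V} (hu : u ∈ S) (hv : v ∈ S)
    (h1 : pr F S Z u = none) (hG : G.Adj u v) : pr F S Z v = none ∧ F.Adj u v := by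
  have huZ : u ∉ Z := by
    intro h
    simp [pr, h] at h1
  have huS : u ∈ S \ Z := mem_sdiff.2 ⟨hu, huZ⟩
  have h1' : gg F Z (comp F (S \ Z) u) = none := by
    unfold pr at h1
    rwa [if_neg huZ] at h1
  obtain ⟨T, hTS, hTT, huT, hvT⟩ := hT u hu v hv hG
  have hTP : T ⊆ comp F (S \ Z) u := by
    by_contra hc
    have h2 : (T \ comp F (S \ Z) u).Nonempty := by
      rwa [sdiff_nonempty]
    obtain ⟨a, ha, b, hb, hab⟩ := Tr_edge_out hF hTT ⟨u, mem_inter.2 ⟨huT, mem_comp_self F huS⟩⟩ h2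
    have ha' := (mem_inter.1 ha).2
    obtain ⟨hb1, hb2⟩ := mem_sdiff.1 hb
    by_cases hbZ : b ∈ Z
    · exact gg_none h1' b hbZ a ha' hab
    · exact hb2 (comp_adj hF huS ha' (mem_sdiff.2 ⟨hTS hb1, hbZ⟩) hab)
  have hvP := hTP hvT
  constructor
  · have hvZ : v ∉ Z := (mem_sdiff.1 (comp_subset F _ _ hvP)).2
    unfold pr
    rw [if_neg hvZ, comp_eq_of_mem hF huS hvP]
    exact h1'
  · by_contra hc
    have h3 := Tr_comp hF huS
    have h4 := ec_lt_of_extra hFG (W := comp F (S \ Z) u) (mem_comp_self F huS) hvP hG hc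
    have h5 := h3.2
    have h6 := hZ _ (comp_subset F (S \ Z) u) h3
    have h7 := hgirth (comp F (S \ Z) u)
      (fun x hx => (mem_sdiff.1 (comp_subset F _ _ hx)).1) ⟨h3.1, by omega⟩
    omega



/-- the quotient graph -/
def QQ (F G : SimpleGraph V) (S Z : Finset V) : SimpleGraph V where
  Adj z z' := z ≠ z' ∧ ∃ u ∈ S, ∃ v ∈ S, pr F S Z u = some z ∧ pr F S Z v = some z' ∧ G.Adj u v
  symm := ⟨by
    rintro z z' ⟨h, u, hu, v, hv, h1, h2, h3⟩
    exact ⟨h.symm, v, hv, u, hu, h2, h1, h3.symm⟩⟩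
  loopless := ⟨by
    rintro z ⟨h, _⟩
    exact h rfl⟩

theorem KCyc_lift {F G : SimpleGraph V} (hFG : F ≤ G) (hF : Acy F) {S Z : Finset V} (hZS : Z ⊆ S) {s : ℕ}
    (hZ : ∀ T ⊆ S \ Z, Tr F T → T.card ≤ s) {C : Finset V} (hC : C ⊆ Z) (hCyc : Cyc (QQ F G S Z) C) :
    Cyc G (S.filter (fun u => ∃ z ∈ C, pr F S Z u = some z)) := by
  set W := S.filter (fun u => ∃ z ∈ C, pr F S Z u = some z) with hW
  have hzW : ∀ z ∈ C, z ∈ W := by
    intro z hz
    rw [hW, mem_filter]
    refine ⟨hZS (hC hz), z, hz, ?_⟩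
    simp [pr, hC hz]
  obtain ⟨z0, hz0⟩ := hCyc.1
  refine ⟨⟨z0, hzW z0 hz0⟩, ?_⟩
  rw [ec_decomp G (pr F S Z) W]
  have himg : W.image (pr F S Z) = C.image some := by
    ext i
    simp only [mem_image, hW, mem_filter]
    constructor
    · rintro ⟨u, ⟨_, z, hz, hu⟩, rfl⟩
      exact ⟨z, hz, hu.symm⟩
    · rintro ⟨z, hz, rfl⟩
      refine ⟨z, ⟨hZS (hC hz), z, hz, ?_⟩, ?_⟩ <;> simp [pr, hC hz]
  have hpart : ∀ i ∈ W.image (pr F S Z),
      (W.filter (fun v => pr F S Z v = i)).card ≤ ec G (W.filter (fun v => pr F S Z v = i)) + 1 := by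
    intro i hi
    rw [himg, mem_image] at hi
    obtain ⟨z, hz, rfl⟩ := hi
    have hTr : Tr F (W.filter (fun v => pr F S Z v = some z)) := by
      set B := W.filter (fun v => pr F S Z v = some z) with hB
      have hzB : z ∈ B := by
        rw [hB, mem_filter]
        exact ⟨hzW z hz, by simp [pr, hC hz]⟩
      have : comp F B z = B := by
        apply Subset.antisymm (comp_subset F B z)
        intro u hu
        have hu' := hu
        rw [hB, mem_filter, hW, mem_filter] at hu'
        obtain ⟨_, R, hRS, hR, huR, hzR, _, hp⟩ := pr_tree hF hZS hZ hu'.1.1 hu'.2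
        have hRB : R ⊆ B := by
          intro x hx
          rw [hB, mem_filter, hW, mem_filter]
          exact ⟨⟨hRS hx, z, hz, hp x hx⟩, hp x hx⟩
        exact subset_comp hRB hR hzR huR
      rw [← this]
      exact Tr_comp hF hzB
    have h1 := hTr.2
    have h2 := ec_mono_graph hFG (W.filter (fun v => pr F S Z v = some z))
    omega
  have hsum : W.card ≤ ∑ i ∈ W.image (pr F S Z), ec G (W.filter (fun v => pr F S Z v = i))
      + (W.image (pr F S Z)).card := by
    rw [Finset.card_eq_sum_card_image (pr F S Z) W, Finset.card_eq_sum_ones (W.image (pr F S Z)),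
      ← Finset.sum_add_distrib]
    exact Finset.sum_le_sum hpart
  have hcard : (W.image (pr F S Z)).card = C.card := by
    rw [himg, card_image_of_injective _ (Option.some_injective V)]
  have hcross : ec (QQ F G S Z) C ≤ (crossE G (pr F S Z) W).card := by
    have hsub : (C.sym2.filter (fun e => e ∈ (QQ F G S Z).edgeSet)).image (Sym2.map some)
        ⊆ (crossE G (pr F S Z) W).image (Sym2.map (pr F S Z)) := by
      intro e he
      rw [mem_image] at he ⊢
      obtain ⟨q, hq, rfl⟩ := he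
      induction q using Sym2.ind with
      | _ z z' =>
        simp only [mem_filter, mk_mem_sym2_iff, SimpleGraph.mem_edgeSet] at hq
        obtain ⟨⟨hz, hz'⟩, hne, u, hu, v, hv, h1, h2, h3⟩ := hq
        refine ⟨s(u, v), ?_, ?_⟩
        · unfold crossE
          simp only [mem_filter, mk_mem_sym2_iff, SimpleGraph.mem_edgeSet, Sym2.map_mk,
            Sym2.mk_isDiag_iff, hW]
          refine ⟨⟨⟨⟨hu, z, hz, h1⟩, ⟨hv, z', hz', h2⟩⟩, h3⟩, ?_⟩
          rw [h1, h2]
          intro h
          exact hne (Option.some.inj h)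
        · simp [Sym2.map_mk, h1, h2]
    have h1 := card_le_card hsub
    rw [card_image_of_injective _ (Sym2.map.injective (Option.some_injective V))] at h1
    exact h1.trans card_image_le
  have h9 := hCyc.2
  omega

/-- TARGET : a graph of large girth without k disjoint cycles has few edges -/
theorem sparse_of_girth {V : Type} (G : SimpleGraph V) (S : Finset V) (k M s : ℕ) (hM : 1 ≤ M)
    (hs : 3 * k * M ≤ s + 1)
    (hgirth : ∀ W ⊆ S, Cyc G W → 4 * s + 2 < W.card) (hK : ¬ KCyc G S k) :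
    M * ec G S ≤ (M + 1) * S.card := by
  by_contra hcon
  push Not at hcon
  obtain ⟨F, hFG, hF, _, hT⟩ := exists_max_acyclic G S
  obtain ⟨Z, hZS, hZc, hZ⟩ := exists_cut F hF S s
  have hcross : (crossE G (pr F S Z) S).card ≤ ec (QQ F G S Z) Z := by
    have hsub : (crossE G (pr F S Z) S).image (Sym2.map (pr F S Z)) ⊆
        (Z.sym2.filter (fun e => e ∈ (QQ F G S Z).edgeSet)).image (Sym2.map some) := by
      intro e he
      rw [mem_image] at he
      obtain ⟨q, hq, rfl⟩ := he
      induction q using Sym2.ind with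
      | _ u v =>
        unfold crossE at hq
        simp only [mem_filter, mk_mem_sym2_iff, SimpleGraph.mem_edgeSet, Sym2.map_mk,
          Sym2.mk_isDiag_iff] at hq
        obtain ⟨⟨⟨hu, hv⟩, hG⟩, hne⟩ := hq
        cases h1 : pr F S Z u with
        | none =>
          have h2 := (none_adj hFG hF hZ hT hgirth hu hv h1 hG).1
          exact absurd (h1.trans h2.symm) hne
        | some z =>
          cases h2 : pr F S Z v with
          | none =>
            have h3 := (none_adj hFG hF hZ hT hgirth hv hu h2 hG.symm).1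
            exact absurd (h3.trans h2.symm) hne
          | some z' =>
            rw [mem_image]
            refine ⟨s(z, z'), ?_, ?_⟩
            · simp only [mem_filter, mk_mem_sym2_iff, SimpleGraph.mem_edgeSet]
              refine ⟨⟨(pr_tree hF hZS hZ hu h1).1, (pr_tree hF hZS hZ hv h2).1⟩, ?_⟩
              refine ⟨?_, u, hu, v, hv, h1, h2, hG⟩
              rintro rfl
              exact hne (h1.trans h2.symm)
            · simp [Sym2.map_mk, h1, h2]
    have hinj : Set.InjOn (Sym2.map (pr F S Z)) (crossE G (pr F S Z) S : Set (Sym2 V)) := by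
      intro e he e' he' hee
      rw [mem_coe] at he he'
      induction e using Sym2.ind with
      | _ u v =>
        induction e' using Sym2.ind with
        | _ u' v' =>
          unfold crossE at he he'
          simp only [mem_filter, mk_mem_sym2_iff, SimpleGraph.mem_edgeSet, Sym2.map_mk,
            Sym2.mk_isDiag_iff] at he he' hee
          obtain ⟨⟨⟨hu, hv⟩, hG⟩, hne⟩ := he
          obtain ⟨⟨⟨hu', hv'⟩, hG'⟩, hne'⟩ := he'
          cases h1 : pr F S Z u with
          | none =>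
            have h2 := (none_adj hFG hF hZ hT hgirth hu hv h1 hG).1
            exact absurd (h1.trans h2.symm) hne
          | some z =>
            cases h2 : pr F S Z v with
            | none =>
              have h3 := (none_adj hFG hF hZ hT hgirth hv hu h2 hG.symm).1
              exact absurd (h3.trans h2.symm) hne
            | some z' =>
              have hzz : z ≠ z' := by
                rintro rfl
                exact hne (h1.trans h2.symm)
              rcases Sym2.eq_iff.1 hee with ⟨e1, e2⟩ | ⟨e1, e2⟩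
              · exact one_edge hFG hF hZS hZ hgirth hzz hu hv hu' hv' h1 h2
                  (e1.symm.trans h1) (e2.symm.trans h2) hG hG'
              · have := one_edge hFG hF hZS hZ hgirth hzz hu hv hv' hu' h1 h2
                  (e1.symm.trans h1) (e2.symm.trans h2) hG hG'.symm
                rw [this, Sym2.eq_swap]
    have h1 := card_le_card hsub
    rw [card_image_of_injOn hinj,
      card_image_of_injective _ (Sym2.map.injective (Option.some_injective V))] at h1
    exact h1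
  have hdec := ec_decomp G (pr F S Z) S
  have hpart : ∀ i ∈ S.image (pr F S Z),
      ec G (S.filter (fun v => pr F S Z v = i)) + 1 ≤ (S.filter (fun v => pr F S Z v = i)).card := by
    intro i hi
    have hne : (S.filter (fun v => pr F S Z v = i)).Nonempty := by
      rw [mem_image] at hi
      obtain ⟨u, hu, rfl⟩ := hi
      exact ⟨u, mem_filter.2 ⟨hu, rfl⟩⟩
    have h1 : ec G (S.filter (fun v => pr F S Z v = i)) ≤ ec F (S.filter (fun v => pr F S Z v = i)) := by
      apply ec_le_of_adj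
      intro u hu v hv hG
      rw [mem_filter] at hu hv
      cases i with
      | none => exact (none_adj hFG hF hZ hT hgirth hu.1 hv.1 hu.2 hG).2
      | some z => exact inside_adj hFG hF hZS hZ hgirth hu.1 hv.1 hu.2 hv.2 hG
    have h2 := hF _ hne
    omega
  have hsum : ∑ i ∈ S.image (pr F S Z), ec G (S.filter (fun v => pr F S Z v = i))
      + (S.image (pr F S Z)).card ≤ S.card := by
    rw [Finset.card_eq_sum_card_image (pr F S Z) S, Finset.card_eq_sum_ones (S.image (pr F S Z)),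
      ← Finset.sum_add_distrib]
    exact Finset.sum_le_sum hpart
  have himg : Z.card ≤ (S.image (pr F S Z)).card := by
    rw [← card_image_of_injective Z (Option.some_injective V)]
    apply card_le_card
    intro i hi
    rw [mem_image] at hi ⊢
    obtain ⟨z, hz, rfl⟩ := hi
    exact ⟨z, hZS hz, by simp [pr, hz]⟩
  have hmain : ec G S + Z.card ≤ S.card + ec (QQ F G S Z) Z := by omega
  have h3 : 3 * k * Z.card * M ≤ S.card := by
    calc 3 * k * Z.card * M = Z.card * (3 * k * M) := by ring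
      _ ≤ Z.card * (s + 1) := Nat.mul_le_mul_left _ hs
      _ ≤ S.card := hZc
  have h4 : M * (3 * k * Z.card) < M * ec (QQ F G S Z) Z := by
    have h5 : M * (ec G S + Z.card) ≤ M * (S.card + ec (QQ F G S Z) Z) := Nat.mul_le_mul_left _ hmain
    nlinarith [Nat.zero_le (M * Z.card)]
  have h5 : 3 * k * Z.card < ec (QQ F G S Z) Z := lt_of_mul_lt_mul_left h4 (Nat.zero_le _)
  have hZne : Z.Nonempty := by
    rw [nonempty_iff_ne_empty]
    rintro rfl
    simp [ec_empty] at h5
  obtain ⟨𝒲, hWc, hWs, hWd⟩ := KCyc_of_dense (QQ F G S Z) Z hZne k h5.le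
  apply hK
  set lift : Finset V → Finset V := fun C => S.filter (fun u => ∃ z ∈ C, pr F S Z u = some z) with hlift
  have hld : ∀ C ∈ 𝒲, ∀ C' ∈ 𝒲, C ≠ C' → Disjoint (lift C) (lift C') := by
    intro C hC C' hC' hne
    rw [Finset.disjoint_left]
    intro x hx hx'
    simp only [hlift, mem_filter] at hx hx'
    obtain ⟨_, z, hz, h1⟩ := hx
    obtain ⟨_, z', hz', h2⟩ := hx'
    have : z = z' := Option.some.inj (h1.symm.trans h2)
    subst this
    exact Finset.disjoint_left.1 (hWd C hC C' hC' hne) hz hz'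
  have hlc : ∀ C ∈ 𝒲, Cyc G (lift C) := fun C hC => KCyc_lift hFG hF hZS hZ (hWs C hC).1 (hWs C hC).2
  refine ⟨𝒲.image lift, ?_, ?_, ?_⟩
  · rw [card_image_of_injOn, hWc]
    intro C hC C' hC' h
    by_contra hne
    have h1 := hld C hC C' hC' hne
    have h2 := (hlc C hC).1
    rw [← h, disjoint_self] at h1
    rw [h1] at h2
    simp at h2
  · intro W hW
    obtain ⟨C, hC, rfl⟩ := mem_image.1 hW
    exact ⟨filter_subset _ _, hlc C hC⟩
  · intro W hW W' hW' hne
    obtain ⟨C, hC, rfl⟩ := mem_image.1 hW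
    obtain ⟨C', hC', rfl⟩ := mem_image.1 hW'
    exact hld C hC C' hC' (fun h => hne (by rw [h]))


end SolSparse
end DisjCyc
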