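import Pool.Agent.Helper470.DC.Slack
import Pool.Agent.Helper470.DC.Upper
set_option autoImplicit false
open scoped Classical
open Finset

namespace DisjCyc

variable {V : Type}

namespace Ctx

variable {G F : SimpleGraph V} {U S Z : Finset V} {d k s' : ℕ}

theorem many' (c : Ctx G F U S Z d k s') {m : ℕ} {J : Finset V}
    (hJ : J ⊆ U \ Xs G F U S Z k) (hfr : ∀ i ∈ J, ∀ j ∈ J, i ≠ j → fr G F S Z k i j) (hm : 2 * m ≤ J.card)
    (Bad : Finset (Finset V)) (hB : Bad.card + 2 * m ≤ 2 * k + 2) :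
    KCyc G (J ∪ (Pc F S Z \ Bad).biUnion id) m := by
  have := many_cycles c.hFG (Pc F S Z) (fun P hP => c.pc_Tr hP) c.pc_dis U c.pc_U (2 * k + 2) m ∅ J
    (by simp) (hJ.trans sdiff_subset) (by simp) (by simp) hfr hm Bad (by simpa using hB)
  simpa using this

/-- perfect pieces which are neither root pieces nor full -/
noncomputable def NPp (G F : SimpleGraph V) (U S Z : Finset V) (d k : ℕ) : Finset (Finset V) :=
  (Pc F S Z).filter (fun T => (¬ RP F Z T ∧ ¬ full G F U S Z d k T) ∧ perfect G F U S Z d k T)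

theorem Qs_empty {T : Finset V} (h : (Xs G F U S Z k).card = 0) :
    Qs G F U S Z d k T = ∅ := by
  rw [card_eq_zero] at h
  unfold Qs
  rw [h]
  simp

theorem Qn_card_eq (c : Ctx G F U S Z d k s') {T : Finset V} (h : (Xs G F U S Z k).card = 0) :
    (Qn G F U S Z d k T).card = (AT G F U S Z d k T).card := by
  rw [← c.card_Q T, ← Q_union, card_union_of_disjoint (Q_disj T), Qs_empty h, card_empty, zero_add]

theorem two_gates (c : Ctx G F U S Z d k s') (hk2 : 2 ≤ k) {z1 z2 : V} (hz1 : z1 ∈ Z) (hz2 : z2 ∈ Z)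
    (hz : z1 ≠ z2) {T1 T1' T2 T2' : Finset V} (hT1 : T1 ∈ NPp G F U S Z d k) (hT1' : T1' ∈ Pc F S Z)
    (hT2 : T2 ∈ Pc F S Z) (hT2' : T2' ∈ Pc F S Z) (h11 : T1 ≠ T1') (h22 : T2 ≠ T2') (h12 : T1 ≠ T2)
    (h12' : T1 ≠ T2') (h21 : T1' ≠ T2) (h21' : T1' ≠ T2') (a1 : ∃ a ∈ T1, F.Adj a z1)
    (a1' : ∃ a ∈ T1', F.Adj a z1) (a2 : ∃ a ∈ T2, F.Adj a z2) (a2' : ∃ a ∈ T2', F.Adj a z2)
    {j1 j2 : V} (hj : j1 ≠ j2) (b1 : j1 ∈ Jn G F U S Z d k T1) (b1' : j1 ∈ Jn G F U S Z d k T1')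
    (b2 : j2 ∈ Jn G F U S Z d k T2) (b2' : j2 ∈ Jn G F U S Z d k T2') : False := by
  rw [NPp, mem_filter] at hT1
  obtain ⟨hT1, ⟨hRP, hfull⟩, hX, hc, hA⟩ := hT1
  have hi : ind G F U S Z d k T1 = 0 := by
    unfold ind; rw [if_neg (by tauto)]
  rw [hi, add_zero, ← c.Qn_card_eq hX, ← c.Jn_card hT1] at hA
  set J := ((Jn G F U S Z d k T1).erase j1).erase j2 with hJ
  have hJs : J ⊆ Jn G F U S Z d k T1 := (erase_subset _ _).trans (erase_subset _ _)
  have hJc : 2 * (k - 2) ≤ J.card := by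
    have e1 : (Jn G F U S Z d k T1).card - 1 ≤ ((Jn G F U S Z d k T1).erase j1).card := pred_card_le_card_erase
    have e2 : ((Jn G F U S Z d k T1).erase j1).card - 1 ≤ J.card := pred_card_le_card_erase
    omega
  have hK := c.many' (m := k - 2) (J := J) (hJs.trans c.Jn_sub)
    (fun i hi j hj => c.Jn_fr hT1 i (hJs hi) j (hJs hj)) hJc {T1, T1', T2, T2'} (by
      have e1 := card_insert_le T1 {T1', T2, T2'}
      have e2 := card_insert_le T1' {T2, T2'}
      have e3 := card_insert_le T2 {T2'}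
      have e4 : ({T2'} : Finset (Finset V)).card = 1 := card_singleton _
      omega)
  have hj1U := (mem_sdiff.1 (c.Jn_sub b1)).1
  have hj2U := (mem_sdiff.1 (c.Jn_sub b2)).1
  have hzU : ∀ z ∈ Z, z ∉ U := fun z hz h => Finset.disjoint_left.1 c.hSU (c.hZ hz) h
  have hzP : ∀ z ∈ Z, ∀ P ∈ Pc F S Z, z ∉ P := fun z hz P hP h => (mem_sdiff.1 (pc_sub hP h)).2 hz
  have hUP : ∀ j ∈ U, ∀ P ∈ Pc F S Z, j ∉ P := fun j hj P hP h => Finset.disjoint_left.1 (c.pc_U P hP) h hj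
  have hzj : ∀ z ∈ Z, ∀ j ∈ U, z ≠ j := fun z hz j hj h => hzU z hz (h ▸ hj)
  have mk : ∀ (z j : V) (T T' : Finset V), z ∈ Z → j ∈ U → T ∈ Pc F S Z → T' ∈ Pc F S Z → T ≠ T' →
      (∃ a ∈ T, F.Adj a z) → (∃ a ∈ T', F.Adj a z) → 1 ≤ dg G T j → 1 ≤ dg G T' j →
      Cyc G (insert z (insert j (T ∪ T'))) := by
    intro z j T T' hz hj hT hT' hTT ha ha' h1 h2
    obtain ⟨a, ha, haz⟩ := ha
    obtain ⟨a', ha', haz'⟩ := ha'
    exact cyc_pair c.hFG (c.pc_Tr hT) (c.pc_Tr hT') (c.pc_dis T hT T' hT' hTT) (hzj z hz j hj) (hzP z hz T hT)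
      (hzP z hz T' hT') (hUP j hj T hT) (hUP j hj T' hT') (one_le_dg ha (c.hFG haz)) h1
      (one_le_dg ha' (c.hFG haz')) h2
  have W1 := mk z1 j1 T1 T1' hz1 hj1U hT1 hT1' h11 a1 a1' (c.Jn_dg b1) (c.Jn_dg b1')
  have W2 := mk z2 j2 T2 T2' hz2 hj2U hT2 hT2' h22 a2 a2' (c.Jn_dg b2) (c.Jn_dg b2')
  have hJU : J ⊆ U := hJs.trans (c.Jn_sub.trans sdiff_subset)
  have hj1J : j1 ∉ J := by simp [hJ]
  have hj2J : j2 ∉ J := by simp [hJ]
  have dis : ∀ (z j : V) (T T' : Finset V), z ∈ Z → j ∈ U → j ∉ J → T ∈ Pc F S Z → T' ∈ Pc F S Z →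
      T ∈ ({T1, T1', T2, T2'} : Finset (Finset V)) → T' ∈ ({T1, T1', T2, T2'} : Finset (Finset V)) →
      Disjoint (insert z (insert j (T ∪ T'))) (J ∪ (Pc F S Z \ {T1, T1', T2, T2'}).biUnion id) := by
    intro z j T T' hz hj hjJ hT hT' hTB hTB'
    rw [Finset.disjoint_left]
    intro x hx hx'
    have hx2 : x = z ∨ x = j ∨ x ∈ T ∨ x ∈ T' := by simpa [mem_insert, mem_union] using hx
    rcases mem_union.1 hx' with hx' | hx'
    · have hxU := hJU hx'
      rcases hx2 with rfl | rfl | h | h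
      · exact hzU _ hz hxU
      · exact hjJ hx'
      · exact hUP x hxU T hT h
      · exact hUP x hxU T' hT' h
    · rw [mem_biUnion] at hx'
      obtain ⟨P, hP, hxP⟩ := hx'
      simp only [id] at hxP
      rw [mem_sdiff] at hP
      rcases hx2 with rfl | rfl | h | h
      · exact hzP _ hz P hP.1 hxP
      · exact hUP _ hj P hP.1 hxP
      · exact Finset.disjoint_left.1 (c.pc_dis T hT P hP.1 (fun e => hP.2 (e ▸ hTB))) h hxP
      · exact Finset.disjoint_left.1 (c.pc_dis T' hT' P hP.1 (fun e => hP.2 (e ▸ hTB'))) h hxP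
  have K1 := KCyc_insert hK W1 (dis z1 j1 T1 T1' hz1 hj1U hj1J hT1 hT1' (by simp) (by simp))
    subset_union_left subset_union_right
  have hd2 : Disjoint (insert z2 (insert j2 (T2 ∪ T2')))
      ((insert z1 (insert j1 (T1 ∪ T1'))) ∪ (J ∪ (Pc F S Z \ {T1, T1', T2, T2'}).biUnion id)) := by
    rw [disjoint_union_right]
    refine ⟨?_, dis z2 j2 T2 T2' hz2 hj2U hj2J hT2 hT2' (by simp) (by simp)⟩
    rw [Finset.disjoint_left]
    intro x hx hx'
    have hx2 : x = z2 ∨ x = j2 ∨ x ∈ T2 ∨ x ∈ T2' := by simpa [mem_insert, mem_union] using hx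
    have hx3 : x = z1 ∨ x = j1 ∨ x ∈ T1 ∨ x ∈ T1' := by simpa [mem_insert, mem_union] using hx'
    rcases hx2 with e | e | h | h <;> rcases hx3 with e' | e' | h' | h'
    · exact hz (e'.symm.trans e)
    · exact hzj z2 hz2 j1 hj1U (e.symm.trans e')
    · exact hzP z2 hz2 T1 hT1 (e ▸ h')
    · exact hzP z2 hz2 T1' hT1' (e ▸ h')
    · exact hzj z1 hz1 j2 hj2U (e'.symm.trans e)
    · exact hj (e'.symm.trans e)
    · exact hUP j2 hj2U T1 hT1 (e ▸ h')
    · exact hUP j2 hj2U T1' hT1' (e ▸ h')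
    · exact hzP z1 hz1 T2 hT2 (e' ▸ h)
    · exact hUP j1 hj1U T2 hT2 (e' ▸ h)
    · exact Finset.disjoint_left.1 (c.pc_dis T1 hT1 T2 hT2 h12) h' h
    · exact Finset.disjoint_left.1 (c.pc_dis T1' hT1' T2 hT2 h21) h' h
    · exact hzP z1 hz1 T2' hT2' (e' ▸ h)
    · exact hUP j1 hj1U T2' hT2' (e' ▸ h)
    · exact Finset.disjoint_left.1 (c.pc_dis T1 hT1 T2' hT2' h12') h' h
    · exact Finset.disjoint_left.1 (c.pc_dis T1' hT1' T2' hT2' h21') h' h
  have K2 := KCyc_insert K1 W2 hd2 subset_union_left subset_union_right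
  rw [show k - 2 + 1 + 1 = k by omega] at K2
  exact c.hK _ K2

/-- count of pieces in NPp -/
theorem card_NPp (c : Ctx G F U S Z d k s') (hk2 : 2 ≤ k) (D : ℕ)
    (hD : ∀ z ∈ Z, dg G (S \ Z) z ≤ D) :
    (NPp G F U S Z d k).card ≤ Z.card * U.card + D := by
  rcases (NPp G F U S Z d k).eq_empty_or_nonempty with he | ⟨T0, hT0⟩
  · rw [he]; simp
  have hgate : ∀ T ∈ NPp G F U S Z d k, ∃ z ∈ Z, ∃ a ∈ T, F.Adj a z := by
    intro T hT
    rw [NPp, mem_filter] at hT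
    have := hT.2.1.1
    unfold RP at this
    push Not at this
    exact this
  have hV : Nonempty V := by
    obtain ⟨z, _⟩ := hgate T0 hT0
    exact ⟨z⟩
  choose! g hg using hgate
  have hJc : ∀ T ∈ NPp G F U S Z d k, (Jn G F U S Z d k T).card = 2 * (k - 1) := by
    intro T hT
    rw [NPp, mem_filter] at hT
    obtain ⟨hT1, ⟨hRP, hfull⟩, hX, hc, hA⟩ := hT
    have hi : ind G F U S Z d k T = 0 := by
      unfold ind; rw [if_neg (by tauto)]
    rw [hi, add_zero, ← c.Qn_card_eq hX, ← c.Jn_card hT1] at hA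
    exact hA
  -- pigeonhole
  have hpig : ∀ z, U.card < ((NPp G F U S Z d k).filter (fun T => g T = z)).card → ∀ j0 : V,
      ∃ T ∈ (NPp G F U S Z d k).filter (fun T => g T = z),
      ∃ T' ∈ (NPp G F U S Z d k).filter (fun T => g T = z), T ≠ T' ∧
      ∃ j, j ≠ j0 ∧ j ∈ Jn G F U S Z d k T ∧ j ∈ Jn G F U S Z d k T' := by
    intro z hz j0
    have hex : ∀ T ∈ (NPp G F U S Z d k).filter (fun T => g T = z), ∃ j, j ≠ j0 ∧ j ∈ Jn G F U S Z d k T := by
      intro T hT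
      have h1 := hJc T (mem_filter.1 hT).1
      have h2 : 1 < (Jn G F U S Z d k T).card := by omega
      obtain ⟨j, hj, hne⟩ := exists_mem_ne h2 j0
      exact ⟨j, hne, hj⟩
    choose! l hl using hex
    obtain ⟨T, hT, T', hT', hne, he⟩ := exists_ne_map_eq_of_card_lt_of_maps_to hz
      (f := l) (t := U) (fun T hT => (mem_sdiff.1 (c.Jn_sub (hl T hT).2)).1)
    exact ⟨T, hT, T', hT', hne, l T, (hl T hT).1, (hl T hT).2, by rw [he]; exact (hl T' hT').2⟩
  -- fibres are small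
  have hfib : ∀ z ∈ Z, ((NPp G F U S Z d k).filter (fun T => g T = z)).card ≤ D := by
    intro z hz
    refine le_trans ?_ (hD z hz)
    have hex : ∀ T ∈ (NPp G F U S Z d k).filter (fun T => g T = z), ∃ a ∈ T, F.Adj a z := by
      intro T hT
      rw [mem_filter] at hT
      have := (hg T hT.1).2
      rw [hT.2] at this
      exact this
    choose! l hl using hex
    unfold dg
    apply card_le_card_of_injOn l
    · intro T hT
      have h1 := hl T hT
      have h2 : T ∈ Pc F S Z := (mem_filter.1 (mem_filter.1 hT).1).1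
      rw [mem_coe, mem_filter]
      exact ⟨pc_sub h2 h1.1, (c.hFG h1.2).symm⟩
    · intro T hT T' hT' he
      by_contra hne
      have h2 : T ∈ Pc F S Z := (mem_filter.1 (mem_filter.1 hT).1).1
      have h2' : T' ∈ Pc F S Z := (mem_filter.1 (mem_filter.1 hT').1).1
      have h3 := (hl T' hT').1
      rw [← he] at h3
      exact Finset.disjoint_left.1 (c.pc_dis T h2 T' h2' hne) (hl T hT).1 h3
  have hsum : (NPp G F U S Z d k).card = ∑ z ∈ Z, ((NPp G F U S Z d k).filter (fun T => g T = z)).card := by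
    apply card_eq_sum_card_fiberwise
    intro T hT
    exact (hg T hT).1
  rw [hsum]
  by_cases hrich : ∃ z0 ∈ Z, U.card < ((NPp G F U S Z d k).filter (fun T => g T = z0)).card
  · obtain ⟨z0, hz0, hr⟩ := hrich
    rw [← add_sum_erase _ _ hz0, add_comm]
    apply Nat.add_le_add _ (hfib z0 hz0)
    refine le_trans ?_ (Nat.mul_le_mul_right _ (card_le_card (erase_subset z0 Z)))
    rw [← smul_eq_mul]
    apply sum_le_card_nsmul
    intro z hz
    by_contra hlt
    push Not at hlt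
    have hzZ := mem_of_mem_erase hz
    obtain ⟨T1, hT1, T1', hT1', h11, j1, _, b1, b1'⟩ := hpig z0 hr z0
    obtain ⟨T2, hT2, T2', hT2', h22, j2, hjj, b2, b2'⟩ := hpig z hlt j1
    rw [mem_filter] at hT1 hT1' hT2 hT2'
    have hpc : ∀ {T : Finset V}, T ∈ NPp G F U S Z d k → T ∈ Pc F S Z := fun h => (mem_filter.1 h).1
    have hzz : z0 ≠ z := (ne_of_mem_erase hz).symm
    have ne : ∀ {T T' : Finset V}, g T = z0 → g T' = z → T ≠ T' := by
      intro T T' h h' e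
      rw [e, h'] at h
      exact hzz h.symm
    have gt : ∀ {T : Finset V} {w : V}, T ∈ NPp G F U S Z d k → g T = w → ∃ a ∈ T, F.Adj a w := by
      intro T w hT hw
      have := (hg T hT).2
      rw [hw] at this
      exact this
    exact c.two_gates hk2 hz0 hzZ hzz hT1.1 (hpc hT1'.1) (hpc hT2.1) (hpc hT2'.1) h11 h22 (ne hT1.2 hT2.2)
      (ne hT1.2 hT2'.2) (ne hT1'.2 hT2.2) (ne hT1'.2 hT2'.2) (gt hT1.1 hT1.2) (gt hT1'.1 hT1'.2)
      (gt hT2.1 hT2.2) (gt hT2'.1 hT2'.2) hjj.symm b1 b1' b2 b2'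
  · push Not at hrich
    refine le_trans ?_ (Nat.le_add_right _ _)
    rw [← smul_eq_mul]
    exact sum_le_card_nsmul _ _ _ hrich

end Ctx

end DisjCyc
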