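import Pool.Agent.Helper470.DC.SolTree
set_option autoImplicit false
open scoped Classical
open Finset

namespace DisjCyc
namespace SolSolo
open SolTree

variable {V : Type}




theorem ts_core {V : Type} {T Q : Finset V} {par : V → V} {dep : V → ℕ} {d : ℕ}
    (hD : ∀ (t : ℕ) (v : V), v ∈ T → t ≤ dep v → par^[t] v ∈ T ∧ dep (par^[t] v) + t = dep v)
    (hQ1 : ∀ q ∈ Q, q ∈ T ∧ 2 * d ≤ dep q)
    (hQ2 : ∀ p ∈ Q, ∀ q ∈ Q, p ≠ q → ∀ a b, a ≤ dep p → b ≤ dep q → par^[a] p = par^[b] q →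
      2 * d ≤ a + b) (p : V) (hpQ : p ∈ Q) :
    ∃ φ : ℕ → ℕ,
      (∀ t ∈ (Icc d (2 * d)).filter (fun t => ∃ q ∈ Q, ∃ u, u < d ∧ par^[t] p = par^[u] q),
        φ t ∈ (Icc d (2 * d)).filter (fun t => ¬ ∃ q ∈ Q, ∃ u, u < d ∧ par^[t] p = par^[u] q)) ∧
      (∀ t1 ∈ (Icc d (2 * d)).filter (fun t => ∃ q ∈ Q, ∃ u, u < d ∧ par^[t] p = par^[u] q),
        ∀ t2 ∈ (Icc d (2 * d)).filter (fun t => ∃ q ∈ Q, ∃ u, u < d ∧ par^[t] p = par^[u] q),
        φ t1 = φ t2 → t1 = t2) ∧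
      (∀ t ∈ (Icc d (2 * d)).filter (fun t => ∃ q ∈ Q, ∃ u, u < d ∧ par^[t] p = par^[u] q),
        φ t < t ∧ ∃ q ∈ Q, ∃ t' b', φ t < t' ∧ t' ≤ t ∧ b' ≤ dep q ∧ par^[t'] p = par^[b'] q ∧
          t' + b' ≤ d + φ t ∧ ∀ b, b ≤ dep q → par^[φ t] p ≠ par^[b] q) := by
  have hch : ∀ t : ℕ, ∃ (q : V) (u : ℕ), (∃ q ∈ Q, ∃ u, u < d ∧ par^[t] p = par^[u] q) →
      q ∈ Q ∧ u < d ∧ par^[t] p = par^[u] q := by
    intro t
    by_cases h : ∃ q ∈ Q, ∃ u, u < d ∧ par^[t] p = par^[u] q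
    · obtain ⟨q, hq, u, hu, e⟩ := h
      exact ⟨q, u, fun _ => ⟨hq, hu, e⟩⟩
    · exact ⟨p, 0, fun h' => absurd h' h⟩
  choose qq uu hqu using hch
  let Sset : V → Set ℕ := fun q => {s | dep p - dep q ≤ s ∧ par^[s] p = par^[s - (dep p - dep q)] q}
  let τ : V → ℕ := fun q => sInf (Sset q)
  obtain ⟨hpT, hpd⟩ := hQ1 p hpQ
  -- depth comparison
  have hdep : ∀ q ∈ Q, ∀ t u, t ≤ 2 * d → u < d → par^[t] p = par^[u] q →
      dep p + u = dep q + t := by
    intro q hq t u ht hu e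
    obtain ⟨hqT, hqd⟩ := hQ1 q hq
    have h1 := (hD t p hpT (by omega)).2
    have h2 := (hD u q hqT (by omega)).2
    rw [e] at h1
    omega
  have key : ∀ t, t ∈ (Icc d (2 * d)).filter (fun t => ∃ q ∈ Q, ∃ u, u < d ∧ par^[t] p = par^[u] q) →
      d ≤ t ∧ t ≤ 2 * d ∧ qq t ∈ Q ∧ qq t ≠ p ∧ uu t < d ∧ dep p + uu t = dep (qq t) + t ∧
      dep p - dep (qq t) ≤ τ (qq t) ∧
      par^[τ (qq t)] p = par^[τ (qq t) - (dep p - dep (qq t))] (qq t) ∧ τ (qq t) ≤ t ∧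
      2 * d ≤ τ (qq t) + (τ (qq t) - (dep p - dep (qq t))) := by
    intro t ht
    rw [mem_filter, mem_Icc] at ht
    obtain ⟨⟨hdt, ht2⟩, hex⟩ := ht
    obtain ⟨hq, hu, e⟩ := hqu t hex
    have hde := hdep (qq t) hq t (uu t) ht2 hu e
    have hne : qq t ≠ p := by
      intro h
      rw [h] at hde
      omega
    have hmemt : t ∈ Sset (qq t) := by
      refine ⟨by omega, ?_⟩
      have : t - (dep p - dep (qq t)) = uu t := by omega
      rw [this]
      exact e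
    have hmem : τ (qq t) ∈ Sset (qq t) := Nat.sInf_mem ⟨t, hmemt⟩
    have hle : τ (qq t) ≤ t := Nat.sInf_le hmemt
    obtain ⟨hm1, hm2⟩ := hmem
    have hb : 2 * d ≤ τ (qq t) + (τ (qq t) - (dep p - dep (qq t))) := by
      apply hQ2 p hpQ (qq t) hq hne.symm _ _ (by omega) _ hm2
      omega
    exact ⟨hdt, ht2, hq, hne, hu, hde, hm1, hm2, hle, hb⟩
  have hmin : ∀ q s, dep p - dep q ≤ s → par^[s] p = par^[s - (dep p - dep q)] q → τ q ≤ s :=
    fun q s h1 h2 => Nat.sInf_le ⟨h1, h2⟩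
  refine ⟨fun t => 2 * τ (qq t) - 1 - t, ?_, ?_, ?_⟩
  · intro t ht
    have ht' := ht
    obtain ⟨hdt, ht2, hq, hne, hu, hde, hm1, hm2, hle, hb⟩ := key t ht'
    obtain ⟨hqT, hqd⟩ := hQ1 _ hq
    set q := qq t with hqdef
    set u := uu t with hudef
    set t' := τ q with ht'def
    have hφ : 2 * t' - 1 - t + t + 1 = 2 * t' := by omega
    have goal : 2 * t' - 1 - t ∈
        (Icc d (2 * d)).filter (fun t => ¬ ∃ q ∈ Q, ∃ u, u < d ∧ par^[t] p = par^[u] q) := by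
      rw [mem_filter, mem_Icc]
      refine ⟨⟨by omega, by omega⟩, ?_⟩
      rintro ⟨q2, hq2, u2, hu2, e2⟩
      obtain ⟨hq2T, hq2d⟩ := hQ1 _ hq2
      have hde2 := hdep q2 hq2 _ u2 (by omega) hu2 e2
      by_cases h1 : q2 = q
      · rw [h1] at e2 hde2
        have h3 := hmin q (2 * t' - 1 - t) (by omega) (by
          have : 2 * t' - 1 - t - (dep p - dep q) = u2 := by omega
          rw [this]; exact e2)
        omega
      · have e3 : par^[t' - (2 * t' - 1 - t) + u2] q2 = par^[t' - (dep p - dep q)] q := by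
          rw [Function.iterate_add_apply, ← e2, ← Function.iterate_add_apply]
          rw [← hm2]
          congr 1
          omega
        have h4 := hQ2 q2 hq2 q hq h1 _ _ (by omega) (by omega) e3
        omega
    simpa using goal
  · intro t1 ht1 t2 ht2 he
    have ht1' := ht1
    have ht2' := ht2
    obtain ⟨hdt1, ht12, hq1, hne1, hu1, hde1, hm11, hm12, hle1, hb1⟩ := key t1 ht1'
    obtain ⟨hdt2, ht22, hq2, hne2, hu2, hde2, hm21, hm22, hle2, hb2⟩ := key t2 ht2'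
    obtain ⟨hq1T, hq1d⟩ := hQ1 _ hq1
    obtain ⟨hq2T, hq2d⟩ := hQ1 _ hq2
    simp only at he
    by_cases hqe : qq t1 = qq t2
    · rw [hqe] at he hm11 hb1 hle1 hde1
      omega
    · exfalso
      rcases le_total (τ (qq t1)) (τ (qq t2)) with hle | hle
      · have e3 : par^[τ (qq t2) - (dep p - dep (qq t1))] (qq t1) =
            par^[τ (qq t2) - (dep p - dep (qq t2))] (qq t2) := by
          rw [← hm22]
          have e4 : τ (qq t2) - (dep p - dep (qq t1)) =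
            (τ (qq t2) - τ (qq t1)) + (τ (qq t1) - (dep p - dep (qq t1))) := by omega
          rw [e4, Function.iterate_add_apply, ← hm12, ← Function.iterate_add_apply]
          congr 1
          omega
        have h4 := hQ2 _ hq1 _ hq2 hqe _ _ (by omega) (by omega) e3
        omega
      · have e3 : par^[τ (qq t1) - (dep p - dep (qq t2))] (qq t2) =
            par^[τ (qq t1) - (dep p - dep (qq t1))] (qq t1) := by
          rw [← hm12]
          have e4 : τ (qq t1) - (dep p - dep (qq t2)) =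
            (τ (qq t1) - τ (qq t2)) + (τ (qq t2) - (dep p - dep (qq t2))) := by omega
          rw [e4, Function.iterate_add_apply, ← hm22, ← Function.iterate_add_apply]
          congr 1
          omega
        have h4 := hQ2 _ hq2 _ hq1 (Ne.symm hqe) _ _ (by omega) (by omega) e3
        omega
  · intro t ht
    obtain ⟨hdt, ht2, hq, hne, hu, hde, hm1, hm2, hle, hb⟩ := key t ht
    obtain ⟨hqT, hqd⟩ := hQ1 _ hq
    refine ⟨?_, qq t, hq, τ (qq t), τ (qq t) - (dep p - dep (qq t)), ?_, hle, ?_, hm2, ?_, ?_⟩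
    · show 2 * τ (qq t) - 1 - t < t
      omega
    · show 2 * τ (qq t) - 1 - t < τ (qq t)
      omega
    · omega
    · show τ (qq t) + (τ (qq t) - (dep p - dep (qq t))) ≤ d + (2 * τ (qq t) - 1 - t)
      omega
    · intro b hb2 he
      have he' : par^[2 * τ (qq t) - 1 - t] p = par^[b] (qq t) := he
      have h5 := (hD (2 * τ (qq t) - 1 - t) p hpT (by omega)).2
      have h6 := (hD b (qq t) hqT hb2).2
      rw [he'] at h5
      have h7 := hmin (qq t) (2 * τ (qq t) - 1 - t) (by omega) (by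
        have : 2 * τ (qq t) - 1 - t - (dep p - dep (qq t)) = b := by omega
        rw [this]; exact he')
      omega


theorem ts_arith (x A n d t : ℕ) (hx : 1 ≤ x) (ht : t ≤ n) (h : n * (d + 2) ≤ 2 * A + t) :
    n * (x * (d + 1)) + n ≤ 2 * (x * A + t) := by
  obtain ⟨y, rfl⟩ : ∃ y, x = y + 1 := ⟨x - 1, by omega⟩
  obtain ⟨m, rfl⟩ : ∃ m, n = t + m := ⟨n - t, by omega⟩
  have h' := Nat.mul_le_mul_left (y + 1) h
  have h'' := Nat.zero_le (y * m)
  nlinarith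

theorem ts_data {V : Type} {T Q : Finset V} {par : V → V} {dep : V → ℕ} {d : ℕ}
    (hD : ∀ (t : ℕ) (v : V), v ∈ T → t ≤ dep v → par^[t] v ∈ T ∧ dep (par^[t] v) + t = dep v)
    (hQ1 : ∀ q ∈ Q, q ∈ T ∧ 2 * d ≤ dep q)
    (hQ2 : ∀ p ∈ Q, ∀ q ∈ Q, p ≠ q → ∀ a b, a ≤ dep p → b ≤ dep q → par^[a] p = par^[b] q →
      2 * d ≤ a + b) (p : V) (hpQ : p ∈ Q)
    (htight : ¬ d + 2 ≤ 2 * ((Icc d (2 * d)).filter
      (fun t => ¬ ∃ q ∈ Q, ∃ u, u < d ∧ par^[t] p = par^[u] q)).card) :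
    ∃ q ∈ Q, ∃ s t' b', d ≤ s ∧ s + 1 ≤ 2 * d ∧ s < t' ∧ t' ≤ 2 * d ∧ b' ≤ dep q ∧
      par^[t'] p = par^[b'] q ∧ t' + b' ≤ d + s ∧ (∀ b, b ≤ dep q → par^[s] p ≠ par^[b] q) ∧
      (¬ ∃ q ∈ Q, ∃ u, u < d ∧ par^[s] p = par^[u] q) := by
  obtain ⟨φ, f1, f2, f3⟩ := ts_core hD hQ1 hQ2 p hpQ
  set Cov := (Icc d (2 * d)).filter (fun t => ∃ q ∈ Q, ∃ u, u < d ∧ par^[t] p = par^[u] q)
    with hCov
  set Unc := (Icc d (2 * d)).filter (fun t => ¬ ∃ q ∈ Q, ∃ u, u < d ∧ par^[t] p = par^[u] q)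
    with hUnc
  have h5 : Cov.card + Unc.card = (Icc d (2 * d)).card :=
    card_filter_add_card_filter_not (s := Icc d (2 * d))
      (fun t => ∃ q ∈ Q, ∃ u, u < d ∧ par^[t] p = par^[u] q)
  have h6 : (Icc d (2 * d)).card = d + 1 := by
    rw [Nat.card_Icc]; omega
  have h7 : 2 * d ∈ Cov := by
    by_contra h8
    have h9 : 2 * d ∈ Unc := by
      rw [hUnc, mem_filter]
      refine ⟨mem_Icc.2 ⟨by omega, le_rfl⟩, fun h10 => h8 ?_⟩
      rw [hCov, mem_filter]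
      exact ⟨mem_Icc.2 ⟨by omega, le_rfl⟩, h10⟩
    have h10 : Cov.card ≤ (Unc.erase (2 * d)).card := by
      apply card_le_card_of_injOn φ
      · intro t ht
        have ht' : t ∈ Cov := ht
        have h11 := f1 t ht'
        have h12 := (f3 t ht').1
        have h13 : t ≤ 2 * d := by
          rw [hCov, mem_filter, mem_Icc] at ht'
          exact ht'.1.2
        show φ t ∈ Unc.erase (2 * d)
        rw [mem_erase]
        exact ⟨by omega, h11⟩
      · intro t1 ht1 t2 ht2 he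
        exact f2 t1 ht1 t2 ht2 he
    rw [card_erase_of_mem h9] at h10
    have h11 : 0 < Unc.card := card_pos.2 ⟨_, h9⟩
    omega
  obtain ⟨g1, q, hq, t', b', g2, g3, g4, g5, g6, g7⟩ := f3 (2 * d) h7
  have h8 := f1 (2 * d) h7
  rw [hUnc, mem_filter, mem_Icc] at h8
  exact ⟨q, hq, φ (2 * d), t', b', h8.1.1, by omega, g2, g3, g4, g5, g6, g7, h8.2⟩

/-- TARGET : improved count when there are only labelled (solo) points; adapt the proofs of cov_le and tree_lemma -/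
theorem tree_solo {V : Type} (F : SimpleGraph V) (hF : Acy F) (T : Finset V) (hT : Tr F T) (r : V) (hr : r ∈ T)
    (d : ℕ) (Q : Finset V) (hQ : Q ⊆ T)
    (h1 : ∀ p ∈ Q, ∀ q ∈ Q, p ≠ q → ∀ R ⊆ T, Tr F R → p ∈ R → q ∈ R → 2 * d + 1 ≤ R.card)
    (h2 : ∀ p ∈ Q, ∀ R ⊆ T, Tr F R → p ∈ R → r ∈ R → 2 * d + 1 ≤ R.card)
    (lab : V → V) (X : Finset V) (hX : 1 ≤ X.card) (hlab : ∀ p ∈ Q, lab p ∈ X)
    (h3 : ∀ p ∈ Q, ∀ q ∈ Q, p ≠ q → lab p = lab q → ∀ R ⊆ T, Tr F R → p ∈ R → q ∈ R → 4 * d + 2 ≤ R.card) :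
    Q.card * (2 * X.card ^ 2 * d + X.card * (d + 1) + 1) ≤ 2 * X.card ^ 2 * T.card := by
  obtain ⟨par, dep, h0, hp⟩ := exists_par F hF r T.card T rfl hT hr
  have hD := it_mem h0 hp
  have hQT : ∀ q ∈ Q, q ∈ T := fun q hq => hQ hq
  have hroot : ∀ v ∈ T, dep v = 0 → v = r := by
    intro v hv hd
    by_contra hne
    have := (hp v hv hne).2.2
    omega
  have hQ1 : ∀ q ∈ Q, q ∈ T ∧ 2 * d ≤ dep q := by
    intro q hq
    refine ⟨hQT q hq, ?_⟩
    have hqT := hQT q hq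
    have h3 := h2 q hq ((range (dep q + 1)).image (fun i => par^[i] q))
      (chain_sub h0 hp q hqT _ le_rfl) (chain_tr hF h0 hp q hqT _ le_rfl)
      (mem_image.2 ⟨0, by simp, rfl⟩) (by
        have h4 := hD (dep q) q hqT le_rfl
        have h5 := hroot _ h4.1 (by omega)
        exact mem_image.2 ⟨dep q, by simp, h5⟩)
    have h6 := card_image_le (s := range (dep q + 1)) (f := fun i => par^[i] q)
    rw [card_range] at h6
    omega
  have hQ2 : ∀ p ∈ Q, ∀ q ∈ Q, p ≠ q → ∀ a b, a ≤ dep p → b ≤ dep q → par^[a] p = par^[b] q →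
      2 * d ≤ a + b := by
    intro p hpQ q hqQ hne a b ha hb e
    obtain ⟨R, hR, hRT, hpR, hqR, hRc⟩ := lca hF h0 hp p q (hQT p hpQ) (hQT q hqQ) a b ha hb e
    have := h1 p hpQ q hqQ hne R hR hRT hpR hqR
    omega
  -- the private paths
  let P : V → Finset V := fun q => (range d).image (fun i => par^[i] q)
  have hPcard : ∀ q ∈ Q, (P q).card = d := by
    intro q hq
    obtain ⟨hqT, hqd⟩ := hQ1 q hq
    simp only [P]
    rw [card_image_of_injOn, card_range]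
    intro i hi j hj hij
    simp only [coe_range, Set.mem_Iio] at hi hj
    have h4 := (hD i q hqT (by omega)).2
    have h5 := (hD j q hqT (by omega)).2
    simp only at hij
    rw [hij] at h4
    omega
  have hPsub : ∀ q ∈ Q, P q ⊆ T := by
    intro q hq w hw
    obtain ⟨hqT, hqd⟩ := hQ1 q hq
    obtain ⟨i, hi, rfl⟩ := mem_image.1 hw
    rw [mem_range] at hi
    exact (hD i q hqT (by omega)).1
  have hPdisj : ∀ p ∈ Q, ∀ q ∈ Q, p ≠ q → Disjoint (P p) (P q) := by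
    intro p hpQ q hqQ hne
    rw [Finset.disjoint_left]
    intro w hw hw'
    obtain ⟨i, hi, rfl⟩ := mem_image.1 hw
    obtain ⟨j, hj, e⟩ := mem_image.1 hw'
    rw [mem_range] at hi hj
    obtain ⟨_, hpd⟩ := hQ1 p hpQ
    obtain ⟨_, hqd⟩ := hQ1 q hqQ
    have := hQ2 p hpQ q hqQ hne i j (by omega) (by omega) e.symm
    omega
  set U := Q.biUnion P with hU
  have hUcard : U.card = Q.card * d := by
    rw [hU, card_biUnion hPdisj, sum_congr rfl hPcard, sum_const, smul_eq_mul]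
  have hUT : U ⊆ T := by
    intro w hw
    obtain ⟨q, hq, hw⟩ := mem_biUnion.1 hw
    exact hPsub q hq hw
  set S := T \ U with hS
  have hTc : T.card = Q.card * d + S.card := by
    rw [← hUcard, hS, card_sdiff_of_subset hUT]
    have := card_le_card hUT
    omega
  have hmemU : ∀ w, w ∈ U ↔ ∃ q ∈ Q, ∃ u, u < d ∧ w = par^[u] q := by
    intro w
    rw [hU, mem_biUnion]
    constructor
    · rintro ⟨q, hq, hw⟩
      obtain ⟨i, hi, e⟩ := mem_image.1 hw
      exact ⟨q, hq, i, mem_range.1 hi, e.symm⟩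
    · rintro ⟨q, hq, u, hu, e⟩
      exact ⟨q, hq, mem_image.2 ⟨u, mem_range.2 hu, e.symm⟩⟩
  let Unc : V → Finset ℕ := fun p =>
    (Icc d (2 * d)).filter (fun t => ¬ ∃ q ∈ Q, ∃ u, u < d ∧ par^[t] p = par^[u] q)
  have hUnc : ∀ p ∈ Q, d + 1 ≤ 2 * (Unc p).card := by
    intro p hpQ
    have h4 := cov_le hD hQ1 hQ2 p hpQ
    have h5 := card_filter_add_card_filter_not (s := Icc d (2 * d))
      (fun t => ∃ q ∈ Q, ∃ u, u < d ∧ par^[t] p = par^[u] q)
    have h6 : (Icc d (2 * d)).card = d + 1 := by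
      rw [Nat.card_Icc]; omega
    simp only [Unc]
    omega
  -- tight points
  set Ti := Q.filter (fun p => ¬ d + 2 ≤ 2 * (Unc p).card) with hTi
  have hdata : ∀ p : V, ∃ (q : V) (s t' b' : ℕ), p ∈ Ti → q ∈ Q ∧ d ≤ s ∧ s + 1 ≤ 2 * d ∧ s < t' ∧
      t' ≤ 2 * d ∧ b' ≤ dep q ∧
      par^[t'] p = par^[b'] q ∧ t' + b' ≤ d + s ∧ (∀ b, b ≤ dep q → par^[s] p ≠ par^[b] q) ∧
      (¬ ∃ q ∈ Q, ∃ u, u < d ∧ par^[s] p = par^[u] q) := by
    intro p
    by_cases hpT : p ∈ Ti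
    · rw [hTi, mem_filter] at hpT
      obtain ⟨q, hq, s, t', b', hh⟩ := ts_data hD hQ1 hQ2 p hpT.1 hpT.2
      exact ⟨q, s, t', b', fun _ => ⟨hq, hh⟩⟩
    · exact ⟨p, 0, 0, 0, fun h => absurd h hpT⟩
  choose ka sa ta ba hka using hdata
  have hTiQ : ∀ p ∈ Ti, p ∈ Q := fun p hp' => (mem_filter.1 hp').1
  -- the near relation
  have hlabne : ∀ (q q' c : V), q ∈ Q → q' ∈ Q → q ≠ q' →
      (∃ R ⊆ T, Tr F R ∧ c ∈ R ∧ q ∈ R ∧ R.card ≤ 2 * d + 1) →
      (∃ R ⊆ T, Tr F R ∧ c ∈ R ∧ q' ∈ R ∧ R.card ≤ 2 * d + 1) → lab q ≠ lab q' := by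
    rintro q q' c hq hq' hne ⟨R, hR, hRT, hcR, hqR, hRc⟩ ⟨R', hR', hRT', hcR', hqR', hRc'⟩ hl
    have h4 := Tr_union hF hRT hRT' ⟨c, mem_inter.2 ⟨hcR, hcR'⟩⟩
    have h5 := h3 q hq q' hq' hne hl (R ∪ R') (union_subset hR hR') h4 (mem_union_left _ hqR)
      (mem_union_right _ hqR')
    have h6 := card_union_add_card_inter R R'
    have h7 : 0 < (R ∩ R').card := card_pos.2 ⟨c, mem_inter.2 ⟨hcR, hcR'⟩⟩
    omega
  set V1 : Finset (V × V) := (Q.sigma Unc).image (fun z => (z.1, par^[z.2] z.1)) with hV1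
  set V2 : Finset (V × V) := Ti.image (fun p => (ka p, par^[sa p] p)) with hV2
  have hV1c : V1.card = ∑ p ∈ Q, (Unc p).card := by
    rw [hV1, card_image_of_injOn, card_sigma]
    rintro ⟨p, t⟩ hz ⟨p', t'⟩ hz' he
    have hz1 : (⟨p, t⟩ : (_ : V) × ℕ) ∈ Q.sigma Unc := hz
    have hz2 : (⟨p', t'⟩ : (_ : V) × ℕ) ∈ Q.sigma Unc := hz'
    rw [mem_sigma] at hz1 hz2
    obtain ⟨hp1, ht1⟩ := hz1
    obtain ⟨hp2, ht2⟩ := hz2
    simp only [Unc, mem_filter, mem_Icc] at hp1 hp2 ht1 ht2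
    have he1 : p = p' := congrArg Prod.fst he
    have he2 : par^[t] p = par^[t'] p' := congrArg Prod.snd he
    subst he1
    obtain ⟨hpT, hpd⟩ := hQ1 p hp1
    have h6 := (hD t p hpT (by omega)).2
    have h7 := (hD t' p hpT (by omega)).2
    rw [he2] at h6
    have : t = t' := by omega
    subst this
    rfl
  have hV2c : Ti.card ≤ X.card * V2.card := by
    refine card_le_mul_card_image_of_maps_to (f := fun p => (ka p, par^[sa p] p))
      (fun p hp' => mem_image_of_mem _ hp') X.card ?_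
    rintro ⟨q, c⟩ _
    apply card_le_card_of_injOn lab
    · intro p hp'
      have hp2 : p ∈ Ti.filter (fun p => (ka p, par^[sa p] p) = (q, c)) := hp'
      exact hlab p (hTiQ p (mem_filter.1 hp2).1)
    · intro p hp' p' hp'' he
      have hp1 : p ∈ Ti.filter (fun p => (ka p, par^[sa p] p) = (q, c)) := hp'
      have hp2 : p' ∈ Ti.filter (fun p => (ka p, par^[sa p] p) = (q, c)) := hp''
      rw [mem_filter] at hp1 hp2
      by_contra hne
      have e1 : par^[sa p] p = c := congrArg Prod.snd hp1.2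
      have e2 : par^[sa p'] p' = c := congrArg Prod.snd hp2.2
      obtain ⟨k1, k2, k3, k4, k5, k6, k7, k8, k9, k10⟩ := hka p hp1.1
      obtain ⟨m1, m2, m3, m4, m5, m6, m7, m8, m9, m10⟩ := hka p' hp2.1
      have hpQ := hTiQ p hp1.1
      have hpQ' := hTiQ p' hp2.1
      obtain ⟨hpT, hpd⟩ := hQ1 p hpQ
      obtain ⟨hpT', hpd'⟩ := hQ1 p' hpQ'
      obtain ⟨R, hR, hRT, hpR, hqR, hRc⟩ := lca hF h0 hp p p' hpT hpT' (sa p) (sa p')
        (by omega) (by omega) (e1.trans e2.symm)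
      have := h3 p hpQ p' hpQ' hne he R hR hRT hpR hqR
      omega
  have hdisj : Disjoint V1 V2 := by
    rw [Finset.disjoint_left]
    intro z hz1 hz2
    obtain ⟨⟨p, t⟩, hpt, rfl⟩ := mem_image.1 hz1
    obtain ⟨p', hp', he⟩ := mem_image.1 hz2
    rw [mem_sigma] at hpt
    obtain ⟨hp1, ht1⟩ := hpt
    simp only [Unc, mem_filter, mem_Icc] at hp1 ht1
    have e1 : ka p' = p := congrArg Prod.fst he
    have e2 : par^[sa p'] p' = par^[t] p := congrArg Prod.snd he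
    obtain ⟨k1, k2, k3, k4, k5, k6, k7, k8, k9, k10⟩ := hka p' hp'
    rw [e1] at k9
    obtain ⟨hpT, hpd⟩ := hQ1 p hp1
    exact k9 t (by omega) e2
  -- properties of views
  have hview : ∀ z ∈ V1 ∪ V2, z.1 ∈ Q ∧ z.2 ∈ S ∧
      ∃ R ⊆ T, Tr F R ∧ z.2 ∈ R ∧ z.1 ∈ R ∧ R.card ≤ 2 * d + 1 := by
    intro z hz
    rcases mem_union.1 hz with hz | hz
    · obtain ⟨⟨p, t⟩, hpt, rfl⟩ := mem_image.1 hz
      rw [mem_sigma] at hpt
      obtain ⟨hp1, ht1⟩ := hpt
      simp only [Unc, mem_filter, mem_Icc] at hp1 ht1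
      obtain ⟨hpT, hpd⟩ := hQ1 p hp1
      have hc := hD t p hpT (by omega)
      refine ⟨hp1, ?_, ?_⟩
      · rw [hS, mem_sdiff, hmemU]
        exact ⟨hc.1, ht1.2⟩
      · obtain ⟨R, hR, hRT, hcR, hpR, hRc⟩ := lca hF h0 hp (par^[t] p) p hc.1 hpT 0 t
          (Nat.zero_le _) (by omega) rfl
        exact ⟨R, hR, hRT, hcR, hpR, by omega⟩
    · obtain ⟨p, hp', rfl⟩ := mem_image.1 hz
      obtain ⟨k1, k2, k3, k4, k5, k6, k7, k8, k9, k10⟩ := hka p hp'
      have hpQ := hTiQ p hp'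
      obtain ⟨hpT, hpd⟩ := hQ1 p hpQ
      obtain ⟨hqT, hqd⟩ := hQ1 _ k1
      have hc := hD (sa p) p hpT (by omega)
      refine ⟨k1, ?_, ?_⟩
      · show par^[sa p] p ∈ S
        rw [hS, mem_sdiff, hmemU]
        exact ⟨hc.1, k10⟩
      · obtain ⟨R, hR, hRT, hcR, hqR, hRc⟩ := lca hF h0 hp (par^[sa p] p) (ka p) hc.1 hqT
          (ta p - sa p) (ba p) (by omega) k6 (by
            rw [← Function.iterate_add_apply, ← k7]
            congr 1
            omega)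
        exact ⟨R, hR, hRT, hcR, hqR, by omega⟩
  have hcount : (V1 ∪ V2).card ≤ X.card * S.card := by
    refine card_le_mul_card_image_of_maps_to (f := Prod.snd)
      (fun z hz => (hview z hz).2.1) X.card ?_
    intro c _
    apply card_le_card_of_injOn (fun z : V × V => lab z.1)
    · intro z hz
      have hz2 : z ∈ (V1 ∪ V2).filter (fun z => z.2 = c) := hz
      exact hlab z.1 (hview z (mem_filter.1 hz2).1).1
    · intro z hz z' hz' he
      have hz1 : z ∈ (V1 ∪ V2).filter (fun z => z.2 = c) := hz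
      have hz2 : z' ∈ (V1 ∪ V2).filter (fun z => z.2 = c) := hz'
      rw [mem_filter] at hz1 hz2
      obtain ⟨a1, a2, a3⟩ := hview z hz1.1
      obtain ⟨b1, b2, b3⟩ := hview z' hz2.1
      rw [hz1.2] at a3
      rw [hz2.2] at b3
      have h5 : z.1 = z'.1 := by
        by_contra hne
        exact hlabne z.1 z'.1 c a1 b1 hne a3 b3 he
      exact Prod.ext h5 (hz1.2.trans hz2.2.symm)
  rw [card_union_of_disjoint hdisj, hV1c] at hcount
  -- sum over Q
  have hsum : Q.card * (d + 2) ≤ 2 * ∑ p ∈ Q, (Unc p).card + Ti.card := by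
    have h4 : ∀ p ∈ Q, d + 2 ≤ 2 * (Unc p).card +
        (if ¬ d + 2 ≤ 2 * (Unc p).card then 1 else 0) := by
      intro p hpQ
      have h5 := hUnc p hpQ
      split_ifs with h6
      · omega
      · push Not at h6
        omega
    have h5 := sum_le_sum h4
    rw [sum_const, smul_eq_mul, sum_add_distrib, ← mul_sum, ← card_filter] at h5
    exact h5
  have hTiQc : Ti.card ≤ Q.card := card_filter_le _ _
  rw [hTc]
  set x := X.card with hx
  set A := ∑ p ∈ Q, (Unc p).card with hA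
  have e1 : x * (A + V2.card) ≤ x * (x * S.card) := Nat.mul_le_mul_left x hcount
  have e3 : x * A + Ti.card ≤ x ^ 2 * S.card := by
    calc x * A + Ti.card ≤ x * A + x * V2.card := Nat.add_le_add_left hV2c _
      _ = x * (A + V2.card) := by ring
      _ ≤ x * (x * S.card) := e1
      _ = x ^ 2 * S.card := by ring
  have e4 : Q.card * (x * (d + 1)) + Q.card ≤ 2 * (x ^ 2 * S.card) := by
    have e5 := ts_arith x A Q.card d Ti.card hX hTiQc hsum
    have e8 := Nat.mul_le_mul_left 2 e3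
    omega
  calc Q.card * (2 * x ^ 2 * d + x * (d + 1) + 1)
      = 2 * x ^ 2 * (Q.card * d) + (Q.card * (x * (d + 1)) + Q.card) := by ring
    _ ≤ 2 * x ^ 2 * (Q.card * d) + 2 * (x ^ 2 * S.card) := Nat.add_le_add_left e4 _
    _ = 2 * x ^ 2 * (Q.card * d + S.card) := by ring


end SolSolo
end DisjCyc
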