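import Pool.Agent.Helper470.DC.SolTree
set_option autoImplicit false
open scoped Classical
open Finset

namespace DisjCyc
namespace SolStrong
open SolTree

variable {V : Type}




/-- TARGET : strong form of the tree lemma (adapt the proof of tree_lemma above) -/
theorem tree_strong {V : Type} (F : SimpleGraph V) (hF : Acy F) (T : Finset V) (hT : Tr F T) (r : V) (hr : r ∈ T)
    (d : ℕ) (Qs Qn : Finset V) (hQs : Qs ⊆ T) (hQn : Qn ⊆ T) (hdisj : Disjoint Qs Qn)
    (h1 : ∀ p ∈ Qs ∪ Qn, ∀ q ∈ Qs ∪ Qn, p ≠ q → ∀ R ⊆ T, Tr F R → p ∈ R → q ∈ R → 2 * d + 1 ≤ R.card)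
    (h2 : ∀ p ∈ Qs ∪ Qn, ∀ R ⊆ T, Tr F R → p ∈ R → r ∈ R → 2 * d + 1 ≤ R.card)
    (lab : V → V) (X : Finset V) (hlab : ∀ p ∈ Qs, lab p ∈ X)
    (h3 : ∀ p ∈ Qs, ∀ q ∈ Qs, p ≠ q → lab p = lab q → ∀ R ⊆ T, Tr F R → p ∈ R → q ∈ R → 4 * d + 2 ≤ R.card) :
    ∃ σ : ℕ, T.card = (Qs ∪ Qn).card * d + σ ∧ ((Qs ∪ Qn).Nonempty → d + 1 ≤ σ) ∧
      Qs.card * (d + 1) ≤ 2 * X.card * σ ∧ (σ ≤ d + 1 → Qs.card ≤ X.card) := by
  obtain ⟨par, dep, h0, hp⟩ := exists_par F hF r T.card T rfl hT hr
  have hD := it_mem h0 hp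
  set Q := Qs ∪ Qn with hQ
  have hQT : ∀ q ∈ Q, q ∈ T := by
    intro q hq
    rcases mem_union.1 hq with h | h
    · exact hQs h
    · exact hQn h
  have hroot : ∀ v ∈ T, dep v = 0 → v = r := by
    intro v hv hd
    by_contra hne
    have := (hp v hv hne).2.2
    omega
  have hQ1 : ∀ q ∈ Q, q ∈ T ∧ 2 * d ≤ dep q := by
    intro q hq
    refine ⟨hQT q hq, ?_⟩
    have hqT := hQT q hq
    have h3 := h2 q hq ((range (dep q + 1)).image (fun i => par^[i] q))
      (chain_sub h0 hp q hqT _ le_rfl) (chain_tr hF h0 hp q hqT _ le_rfl)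
      (mem_image.2 ⟨0, by simp, rfl⟩) (by
        have h4 := hD (dep q) q hqT le_rfl
        have h5 := hroot _ h4.1 (by omega)
        exact mem_image.2 ⟨dep q, by simp, h5⟩)
    have h6 := card_image_le (s := range (dep q + 1)) (f := fun i => par^[i] q)
    rw [card_range] at h6
    omega
  have hQ2 : ∀ p ∈ Q, ∀ q ∈ Q, p ≠ q → ∀ a b, a ≤ dep p → b ≤ dep q → par^[a] p = par^[b] q →
      2 * d ≤ a + b := by
    intro p hpQ q hqQ hne a b ha hb e
    obtain ⟨R, hR, hRT, hpR, hqR, hRc⟩ := lca hF h0 hp p q (hQT p hpQ) (hQT q hqQ) a b ha hb e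
    have := h1 p hpQ q hqQ hne R hR hRT hpR hqR
    omega
  have hQ3 : ∀ p ∈ Qs, ∀ q ∈ Qs, p ≠ q → ∀ a b, a ≤ dep p → b ≤ dep q → par^[a] p = par^[b] q →
      a + b ≤ 4 * d → lab p ≠ lab q := by
    intro p hpQ q hqQ hne a b ha hb e hab hl
    obtain ⟨R, hR, hRT, hpR, hqR, hRc⟩ := lca hF h0 hp p q (hQs hpQ) (hQs hqQ) a b ha hb e
    have := h3 p hpQ q hqQ hne hl R hR hRT hpR hqR
    omega
  -- the private paths
  let P : V → Finset V := fun q => (range d).image (fun i => par^[i] q)
  have hPcard : ∀ q ∈ Q, (P q).card = d := by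
    intro q hq
    obtain ⟨hqT, hqd⟩ := hQ1 q hq
    simp only [P]
    rw [card_image_of_injOn, card_range]
    intro i hi j hj hij
    simp only [coe_range, Set.mem_Iio] at hi hj
    have h4 := (hD i q hqT (by omega)).2
    have h5 := (hD j q hqT (by omega)).2
    simp only at hij
    rw [hij] at h4
    omega
  have hPsub : ∀ q ∈ Q, P q ⊆ T := by
    intro q hq w hw
    obtain ⟨hqT, hqd⟩ := hQ1 q hq
    obtain ⟨i, hi, rfl⟩ := mem_image.1 hw
    rw [mem_range] at hi
    exact (hD i q hqT (by omega)).1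
  have hPdisj : ∀ p ∈ Q, ∀ q ∈ Q, p ≠ q → Disjoint (P p) (P q) := by
    intro p hpQ q hqQ hne
    rw [Finset.disjoint_left]
    intro w hw hw'
    obtain ⟨i, hi, rfl⟩ := mem_image.1 hw
    obtain ⟨j, hj, e⟩ := mem_image.1 hw'
    rw [mem_range] at hi hj
    obtain ⟨_, hpd⟩ := hQ1 p hpQ
    obtain ⟨_, hqd⟩ := hQ1 q hqQ
    have := hQ2 p hpQ q hqQ hne i j (by omega) (by omega) e.symm
    omega
  set U := Q.biUnion P with hU
  have hUcard : U.card = Q.card * d := by
    rw [hU, card_biUnion hPdisj, sum_congr rfl hPcard, sum_const, smul_eq_mul]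
  have hUT : U ⊆ T := by
    intro w hw
    obtain ⟨q, hq, hw⟩ := mem_biUnion.1 hw
    exact hPsub q hq hw
  set S := T \ U with hS
  have hTc : T.card = Q.card * d + S.card := by
    rw [← hUcard, hS, card_sdiff_of_subset hUT]
    have := card_le_card hUT
    omega
  have hmemU : ∀ w, w ∈ U ↔ ∃ q ∈ Q, ∃ u, u < d ∧ w = par^[u] q := by
    intro w
    rw [hU, mem_biUnion]
    constructor
    · rintro ⟨q, hq, hw⟩
      obtain ⟨i, hi, e⟩ := mem_image.1 hw
      exact ⟨q, hq, i, mem_range.1 hi, e.symm⟩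
    · rintro ⟨q, hq, u, hu, e⟩
      exact ⟨q, hq, mem_image.2 ⟨u, mem_range.2 hu, e.symm⟩⟩
  -- step 2
  have hstep2 : Q.Nonempty → d + 1 ≤ S.card := by
    rintro ⟨p, hpQ⟩
    obtain ⟨hpT, hpd⟩ := hQ1 p hpQ
    have h4 : ((range (d + 1)).image (fun i => par^[dep p - i] p)) ⊆ S := by
      intro w hw
      obtain ⟨i, hi, rfl⟩ := mem_image.1 hw
      rw [mem_range] at hi
      have h5 := hD (dep p - i) p hpT (by omega)
      rw [hS, mem_sdiff]
      refine ⟨h5.1, ?_⟩
      rw [hmemU]
      rintro ⟨q, hq, u, hu, e⟩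
      obtain ⟨hqT, hqd⟩ := hQ1 q hq
      have h6 := (hD u q hqT (by omega)).2
      rw [e] at h5
      omega
    have h5 : ((range (d + 1)).image (fun i => par^[dep p - i] p)).card = d + 1 := by
      rw [card_image_of_injOn, card_range]
      intro i hi j hj hij
      simp only [coe_range, Set.mem_Iio] at hi hj
      have h6 := (hD (dep p - i) p hpT (by omega)).2
      have h7 := (hD (dep p - j) p hpT (by omega)).2
      simp only at hij
      rw [hij] at h6
      omega
    rw [← h5]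
    exact card_le_card h4
  -- step 3
  let Unc : V → Finset ℕ := fun p =>
    (Icc d (2 * d)).filter (fun t => ¬ ∃ q ∈ Q, ∃ u, u < d ∧ par^[t] p = par^[u] q)
  have hUnc : ∀ p ∈ Q, d + 1 ≤ 2 * (Unc p).card := by
    intro p hpQ
    have h4 := cov_le hD hQ1 hQ2 p hpQ
    have h5 := card_filter_add_card_filter_not (s := Icc d (2 * d))
      (fun t => ∃ q ∈ Q, ∃ u, u < d ∧ par^[t] p = par^[u] q)
    have h6 : (Icc d (2 * d)).card = d + 1 := by
      rw [Nat.card_Icc]; omega
    simp only [Unc]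
    omega
  have hcount : ∑ p ∈ Qs, (Unc p).card ≤ S.card * X.card := by
    have h4 : ∑ p ∈ Qs, (Unc p).card = (Qs.sigma Unc).card := by
      rw [card_sigma]
    rw [h4]
    have h5 : ∀ z ∈ Qs.sigma Unc, par^[z.2] z.1 ∈ S := by
      rintro ⟨p, t⟩ hz
      obtain ⟨hpQs, ht⟩ := mem_sigma.1 hz
      simp only [Unc, mem_filter, mem_Icc] at ht
      have hpQ : p ∈ Q := mem_union_left _ hpQs
      obtain ⟨hpT, hpd⟩ := hQ1 p hpQ
      rw [hS, mem_sdiff]
      refine ⟨(hD t p hpT (by omega)).1, ?_⟩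
      rw [hmemU]
      exact ht.2
    refine (card_le_mul_card_image_of_maps_to h5 X.card ?_).trans (by rw [mul_comm])
    intro c hc
    apply card_le_card_of_injOn (fun z : (_ : V) × ℕ => lab z.1)
    · rintro ⟨p, t⟩ hz
      have hz' : (⟨p, t⟩ : (_ : V) × ℕ) ∈ (Qs.sigma Unc).filter (fun z => par^[z.2] z.1 = c) := by
        simpa using hz
      rw [mem_filter] at hz'
      have := hlab p (mem_sigma.1 hz'.1).1
      simpa using this
    · rintro ⟨p, t⟩ hz ⟨p', t2⟩ hz2 he
      have hz' : (⟨p, t⟩ : (_ : V) × ℕ) ∈ (Qs.sigma Unc).filter (fun z => par^[z.2] z.1 = c) := by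
        simpa using hz
      have hz2' : (⟨p', t2⟩ : (_ : V) × ℕ) ∈ (Qs.sigma Unc).filter (fun z => par^[z.2] z.1 = c) := by
        simpa using hz2
      rw [mem_filter, mem_sigma] at hz' hz2'
      obtain ⟨⟨hpQs, ht⟩, e1⟩ := hz'
      obtain ⟨⟨hpQs2, ht2⟩, e2⟩ := hz2'
      simp only [Unc, mem_filter, mem_Icc] at ht ht2 hpQs hpQs2 e1 e2
      have hpQ : p ∈ Q := mem_union_left _ hpQs
      have hpQ2 : p' ∈ Q := mem_union_left _ hpQs2
      obtain ⟨hpT, hpd⟩ := hQ1 p hpQ
      obtain ⟨hpT2, hpd2⟩ := hQ1 p' hpQ2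
      have hpp : p = p' := by
        by_contra hne
        exact hQ3 p hpQs p' hpQs2 hne t t2 (by omega) (by omega) (e1.trans e2.symm) (by omega) he
      subst hpp
      have h6 := (hD t p hpT (by omega)).2
      have h7 := (hD t2 p hpT (by omega)).2
      rw [e1] at h6
      rw [e2] at h7
      have : t = t2 := by omega
      subst this
      rfl
  have hs3 : Qs.card * (d + 1) ≤ 2 * X.card * S.card := by
    have h4 : ∑ p ∈ Qs, (d + 1) ≤ ∑ p ∈ Qs, 2 * (Unc p).card :=
      sum_le_sum (fun p hp' => hUnc p (mem_union_left _ hp'))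
    rw [sum_const, smul_eq_mul, ← mul_sum] at h4
    calc Qs.card * (d + 1) ≤ 2 * ∑ p ∈ Qs, (Unc p).card := h4
      _ ≤ 2 * (S.card * X.card) := Nat.mul_le_mul_left 2 hcount
      _ = 2 * X.card * S.card := by ring
  have hs4 : S.card ≤ d + 1 → Qs.card ≤ X.card := by
    intro hSc
    rcases Qs.eq_empty_or_nonempty with hemp | ⟨p, hpQs⟩
    · rw [hemp]; simp
    · have hpQ : p ∈ Q := mem_union_left _ hpQs
      obtain ⟨hpT, hpd⟩ := hQ1 p hpQ
      have h4 : ((range (d + 1)).image (fun i => par^[dep p - i] p)) ⊆ S := by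
        intro w hw
        obtain ⟨i, hi, rfl⟩ := mem_image.1 hw
        rw [mem_range] at hi
        have h5 := hD (dep p - i) p hpT (by omega)
        rw [hS, mem_sdiff]
        refine ⟨h5.1, ?_⟩
        rw [hmemU]
        rintro ⟨q, hq, u, hu, e⟩
        obtain ⟨hqT, hqd⟩ := hQ1 q hq
        have h6 := (hD u q hqT (by omega)).2
        rw [e] at h5
        omega
      have h5 : ((range (d + 1)).image (fun i => par^[dep p - i] p)).card = d + 1 := by
        rw [card_image_of_injOn, card_range]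
        intro i hi j hj hij
        simp only [coe_range, Set.mem_Iio] at hi hj
        have h6 := (hD (dep p - i) p hpT (by omega)).2
        have h7 := (hD (dep p - j) p hpT (by omega)).2
        simp only at hij
        rw [hij] at h6
        omega
      have hSeq : ((range (d + 1)).image (fun i => par^[dep p - i] p)) = S :=
        eq_of_subset_of_card_le h4 (by rw [h5]; exact hSc)
      have hSd : ∀ w ∈ S, dep w ≤ d ∧ w = par^[dep p - dep w] p := by
        intro w hw
        rw [← hSeq] at hw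
        obtain ⟨i, hi, hw'⟩ := mem_image.1 hw
        rw [mem_range] at hi
        have h6 := (hD (dep p - i) p hpT (by omega)).2
        have hw2 : par^[dep p - i] p = w := hw'
        rw [hw2] at h6
        have h7 : dep w = i := by omega
        refine ⟨by omega, ?_⟩
        rw [h7]
        exact hw2.symm
      have hmid : ∀ q ∈ Qs, par^[d] q ∈ S ∧ dep (par^[d] q) = d := by
        intro q hqQs
        have hqQ : q ∈ Q := mem_union_left _ hqQs
        obtain ⟨hqT, hqd⟩ := hQ1 q hqQ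
        have h8 := hD d q hqT (by omega)
        have h9 : par^[d] q ∈ S := by
          rw [hS, mem_sdiff]
          refine ⟨h8.1, ?_⟩
          rw [hmemU]
          rintro ⟨q', hq', u, hu, e⟩
          obtain ⟨hqT', hqd'⟩ := hQ1 q' hq'
          by_cases hqq : q = q'
          · subst hqq
            have h10 := (hD u q hqT (by omega)).2
            rw [← e] at h10
            omega
          · have := hQ2 q hqQ q' hq' hqq d u (by omega) (by omega) e
            omega
        refine ⟨h9, ?_⟩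
        have := (hSd _ h9).1
        omega
      apply card_le_card_of_injOn lab
      · intro q hq
        have hq' : q ∈ Qs := by simpa using hq
        simpa using hlab q hq'
      · intro q hq q' hq' hl
        have hq1 : q ∈ Qs := by simpa using hq
        have hq2 : q' ∈ Qs := by simpa using hq'
        by_contra hne
        obtain ⟨m1, m2⟩ := hmid q hq1
        obtain ⟨m3, m4⟩ := hmid q' hq2
        have e1 := (hSd _ m1).2
        have e2 := (hSd _ m3).2
        rw [m2] at e1
        rw [m4] at e2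
        have hd1 := (hQ1 q (mem_union_left _ hq1)).2
        have hd2 := (hQ1 q' (mem_union_left _ hq2)).2
        exact hQ3 q hq1 q' hq2 hne d d (by omega) (by omega) (e1.trans e2.symm) (by omega) hl
  exact ⟨S.card, hTc, hstep2, hs3, hs4⟩


end SolStrong
end DisjCyc
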