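import Pool.Agent.Helper470.DC.Piece
import Pool.Agent.Helper470.DC.SolStrong
import Pool.Agent.Helper470.DC.SolSolo
set_option autoImplicit false
open scoped Classical
open Finset

namespace DisjCyc

variable {V : Type}

/-- arithmetic: case with non-solo labels -/
theorem slack_arith1 (K κ x d v σ a t cs cn : ℕ) (hv : v = (2 * K + 1) * d + 1) (hK : K = κ + x) (hκ : 1 ≤ κ)
    (ha : a = cs + cn) (ht : t = a * d + σ) (h1 : 1 ≤ a → d + 1 ≤ σ) (h2 : cs * (d + 1) ≤ 2 * x * σ)
    (h3 : σ ≤ d + 1 → cs ≤ x) (h4 : cn ≤ 2 * κ) (ht1 : 1 ≤ t) (sl : ℕ) (hsl : a * v + sl = 2 * K * t) :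
    t ≤ ((2 * K + 1) * (d + 2) + v) * sl ∨ (x = 0 ∧ t = v ∧ a = 2 * K) := by
  have hsl2 : a * (d + 1) + sl = 2 * K * σ := by
    rw [ht, hv] at hsl
    have e1 : a * ((2 * K + 1) * d + 1) + sl = a * (d + 1) + sl + 2 * K * (a * d) := by ring
    have e2 : 2 * K * (a * d + σ) = 2 * K * σ + 2 * K * (a * d) := by ring
    rw [e1, e2] at hsl
    omega
  by_cases ha0 : a = 0
  · left
    subst ha0
    have : sl = 2 * K * t := by omega
    rw [this]
    have hK1 : 1 ≤ K := by omega
    calc t ≤ 1 * (1 * t) := by omega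
      _ ≤ ((2 * K + 1) * (d + 2) + v) * (2 * K * t) := by
        apply Nat.mul_le_mul
        · have : 0 < (2 * K + 1) * (d + 2) := by positivity
          omega
        · apply Nat.mul_le_mul_right; omega
  have h1 := h1 (by omega)
  by_cases hσ : σ ≤ d + 1
  · have hσ' : σ = d + 1 := by omega
    have h3 := h3 hσ
    have ha2 : a ≤ 2 * κ + x := by omega
    have hsl3 : sl = (2 * K - a) * (d + 1) := by
      rw [hσ'] at hsl2
      rw [Nat.sub_mul]
      omega
    by_cases hak : a = 2 * K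
    · right
      refine ⟨by omega, ?_, hak⟩
      rw [ht, hak, hσ', hv]; ring
    · left
      have hsl4 : 1 ≤ sl := by
        rw [hsl3]
        have : 1 ≤ 2 * K - a := by omega
        nlinarith
      have htv : t ≤ v := by
        rw [ht, hσ', hv]
        have : a * d ≤ 2 * K * d := Nat.mul_le_mul_right _ (by omega)
        nlinarith
      calc t ≤ v * 1 := by omega
        _ ≤ ((2 * K + 1) * (d + 2) + v) * sl := by
          apply Nat.mul_le_mul
          · omega
          · exact hsl4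
  · left
    push Not at hσ
    -- |T| ≤ (2K+1) σ
    have htσ : t ≤ (2 * K + 1) * σ := by
      have e1 : cs * d ≤ cs * (d + 1) := Nat.mul_le_mul_left _ (by omega)
      have e2 : cn * d ≤ 2 * κ * σ := Nat.mul_le_mul h4 (by omega)
      rw [ht, ha, hK]
      have e3 : (cs + cn) * d = cs * d + cn * d := by ring
      rw [e3]
      have e4 : (2 * (κ + x) + 1) * σ = 2 * κ * σ + 2 * x * σ + σ := by ring
      rw [e4]
      omega
    -- sl ≥ 2κ(σ - (d+1))
    have hsl5 : 2 * κ * σ ≤ sl + 2 * κ * (d + 1) := by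
      have e1 : cn * (d + 1) ≤ 2 * κ * (d + 1) := Nat.mul_le_mul_right _ h4
      have e2 : a * (d + 1) = cs * (d + 1) + cn * (d + 1) := by rw [ha]; ring
      have e3 : 2 * K * σ = 2 * κ * σ + 2 * x * σ := by rw [hK]; ring
      omega
    have hσ2 : σ ≤ (d + 2) * sl := by
      obtain ⟨m, hm⟩ : ∃ m, σ = d + 1 + (m + 1) := ⟨σ - (d + 2), by omega⟩
      rw [hm] at hsl5 ⊢
      have e1 : 2 * κ * (d + 1 + (m + 1)) = 2 * κ * (d + 1) + 2 * κ * (m + 1) := by ring
      rw [e1] at hsl5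
      have e2 : 1 * (m + 1) ≤ 2 * κ * (m + 1) := Nat.mul_le_mul_right _ (by omega)
      have e3 : m + 1 ≤ sl := by omega
      calc d + 1 + (m + 1) ≤ (d + 2) * (m + 1) := by nlinarith
        _ ≤ (d + 2) * sl := Nat.mul_le_mul_left _ e3
    calc t ≤ (2 * K + 1) * σ := htσ
      _ ≤ (2 * K + 1) * ((d + 2) * sl) := Nat.mul_le_mul_left _ hσ2
      _ = (2 * K + 1) * (d + 2) * sl := by ring
      _ ≤ ((2 * K + 1) * (d + 2) + v) * sl := Nat.mul_le_mul_right _ (by omega)

theorem slack_arith2 (K d v a t : ℕ) (hv : v = (2 * K + 1) * d + 1) (hK : 1 ≤ K)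
    (h : a * (2 * K ^ 2 * d + K * (d + 1) + 1) ≤ 2 * K ^ 2 * t) (sl : ℕ) (hsl : a * v + sl = 2 * K * t) :
    t ≤ (1 + v * K) * sl := by
  -- K * sl ≥ a
  have h1 : a ≤ K * sl := by
    have e1 : K * (a * v + sl) = K * (2 * K * t) := by rw [hsl]
    have e2 : K * (a * v + sl) + a = a * (2 * K ^ 2 * d + K * (d + 1) + 1) + K * sl := by rw [hv]; ring
    have e3 : K * (2 * K * t) = 2 * K ^ 2 * t := by ring
    omega
  have h2 : 2 * K * t ≤ (v * K + 1) * sl := by
    rw [← hsl]
    have : a * v ≤ K * sl * v := Nat.mul_le_mul_right _ h1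
    nlinarith
  have h3 : 1 * t ≤ 2 * K * t := Nat.mul_le_mul_right _ (by omega)
  rw [add_comm 1]
  omega

namespace Ctx

variable {G F : SimpleGraph V} {U S Z : Finset V} {d k s' : ℕ}

/-- constant -/
def C1 (k d : ℕ) : ℕ := (1 + ((2 * (k - 1) + 1) * d + 1) * (k - 1)) + (2 * (k - 1) + 1) * (d + 2) +
  ((2 * (k - 1) + 1) * d + 1)

theorem tree_slack (c : Ctx G F U S Z d k s') (hk2 : 2 ≤ k) {T : Finset V} (hT : T ∈ Pc F S Z) (r : V) (hr : r ∈ T)
    (Q1 Q2 : Finset V) (h1 : Q1 ⊆ Qs G F U S Z d k T) (h2 : Q2 ⊆ Qn G F U S Z d k T)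
    (hc : Q2.card ≤ 2 * (k - 1 - (Xs G F U S Z k).card))
    (hroot : ∀ p ∈ Q1 ∪ Q2, ∀ R ⊆ T, Tr F R → p ∈ R → r ∈ R → 2 * d + 1 ≤ R.card)
    (sl : ℕ) (hsl : (Q1.card + Q2.card) * ((2 * (k - 1) + 1) * d + 1) + sl = 2 * (k - 1) * T.card) :
    T.card ≤ C1 k d * sl ∨ ((Xs G F U S Z k).card = 0 ∧ T.card = (2 * (k - 1) + 1) * d + 1 ∧
      Q1.card + Q2.card = 2 * (k - 1)) := by
  have hX := c.X_card
  have hTS : T ⊆ S := (pc_sub hT).trans sdiff_subset
  have hQ1 : ∀ p ∈ Q1, p ∈ T ∧ (p, lab G F U S Z d k p) ∈ A G F U S Z d k ∧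
      lab G F U S Z d k p ∈ Xs G F U S Z k := by
    intro p hp
    have := h1 hp
    rw [Qs, mem_filter, c.mem_Q] at this
    exact ⟨this.1.1, this.1.2, this.2⟩
  have hQ2 : ∀ p ∈ Q2, p ∈ T ∧ (p, lab G F U S Z d k p) ∈ A G F U S Z d k := by
    intro p hp
    have := h2 hp
    rw [c.mem_Qn] at this
    exact ⟨this.1, this.2.1⟩
  have hQ12 : ∀ p ∈ Q1 ∪ Q2, p ∈ T ∧ (p, lab G F U S Z d k p) ∈ A G F U S Z d k := by
    intro p hp
    rcases mem_union.1 hp with h | h
    · exact ⟨(hQ1 p h).1, (hQ1 p h).2.1⟩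
    · exact hQ2 p h
  have hdis : Disjoint Q1 Q2 := (Q_disj T).mono h1 h2
  have hTpos : 1 ≤ T.card := card_pos.2 (c.pc_Tr hT).1
  by_cases hκ : 1 ≤ k - 1 - (Xs G F U S Z k).card
  · obtain ⟨σ, g1, g2, g3, g4⟩ := SolStrong.tree_strong F c.hF T (c.pc_Tr hT) r hr d Q1 Q2 (fun p hp => (hQ1 p hp).1)
      (fun p hp => (hQ2 p hp).1) hdis
      (fun p hp q hq hpq R hR hRT hpR hqR =>
        (c.far_all (hQ12 p hp).2 (hQ12 q hq).2 hpq (hR.trans hTS) hRT hpR hqR).1)
      hroot (lab G F U S Z d k) (Xs G F U S Z k) (fun p hp => (hQ1 p hp).2.2)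
      (fun p hp q hq hpq hl R hR hRT hpR hqR =>
        (c.far_all (hQ1 p hp).2.1 (hQ1 q hq).2.1 hpq (hR.trans hTS) hRT hpR hqR).2 hl)
    rw [card_union_of_disjoint hdis] at g1
    have g2' : 1 ≤ Q1.card + Q2.card → d + 1 ≤ σ := by
      intro h
      apply g2
      rw [← card_pos, card_union_of_disjoint hdis]
      omega
    have key := slack_arith1 (k - 1) (k - 1 - (Xs G F U S Z k).card) (Xs G F U S Z k).card d
      ((2 * (k - 1) + 1) * d + 1) σ (Q1.card + Q2.card) T.card Q1.card Q2.card rfl (by omega) hκ rfl g1 g2' g3 g4 hc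
      hTpos sl hsl
    rcases key with h | h
    · left
      refine h.trans (Nat.mul_le_mul_right _ ?_)
      unfold C1
      omega
    · right; exact h
  · -- κ = 0
    left
    have hQ2e : Q2 = ∅ := by
      rw [← card_eq_zero]; omega
    have hXe : (Xs G F U S Z k).card = k - 1 := by omega
    have g := SolSolo.tree_solo F c.hF T (c.pc_Tr hT) r hr d Q1 (fun p hp => (hQ1 p hp).1)
      (fun p hp q hq hpq R hR hRT hpR hqR =>
        (c.far_all (hQ1 p hp).2.1 (hQ1 q hq).2.1 hpq (hR.trans hTS) hRT hpR hqR).1)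
      (fun p hp => hroot p (mem_union_left _ hp)) (lab G F U S Z d k) (Xs G F U S Z k) (by omega)
      (fun p hp => (hQ1 p hp).2.2)
      (fun p hp q hq hpq hl R hR hRT hpR hqR =>
        (c.far_all (hQ1 p hp).2.1 (hQ1 q hq).2.1 hpq (hR.trans hTS) hRT hpR hqR).2 hl)
    rw [hXe] at g
    rw [hQ2e, card_empty, add_zero] at hsl
    have := slack_arith2 (k - 1) d ((2 * (k - 1) + 1) * d + 1) Q1.card T.card rfl (by omega) g sl hsl
    refine this.trans (Nat.mul_le_mul_right _ ?_)
    unfold C1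
    omega

/-- indicator of root pieces and full pieces -/
noncomputable def ind (G F : SimpleGraph V) (U S Z : Finset V) (d k : ℕ) (T : Finset V) : ℕ :=
  if RP F Z T ∨ full G F U S Z d k T then 1 else 0

def perfect (G F : SimpleGraph V) (U S Z : Finset V) (d k : ℕ) (T : Finset V) : Prop :=
  (Xs G F U S Z k).card = 0 ∧ T.card = (2 * (k - 1) + 1) * d + 1 ∧
    (AT G F U S Z d k T).card = 2 * (k - 1) + ind G F U S Z d k T

/-- slack of a piece -/
theorem piece_slack (c : Ctx G F U S Z d k s') (hk2 : 2 ≤ k) {T : Finset V} (hT : T ∈ Pc F S Z) :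
    ∃ sl, (AT G F U S Z d k T).card * ((2 * (k - 1) + 1) * d + 1) + sl = 2 * (k - 1) * T.card +
      ind G F U S Z d k T * ((2 * (k - 1) + 1) * d + 1) ∧
      (T.card ≤ C1 k d * sl ∨ perfect G F U S Z d k T) := by
  unfold perfect
  rw [← c.card_Q T, ← Q_union, card_union_of_disjoint (Q_disj T)]
  have hX := c.X_card
  have hQn := c.Qn_card hT
  have hTS : T ⊆ S := (pc_sub hT).trans sdiff_subset
  have hTne : T.Nonempty := (c.pc_Tr hT).1
  have hC1 : 1 ≤ C1 k d := by unfold C1; omega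
  have hrootQ : ∀ p0 ∈ Q G F U S Z d k T, ∀ p ∈ Q G F U S Z d k T, p ≠ p0 → ∀ R ⊆ T, Tr F R → p ∈ R → p0 ∈ R →
      2 * d + 1 ≤ R.card := by
    intro p0 hp0 p hp hne R hR hRT hpR hp0R
    rw [c.mem_Q] at hp0 hp
    exact (c.far_all hp.2 hp0.2 hne (hR.trans hTS) hRT hpR hp0R).1
  have hQsQ : Qs G F U S Z d k T ⊆ Q G F U S Z d k T := filter_subset _ _
  have hQnQ : Qn G F U S Z d k T ⊆ Q G F U S Z d k T := filter_subset _ _
  -- removing one element of Qn
  have remN : ∀ r ∈ T, ∀ p0 ∈ Qn G F U S Z d k T, ind G F U S Z d k T = 1 →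
      (∀ p ∈ Qs G F U S Z d k T ∪ (Qn G F U S Z d k T).erase p0, ∀ R ⊆ T, Tr F R → p ∈ R → r ∈ R →
        2 * d + 1 ≤ R.card) →
      ∃ sl, ((Qs G F U S Z d k T).card + (Qn G F U S Z d k T).card) * ((2 * (k - 1) + 1) * d + 1) + sl =
        2 * (k - 1) * T.card + ind G F U S Z d k T * ((2 * (k - 1) + 1) * d + 1) ∧
      (T.card ≤ C1 k d * sl ∨ (Xs G F U S Z k).card = 0 ∧ T.card = (2 * (k - 1) + 1) * d + 1 ∧
        (Qs G F U S Z d k T).card + (Qn G F U S Z d k T).card = 2 * (k - 1) + ind G F U S Z d k T) := by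
    intro r hr p0 hp0 hi hroot
    have h2 : (Qn G F U S Z d k T).card = ((Qn G F U S Z d k T).erase p0).card + 1 := by
      rw [card_erase_of_mem hp0]
      have := card_pos.2 ⟨p0, hp0⟩
      omega
    have h := c.tree_app hT r hr (Qs G F U S Z d k T) ((Qn G F U S Z d k T).erase p0)
      (Subset.refl _) (erase_subset _ _) (by omega) hroot
    obtain ⟨sl, hsl⟩ := Nat.exists_eq_add_of_le h
    have h' := c.tree_slack hk2 hT r hr (Qs G F U S Z d k T) ((Qn G F U S Z d k T).erase p0)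
      (Subset.refl _) (erase_subset _ _) (by omega) hroot sl hsl.symm
    refine ⟨sl, ?_, ?_⟩
    · rw [hi, h2, ← add_assoc, add_mul, one_mul, hsl]; omega
    · rcases h' with h' | h'
      · exact Or.inl h'
      · exact Or.inr ⟨h'.1, h'.2.1, by rw [hi, h2, ← add_assoc, h'.2.2]⟩
  by_cases hRP : RP F Z T
  · have hi : ind G F U S Z d k T = 1 := by unfold ind; rw [if_pos (Or.inl hRP)]
    by_cases hn : (Qn G F U S Z d k T).Nonempty
    · obtain ⟨p0, hp0⟩ := hn
      refine remN p0 ((c.mem_Qn.1 hp0).1) p0 hp0 hi ?_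
      intro p hp
      refine hrootQ p0 (hQnQ hp0) p ?_ ?_
      · rcases mem_union.1 hp with h | h
        · exact hQsQ h
        · exact hQnQ (mem_of_mem_erase h)
      · rcases mem_union.1 hp with h | h
        · rintro rfl
          exact Finset.disjoint_left.1 (Q_disj T) h hp0
        · exact ne_of_mem_erase h
    · rw [not_nonempty_iff_eq_empty] at hn
      rw [hn, card_empty, add_zero, hi]
      by_cases hs : (Qs G F U S Z d k T).Nonempty
      · obtain ⟨p0, hp0⟩ := hs
        have h2 : (Qs G F U S Z d k T).card = ((Qs G F U S Z d k T).erase p0).card + 1 := by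
          rw [card_erase_of_mem hp0]
          have := card_pos.2 ⟨p0, hp0⟩
          omega
        have hroot : ∀ p ∈ (Qs G F U S Z d k T).erase p0 ∪ (∅ : Finset V), ∀ R ⊆ T, Tr F R → p ∈ R → p0 ∈ R →
            2 * d + 1 ≤ R.card := by
          intro p hp
          rw [union_empty] at hp
          exact hrootQ p0 (hQsQ hp0) p (hQsQ (mem_of_mem_erase hp)) (ne_of_mem_erase hp)
        have h := c.tree_app hT p0 ((c.mem_Q.1 (hQsQ hp0)).1) ((Qs G F U S Z d k T).erase p0) ∅
          (erase_subset _ _) (by simp) (by simp) hroot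
        obtain ⟨sl, hsl⟩ := Nat.exists_eq_add_of_le h
        have h' := c.tree_slack hk2 hT p0 ((c.mem_Q.1 (hQsQ hp0)).1) ((Qs G F U S Z d k T).erase p0) ∅
          (erase_subset _ _) (by simp) (by simp) hroot sl hsl.symm
        rw [card_empty, add_zero] at hsl h'
        refine ⟨sl, ?_, ?_⟩
        · rw [h2, add_mul, one_mul, hsl]; omega
        · rcases h' with h' | h'
          · exact Or.inl h'
          · exact Or.inr ⟨h'.1, h'.2.1, by rw [h2, h'.2.2]⟩
      · rw [not_nonempty_iff_eq_empty] at hs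
        rw [hs, card_empty]
        refine ⟨2 * (k - 1) * T.card + 1 * ((2 * (k - 1) + 1) * d + 1), by omega, Or.inl ?_⟩
        have e1 : 1 * T.card ≤ 2 * (k - 1) * T.card := Nat.mul_le_mul_right _ (by omega)
        calc T.card ≤ 1 * (2 * (k - 1) * T.card + 1 * ((2 * (k - 1) + 1) * d + 1)) := by omega
          _ ≤ _ := Nat.mul_le_mul_right _ hC1
  · have hgate := hRP
    unfold RP at hgate
    push Not at hgate
    obtain ⟨z, hz, a, ha, haz⟩ := hgate
    have hroot : ∀ p ∈ Q G F U S Z d k T, ∀ R ⊆ T, Tr F R → p ∈ R → a ∈ R → 2 * d + 1 ≤ R.card := by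
      intro p hp R hR hRT hpR haR
      rw [c.mem_Q] at hp
      exact c.far_gate hp.2 hz haz (hR.trans (pc_sub hT)) hRT hpR haR
    by_cases hf : full G F U S Z d k T
    · have hi : ind G F U S Z d k T = 1 := by unfold ind; rw [if_pos (Or.inr hf)]
      have hn : (Qn G F U S Z d k T).Nonempty := by
        rw [← card_pos]
        unfold full at hf
        omega
      obtain ⟨p0, hp0⟩ := hn
      refine remN a ha p0 hp0 hi ?_
      intro p hp
      refine hroot p ?_
      rcases mem_union.1 hp with h | h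
      · exact hQsQ h
      · exact hQnQ (mem_of_mem_erase h)
    · have hi : ind G F U S Z d k T = 0 := by unfold ind; rw [if_neg (by tauto)]
      have hroot' : ∀ p ∈ Qs G F U S Z d k T ∪ Qn G F U S Z d k T, ∀ R ⊆ T, Tr F R → p ∈ R → a ∈ R →
          2 * d + 1 ≤ R.card := by
        intro p hp
        rw [Q_union] at hp
        exact hroot p hp
      have hcn : (Qn G F U S Z d k T).card ≤ 2 * (k - 1 - (Xs G F U S Z k).card) := by
        unfold full at hf; omega
      have h := c.tree_app hT a ha (Qs G F U S Z d k T) (Qn G F U S Z d k T)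
        (Subset.refl _) (Subset.refl _) hcn hroot'
      obtain ⟨sl, hsl⟩ := Nat.exists_eq_add_of_le h
      have h' := c.tree_slack hk2 hT a ha (Qs G F U S Z d k T) (Qn G F U S Z d k T)
        (Subset.refl _) (Subset.refl _) hcn hroot' sl hsl.symm
      rw [hi]
      refine ⟨sl, by omega, ?_⟩
      rcases h' with h' | h'
      · exact Or.inl h'
      · exact Or.inr ⟨h'.1, h'.2.1, by omega⟩

end Ctx

end DisjCyc
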