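import Pool.Agent.Helper470.DC.SolDense
import Pool.Agent.Helper470.DC.Cycles
set_option autoImplicit false
open scoped Classical
open Finset

namespace DisjCyc
namespace SolG4
open SolDense


theorem g4_min {V : Type} (G : SimpleGraph V) {S C : Finset V} (hCS : C ⊆ S) (hCc : Cyc G C)
    (hmin' : ∀ C' : Finset V, C' ⊆ S → Cyc G C' → C.card ≤ C'.card) :
    ec G C = C.card ∧ ∀ w ∈ C, dg G C w = 2 := by
  have hC3 := SolDense.cyc_card hCc
  have hdeg : ∀ w ∈ C, ec G C + 2 ≤ C.card + dg G C w := by
    intro w hw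
    have h1 := ec_erase G hw
    rw [dg_erase] at h1
    have h2 : (C.erase w).card = C.card - 1 := card_erase_of_mem hw
    have h3 : (C.erase w).Nonempty := by
      rw [← card_pos]; omega
    have h4 : ¬ Cyc G (C.erase w) := fun hc => by
      have := hmin' _ ((erase_subset _ _).trans hCS) hc
      omega
    have h5 : ec G (C.erase w) < (C.erase w).card := by
      by_contra h
      exact h4 ⟨h3, by omega⟩
    omega
  obtain ⟨x, hx⟩ : ∃ x, ec G C = C.card + x := ⟨ec G C - C.card, by have := hCc.2; omega⟩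
  have hdeg' : ∀ w ∈ C, 2 + x ≤ dg G C w := fun w hw => by
    have := hdeg w hw; omega
  have hhs := handshake G C
  have hsum2 : C.card * (2 + x) ≤ 2 * ec G C := by
    rw [← hhs]
    calc C.card * (2 + x) = ∑ v ∈ C, (2 + x) := by rw [sum_const, smul_eq_mul]
      _ ≤ _ := sum_le_sum hdeg'
  have hx0 : x = 0 := by
    rw [hx] at hsum2
    by_contra hx0
    have : 1 ≤ x := by omega
    nlinarith
  subst hx0
  have hecC : ec G C = C.card := by omega
  refine ⟨hecC, ?_⟩
  have h1 : ∑ v ∈ C, 2 = ∑ v ∈ C, dg G C v := by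
    rw [hhs, hecC, sum_const, smul_eq_mul, mul_comm]
  have h2 := (sum_eq_sum_iff_of_le (fun w hw => by have := hdeg' w hw; omega)).1 h1
  exact fun w hw => (h2 w hw).symm

theorem g4_tri {V : Type} (G : SimpleGraph V) {a b c : V} (hab : G.Adj a b) (hac : G.Adj a c)
    (hbc : G.Adj b c) : Cyc G {a, b, c} ∧ ({a, b, c} : Finset V).card = 3 := by
  have h1 : a ∉ ({b, c} : Finset V) := by
    simp [hab.ne, hac.ne]
  have h2 : b ∉ ({c} : Finset V) := by simp [hbc.ne]
  have e1 := ec_insert G h1
  have e2 := ec_insert G h2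
  rw [ec_singleton] at e2
  have d2 : dg G {c} b = 1 := by
    unfold dg
    rw [filter_singleton, if_pos hbc, card_singleton]
  have d1 : dg G {b, c} a = 2 := by
    unfold dg
    rw [filter_true_of_mem]
    · exact card_pair hbc.ne
    · intro x hx
      simp only [mem_insert, mem_singleton] at hx
      rcases hx with rfl | rfl
      · exact hab
      · exact hac
  have hcard : ({a, b, c} : Finset V).card = 3 := by
    rw [card_insert_of_notMem h1, card_pair hbc.ne]
  have e3 : ec G {a, b, c} = ec G (insert a {b, c}) := rfl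
  have e4 : ec G {b, c} = ec G (insert b {c}) := rfl
  refine ⟨⟨⟨a, by simp⟩, ?_⟩, hcard⟩
  omega

theorem g4_ec_zero {V : Type} (G : SimpleGraph V) {A : Finset V}
    (h : ∀ a ∈ A, ∀ b ∈ A, ¬ G.Adj a b) : ec G A = 0 := by
  unfold ec
  rw [card_eq_zero, filter_eq_empty_iff]
  intro e he
  induction e using Sym2.ind with
  | _ a b =>
    rw [mk_mem_sym2_iff] at he
    rw [SimpleGraph.mem_edgeSet]
    exact h a he.1 b he.2

theorem g4_mantel {V : Type} (G : SimpleGraph V) : ∀ (n : ℕ) (A : Finset V), A.card = n →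
    (∀ a ∈ A, ∀ b ∈ A, ∀ c ∈ A, G.Adj a b → G.Adj a c → G.Adj b c → False) →
    4 * ec G A ≤ A.card ^ 2 := by
  intro n
  induction n using Nat.strong_induction_on with
  | _ n ih =>
    intro A hA htf
    by_cases h : ∀ a ∈ A, ∀ b ∈ A, ¬ G.Adj a b
    · rw [g4_ec_zero G h]; simp
    · push Not at h
      obtain ⟨a, ha, b, hb, hab⟩ := h
      have hba : b ≠ a := hab.ne.symm
      have hb' : b ∈ A.erase a := mem_erase.2 ⟨hba, hb⟩
      have e1 := ec_erase G ha
      have e2 := ec_erase G hb'
      set B := (A.erase a).erase b with hB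
      have hBc1 : (A.erase a).card = A.card - 1 := card_erase_of_mem ha
      have hBc2 : B.card = (A.erase a).card - 1 := card_erase_of_mem hb'
      have hApos : 0 < (A.erase a).card := card_pos.2 ⟨b, hb'⟩
      have d1 : dg G (A.erase a) a ≤ dg G B a + 1 := by
        have : A.erase a = insert b B := (insert_erase hb').symm
        rw [this]
        exact dg_insert_le G B b a
      have hdis : dg G B a + dg G B b ≤ B.card := by
        unfold dg
        rw [← card_union_of_disjoint]
        · exact card_le_card (union_subset (filter_subset _ _) (filter_subset _ _))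
        · rw [disjoint_filter]
          intro x hx h1 h2
          have hxA : x ∈ A := mem_of_mem_erase (mem_of_mem_erase hx)
          exact htf a ha b hb x hxA hab h1 h2
      have ihB := ih B.card (by omega) B rfl (fun x hx y hy z hz =>
        htf x (mem_of_mem_erase (mem_of_mem_erase hx)) y (mem_of_mem_erase (mem_of_mem_erase hy))
          z (mem_of_mem_erase (mem_of_mem_erase hz)))
      have hcard : A.card = B.card + 2 := by omega
      rw [hcard]
      have h3 : ec G A ≤ ec G B + (B.card + 1) := by omega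
      nlinarith

theorem g4_case4 {V : Type} (G : SimpleGraph V) {S C : Finset V} (hCS : C ⊆ S)
    (htf : ∀ a ∈ S, ∀ b ∈ S, ∀ c ∈ S, G.Adj a b → G.Adj a c → G.Adj b c → False)
    (hd2 : ∀ w ∈ C, dg G C w = 2) (hc4 : C.card = 4) {v : V} (hv : v ∈ S) :
    dg G C v ≤ 2 := by
  by_contra hcon
  push Not at hcon
  have hpos : 0 < dg G C v := by omega
  obtain ⟨a, ha, hva⟩ := dg_pos_iff.1 hpos
  have h1 : dg G (C.erase a) a = 2 := by rw [dg_erase, hd2 a ha]
  have h2 : 2 ≤ dg G (C.erase a) v := by
    have : C = insert a (C.erase a) := (insert_erase ha).symm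
    have h3 := dg_insert_le G (C.erase a) a v
    rw [← this] at h3
    omega
  have h3 : (C.erase a).card = 3 := by rw [card_erase_of_mem ha, hc4]
  have : ¬ Disjoint ((C.erase a).filter (fun w => G.Adj a w)) ((C.erase a).filter (fun w => G.Adj v w)) := by
    intro hdis
    have h4 := card_union_of_disjoint hdis
    have h5 : (((C.erase a).filter (fun w => G.Adj a w)) ∪
        ((C.erase a).filter (fun w => G.Adj v w))).card ≤ (C.erase a).card :=
      card_le_card (union_subset (filter_subset _ _) (filter_subset _ _))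
    unfold dg at h1 h2
    omega
  rw [Finset.not_disjoint_iff] at this
  obtain ⟨b, hb1, hb2⟩ := this
  simp only [mem_filter, mem_erase] at hb1 hb2
  exact htf v hv a (hCS ha) b (hCS hb1.1.2) hva hb2.2 hb1.2

theorem g4_rem {V : Type} (G : SimpleGraph V) {W : Finset V} {w1 w2 : V} (h1 : w1 ∈ W)
    (h2 : w2 ∈ W) (hadj : G.Adj w1 w2) :
    ec G W + 1 = ec G ((W.erase w1).erase w2) + dg G W w1 + dg G W w2 := by
  have hne : w2 ≠ w1 := hadj.ne.symm
  have m2 : w2 ∈ W.erase w1 := mem_erase.2 ⟨hne, h2⟩
  have e1 := ec_erase G h1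
  have e1' := dg_erase G W w1
  have e2 := ec_erase G m2
  have e2' := dg_erase G (W.erase w1) w2
  have d3 : dg G W w2 = dg G (W.erase w1) w2 + 1 := by
    have hu : W = (W.erase w1) ∪ {w1} := by
      rw [union_comm, ← insert_eq, insert_erase h1]
    have hdj : Disjoint (W.erase w1) {w1} := by
      rw [disjoint_singleton_right]; exact notMem_erase _ _
    have := dg_union_disj G hdj w2
    rw [← hu] at this
    rw [this]
    congr 1
    unfold dg
    rw [filter_singleton, if_pos hadj.symm, card_singleton]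
  omega

theorem g4_dg_insert_not {V : Type} (G : SimpleGraph V) (W : Finset V) {u v : V} (h : ¬ G.Adj v u) :
    dg G (insert u W) v = dg G W v := by
  unfold dg
  rw [filter_insert, if_neg h]

theorem g4_case5 {V : Type} (G : SimpleGraph V) {S C : Finset V} (hCS : C ⊆ S)
    (htf : ∀ a ∈ S, ∀ b ∈ S, ∀ c ∈ S, G.Adj a b → G.Adj a c → G.Adj b c → False)
    (hmin' : ∀ C' : Finset V, C' ⊆ S → Cyc G C' → C.card ≤ C'.card)
    (hec : ec G C = C.card)
    (hd2 : ∀ w ∈ C, dg G C w = 2) (hc5 : 5 ≤ C.card) {v : V} (hv : v ∈ S) (hvC : v ∉ C) :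
    dg G C v ≤ 1 := by
  by_contra hcon
  push Not at hcon
  have e0 := ec_insert G hvC
  have c0 : (insert v C).card = C.card + 1 := card_insert_of_notMem hvC
  -- removal principle
  have key : ∀ w1 ∈ C, ∀ w2 ∈ C, G.Adj w1 w2 →
      dg G (insert v C) w1 + dg G (insert v C) w2 ≤ dg G C v + 2 → False := by
    intro w1 hw1 w2 hw2 hadj hle
    have m1 : w1 ∈ insert v C := mem_insert_of_mem hw1
    have m2 : w2 ∈ insert v C := mem_insert_of_mem hw2
    have hr := g4_rem G m1 m2 hadj
    have c1 : ((insert v C).erase w1).card = (insert v C).card - 1 := card_erase_of_mem m1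
    have m2' : w2 ∈ (insert v C).erase w1 := mem_erase.2 ⟨hadj.ne.symm, m2⟩
    have c2 : (((insert v C).erase w1).erase w2).card = ((insert v C).erase w1).card - 1 :=
      card_erase_of_mem m2'
    have hsub : ((insert v C).erase w1).erase w2 ⊆ S :=
      (erase_subset _ _).trans ((erase_subset _ _).trans (insert_subset hv hCS))
    have hW : Cyc G (((insert v C).erase w1).erase w2) := by
      refine ⟨?_, ?_⟩
      · rw [← card_pos]; omega
      · omega
    have := hmin' _ hsub hW
    omega
  set N := C.filter (fun w => G.Adj v w) with hN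
  have hNC : N ⊆ C := filter_subset _ _
  have hNcard : N.card = dg G C v := rfl
  have hNadj : ∀ a ∈ N, ∀ b ∈ N, ¬ G.Adj a b := by
    intro a ha b hb hab
    rw [hN, mem_filter] at ha hb
    exact htf v hv a (hCS ha.1) b (hCS hb.1) ha.2 hb.2 hab
  by_cases h3 : 3 ≤ dg G C v
  · have hpos : 0 < dg G C v := by omega
    obtain ⟨a, ha, hva⟩ := dg_pos_iff.1 hpos
    have haN : a ∈ N := by rw [hN, mem_filter]; exact ⟨ha, hva⟩
    have hp2 : 0 < dg G C a := by rw [hd2 a ha]; norm_num
    obtain ⟨w, hw, haw⟩ := dg_pos_iff.1 hp2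
    have hwN : ¬ G.Adj w v := by
      intro h
      exact hNadj a haN w (by rw [hN, mem_filter]; exact ⟨hw, h.symm⟩) haw
    have d1 := g4_dg_insert_not G C hwN
    have d2 := dg_insert_le G C v a
    rw [hd2 w hw] at d1
    rw [hd2 a ha] at d2
    exact key w hw a ha haw.symm (by omega)
  · have hN2 : N.card = 2 := by omega
    by_cases hU : ∃ w1 ∈ C \ N, ∃ w2 ∈ C \ N, G.Adj w1 w2
    · obtain ⟨w1, hw1, w2, hw2, hadj⟩ := hU
      rw [mem_sdiff] at hw1 hw2
      have n1 : ¬ G.Adj w1 v := fun h => hw1.2 (by rw [hN, mem_filter]; exact ⟨hw1.1, h.symm⟩)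
      have n2 : ¬ G.Adj w2 v := fun h => hw2.2 (by rw [hN, mem_filter]; exact ⟨hw2.1, h.symm⟩)
      have d1 := g4_dg_insert_not G C n1
      have d2 := g4_dg_insert_not G C n2
      rw [hd2 w1 hw1.1] at d1
      rw [hd2 w2 hw2.1] at d2
      exact key w1 hw1.1 w2 hw2.1 hadj (by omega)
    · push Not at hU
      have z1 : ec G (C \ N) = 0 := g4_ec_zero G hU
      have z2 : ec G N = 0 := g4_ec_zero G hNadj
      have hdj : Disjoint N (C \ N) := disjoint_sdiff
      have hu := ec_union_disj G hdj
      have hun : N ∪ (C \ N) = C := union_sdiff_of_subset hNC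
      rw [hun, z1, z2] at hu
      have hs : ∑ a ∈ N, dg G (C \ N) a ≤ ∑ a ∈ N, 2 := by
        apply sum_le_sum
        intro a ha
        rw [← hd2 a (hNC ha)]
        exact dg_mono sdiff_subset a
      rw [sum_const, smul_eq_mul, hN2] at hs
      omega

/-- TARGET : triangle-free case -/
theorem g4_upper {V : Type} (G : SimpleGraph V) : ∀ (k : ℕ) (S : Finset V), 1 ≤ k → 4 * k - 1 ≤ S.card →
    (∀ W ⊆ S, Cyc G W → 4 ≤ W.card) → ¬ KCyc G S k → ec G S ≤ (2 * k - 1) * (S.card - (2 * k - 1)) := by
  intro k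
  induction k with
  | zero => intro S h; omega
  | succ j ih =>
    intro S _ hcard h4 hK
    have htf : ∀ a ∈ S, ∀ b ∈ S, ∀ c ∈ S, G.Adj a b → G.Adj a c → G.Adj b c → False := by
      intro a ha b hb c hc hab hac hbc
      obtain ⟨h1, h2⟩ := g4_tri G hab hac hbc
      have := h4 {a, b, c} (by
        intro x hx
        simp only [mem_insert, mem_singleton] at hx
        rcases hx with rfl | rfl | rfl
        · exact ha
        · exact hb
        · exact hc) h1
      omega
    have hSne : S.Nonempty := by rw [← card_pos]; omega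
    by_cases hcyc : ∃ C ⊆ S, Cyc G C
    swap
    · -- no cyclic set
      have h1 : ec G S < S.card := by
        by_contra hcon
        exact hcyc ⟨S, Subset.refl _, hSne, by omega⟩
      obtain ⟨m, hm⟩ : ∃ m, S.card = 4 * j + 3 + m := ⟨S.card - (4 * j + 3), by omega⟩
      have e1 : 2 * (j + 1) - 1 = 2 * j + 1 := by omega
      have e2 : S.card - (2 * j + 1) = 2 * j + 2 + m := by omega
      rw [e1, e2]
      nlinarith
    · have hne : (S.powerset.filter (fun C => Cyc G C)).Nonempty := by
        obtain ⟨C, h1, h2⟩ := hcyc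
        exact ⟨C, by simp [h1, h2]⟩
      obtain ⟨C, hC, hmin⟩ := exists_min_image _ (fun C : Finset V => C.card) hne
      simp only [mem_filter, mem_powerset] at hC hmin
      obtain ⟨hCS, hCc⟩ := hC
      have hmin' : ∀ C' : Finset V, C' ⊆ S → Cyc G C' → C.card ≤ C'.card := fun C' h1 h2 =>
        hmin C' ⟨h1, h2⟩
      obtain ⟨hec, hd2⟩ := g4_min G hCS hCc hmin'
      have hnK : ¬ KCyc G (S \ C) j := fun h =>
        hK (KCyc_insert h hCc disjoint_sdiff hCS sdiff_subset)
      rcases Nat.eq_zero_or_pos j with hj0 | hjpos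
      · exfalso
        rw [hj0] at hnK
        exact hnK (KCyc_zero G _)
      have hl4 : 4 ≤ C.card := h4 C hCS hCc
      have hdj : Disjoint (S \ C) C := sdiff_disjoint
      have hu := ec_union_disj G hdj
      have hun : (S \ C) ∪ C = S := sdiff_union_of_subset hCS
      rw [hun] at hu
      have hcardD : (S \ C).card = S.card - C.card := card_sdiff_of_subset hCS
      have hCle : C.card ≤ S.card := card_le_card hCS
      have h4' : ∀ W ⊆ S \ C, Cyc G W → 4 ≤ W.card := fun W hW => h4 W (hW.trans sdiff_subset)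
      obtain ⟨i, rfl⟩ : ∃ i, j = i + 1 := ⟨j - 1, by omega⟩
      obtain ⟨m, hm⟩ : ∃ m, S.card = 4 * i + 7 + m := ⟨S.card - (4 * i + 7), by omega⟩
      have e1 : 2 * (i + 1 + 1) - 1 = 2 * i + 3 := by omega
      have e2 : S.card - (2 * i + 3) = 2 * i + 4 + m := by omega
      have e3 : 2 * (i + 1) - 1 = 2 * i + 1 := by omega
      rw [e1, e2]
      rcases Nat.lt_or_ge C.card 5 with hl | hl
      · have hl : C.card = 4 := by omega
        have hs : ∑ a ∈ S \ C, dg G C a ≤ ∑ a ∈ S \ C, 2 := by
          apply sum_le_sum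
          intro a ha
          exact g4_case4 G hCS htf hd2 hl (mem_sdiff.1 ha).1
        rw [sum_const, smul_eq_mul] at hs
        have hD : (S \ C).card = 4 * i + 3 + m := by omega
        have hI := ih (S \ C) (by omega) (by omega) h4' hnK
        have e4 : (S \ C).card - (2 * i + 1) = 2 * i + 2 + m := by omega
        rw [e3, e4] at hI
        rw [hD] at hs
        nlinarith
      · have hs : ∑ a ∈ S \ C, dg G C a ≤ ∑ a ∈ S \ C, 1 := by
          apply sum_le_sum
          intro a ha
          exact g4_case5 G hCS htf hmin' hec hd2 hl (mem_sdiff.1 ha).1 (mem_sdiff.1 ha).2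
        rw [sum_const, smul_eq_mul, mul_one] at hs
        have hS1 : ec G S ≤ ec G (S \ C) + S.card := by omega
        rcases Nat.lt_or_ge (S \ C).card (4 * i + 3) with hw | hw
        · have hM := g4_mantel G _ (S \ C) rfl (fun a ha b hb c hc =>
            htf a (mem_sdiff.1 ha).1 b (mem_sdiff.1 hb).1 c (mem_sdiff.1 hc).1)
          have hw2 : (S \ C).card ≤ 4 * i + 2 := by omega
          have hM2 : 4 * ec G (S \ C) ≤ (4 * i + 2) ^ 2 :=
            hM.trans (Nat.pow_le_pow_left hw2 2)
          have hM3 : ec G (S \ C) ≤ (2 * i + 1) ^ 2 := by nlinarith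
          nlinarith
        · obtain ⟨p, hp⟩ : ∃ p, (S \ C).card = 4 * i + 3 + p := ⟨(S \ C).card - (4 * i + 3), by omega⟩
          have hI := ih (S \ C) (by omega) (by omega) h4' hnK
          have e4 : (S \ C).card - (2 * i + 1) = 2 * i + 2 + p := by omega
          rw [e3, e4] at hI
          obtain ⟨q, hq⟩ : ∃ q, C.card = 5 + q := ⟨C.card - 5, by omega⟩
          have hmm : m = p + 1 + q := by omega
          subst hmm
          nlinarith


end SolG4

end DisjCyc
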