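import Pool.Agent.Helper470.DC.LGDef
set_option autoImplicit false
open scoped Classical
open Finset

namespace DisjCyc
namespace SolLG1


section aux
variable {L I : Type} {d : ℕ}

theorem aux_ptL_lt {τ : I} {i : L} {j : ℕ} (h : j < d) :
    (ptL τ i j : VL L I d) = Sum.inr (Sum.inl (τ, i, ⟨j, h⟩)) := by
  unfold ptL
  rw [dif_pos h]

theorem aux_ptL_ge {τ : I} {i : L} {j : ℕ} (h : d ≤ j) :
    (ptL τ i j : VL L I d) = Sum.inl i := by
  unfold ptL
  rw [dif_neg (by omega)]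

/-- label analysis of an equality with a leg vertex -/
theorem aux_ptL_eq_leg {τ τ' : I} {i i' : L} {j j' : ℕ} (hj : j < d)
    (h : (ptL τ i j : VL L I d) = ptL τ' i' j') : τ' = τ ∧ i' = i ∧ j' = j := by
  rw [aux_ptL_lt hj] at h
  by_cases hj' : j' < d
  · rw [aux_ptL_lt hj'] at h
    simp only [Sum.inr.injEq, Sum.inl.injEq, Prod.mk.injEq, Fin.mk.injEq] at h
    exact ⟨h.1.symm, h.2.1.symm, h.2.2.symm⟩
  · rw [aux_ptL_ge (by omega)] at h
    simp at h

theorem aux_ptL_ne_cen {τ τ' : I} {i : L} {j : ℕ} : (ptL τ i j : VL L I d) ≠ cenL τ' := by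
  unfold ptL cenL
  split_ifs <;> simp

theorem aux_hub_eq {τ : I} {i i' : L} {j : ℕ} (h : (Sum.inl i : VL L I d) = ptL τ i' j) :
    i' = i ∧ d ≤ j := by
  by_cases hj : j < d
  · rw [aux_ptL_lt hj] at h
    simp at h
  · rw [aux_ptL_ge (by omega)] at h
    simp only [Sum.inl.injEq] at h
    exact ⟨h.symm, by omega⟩

variable {A : I → Finset L} {C : Finset I} {rt : I → L} {pr : I → L → L}

theorem aux_adj_hub (hd : 1 ≤ d) {i : L} {y : VL L I d} (h : (LG A C rt pr).Adj (Sum.inl i) y) :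
    ∃ τ, i ∈ A τ ∧ y = ptL τ i (d - 1) := by
  unfold LG at h
  rw [SimpleGraph.fromRel_adj] at h
  obtain ⟨-, (⟨τ, i', hi', j, hj, h1, h2⟩ | ⟨τ, hτ, i', hi', h1, h2⟩ | ⟨τ, hτ, i', hi', hr, h1, h2⟩) |
    (⟨τ, i', hi', j, hj, h1, h2⟩ | ⟨τ, hτ, i', hi', h1, h2⟩ | ⟨τ, hτ, i', hi', hr, h1, h2⟩)⟩ := h
  · exact absurd (aux_hub_eq h1).2 (by omega)
  · exact absurd (aux_hub_eq h1).2 (by omega)
  · exact absurd (aux_hub_eq h1).2 (by omega)
  · obtain ⟨e1, e2⟩ := aux_hub_eq h2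
    subst e1
    refine ⟨τ, hi', ?_⟩
    rw [h1]
    congr 1
    omega
  · exact absurd h2 (by unfold cenL; simp)
  · exact absurd (aux_hub_eq h2).2 (by omega)

/-- neighbours of a leg vertex -/
theorem aux_adj_leg (hd : 1 ≤ d) {τ : I} {i : L} {j : ℕ} (hj : j < d) {y : VL L I d}
    (h : (LG A C rt pr).Adj (ptL τ i j) y) :
    y = ptL τ i (j + 1) ∨ (1 ≤ j ∧ y = ptL τ i (j - 1)) ∨
    (j = 0 ∧ τ ∈ C ∧ y = cenL τ) ∨
    (j = 0 ∧ τ ∉ C ∧ ∃ l, y = ptL τ l 0 ∧
      ((i ∈ A τ ∧ i ≠ rt τ ∧ l = pr τ i) ∨ (l ∈ A τ ∧ l ≠ rt τ ∧ i = pr τ l))) := by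
  unfold LG at h
  rw [SimpleGraph.fromRel_adj] at h
  obtain ⟨-, (⟨τ', i', hi', j', hj', h1, h2⟩ | ⟨τ', hτ, i', hi', h1, h2⟩ |
    ⟨τ', hτ, i', hi', hr, h1, h2⟩) |
    (⟨τ', i', hi', j', hj', h1, h2⟩ | ⟨τ', hτ, i', hi', h1, h2⟩ | ⟨τ', hτ, i', hi', hr, h1, h2⟩)⟩ := h
  · obtain ⟨rfl, rfl, rfl⟩ := aux_ptL_eq_leg hj h1
    exact Or.inl h2
  · obtain ⟨rfl, rfl, e⟩ := aux_ptL_eq_leg hj h1
    exact Or.inr (Or.inr (Or.inl ⟨e.symm, hτ, h2⟩))
  · obtain ⟨rfl, rfl, e⟩ := aux_ptL_eq_leg hj h1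
    exact Or.inr (Or.inr (Or.inr ⟨e.symm, hτ, _, h2, Or.inl ⟨hi', hr, rfl⟩⟩))
  · obtain ⟨rfl, rfl, e⟩ := aux_ptL_eq_leg hj h2
    refine Or.inr (Or.inl ⟨by omega, ?_⟩)
    rw [h1]
    congr 1
    omega
  · exact absurd h2 aux_ptL_ne_cen
  · obtain ⟨rfl, e2, e⟩ := aux_ptL_eq_leg hj h2
    exact Or.inr (Or.inr (Or.inr ⟨e.symm, hτ, i', h1, Or.inr ⟨hi', hr, e2.symm⟩⟩))

theorem aux_adj_cen {τ : I} {y : VL L I d} (h : (LG A C rt pr).Adj (cenL τ) y) :
    τ ∈ C ∧ ∃ i, y = ptL τ i 0 := by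
  unfold LG at h
  rw [SimpleGraph.fromRel_adj] at h
  obtain ⟨-, (⟨τ', i', hi', j', hj', h1, h2⟩ | ⟨τ', hτ, i', hi', h1, h2⟩ |
    ⟨τ', hτ, i', hi', hr, h1, h2⟩) |
    (⟨τ', i', hi', j', hj', h1, h2⟩ | ⟨τ', hτ, i', hi', h1, h2⟩ | ⟨τ', hτ, i', hi', hr, h1, h2⟩)⟩ := h
  · exact absurd h1.symm aux_ptL_ne_cen
  · exact absurd h1.symm aux_ptL_ne_cen
  · exact absurd h1.symm aux_ptL_ne_cen
  · exact absurd h2.symm aux_ptL_ne_cen
  · have : τ = τ' := by
      unfold cenL at h2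
      simpa using h2
    subst this
    exact ⟨hτ, i', h1⟩
  · exact absurd h2.symm aux_ptL_ne_cen

/-- every vertex of `W` has two neighbours in `W` -/
def Two {V : Type} (G : SimpleGraph V) (W : Finset V) : Prop :=
  W.Nonempty ∧ ∀ x ∈ W, ∃ y ∈ W, ∃ z ∈ W, y ≠ z ∧ G.Adj x y ∧ G.Adj x z

theorem aux_cycle {V : Type} {G : SimpleGraph V} {v : V} {c : G.Walk v v} (hc : c.IsCycle) :
    ∃ W : Finset V, (∀ x, x ∈ W ↔ x ∈ c.support) ∧ Two G W ∧ W.card = c.length := by
  refine ⟨c.support.toFinset, fun x => List.mem_toFinset, ⟨⟨v, by simp⟩, ?_⟩, ?_⟩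
  · intro x hx
    rw [List.mem_toFinset] at hx
    have h2 := hc.ncard_neighborSet_toSubgraph_eq_two hx
    rw [Set.ncard_eq_two] at h2
    obtain ⟨y, z, hyz, hs⟩ := h2
    have hy : y ∈ c.toSubgraph.neighborSet x := by rw [hs]; simp
    have hz : z ∈ c.toSubgraph.neighborSet x := by rw [hs]; simp
    rw [SimpleGraph.Subgraph.mem_neighborSet] at hy hz
    refine ⟨y, ?_, z, ?_, hyz, hy.adj_sub, hz.adj_sub⟩
    · rw [List.mem_toFinset, ← SimpleGraph.Walk.mem_verts_toSubgraph]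
      exact hy.symm.fst_mem
    · rw [List.mem_toFinset, ← SimpleGraph.Walk.mem_verts_toSubgraph]
      exact hz.symm.fst_mem
  · have h1 : c.support.toFinset = c.support.tail.toFinset := by
      ext x
      rw [List.mem_toFinset, List.mem_toFinset]
      constructor
      · intro hx
        rw [← SimpleGraph.Walk.cons_tail_support] at hx
        rcases List.mem_cons.1 hx with rfl | hx
        · exact SimpleGraph.Walk.end_mem_tail_support hc.not_nil
        · exact hx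
      · intro hx
        exact List.mem_of_mem_tail hx
    rw [h1, List.toFinset_card_of_nodup hc.support_nodup, List.length_tail,
      SimpleGraph.Walk.length_support]
    omega

theorem aux_leg_up (hd : 1 ≤ d) {W : Finset (VL L I d)} (hW : Two (LG A C rt pr) W) {τ : I} {i : L}
    {j : ℕ} (hj1 : 1 ≤ j) (hj : j < d) (h : (ptL τ i j : VL L I d) ∈ W) :
    (ptL τ i (j - 1) : VL L I d) ∈ W ∧ (ptL τ i (j + 1) : VL L I d) ∈ W := by
  obtain ⟨y, hy, z, hz, hyz, hay, haz⟩ := hW.2 _ h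
  have h1 := aux_adj_leg hd hj hay
  have h2 := aux_adj_leg hd hj haz
  have h1' : y = ptL τ i (j + 1) ∨ y = ptL τ i (j - 1) := by
    rcases h1 with h | ⟨_, h⟩ | ⟨h, _⟩ | ⟨h, _⟩
    · exact Or.inl h
    · exact Or.inr h
    · omega
    · omega
  have h2' : z = ptL τ i (j + 1) ∨ z = ptL τ i (j - 1) := by
    rcases h2 with h | ⟨_, h⟩ | ⟨h, _⟩ | ⟨h, _⟩
    · exact Or.inl h
    · exact Or.inr h
    · omega
    · omega
  rcases h1' with h1' | h1' <;> rcases h2' with h2' | h2'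
  · exact absurd (h1'.trans h2'.symm) hyz
  · rw [← h1', ← h2']; exact ⟨hz, hy⟩
  · rw [← h1', ← h2']; exact ⟨hy, hz⟩
  · exact absurd (h1'.trans h2'.symm) hyz

/-- from the bottom the whole leg -/
theorem aux_leg_all (hd : 1 ≤ d) {W : Finset (VL L I d)} (hW : Two (LG A C rt pr) W) {τ : I} {i : L}
    (h : (ptL τ i (d - 1) : VL L I d) ∈ W) : ∀ m, ∀ j, j + m = d - 1 → (ptL τ i j : VL L I d) ∈ W := by
  intro m
  induction m with
  | zero => intro j hj; rw [Nat.add_zero] at hj; rw [hj]; exact h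
  | succ m ih =>
    intro j hj
    have h1 := ih (j + 1) (by omega)
    exact (aux_leg_up hd hW (by omega) (by omega) h1).1

/-- from the second point of a leg down to the hub -/
theorem aux_leg_down (hd : 1 ≤ d) {W : Finset (VL L I d)} (hW : Two (LG A C rt pr) W) {τ : I} {i : L}
    (h : (ptL τ i 1 : VL L I d) ∈ W) : (Sum.inl i : VL L I d) ∈ W := by
  have key : ∀ j, j + 1 ≤ d → (ptL τ i (j + 1) : VL L I d) ∈ W := by
    intro j
    induction j with
    | zero => intro _; exact h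
    | succ j ih =>
      intro hj
      exact (aux_leg_up hd hW (by omega) (by omega) (ih (by omega))).2
  have := key (d - 1) (by omega)
  rw [Nat.sub_add_cancel hd, aux_ptL_ge le_rfl] at this
  exact this

theorem aux_hub_legs (hd : 1 ≤ d) {W : Finset (VL L I d)} (hW : Two (LG A C rt pr) W) {i : L}
    (h : (Sum.inl i : VL L I d) ∈ W) : ∃ τ τ' : I, τ ≠ τ' ∧
      (∀ j, j < d → (ptL τ i j : VL L I d) ∈ W) ∧ (∀ j, j < d → (ptL τ' i j : VL L I d) ∈ W) := by
  obtain ⟨y, hy, z, hz, hyz, hay, haz⟩ := hW.2 _ h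
  obtain ⟨τ, -, h1⟩ := aux_adj_hub hd hay
  obtain ⟨τ', -, h2⟩ := aux_adj_hub hd haz
  refine ⟨τ, τ', ?_, ?_, ?_⟩
  · rintro rfl
    exact hyz (h1.trans h2.symm)
  · intro j hj
    rw [h1] at hy
    exact aux_leg_all hd hW hy (d - 1 - j) j (by omega)
  · intro j hj
    rw [h2] at hz
    exact aux_leg_all hd hW hz (d - 1 - j) j (by omega)

/-- a nonempty finite rooted forest has at least two leaves -/
theorem aux_forest (S : Finset L) (hS : S.Nonempty) (p : L → L) (rk : L → ℕ) (D : L → Prop) (h : L)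
    (hrk : ∀ i ∈ S, D i → rk (p i) < rk i)
    (hch : ∀ i ∈ S, i ≠ h → ∃ a ∈ S, ∃ b ∈ S, a ≠ b ∧
      ((D i ∧ a = p i) ∨ (D a ∧ i = p a)) ∧ ((D i ∧ b = p i) ∨ (D b ∧ i = p b)))
    (hh : h ∈ S → ∃ a ∈ S, ((D h ∧ a = p h) ∨ (D a ∧ h = p a))) : False := by
  obtain ⟨r, hr, hmin⟩ := S.exists_min_image rk hS
  -- children
  have hc1 : ∀ i ∈ S, i ≠ h → ∃ a ∈ S, D a ∧ i = p a := by
    intro i hi hih
    obtain ⟨a, ha, b, hb, hab, h1, h2⟩ := hch i hi hih
    rcases h1 with h1 | h1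
    · rcases h2 with h2 | h2
      · exact absurd (h1.2.trans h2.2.symm) hab
      · exact ⟨b, hb, h2⟩
    · exact ⟨a, ha, h1⟩
  have hrp : ¬ (D r ∧ p r ∈ S) := by
    rintro ⟨h1, h2⟩
    have := hmin _ h2
    have := hrk r hr h1
    omega
  by_cases hrh : r = h
  · subst hrh
    have hc2 : ∀ i ∈ S, ∃ a ∈ S, D a ∧ i = p a := by
      intro i hi
      by_cases hir : i = r
      · subst hir
        obtain ⟨a, ha, h1 | h1⟩ := hh hi
        · exact absurd ⟨h1.1, h1.2 ▸ ha⟩ hrp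
        · exact ⟨a, ha, h1⟩
      · exact hc1 i hi hir
    choose! f hf using hc2
    have hlt : (S.erase r).card < S.card := Finset.card_erase_lt_of_mem hr
    obtain ⟨x, hx, y, hy, hxy, he⟩ := Finset.exists_ne_map_eq_of_card_lt_of_maps_to hlt
      (f := f) (by
        intro x hx
        have hfx := hf x hx
        refine Finset.mem_coe.2 (Finset.mem_erase.2 ⟨?_, hfx.1⟩)
        intro he
        exact hrp ⟨he ▸ hfx.2.1, by rw [← he, ← hfx.2.2]; exact hx⟩)
    apply hxy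
    rw [(hf x hx).2.2, (hf y hy).2.2, he]
  · obtain ⟨a, ha, b, hb, hab, h1, h2⟩ := hch r hr hrh
    have h1' : D a ∧ r = p a := by
      rcases h1 with h1 | h1
      · exact absurd ⟨h1.1, h1.2 ▸ ha⟩ hrp
      · exact h1
    have h2' : D b ∧ r = p b := by
      rcases h2 with h2 | h2
      · exact absurd ⟨h2.1, h2.2 ▸ hb⟩ hrp
      · exact h2
    have hc2 : ∀ i, i ∈ S → ∃ a' ∈ S, (i ≠ h → D a' ∧ i = p a' ∧ (i = r → a' = a)) ∧
        (i = h → a' = b) := by
      intro i hi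
      by_cases hih : i = h
      · exact ⟨b, hb, fun h' => absurd hih h', fun _ => rfl⟩
      · by_cases hir : i = r
        · subst hir
          exact ⟨a, ha, fun _ => ⟨h1'.1, h1'.2, fun _ => rfl⟩, fun h' => absurd h' hih⟩
        · obtain ⟨a', ha', h3⟩ := hc1 i hi hih
          exact ⟨a', ha', fun _ => ⟨h3.1, h3.2, fun h' => absurd h' hir⟩, fun h' => absurd h' hih⟩
    choose! f hf using hc2
    have hlt : (S.erase r).card < S.card := Finset.card_erase_lt_of_mem hr
    obtain ⟨x, hx, y, hy, hxy, he⟩ := Finset.exists_ne_map_eq_of_card_lt_of_maps_to hlt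
      (f := f) (by
        intro x hx
        have hfx := hf x hx
        refine Finset.mem_coe.2 (Finset.mem_erase.2 ⟨?_, hfx.1⟩)
        intro he
        by_cases hxh : x = h
        · have h5 := hfx.2.2 hxh
          rw [he] at h5
          exact hrp ⟨h5 ▸ h2'.1, by rw [h5, ← h2'.2]; exact hr⟩
        · have h5 := hfx.2.1 hxh
          rw [he] at h5
          exact hrp ⟨h5.1, by rw [← h5.2.1]; exact hx⟩)
    have main : ∀ x ∈ S, ∀ y ∈ S, x = h → y ≠ h → f x = f y → False := by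
      intro x hx y hy hxh hyh he
      have e1 := (hf x hx).2.2 hxh
      have e2 := (hf y hy).2.1 hyh
      rw [← he, e1] at e2
      have e3 : y = r := e2.2.1.trans h2'.2.symm
      exact hab (e2.2.2 e3).symm
    by_cases hxh : x = h
    · by_cases hyh : y = h
      · exact hxy (hxh.trans hyh.symm)
      · exact main x hx y hy hxh hyh he
    · by_cases hyh : y = h
      · exact main y hy x hx hyh hxh he.symm
      · apply hxy
        rw [((hf x hx).2.1 hxh).2.1, ((hf y hy).2.1 hyh).2.1, he]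

/-- the set contains two different hubs -/
theorem aux_two_hubs [Fintype L] [Fintype I] (hd : 1 ≤ d) (rk : I → L → ℕ)
    (hpr : ∀ τ, τ ∉ C → ∀ i ∈ A τ, i ≠ rt τ → pr τ i ∈ A τ ∧ rk τ (pr τ i) < rk τ i)
    {W : Finset (VL L I d)} (hW : Two (LG A C rt pr) W) :
    ∃ i i' : L, i ≠ i' ∧ (Sum.inl i : VL L I d) ∈ W ∧ (Sum.inl i' : VL L I d) ∈ W := by
  by_contra hcon
  have huniq : ∀ i i' : L, (Sum.inl i : VL L I d) ∈ W → (Sum.inl i' : VL L I d) ∈ W → i = i' := by
    intro i i' h1 h2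
    by_contra hne
    exact hcon ⟨i, i', hne, h1, h2⟩
  -- a top in `W`
  have htop : ∃ τ i, (ptL τ i 0 : VL L I d) ∈ W := by
    obtain ⟨x, hx⟩ := hW.1
    rcases x with i | ⟨τ, i, j⟩ | τ
    · obtain ⟨τ, τ', -, h1, -⟩ := aux_hub_legs hd hW hx
      exact ⟨τ, i, h1 0 (by omega)⟩
    · have hj : ∀ m, m < d → (ptL τ i m : VL L I d) ∈ W → (ptL τ i 0 : VL L I d) ∈ W := by
        intro m
        induction m with
        | zero => intro _ h; exact h
        | succ m ih =>
          intro hm h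
          have := (aux_leg_up hd hW (by omega) hm h).1
          exact ih (by omega) this
      refine ⟨τ, i, hj j.1 j.2 ?_⟩
      rw [aux_ptL_lt j.2]
      exact hx
    · obtain ⟨y, hy, z, hz, hyz, hay, haz⟩ := hW.2 _ hx
      obtain ⟨-, i, h1⟩ := aux_adj_cen (τ := τ) hay
      exact ⟨τ, i, h1 ▸ hy⟩
  obtain ⟨τ, i₀, hi₀⟩ := htop
  -- the neighbours of the tops
  have hnb : ∀ i, (ptL τ i 0 : VL L I d) ∈ W → ∃ y ∈ W, ∃ z ∈ W, y ≠ z ∧
      (LG A C rt pr).Adj (ptL τ i 0) y ∧ (LG A C rt pr).Adj (ptL τ i 0) z := fun i hi => hW.2 _ hi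
  by_cases hτ : τ ∈ C
  · -- all the tops in `W` have the hub below in `W`
    have hdown : ∀ i, (ptL τ i 0 : VL L I d) ∈ W → (Sum.inl i : VL L I d) ∈ W ∧
        (cenL τ : VL L I d) ∈ W := by
      intro i hi
      obtain ⟨y, hy, z, hz, hyz, hay, haz⟩ := hnb i hi
      have h1 := aux_adj_leg hd (by omega : 0 < d) hay
      have h2 := aux_adj_leg hd (by omega : 0 < d) haz
      have h1' : y = ptL τ i 1 ∨ y = cenL τ := by
        rcases h1 with h | ⟨h, _⟩ | ⟨_, _, h⟩ | ⟨_, h, _⟩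
        · exact Or.inl h
        · omega
        · exact Or.inr h
        · exact absurd hτ h
      have h2' : z = ptL τ i 1 ∨ z = cenL τ := by
        rcases h2 with h | ⟨h, _⟩ | ⟨_, _, h⟩ | ⟨_, h, _⟩
        · exact Or.inl h
        · omega
        · exact Or.inr h
        · exact absurd hτ h
      rcases h1' with h1' | h1' <;> rcases h2' with h2' | h2'
      · exact absurd (h1'.trans h2'.symm) hyz
      · exact ⟨aux_leg_down hd hW (h1' ▸ hy), h2' ▸ hz⟩
      · exact ⟨aux_leg_down hd hW (h2' ▸ hz), h1' ▸ hy⟩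
      · exact absurd (h1'.trans h2'.symm) hyz
    obtain ⟨y, hy, z, hz, hyz, hay, haz⟩ := hW.2 _ (hdown i₀ hi₀).2
    obtain ⟨-, i, h1⟩ := aux_adj_cen hay
    obtain ⟨-, i', h2⟩ := aux_adj_cen haz
    have e := huniq i i' (hdown i (h1 ▸ hy)).1 (hdown i' (h2 ▸ hz)).1
    subst e
    exact hyz (h1.trans h2.symm)
  · -- tree component
    have hcl : ∀ i y, (LG A C rt pr).Adj (ptL τ i 0 : VL L I d) y → y = ptL τ i 1 ∨
        ∃ l, y = ptL τ l 0 ∧
          ((i ∈ A τ ∧ i ≠ rt τ ∧ l = pr τ i) ∨ (l ∈ A τ ∧ l ≠ rt τ ∧ i = pr τ l)) := by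
      intro i y hy
      rcases aux_adj_leg hd (by omega : 0 < d) hy with h | ⟨h, _⟩ | ⟨_, h, _⟩ | ⟨_, _, h⟩
      · exact Or.inl h
      · omega
      · exact absurd h hτ
      · exact Or.inr h
    obtain ⟨h, hh⟩ : ∃ h : L, ∀ i, (Sum.inl i : VL L I d) ∈ W → i = h := by
      by_cases hex : ∃ i, (Sum.inl i : VL L I d) ∈ W
      · obtain ⟨h, hh⟩ := hex
        exact ⟨h, fun i hi => huniq i h hi hh⟩
      · exact ⟨i₀, fun i hi => absurd ⟨i, hi⟩ hex⟩
    refine aux_forest (Finset.univ.filter (fun i => (ptL τ i 0 : VL L I d) ∈ W))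
      ⟨i₀, by simpa using hi₀⟩ (pr τ) (rk τ) (fun i => i ∈ A τ ∧ i ≠ rt τ) h ?_ ?_ ?_
    · rintro i - ⟨h1, h2⟩
      exact (hpr τ hτ i h1 h2).2
    · intro i hi hih
      rw [Finset.mem_filter] at hi
      obtain ⟨y, hy, z, hz, hyz, hay, haz⟩ := hnb i hi.2
      have hno : (ptL τ i 1 : VL L I d) ∉ W := fun hc => hih (hh i (aux_leg_down hd hW hc))
      rcases hcl i y hay with h1 | ⟨a, ha, h1⟩
      · exact absurd (h1 ▸ hy) hno
      · rcases hcl i z haz with h2 | ⟨b, hb, h2⟩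
        · exact absurd (h2 ▸ hz) hno
        · refine ⟨a, by simpa using ha ▸ hy, b, by simpa using hb ▸ hz, ?_, ?_, ?_⟩
          · rintro rfl
            exact hyz (ha.trans hb.symm)
          · rcases h1 with ⟨u1, u2, u3⟩ | ⟨u1, u2, u3⟩
            · exact Or.inl ⟨⟨u1, u2⟩, u3⟩
            · exact Or.inr ⟨⟨u1, u2⟩, u3⟩
          · rcases h2 with ⟨u1, u2, u3⟩ | ⟨u1, u2, u3⟩
            · exact Or.inl ⟨⟨u1, u2⟩, u3⟩
            · exact Or.inr ⟨⟨u1, u2⟩, u3⟩
    · intro hi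
      rw [Finset.mem_filter] at hi
      obtain ⟨y, hy, z, hz, hyz, hay, haz⟩ := hnb h hi.2
      have hone : ∀ y ∈ W, (∃ l, y = ptL τ l 0 ∧
          ((h ∈ A τ ∧ h ≠ rt τ ∧ l = pr τ h) ∨ (l ∈ A τ ∧ l ≠ rt τ ∧ h = pr τ l))) →
          ∃ a ∈ Finset.univ.filter (fun i => (ptL τ i 0 : VL L I d) ∈ W),
            (((h ∈ A τ ∧ h ≠ rt τ) ∧ a = pr τ h) ∨ ((a ∈ A τ ∧ a ≠ rt τ) ∧ h = pr τ a)) := by
        rintro y hy ⟨a, ha, h1⟩
        refine ⟨a, by simpa using ha ▸ hy, ?_⟩
        rcases h1 with ⟨u1, u2, u3⟩ | ⟨u1, u2, u3⟩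
        · exact Or.inl ⟨⟨u1, u2⟩, u3⟩
        · exact Or.inr ⟨⟨u1, u2⟩, u3⟩
      rcases hcl h y hay with h1 | h1
      · rcases hcl h z haz with h2 | h2
        · exact absurd (h1.trans h2.symm) hyz
        · exact hone z hz h2
      · exact hone y hy h1

/-- counting: hubs and legs in `W` -/
theorem aux_count [Fintype L] [Fintype I] (hd : 1 ≤ d)
    {W : Finset (VL L I d)} (hW : Two (LG A C rt pr) W) :
    ∃ (H : Finset L) (P : Finset (I × L)), (∀ i, i ∈ H ↔ (Sum.inl i : VL L I d) ∈ W) ∧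
      2 * H.card ≤ P.card ∧ H.card + P.card * d ≤ W.card ∧
      (W.card ≤ H.card + P.card * d → ∀ x ∈ W, (∃ i ∈ H, x = Sum.inl i) ∨
        ∃ τ, ∃ i ∈ H, ∃ j, x = ptL τ i j) := by
  let H : Finset L := Finset.univ.filter (fun i => (Sum.inl i : VL L I d) ∈ W)
  let P : Finset (I × L) := Finset.univ.filter (fun p => (Sum.inl p.2 : VL L I d) ∈ W ∧
    ∀ j, j < d → (ptL p.1 p.2 j : VL L I d) ∈ W)
  let F1 : Finset (VL L I d) := H.image (fun i => Sum.inl i)
  let F2 : Finset (VL L I d) := (P ×ˢ (Finset.univ : Finset (Fin d))).image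
    (fun q => Sum.inr (Sum.inl (q.1.1, q.1.2, q.2)))
  have hF1 : F1.card = H.card := Finset.card_image_of_injective _ Sum.inl_injective
  have hF2 : F2.card = P.card * d := by
    show ((P ×ˢ (Finset.univ : Finset (Fin d))).image _).card = _
    rw [Finset.card_image_of_injective, Finset.card_product, Finset.card_univ, Fintype.card_fin]
    rintro ⟨⟨a, b⟩, c⟩ ⟨⟨a', b'⟩, c'⟩ he
    simp only [Sum.inr.injEq, Sum.inl.injEq, Prod.mk.injEq] at he
    obtain ⟨rfl, rfl, rfl⟩ := he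
    rfl
  have hdis : Disjoint F1 F2 := by
    rw [Finset.disjoint_left]
    intro x hx1 hx2
    obtain ⟨i, -, rfl⟩ := Finset.mem_image.1 hx1
    obtain ⟨q, -, hq⟩ := Finset.mem_image.1 hx2
    simp at hq
  have hsub : F1 ∪ F2 ⊆ W := by
    intro x hx
    rcases Finset.mem_union.1 hx with hx | hx
    · obtain ⟨i, hi, rfl⟩ := Finset.mem_image.1 hx
      exact (Finset.mem_filter.1 hi).2
    · obtain ⟨q, hq, rfl⟩ := Finset.mem_image.1 hx
      have h1 := (Finset.mem_filter.1 (Finset.mem_product.1 hq).1).2.2 q.2.1 q.2.2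
      rw [aux_ptL_lt q.2.2] at h1
      exact h1
  have hcard : (F1 ∪ F2).card = H.card + P.card * d := by
    rw [Finset.card_union_of_disjoint hdis, hF1, hF2]
  refine ⟨H, P, fun i => by simp [H], ?_, ?_, ?_⟩
  · refine Finset.mul_card_image_le_card_of_maps_to (f := Prod.snd) (s := P) (t := H) ?_ 2 ?_
    · intro p hp
      have := (Finset.mem_filter.1 hp).2.1
      simp only [H, Finset.mem_filter, Finset.mem_univ, true_and]
      exact this
    · intro i hi
      have hi' := (Finset.mem_filter.1 hi).2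
      obtain ⟨τ, τ', hne, h1, h2⟩ := aux_hub_legs hd hW hi'
      have hsub2 : ({(τ, i), (τ', i)} : Finset (I × L)) ⊆ P.filter (fun a => a.2 = i) := by
        intro q hq
        rw [Finset.mem_insert, Finset.mem_singleton] at hq
        rcases hq with rfl | rfl
        · simp only [P, Finset.mem_filter, Finset.mem_univ, true_and, and_true]
          exact ⟨hi', h1⟩
        · simp only [P, Finset.mem_filter, Finset.mem_univ, true_and, and_true]
          exact ⟨hi', h2⟩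
      calc 2 = ({(τ, i), (τ', i)} : Finset (I × L)).card := by
            rw [Finset.card_pair]
            intro he
            exact hne (congrArg Prod.fst he)
        _ ≤ _ := Finset.card_le_card hsub2
  · rw [← hcard]
    exact Finset.card_le_card hsub
  · intro hle x hx
    have heq : F1 ∪ F2 = W := Finset.eq_of_subset_of_card_le hsub (by rw [hcard]; exact hle)
    rw [← heq] at hx
    rcases Finset.mem_union.1 hx with hx | hx
    · obtain ⟨i, hi, rfl⟩ := Finset.mem_image.1 hx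
      exact Or.inl ⟨i, hi, rfl⟩
    · obtain ⟨q, hq, rfl⟩ := Finset.mem_image.1 hx
      have h1 := (Finset.mem_filter.1 (Finset.mem_product.1 hq).1).2.1
      refine Or.inr ⟨q.1.1, q.1.2, ?_, q.2.1, ?_⟩
      · simp only [H, Finset.mem_filter, Finset.mem_univ, true_and]
        exact h1
      · rw [aux_ptL_lt q.2.2]

end aux

/-- TARGET -/
theorem LG_cycles {L I : Type} [Fintype L] [Fintype I] {d : ℕ} (hd : 1 ≤ d) (A : I → Finset L)
    (C : Finset I) (rt : I → L) (pr : I → L → L) (rk : I → L → ℕ)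
    (hrt : ∀ τ, τ ∉ C → rt τ ∈ A τ)
    (hpr : ∀ τ, τ ∉ C → ∀ i ∈ A τ, i ≠ rt τ → pr τ i ∈ A τ ∧ rk τ (pr τ i) < rk τ i) :
    (∀ (v : VL L I d) (c : (LG A C rt pr).Walk v v), c.IsCycle → 4 * d + 2 ≤ c.length) ∧
    ((∀ τ τ', τ ∉ C → τ' ∉ C → ∀ i ∈ A τ, i ≠ rt τ → ∀ i' ∈ A τ', i' ≠ rt τ' →
        s(i, pr τ i) = s(i', pr τ' i') → τ = τ') →
      ∀ (v : VL L I d) (c : (LG A C rt pr).Walk v v), c.IsCycle → 4 * d + 3 ≤ c.length) ∧
    (∀ k, Fintype.card L < 2 * k → ¬ HasDisjointCycles (LG (d := d) A C rt pr) k) := by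
  have hhubs : ∀ {W : Finset (VL L I d)}, Two (LG A C rt pr) W →
      ∃ i i' : L, i ≠ i' ∧ (Sum.inl i : VL L I d) ∈ W ∧ (Sum.inl i' : VL L I d) ∈ W :=
    fun hW => aux_two_hubs hd rk hpr hW
  refine ⟨?_, ?_, ?_⟩
  · intro v c hc
    obtain ⟨W, hWm, hW, hcard⟩ := aux_cycle hc
    obtain ⟨H, P, hH, hHP, hle, -⟩ := aux_count hd hW
    obtain ⟨i, i', hne, h1, h2⟩ := hhubs hW
    have hH2 : 2 ≤ H.card := by
      calc 2 = ({i, i'} : Finset L).card := (Finset.card_pair hne).symm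
        _ ≤ H.card := Finset.card_le_card (by
          intro x hx
          rw [Finset.mem_insert, Finset.mem_singleton] at hx
          rcases hx with rfl | rfl
          · exact (hH _).2 h1
          · exact (hH _).2 h2)
    rw [hcard] at hle
    nlinarith
  · intro hext v c hc
    obtain ⟨W, hWm, hW, hcard⟩ := aux_cycle hc
    obtain ⟨H, P, hH, hHP, hle, heq⟩ := aux_count hd hW
    obtain ⟨i, i', hne, h1, h2⟩ := hhubs hW
    by_contra hlt
    rw [not_le] at hlt
    rw [hcard] at hle heq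
    have hsubH : ({i, i'} : Finset L) ⊆ H := by
      intro x hx
      rw [Finset.mem_insert, Finset.mem_singleton] at hx
      rcases hx with rfl | rfl
      · exact (hH _).2 h1
      · exact (hH _).2 h2
    have hH2 : 2 ≤ H.card := by
      calc 2 = ({i, i'} : Finset L).card := (Finset.card_pair hne).symm
        _ ≤ H.card := Finset.card_le_card hsubH
    have hH3 : H.card < 3 := by
      by_contra h3
      rw [not_lt] at h3
      nlinarith
    have hHeq : ({i, i'} : Finset L) = H := by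
      refine Finset.eq_of_subset_of_card_le hsubH ?_
      rw [Finset.card_pair hne]
      omega
    have hall := heq (by nlinarith)
    -- the two legs at the hub `i`
    obtain ⟨τ₁, τ₂, hτ, hl1, hl2⟩ := aux_hub_legs hd hW h1
    have key : ∀ τ : I, (∀ j, j < d → (ptL τ i j : VL L I d) ∈ W) →
        τ ∉ C ∧ ∃ x ∈ A τ, x ≠ rt τ ∧ s(x, pr τ x) = s(i, i') := by
      intro τ hl
      obtain ⟨y, hy, z, hz, hyz, hay, haz⟩ := hW.2 _ (hl 0 (by omega))
      have hone : ∀ y ∈ W, (LG A C rt pr).Adj (ptL τ i 0) y → y ≠ ptL τ i 1 →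
          τ ∉ C ∧ ∃ x ∈ A τ, x ≠ rt τ ∧ s(x, pr τ x) = s(i, i') := by
        intro y hy hay hy1
        rcases aux_adj_leg hd (by omega : 0 < d) hay with h | ⟨h, _⟩ | ⟨_, _, h⟩ | ⟨_, hτC, l, h, h'⟩
        · exact absurd h hy1
        · omega
        · exfalso
          rcases hall y hy with ⟨a, _, ha⟩ | ⟨τ', a, _, j, ha⟩
          · rw [h] at ha
            unfold cenL at ha
            simp at ha
          · rw [h] at ha
            exact aux_ptL_ne_cen ha.symm
        · refine ⟨hτC, ?_⟩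
          have hlH : l ∈ H := by
            rcases hall y hy with ⟨a, _, ha⟩ | ⟨τ', a, haH, j, ha⟩
            · rw [h] at ha
              have := (aux_hub_eq ha.symm).2
              omega
            · rw [h] at ha
              have := (aux_ptL_eq_leg (by omega : 0 < d) ha).2.1
              rw [← this]
              exact haH
          have hli : l ≠ i := by
            rintro rfl
            rw [h] at hay
            exact (LG A C rt pr).loopless.irrefl _ hay
          have hli' : l = i' := by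
            rw [← hHeq, Finset.mem_insert, Finset.mem_singleton] at hlH
            rcases hlH with h5 | h5
            · exact absurd h5 hli
            · exact h5
          subst hli'
          rcases h' with ⟨u1, u2, u3⟩ | ⟨u1, u2, u3⟩
          · exact ⟨i, u1, u2, by rw [← u3]⟩
          · exact ⟨l, u1, u2, by rw [← u3]; exact Sym2.eq_swap⟩
      by_cases hy1 : y = ptL τ i 1
      · have hz1 : z ≠ ptL τ i 1 := fun hz1 => hyz (hy1.trans hz1.symm)
        exact hone z hz haz hz1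
      · exact hone y hy hay hy1
    obtain ⟨hc1, x, hx1, hx2, hx3⟩ := key τ₁ hl1
    obtain ⟨hc2, x', hx1', hx2', hx3'⟩ := key τ₂ hl2
    exact hτ (hext τ₁ τ₂ hc1 hc2 x hx1 hx2 x' hx1' hx2' (hx3.trans hx3'.symm))
  · intro k hk hcyc
    obtain ⟨v, c, hc, hdis⟩ := hcyc
    have hex : ∀ m : Fin k, ∃ g : Fin 2 → L, Function.Injective g ∧
        ∀ b, (Sum.inl (g b) : VL L I d) ∈ (c m).support := by
      intro m
      obtain ⟨W, hWm, hW, -⟩ := aux_cycle (hc m)
      obtain ⟨i, i', hne, h1, h2⟩ := hhubs hW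
      refine ⟨![i, i'], ?_, ?_⟩
      · intro a b hab
        fin_cases a <;> fin_cases b
        · rfl
        · exact absurd hab hne
        · exact absurd hab.symm hne
        · rfl
      · intro b
        fin_cases b
        · exact (hWm _).1 h1
        · exact (hWm _).1 h2
    choose g hg1 hg2 using hex
    have hinj : Function.Injective (fun q : Fin k × Fin 2 => g q.1 q.2) := by
      rintro ⟨m, b⟩ ⟨m', b'⟩ he
      simp only at he
      by_cases hm : m = m'
      · subst hm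
        rw [hg1 m he]
      · exfalso
        have h1 := hg2 m b
        have h2 := hg2 m' b'
        rw [he] at h1
        exact hdis m m' hm _ h1 h2
    have hle := Fintype.card_le_of_injective _ hinj
    rw [Fintype.card_prod, Fintype.card_fin, Fintype.card_fin] at hle
    omega


end SolLG1

end DisjCyc
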