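import Pool.Agent.Helper470.DC.PieceE
import Pool.Agent.Helper470.DC.Upper
set_option autoImplicit false
open scoped Classical
open Finset

namespace DisjCyc

variable {V : Type}

namespace CtxE

variable {G F : SimpleGraph V} {U S Z : Finset V} {e k s' : ℕ}

theorem card_A_sum (c : CtxE G F U S Z e k s') :
    (A G F U S Z e k).card ≤ ∑ T ∈ Pc F S Z, (AT G F U S Z e k T).card := by
  refine le_trans ?_ card_biUnion_le
  apply card_le_card
  intro a ha
  have h := mem_A.1 ha
  have h1 := not_near_Z (by have := c.hd; omega) h.1.1 h.2.1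
  rw [mem_biUnion]
  exact ⟨comp F (S \ Z) a.1, mem_comps.2 ⟨a.1, h1, rfl⟩, mem_filter.2 ⟨ha, mem_comp_self F h1⟩⟩

theorem card_A_le (c : CtxE G F U S Z e k s') {q v : ℕ} (hTI : TI e (k - 1) q v) :
    (A G F U S Z e k).card * v ≤ q * S.card +
      v * (((Pc F S Z).filter (fun T => RP F Z T)).card + Z.card * U.card) := by
  have h1 : (A G F U S Z e k).card * v ≤ ∑ T ∈ Pc F S Z, (q * T.card +
      (if RP F Z T ∨ full G F U S Z e k T then v else 0)) := by
    refine (Nat.mul_le_mul_right _ c.card_A_sum).trans ?_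
    rw [sum_mul]
    exact sum_le_sum (fun T hT => c.piece_lemma hTI hT)
  refine h1.trans ?_
  rw [sum_add_distrib]
  apply Nat.add_le_add
  · rw [← mul_sum]
    apply Nat.mul_le_mul_left
    unfold Pc
    rw [comps_card_sum c.hF]
    exact card_le_card sdiff_subset
  · rw [← sum_filter, sum_const, smul_eq_mul, mul_comm]
    apply Nat.mul_le_mul_left
    have h2 : (Pc F S Z).filter (fun T => RP F Z T ∨ full G F U S Z e k T) ⊆
        (Pc F S Z).filter (fun T => RP F Z T) ∪
        (Pc F S Z).filter (fun T => ¬ RP F Z T ∧ full G F U S Z e k T) := by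
      intro T hT
      simp only [mem_union, mem_filter] at hT ⊢
      tauto
    refine (card_le_card h2).trans ((card_union_le _ _).trans ?_)
    exact Nat.add_le_add_left c.card_full _

/-- G-edges do not leave root pieces -/
theorem RP_closed (c : CtxE G F U S Z e k s') {T : Finset V} (hT : T ∈ Pc F S Z) (hRP : RP F Z T) {u w : V}
    (hu : u ∈ T) (hw : w ∈ S) (h : G.Adj u w) : w ∈ T := by
  by_contra hwT
  have hTS : T ⊆ S := (pc_sub hT).trans sdiff_subset
  obtain ⟨R, hR, hRT, huR, hwR⟩ := c.hFc u (hTS hu) w hw h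
  have hne1 : (R ∩ T).Nonempty := ⟨u, mem_inter.2 ⟨huR, hu⟩⟩
  have hne2 : (R \ T).Nonempty := ⟨w, mem_sdiff.2 ⟨hwR, hwT⟩⟩
  have hdis : Disjoint (R ∩ T) (R \ T) := by
    rw [Finset.disjoint_left]
    intro x hx hx'
    exact (mem_sdiff.1 hx').2 (mem_inter.1 hx).2
  have hun : (R ∩ T) ∪ (R \ T) = R := by
    ext x; simp only [mem_union, mem_inter, mem_sdiff]; tauto
  have h1 := ec_union_disj F hdis
  have h2 : ∑ a ∈ R ∩ T, dg F (R \ T) a = 0 := by
    apply sum_eq_zero
    intro a ha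
    by_contra hne
    obtain ⟨b, hb, hab⟩ := dg_pos_iff.1 (Nat.pos_of_ne_zero hne)
    have haT := (mem_inter.1 ha).2
    have hb2 := mem_sdiff.1 hb
    by_cases hbZ : b ∈ Z
    · exact hRP b hbZ a haT hab
    · exact hb2.2 (comps_adj c.hF hT haT (mem_sdiff.2 ⟨hR hb2.1, hbZ⟩) hab)
  have h3 := c.hF _ hne1
  have h4 := c.hF _ hne2
  have h5 := card_union_of_disjoint hdis
  rw [hun] at h1 h5
  have h6 := hRT.2
  omega

theorem ec_small (c : CtxE G F U S Z e k s') (Φ : ℕ) (hΦ : ∀ W ⊆ S, Cyc G W → Φ < W.card) :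
    ∀ 𝒯 : Finset (Finset V), 𝒯 ⊆ (Pc F S Z).filter (fun T => RP F Z T ∧ T.card ≤ Φ) →
      ec G (𝒯.biUnion id) + 𝒯.card ≤ (𝒯.biUnion id).card := by
  intro 𝒯
  induction 𝒯 using Finset.induction_on with
  | empty => intro _; simp [ec_empty]
  | insert T 𝒯 hT ih =>
    intro hsub
    have ih := ih ((subset_insert _ _).trans hsub)
    have hT1 := hsub (mem_insert_self _ _)
    rw [mem_filter] at hT1
    have hdis : Disjoint T (𝒯.biUnion id) := by
      rw [disjoint_biUnion_right]
      intro T' hT'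
      have hT2 := hsub (mem_insert_of_mem hT')
      rw [mem_filter] at hT2
      exact c.pc_dis T hT1.1 T' hT2.1 (fun h => hT (h ▸ hT'))
    rw [biUnion_insert, card_insert_of_notMem hT]
    simp only [id]
    rw [ec_union_disj G hdis, card_union_of_disjoint hdis]
    have hTS : T ⊆ S := (pc_sub hT1.1).trans sdiff_subset
    have h2 : ∑ a ∈ T, dg G (𝒯.biUnion id) a = 0 := by
      apply sum_eq_zero
      intro a ha
      by_contra hne
      obtain ⟨b, hb, hab⟩ := dg_pos_iff.1 (Nat.pos_of_ne_zero hne)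
      have hbS : b ∈ S := by
        rw [mem_biUnion] at hb
        obtain ⟨T', hT', hb⟩ := hb
        have hT2 := hsub (mem_insert_of_mem hT')
        rw [mem_filter] at hT2
        exact (pc_sub hT2.1).trans sdiff_subset hb
      have := c.RP_closed hT1.1 hT1.2.1 ha hbS hab
      exact Finset.disjoint_left.1 hdis this hb
    have h3 : ec G T < T.card := by
      by_contra h
      push Not at h
      have := hΦ T hTS ⟨(c.pc_Tr hT1.1).1, h⟩
      omega
    omega

theorem ec_S_le (c : CtxE G F U S Z e k s') (M s : ℕ) (hM : 1 ≤ M) (hs : 3 * k * M ≤ s + 1)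
    (hΦ : ∀ W ⊆ S, Cyc G W → 4 * s + 2 < W.card) :
    M * ec G S + M * ((Pc F S Z).filter (fun T => RP F Z T ∧ T.card ≤ 4 * s + 2)).card
      ≤ (M + 1) * S.card := by
  set 𝒯 := (Pc F S Z).filter (fun T => RP F Z T ∧ T.card ≤ 4 * s + 2) with h𝒯
  set S0 := 𝒯.biUnion id with hS0
  have hS0S : S0 ⊆ S := by
    rw [hS0, biUnion_subset]
    intro T hT
    rw [h𝒯, mem_filter] at hT
    exact (pc_sub hT.1).trans sdiff_subset
  have h1 := c.ec_small (4 * s + 2) hΦ 𝒯 (Subset.refl _)
  rw [← hS0] at h1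
  have hdis : Disjoint S0 (S \ S0) := disjoint_sdiff
  have hun : S0 ∪ (S \ S0) = S := union_sdiff_of_subset hS0S
  have h2 := ec_union_disj G hdis
  have h3 : ∑ a ∈ S0, dg G (S \ S0) a = 0 := by
    apply sum_eq_zero
    intro a ha
    by_contra hne
    obtain ⟨b, hb, hab⟩ := dg_pos_iff.1 (Nat.pos_of_ne_zero hne)
    rw [hS0, mem_biUnion] at ha
    obtain ⟨T, hT, haT⟩ := ha
    rw [h𝒯, mem_filter] at hT
    have := c.RP_closed hT.1 hT.2.1 haT (mem_sdiff.1 hb).1 hab
    apply (mem_sdiff.1 hb).2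
    rw [hS0, mem_biUnion]
    exact ⟨T, by rw [h𝒯, mem_filter]; exact hT, this⟩
  have h4 := SolSparse.sparse_of_girth G (S \ S0) k M s hM hs
    (fun W hW => hΦ W (hW.trans sdiff_subset)) (c.hK _)
  rw [hun, h3, add_zero] at h2
  have h5 := card_union_of_disjoint hdis
  rw [hun] at h5
  rw [h2, h5]
  have h6 : M * (ec G S0 + 𝒯.card) ≤ M * S0.card := Nat.mul_le_mul_left _ h1
  nlinarith

theorem card_big (c : CtxE G F U S Z e k s') (m : ℕ) :
    (m + 1) * ((Pc F S Z).filter (fun T => RP F Z T ∧ ¬ T.card ≤ m)).card ≤ S.card := by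
  have h1 : ((Pc F S Z).filter (fun T => RP F Z T ∧ ¬ T.card ≤ m)).card * (m + 1) ≤
      ∑ T ∈ (Pc F S Z).filter (fun T => RP F Z T ∧ ¬ T.card ≤ m), T.card := by
    rw [← smul_eq_mul]
    apply card_nsmul_le_sum
    intro T hT
    rw [mem_filter] at hT
    omega
  have h2 : ∑ T ∈ (Pc F S Z).filter (fun T => RP F Z T ∧ ¬ T.card ≤ m), T.card ≤ ∑ T ∈ Pc F S Z, T.card :=
    sum_le_sum_of_subset (filter_subset _ _)
  have h3 : ∑ T ∈ Pc F S Z, T.card ≤ S.card := by
    unfold Pc
    rw [comps_card_sum c.hF]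
    exact card_le_card sdiff_subset
  rw [mul_comm]
  omega

theorem card_Aall_eq (c : CtxE G F U S Z e k s') : ∑ u ∈ U, dg G S u = (Aall G U S).card := by
  unfold Aall dg
  rw [card_filter, sum_product_right]
  apply sum_congr rfl
  intro u _
  rw [card_filter]
  apply sum_congr rfl
  intro w _
  by_cases h : G.Adj u w
  · rw [if_pos h, if_pos h.symm]
  · rw [if_neg h, if_neg (fun h' => h h'.symm)]

end CtxE

/-- numeric upper bound in terms of cyclic sets -/
theorem upper_coreE [Fintype V] (G : SimpleGraph V) (k e M : ℕ) (hk : 1 ≤ k) (hd : 2 ≤ e) (hM : 1 ≤ M)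
    (q v : ℕ) (hTI : TI e (k - 1) q v)
    (hg : ∀ W, Cyc G W → 2 * e + 1 ≤ W.card) (hK : ∀ Y, ¬ KCyc G Y k) (K0 s' C : ℕ)
    (hK0 : K0 = k * (4 * (3 * k * M) + 2)) (hs' : s' = 2 * M * K0)
    (hC : C = M * v * (K0 * K0 + (K0 * K0 + K0 * ((2 * k + 2) * s') + K0 * (K0 * ((2 * k + 2) * s'))))) :
    M * v * ec G univ ≤ (M * (q + v) + 3 * v) * Fintype.card V + C := by
  obtain ⟨U, hU, hUW⟩ := exists_hitting G k (4 * (3 * k * M) + 2) hK
  set S : Finset V := univ \ U with hS
  obtain ⟨F, hFG, hF, hFS, hFc⟩ := SolMax.exists_max_acyclic G S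
  obtain ⟨Z, hZ, hZc, hZs⟩ := SolCut.exists_cut F hF S s'
  have c : CtxE G F U S Z e k s' := ⟨hFG, hF, sdiff_disjoint, hFc, hZ, hZs, hd, hk, hg, hK⟩
  have hΦ : ∀ W ⊆ S, Cyc G W → 4 * (3 * k * M) + 2 < W.card := by
    intro W hW hcyc
    exact hUW W (sdiff_disjoint.mono_left hW) hcyc
  have e1 := c.card_Aall
  have e2 := c.card_A_le hTI
  have e3 := c.ec_S_le M (3 * k * M) hM (by omega) hΦ
  have e4 := c.card_big (4 * (3 * k * M) + 2)
  have e5 : ((CtxE.Pc F S Z).filter (fun T => CtxE.RP F Z T)).card ≤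
      ((CtxE.Pc F S Z).filter (fun T => CtxE.RP F Z T ∧ T.card ≤ 4 * (3 * k * M) + 2)).card +
      ((CtxE.Pc F S Z).filter (fun T => CtxE.RP F Z T ∧ ¬ T.card ≤ 4 * (3 * k * M) + 2)).card := by
    refine le_trans (card_le_card ?_) (card_union_le _ _)
    intro T hT
    simp only [mem_union, mem_filter] at hT ⊢
    tauto
  have e6 : ec G univ = ec G U + ec G S + (CtxE.Aall G U S).card := by
    have hdis : Disjoint U S := disjoint_sdiff
    have := ec_union_disj G hdis
    rw [c.card_Aall_eq, hS, union_sdiff_of_subset (subset_univ U)] at this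
    exact this
  have e7 := ec_le_sq G U
  have e8 : S.card ≤ Fintype.card V := card_le_univ S
  rw [← hK0] at hU
  set a := (CtxE.Aall G U S).card
  set b := (CtxE.A G F U S Z e k).card
  set t := ((CtxE.Pc F S Z).filter (fun T => CtxE.RP F Z T ∧ T.card ≤ 4 * (3 * k * M) + 2)).card
  set w := ((CtxE.Pc F S Z).filter (fun T => CtxE.RP F Z T ∧ ¬ T.card ≤ 4 * (3 * k * M) + 2)).card
  set r := ((CtxE.Pc F S Z).filter (fun T => CtxE.RP F Z T)).card
  -- bounds
  have f1 : a ≤ b + Z.card * K0 + (K0 * K0 + K0 * ((2 * k + 2) * s') + K0 * (K0 * ((2 * k + 2) * s'))) := by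
    have g1 : Z.card * U.card ≤ Z.card * K0 := Nat.mul_le_mul_left _ hU
    have g2 : U.card * U.card ≤ K0 * K0 := Nat.mul_le_mul hU hU
    have g3 : U.card * ((2 * k + 2) * s') ≤ K0 * ((2 * k + 2) * s') := Nat.mul_le_mul_right _ hU
    have g4 : U.card * (U.card * ((2 * k + 2) * s')) ≤ K0 * (K0 * ((2 * k + 2) * s')) := Nat.mul_le_mul hU g3
    omega
  have f2 : b * v ≤ q * S.card + v * (r + Z.card * K0) := by
    refine e2.trans ?_
    apply Nat.add_le_add_left
    apply Nat.mul_le_mul_left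
    apply Nat.add_le_add_left
    exact Nat.mul_le_mul_left _ hU
  have f3 : 2 * M * (Z.card * K0) ≤ S.card := by
    have : 2 * M * (Z.card * K0) = Z.card * s' := by rw [hs']; ring
    rw [this]
    exact (Nat.mul_le_mul_left _ (Nat.le_succ _)).trans hZc
  have f4 : M * w ≤ S.card := by
    refine le_trans (Nat.mul_le_mul_right _ ?_) e4
    have : M ≤ k * M := Nat.le_mul_of_pos_left _ hk
    have h2 : 3 * k * M = 3 * (k * M) := by ring
    omega
  have f5 : ec G U ≤ K0 * K0 := e7.trans (Nat.mul_le_mul hU hU)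
  -- combine
  set E1 := K0 * K0 + K0 * ((2 * k + 2) * s') + K0 * (K0 * ((2 * k + 2) * s'))
  have h1 : M * v * ec G univ ≤ M * v * (K0 * K0) + v * (M * ec G S) + M * v * a := by
    rw [e6]
    calc M * v * (ec G U + ec G S + a) = M * v * ec G U + v * (M * ec G S) + M * v * a := by ring
      _ ≤ _ := by
        have := Nat.mul_le_mul_left (M * v) f5
        omega
  have h2 : M * v * a ≤ M * v * b + M * v * (Z.card * K0) + M * v * E1 := by
    calc M * v * a ≤ M * v * (b + Z.card * K0 + E1) := Nat.mul_le_mul_left (M * v) f1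
      _ = _ := by ring
  have h3 : M * v * b ≤ M * (q) * S.card + M * v * r + M * v * (Z.card * K0) := by
    calc M * v * b = M * (b * v) := by ring
      _ ≤ M * (q * S.card + v * (r + Z.card * K0)) := Nat.mul_le_mul_left M f2
      _ = _ := by ring
  have h4 : M * v * r ≤ v * (M * t) + v * (M * w) := by
    calc M * v * r ≤ M * v * (t + w) := Nat.mul_le_mul_left (M * v) e5
      _ = _ := by ring
  have h5 : v * (M * ec G S) + v * (M * t) ≤ v * ((M + 1) * S.card) := by
    calc v * (M * ec G S) + v * (M * t) = v * (M * ec G S + M * t) := by ring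
      _ ≤ _ := Nat.mul_le_mul_left v e3
  have h6 : v * (M * w) ≤ v * S.card := Nat.mul_le_mul_left v f4
  have h7 : 2 * (M * v * (Z.card * K0)) ≤ v * S.card := by
    calc 2 * (M * v * (Z.card * K0)) = v * (2 * M * (Z.card * K0)) := by ring
      _ ≤ _ := Nat.mul_le_mul_left v f3
  have h8 : (M * (q + v) + 3 * v) * S.card ≤ (M * (q + v) + 3 * v) * Fintype.card V :=
    Nat.mul_le_mul_left _ e8
  have h9 : M * (q) * S.card + v * ((M + 1) * S.card) + v * S.card + v * S.card =
      (M * (q + v) + 3 * v) * S.card := by ring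
  have h10 : C = M * v * (K0 * K0) + M * v * E1 := by rw [hC]; ring
  omega

end DisjCyc
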